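import Pool.Agent.H938_Salem4.Defs

set_option autoImplicit false

namespace Pool.Agent.H938

open Polynomial

variable {β l : ℝ} {ζ : ℂ}

namespace S4

theorem l_pos (H : S4 β l ζ) : 0 < l := by linarith [H.l_half]

theorem l_lt_one (H : S4 β l ζ) : l < 1 := by linarith [H.l_le]

theorem l_ne (H : S4 β l ζ) : l ≠ 0 := H.l_pos.ne'

theorem β_eq (H : S4 β l ζ) : β = l⁻¹ := eq_inv_of_mul_eq_one_left H.bl

theorem β_pos (H : S4 β l ζ) : 0 < β := by rw [H.β_eq]; exact inv_pos.mpr H.l_pos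

theorem β_ne (H : S4 β l ζ) : β ≠ 0 := H.β_pos.ne'

theorem β_ge (H : S4 β l ζ) : 5 / 3 ≤ β := by
  have h := H.bl
  have h1 := H.l_le
  have h2 := H.l_pos
  by_contra hc
  push Not at hc
  nlinarith

theorem β_gt_one (H : S4 β l ζ) : 1 < β := by linarith [H.β_ge]

theorem β_lt (H : S4 β l ζ) : β < 2 := by
  have h := H.bl
  have h1 := H.l_half
  have h2 := H.β_pos
  by_contra hc
  push Not at hc
  nlinarith

theorem ζ_ne (H : S4 β l ζ) : ζ ≠ 0 := by
  intro h
  have := H.nz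
  rw [h] at this
  simp at this

theorem l_zpow (H : S4 β l ζ) (j : ℤ) : l ^ j = β ^ (-j) := by
  rw [H.β_eq, inv_zpow, zpow_neg, inv_inv]

theorem l_pow (H : S4 β l ζ) (j : ℕ) : l ^ j = β ^ (-(j : ℤ)) := by
  rw [← H.l_zpow, zpow_natCast]

theorem norm_zpow (H : S4 β l ζ) (j : ℤ) : ‖ζ ^ j‖ = 1 := by
  rw [_root_.norm_zpow, H.nz, one_zpow]

end S4

/-- the trace is an integer, for all polynomials -/
theorem trP (H : S4 β l ζ) (P : ℤ[X]) (j : ℤ) :
    ∃ k : ℤ, aeval β P * β ^ j + aeval l P * l ^ j + 2 * (aeval ζ P * ζ ^ j).re = k := by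
  induction P using Polynomial.induction_on' with
  | add p q hp hq =>
    obtain ⟨k1, h1⟩ := hp
    obtain ⟨k2, h2⟩ := hq
    refine ⟨k1 + k2, ?_⟩
    push_cast
    rw [← h1, ← h2]
    simp only [map_add, add_mul, Complex.add_re]
    ring
  | monomial n a =>
    obtain ⟨k, hk⟩ := H.tr (n + j)
    refine ⟨a * k, ?_⟩
    push_cast
    rw [← hk]
    simp only [aeval_monomial]
    have e1 : β ^ ((n : ℤ) + j) = β ^ n * β ^ j := by
      rw [zpow_add₀ H.β_ne, zpow_natCast]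
    have e2 : l ^ ((n : ℤ) + j) = l ^ n * l ^ j := by
      rw [zpow_add₀ H.l_ne, zpow_natCast]
    have e3 : ζ ^ ((n : ℤ) + j) = ζ ^ n * ζ ^ j := by
      rw [zpow_add₀ H.ζ_ne, zpow_natCast]
    rw [e1, e2, e3]
    have e4 : ((algebraMap ℤ ℂ) a * ζ ^ n * ζ ^ j).re = a * (ζ ^ n * ζ ^ j).re := by
      have : (algebraMap ℤ ℂ) a = ((a : ℝ) : ℂ) := by simp
      rw [this, mul_assoc, Complex.re_ofReal_mul]
    rw [e4]
    simp only [algebraMap_int_eq, eq_intCast]
    ring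

theorem cos_aux {x : ℝ} (h : Real.cos (Real.pi * x) = 0) : ∃ k : ℤ, 2 * x = 2 * k + 1 := by
  rw [Real.cos_eq_zero_iff] at h
  obtain ⟨k, hk⟩ := h
  refine ⟨k, ?_⟩
  have := Real.pi_ne_zero
  have h2 : Real.pi * (2 * x) = Real.pi * (2 * k + 1) := by linarith
  exact mul_left_cancel₀ this h2

/-- if `Q(x) = 0` implies `Q(ζ) = 0` and `|P(ζ)| < 1/2` then `2 P(x) x^j` is not an odd integer -/
theorem odd_aux (H : S4 β l ζ) (P : ℤ[X]) (hs : ‖aeval ζ P‖ < 1 / 2) {x : ℝ} (hx : x ≠ 0)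
    (hker : ∀ Q : ℤ[X], aeval x Q = 0 → aeval ζ Q = 0) (j : ℤ) (k : ℤ)
    (h : 2 * (aeval x P * x ^ j) = 2 * k + 1) : False := by
  have hodd : (1 : ℝ) ≤ |2 * (k : ℝ) + 1| := by
    have : (2 * k + 1 : ℤ) ≠ 0 := by omega
    have h1 : (1 : ℤ) ≤ |2 * k + 1| := Int.one_le_abs this
    have h2 : ((1 : ℤ) : ℝ) ≤ ((|2 * k + 1| : ℤ) : ℝ) := by exact_mod_cast h1
    push_cast at h2
    exact h2
  have key : 2 * ‖aeval ζ P‖ = |2 * (k : ℝ) + 1| := by
    obtain ⟨m, hm | hm⟩ := Int.eq_nat_or_neg j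
    · -- j = m ≥ 0
      have hQ := hker (2 * P * X ^ m - C (2 * k + 1)) (by
        simp only [map_sub, map_mul, map_ofNat, map_pow, aeval_X, aeval_C]
        rw [hm, zpow_natCast] at h
        simp only [algebraMap_int_eq, eq_intCast]
        push_cast
        linarith)
      simp only [map_sub, map_mul, map_ofNat, map_pow, aeval_X, aeval_C] at hQ
      have h3 : 2 * aeval ζ P * ζ ^ m = ((2 * (k : ℝ) + 1 : ℝ) : ℂ) := by
        have := sub_eq_zero.mp hQ
        rw [this]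
        simp
      have h4 := congrArg norm h3
      rw [norm_mul, norm_mul, norm_pow, H.nz, one_pow, mul_one, Complex.norm_real] at h4
      simpa using h4
    · have hQ := hker (2 * P - C (2 * k + 1) * X ^ m) (by
        simp only [map_sub, map_mul, map_ofNat, map_pow, aeval_X, aeval_C]
        rw [hm, zpow_neg, zpow_natCast] at h
        simp only [algebraMap_int_eq, eq_intCast]
        push_cast
        have hxm : x ^ m ≠ 0 := pow_ne_zero _ hx
        have : 2 * aeval x P = (2 * k + 1) * x ^ m := by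
          field_simp at h
          linarith
        linarith)
      simp only [map_sub, map_mul, map_ofNat, map_pow, aeval_X, aeval_C] at hQ
      have h3 : 2 * aeval ζ P = ((2 * (k : ℝ) + 1 : ℝ) : ℂ) * ζ ^ m := by
        have := sub_eq_zero.mp hQ
        rw [this]
        simp
      have h4 := congrArg norm h3
      rw [norm_mul, norm_mul, norm_pow, H.nz, one_pow, mul_one, Complex.norm_real] at h4
      simpa using h4
  linarith

theorem cos_tP_ne (H : S4 β l ζ) (P : ℤ[X]) (hs : ‖aeval ζ P‖ < 1 / 2) (j : ℤ) :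
    Real.cos (tP β P j) ≠ 0 := by
  intro h
  unfold tP at h
  rw [mul_assoc] at h
  obtain ⟨k, hk⟩ := cos_aux h
  exact odd_aux H P hs H.β_ne H.kerβ j k hk

theorem cos_l_ne (H : S4 β l ζ) (P : ℤ[X]) (hs : ‖aeval ζ P‖ < 1 / 2) (j : ℤ) :
    Real.cos (Real.pi * aeval l P * l ^ j) ≠ 0 := by
  intro h
  rw [mul_assoc] at h
  obtain ⟨k, hk⟩ := cos_aux h
  exact odd_aux H P hs H.l_ne H.kerl j k hk

theorem TP_eq (H : S4 β l ζ) (P : ℤ[X]) (j : ℤ) :
    TP β P j = -Real.tan (Real.pi * (aeval l P * l ^ j + 2 * (aeval ζ P * ζ ^ j).re)) := by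
  obtain ⟨k, hk⟩ := trP H P j
  unfold TP tP
  have : Real.pi * aeval β P * β ^ j =
      k * Real.pi - Real.pi * (aeval l P * l ^ j + 2 * (aeval ζ P * ζ ^ j).re) := by
    rw [← hk]; ring
  rw [this, Real.tan_int_mul_pi_sub]

theorem abs_tan_le {x : ℝ} (hx : |x| ≤ 1) : |Real.tan x| ≤ 2 * |x| := by
  have h1 : |Real.sin x| ≤ |x| := Real.abs_sin_le_abs
  have h2 : 1 - x ^ 2 / 2 ≤ Real.cos x := Real.one_sub_sq_div_two_le_cos
  have h3 : x ^ 2 ≤ 1 := by
    have := abs_nonneg x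
    nlinarith [sq_abs x]
  have h4 : 1 / 2 ≤ Real.cos x := by linarith
  rw [Real.tan_eq_sin_div_cos, abs_div, div_le_iff₀ (by positivity)]
  have h5 : |Real.cos x| = Real.cos x := abs_of_pos (by linarith)
  rw [h5]
  nlinarith [abs_nonneg x]

end Pool.Agent.H938
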