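import Pool.Agent.H938_Salem4.A1

set_option autoImplicit false

namespace Pool.Agent.H938

open Polynomial

variable {β l : ℝ} {ζ : ℂ}

theorem tau_nonneg (P : ℤ[X]) : 0 ≤ tau ζ P := by
  unfold tau
  positivity

theorem TP_neg_le (H : S4 β l ζ) {P : ℤ[X]} {h : ℕ} (h0 : 0 ≤ aeval β P)
    (h1 : 8 * aeval β P ≤ β ^ h) {j : ℤ} (hj : j ≤ -(h : ℤ)) :
    |TP β P j| ≤ β ^ ((h : ℤ) + j) := by
  have hb := H.β_pos
  have hpi := Real.pi_le_four
  have hpi0 := Real.pi_pos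
  have hle : β ^ ((h : ℤ) + j) ≤ 1 := zpow_le_one_of_nonpos₀ H.β_gt_one.le (by omega)
  have hpos : 0 < β ^ ((h : ℤ) + j) := zpow_pos hb _
  have e : β ^ ((h : ℤ) + j) = β ^ h * β ^ j := by rw [zpow_add₀ H.β_ne, zpow_natCast]
  have hj0 : 0 < β ^ j := zpow_pos hb _
  have ht : |tP β P j| ≤ 1 / 2 * β ^ ((h : ℤ) + j) := by
    unfold tP
    rw [abs_of_nonneg (by positivity), e]
    have : aeval β P * β ^ j ≤ 1 / 8 * (β ^ h * β ^ j) := by nlinarith
    nlinarith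
  have h2 : |TP β P j| ≤ 2 * |tP β P j| := abs_tan_le (by linarith)
  linarith

theorem TP_pos_le (H : S4 β l ζ) {P : ℤ[X]} {h : ℕ} (h1 : 1000 * |aeval l P| ≤ β ^ h)
    (h2 : 16 * ‖aeval ζ P‖ ≤ 1) {j : ℤ} (hj : (h : ℤ) ≤ j) :
    |TP β P j| ≤ β ^ ((h : ℤ) - j) + tau ζ P := by
  have hb := H.β_pos
  have hpi := Real.pi_le_four
  have hpi0 := Real.pi_pos
  have hle : β ^ ((h : ℤ) - j) ≤ 1 := zpow_le_one_of_nonpos₀ H.β_gt_one.le (by omega)
  have hpos : 0 < β ^ ((h : ℤ) - j) := zpow_pos hb _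
  have e : β ^ ((h : ℤ) - j) = β ^ h * l ^ j := by
    rw [H.l_zpow, sub_eq_add_neg, zpow_add₀ H.β_ne, zpow_natCast]
  have hj0 : 0 < l ^ j := zpow_pos H.l_pos _
  have hx1 : |aeval l P * l ^ j| ≤ 1 / 1000 * β ^ ((h : ℤ) - j) := by
    rw [abs_mul, abs_of_pos hj0, e]
    nlinarith
  have hx2 : |(aeval ζ P * ζ ^ j).re| ≤ ‖aeval ζ P‖ := by
    refine (Complex.abs_re_le_norm _).trans ?_
    rw [norm_mul, H.norm_zpow, mul_one]
  rw [TP_eq H, abs_neg]
  set A := aeval l P * l ^ j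
  set B := (aeval ζ P * ζ ^ j).re
  have hx : |Real.pi * (A + 2 * B)| ≤ 4 / 1000 * β ^ ((h : ℤ) - j) + 2 * Real.pi * ‖aeval ζ P‖ := by
    rw [abs_mul, abs_of_pos hpi0]
    have h3 : |A + 2 * B| ≤ |A| + 2 * |B| := by
      refine (abs_add_le _ _).trans ?_
      have h7 : |2 * B| = 2 * |B| := by rw [abs_mul]; norm_num
      rw [h7]
    have h4 : |A + 2 * B| ≤ 1 / 1000 * β ^ ((h : ℤ) - j) + 2 * ‖aeval ζ P‖ := by linarith
    calc Real.pi * |A + 2 * B| ≤ Real.pi * (1 / 1000 * β ^ ((h : ℤ) - j) + 2 * ‖aeval ζ P‖) :=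
          mul_le_mul_of_nonneg_left h4 hpi0.le
      _ ≤ _ := by nlinarith
  have hn := norm_nonneg (aeval ζ P)
  have h5 : |Real.pi * (A + 2 * B)| ≤ 1 := by nlinarith
  have h6 := abs_tan_le h5
  unfold tau
  linarith

/-- finite sums of `β^(h-|j|)` over `|j| ≥ h` are at most `5` -/
theorem geom_le (H : S4 β l ζ) (h : ℕ) (F : Finset ℤ) (hF : ∀ j ∈ F, (h : ℤ) ≤ |j|) :
    ∑ j ∈ F, β ^ ((h : ℤ) - |j|) ≤ 5 := by
  have hb := H.β_pos
  have hl := H.l_pos
  -- general one-sided bound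
  have one : ∀ (G : Finset ℕ), ∑ k ∈ G, l ^ k ≤ 5 / 2 := by
    intro G
    have hsum : Summable (fun k : ℕ => l ^ k) := summable_geometric_of_lt_one hl.le H.l_lt_one
    have h1 : ∑ k ∈ G, l ^ k ≤ ∑' k : ℕ, l ^ k :=
      hsum.sum_le_tsum G (fun k _ => by positivity)
    rw [tsum_geometric_of_lt_one hl.le H.l_lt_one] at h1
    refine h1.trans ?_
    rw [inv_le_comm₀ (by linarith [H.l_lt_one]) (by norm_num)]
    linarith [H.l_le]
  have hsplit : ∑ j ∈ F, β ^ ((h : ℤ) - |j|) ≤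
      ∑ j ∈ F.filter (fun j => 0 ≤ j), β ^ ((h : ℤ) - |j|) +
      ∑ j ∈ F.filter (fun j => ¬ 0 ≤ j), β ^ ((h : ℤ) - |j|) := by
    rw [Finset.sum_filter_add_sum_filter_not]
  have key : ∀ (G : Finset ℤ), (∀ j ∈ G, (h : ℤ) ≤ |j|) →
      Set.InjOn (fun j : ℤ => (|j| - h).toNat) G →
      ∑ j ∈ G, β ^ ((h : ℤ) - |j|) ≤ 5 / 2 := by
    intro G hG hinj
    have : ∑ j ∈ G, β ^ ((h : ℤ) - |j|) = ∑ k ∈ G.image (fun j : ℤ => (|j| - h).toNat), l ^ k := by
      rw [Finset.sum_image hinj]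
      refine Finset.sum_congr rfl fun j hj => ?_
      rw [H.l_pow]
      congr 1
      have := hG j hj
      omega
    rw [this]
    exact one _
  have k1 := key (F.filter (fun j => 0 ≤ j)) (fun j hj => hF j (Finset.mem_filter.mp hj).1) (by
    intro a ha b hb hab
    simp only [Finset.coe_filter, Set.mem_ofPred_eq] at ha hb
    have h1 := hF a ha.1
    have h2 := hF b hb.1
    rw [abs_of_nonneg ha.2] at h1
    rw [abs_of_nonneg hb.2] at h2
    simp only [abs_of_nonneg ha.2, abs_of_nonneg hb.2] at hab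
    omega)
  have k2 := key (F.filter (fun j => ¬ 0 ≤ j)) (fun j hj => hF j (Finset.mem_filter.mp hj).1) (by
    intro a ha b hb hab
    simp only [Finset.coe_filter, Set.mem_ofPred_eq, not_le] at ha hb
    have h1 := hF a ha.1
    have h2 := hF b hb.1
    rw [abs_of_neg ha.2] at h1
    rw [abs_of_neg hb.2] at h2
    simp only [abs_of_neg ha.2, abs_of_neg hb.2] at hab
    omega)
  linarith

theorem weights (H : S4 β l ζ) {P : ℤ[X]} {h : ℕ} {W : ℝ} (A : Adm β l ζ P h W) :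
    ∃ w : ℤ → ℝ, (∀ j, 0 ≤ w j) ∧ (∀ j, (h : ℤ) ≤ |j| → w j = β ^ ((h : ℤ) - |j|)) ∧
      (∀ j, j < (h : ℤ) → |TP β P j| ≤ w j) ∧ (∀ j, |TP β P j| ≤ w j + tau ζ P) ∧
      (∀ F : Finset ℤ, ∑ j ∈ F, w j ≤ W) := by
  have hb := H.β_pos
  have hτ := tau_nonneg (ζ := ζ) P
  have hneg : ∀ j : ℤ, j < h → |TP β P j| ≤
      (if |j| < (h : ℤ) then |TP β P j| else β ^ ((h : ℤ) - |j|)) := by
    intro j hj
    split_ifs with hc
    · exact le_rfl
    · have hj2 : j ≤ -(h : ℤ) := by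
        rcases abs_cases j with h3 | h3 <;> omega
      have := TP_neg_le H (by linarith [A.k_one]) A.k_le hj2
      have h4 : |j| = -j := abs_of_nonpos (by omega)
      rw [h4]
      simpa using this
  refine ⟨fun j => if |j| < (h : ℤ) then |TP β P j| else β ^ ((h : ℤ) - |j|), ?_, ?_, ?_, ?_, ?_⟩
  · intro j
    dsimp only
    split_ifs
    · positivity
    · positivity
  · intro j hj
    dsimp only
    rw [if_neg (by omega)]
  · intro j hj
    exact hneg j hj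
  · intro j
    by_cases hj : j < (h : ℤ)
    · linarith [hneg j hj]
    · push Not at hj
      have h1 := TP_pos_le H A.k1_le A.s_le hj
      have h2 : |j| = j := abs_of_nonneg (by omega)
      dsimp only
      rw [if_neg (by omega), h2]
      exact h1
  · intro F
    have h1 : ∑ j ∈ F, (if |j| < (h : ℤ) then |TP β P j| else β ^ ((h : ℤ) - |j|)) =
        ∑ j ∈ F.filter (fun j => |j| < (h : ℤ)), |TP β P j| +
        ∑ j ∈ F.filter (fun j => ¬ |j| < (h : ℤ)), β ^ ((h : ℤ) - |j|) := by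
      rw [Finset.sum_ite]
    rw [h1]
    have h2 : ∑ j ∈ F.filter (fun j => |j| < (h : ℤ)), |TP β P j| ≤
        ∑ j ∈ Finset.Ioo (-(h : ℤ)) (h : ℤ), |TP β P j| := by
      refine Finset.sum_le_sum_of_subset_of_nonneg ?_ (fun _ _ _ => abs_nonneg _)
      intro j hj
      rw [Finset.mem_filter] at hj
      rw [Finset.mem_Ioo]
      exact abs_lt.mp hj.2
    have h3 := geom_le H h (F.filter (fun j => ¬ |j| < (h : ℤ))) (by
      intro j hj
      rw [Finset.mem_filter] at hj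
      omega)
    have := A.a3
    linarith

end Pool.Agent.H938
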