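import Pool.Agent.H938_Salem4.A2

set_option autoImplicit false

namespace Pool.Agent.H938

open Polynomial

variable {β l : ℝ} {ζ : ℂ}

theorem Adm.τW (H : S4 β l ζ) {P : ℤ[X]} {h : ℕ} {W : ℝ} (A : Adm β l ζ P h W) :
    6 ≤ W ∧ tau ζ P * W ≤ 1 / 2000 ∧ W * l ^ h ≤ 1 / 2000 ∧ tau ζ P ≤ 1 / 12000 ∧
      l ^ h ≤ 1 / 12000 := by
  have h0 : 0 ≤ ∑ j ∈ Finset.Ioo (-(h : ℤ)) (h : ℤ), |TP β P j| :=
    Finset.sum_nonneg fun _ _ => abs_nonneg _
  have h1 : 6 ≤ W := by linarith [A.a3]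
  have h2 := A.a4
  have h3 := A.a5
  have h4 := tau_nonneg (ζ := ζ) P
  have h5 : 0 < l ^ h := pow_pos H.l_pos _
  refine ⟨h1, by linarith, by linarith, ?_, ?_⟩ <;> nlinarith

theorem ww_le (H : S4 β l ζ) {h : ℕ} {w : ℤ → ℝ} (w0 : ∀ j, 0 ≤ w j)
    (w1 : ∀ j, (h : ℤ) ≤ |j| → w j = β ^ ((h : ℤ) - |j|)) {i j : ℤ} (hij : j + 4 * h ≤ i) :
    w i * w j ≤ l ^ h * (w i + w j) := by
  have hb := H.β_pos
  have hl : 0 < l ^ h := pow_pos H.l_pos _
  have small : ∀ k : ℤ, 2 * (h : ℤ) ≤ |k| → w k ≤ l ^ h := by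
    intro k hk
    rw [w1 k (by omega), H.l_pow]
    exact zpow_le_zpow_right₀ H.β_gt_one.le (by omega)
  have hcase : 2 * (h : ℤ) ≤ |i| ∨ 2 * (h : ℤ) ≤ |j| := by
    rcases abs_cases i with h1 | h1 <;> rcases abs_cases j with h2 | h2 <;> omega
  have := w0 i
  have := w0 j
  rcases hcase with hc | hc
  · have := small i hc
    nlinarith [mul_nonneg hl.le (w0 i)]
  · have := small j hc
    nlinarith [mul_nonneg hl.le (w0 j)]

theorem sumw_range {w : ℤ → ℝ} {W : ℝ} (w2 : ∀ F : Finset ℤ, ∑ j ∈ F, w j ≤ W) (b : ℤ) (M : ℕ) :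
    ∑ k ∈ Finset.range M, w (b - k) ≤ W := by
  have : ∑ k ∈ Finset.range M, w (b - k) =
      ∑ j ∈ (Finset.range M).image (fun k : ℕ => b - (k : ℤ)), w j := by
    rw [Finset.sum_image]
    intro x _ y _ hxy
    simp only at hxy
    omega
  rw [this]
  exact w2 _

theorem sumTT (H : S4 β l ζ) {P : ℤ[X]} {h : ℕ} {W : ℝ} (A : Adm β l ζ P h W)
    {a b : ℤ} (hab : b + 4 * h ≤ a) (hb : (h : ℤ) ≤ b) (M : ℕ) :
    ∑ k ∈ Finset.range M, |TP β P (a - k) * TP β P (b - k)| ≤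
      tau ζ P ^ 2 * (b - h + 1) + 2 / 1000 := by
  obtain ⟨w, w0, w1, w3, w4, w5⟩ := weights H A
  obtain ⟨hW, hτW, hWl, hτ, hlh⟩ := A.τW H
  have hτ0 := tau_nonneg (ζ := ζ) P
  set τ := tau ζ P with hτdef
  have hl : 0 < l ^ h := pow_pos H.l_pos _
  have hterm : ∀ k ∈ Finset.range M, |TP β P (a - k) * TP β P (b - k)| ≤
      l ^ h * (w (a - k) + w (b - k)) + τ * w (b - k) + τ * w (a - k) +
        (if (k : ℤ) ≤ b - h then τ ^ 2 else 0) := by
    intro k _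
    have h1 : w (a - k) * w (b - k) ≤ l ^ h * (w (a - k) + w (b - k)) :=
      ww_le H w0 w1 (by omega)
    have h2 := w4 (a - k)
    have h3 := w0 (a - k)
    have h4 := w0 (b - k)
    have h5 : 0 ≤ |TP β P (a - k)| := abs_nonneg _
    have h6 : 0 ≤ |TP β P (b - k)| := abs_nonneg _
    rw [abs_mul]
    split_ifs with hk
    · have h7 := w4 (b - k)
      calc |TP β P (a - k)| * |TP β P (b - k)| ≤ (w (a - k) + τ) * (w (b - k) + τ) := by
            apply mul_le_mul h2 h7 h6 (by linarith)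
        _ ≤ _ := by nlinarith
    · have h7 := w3 (b - k) (by omega)
      calc |TP β P (a - k)| * |TP β P (b - k)| ≤ (w (a - k) + τ) * (w (b - k)) := by
            apply mul_le_mul h2 h7 h6 (by linarith)
        _ ≤ _ := by nlinarith [mul_nonneg hτ0 h3]
  refine (Finset.sum_le_sum hterm).trans ?_
  rw [Finset.sum_add_distrib, Finset.sum_add_distrib, Finset.sum_add_distrib, ← Finset.mul_sum,
    ← Finset.mul_sum, ← Finset.mul_sum, Finset.sum_add_distrib]
  have s1 := sumw_range w5 a M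
  have s2 := sumw_range w5 b M
  have s3 : ∑ k ∈ Finset.range M, (if (k : ℤ) ≤ b - h then τ ^ 2 else 0) ≤ τ ^ 2 * (b - h + 1) := by
    rw [← Finset.sum_filter, Finset.sum_const, nsmul_eq_mul, mul_comm]
    apply mul_le_mul_of_nonneg_left _ (by positivity)
    have hc : ((Finset.range M).filter (fun k : ℕ => (k : ℤ) ≤ b - h)).card ≤
        (b - h + 1).toNat := by
      calc _ ≤ (Finset.range (b - h + 1).toNat).card := by
            apply Finset.card_le_card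
            intro k hk
            rw [Finset.mem_filter] at hk
            rw [Finset.mem_range]
            omega
        _ = _ := Finset.card_range _
    have hc2 : (((b - h + 1).toNat : ℤ) : ℝ) = (b : ℝ) - h + 1 := by
      rw [Int.toNat_of_nonneg (by omega)]
      push_cast
      ring
    calc (((Finset.range M).filter (fun k : ℕ => (k : ℤ) ≤ b - h)).card : ℝ) ≤
          ((b - h + 1).toNat : ℝ) := by exact_mod_cast hc
      _ = _ := by rw [← hc2]; push_cast; rfl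
  have e1 : l ^ h * (∑ k ∈ Finset.range M, w (a - k) + ∑ k ∈ Finset.range M, w (b - k)) ≤
      l ^ h * (2 * W) := mul_le_mul_of_nonneg_left (by linarith) hl.le
  have e2 : τ * ∑ k ∈ Finset.range M, w (b - k) ≤ τ * W := mul_le_mul_of_nonneg_left s2 hτ0
  have e3 : τ * ∑ k ∈ Finset.range M, w (a - k) ≤ τ * W := mul_le_mul_of_nonneg_left s1 hτ0
  linarith

theorem oneTT (H : S4 β l ζ) {P : ℤ[X]} {h : ℕ} {W : ℝ} (A : Adm β l ζ P h W)
    {a b : ℤ} (hab : b + 4 * h ≤ a) : |TP β P a * TP β P b| ≤ 1 / 2 := by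
  obtain ⟨w, w0, w1, w3, w4, w5⟩ := weights H A
  obtain ⟨hW, hτW, hWl, hτ, hlh⟩ := A.τW H
  have hτ0 := tau_nonneg (ζ := ζ) P
  set τ := tau ζ P with hτdef
  have hl : 0 < l ^ h := pow_pos H.l_pos _
  have h1 : w a * w b ≤ l ^ h * (w a + w b) := ww_le H w0 w1 hab
  have h3 := w0 a
  have h4 := w0 b
  have h5 : w a ≤ W := by simpa using w5 {a}
  have h6 : w b ≤ W := by simpa using w5 {b}
  rw [abs_mul]
  calc |TP β P a| * |TP β P b| ≤ (w a + τ) * (w b + τ) := by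
        apply mul_le_mul (w4 a) (w4 b) (abs_nonneg _) (by linarith)
    _ = w a * w b + τ * w b + τ * w a + τ ^ 2 := by ring
    _ ≤ l ^ h * (W + W) + τ * W + τ * W + τ ^ 2 := by
        have e1 : l ^ h * (w a + w b) ≤ l ^ h * (W + W) :=
          mul_le_mul_of_nonneg_left (by linarith) hl.le
        have e2 : τ * w b ≤ τ * W := mul_le_mul_of_nonneg_left h6 hτ0
        have e3 : τ * w a ≤ τ * W := mul_le_mul_of_nonneg_left h5 hτ0
        linarith
    _ ≤ 1 / 2 := by nlinarith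

theorem tP_mul_lpow (H : S4 β l ζ) (P : ℤ[X]) (a : ℤ) (k : ℕ) :
    tP β P a * l ^ k = tP β P (a - k) := by
  unfold tP
  rw [H.l_pow, mul_assoc, ← zpow_add₀ H.β_ne, sub_eq_add_neg]

theorem Phi_tP (H : S4 β l ζ) (P : ℤ[X]) (a : ℤ) (M : ℕ) :
    Phi l M (tP β P a) = ∏ k ∈ Finset.range M, Real.cos (tP β P (a - k)) := by
  unfold Phi
  refine Finset.prod_congr rfl fun k _ => ?_
  rw [tP_mul_lpow H]

theorem Phi_tP_sub (H : S4 β l ζ) (P : ℤ[X]) (hs : ‖aeval ζ P‖ < 1 / 2) (a b : ℤ) (M : ℕ) :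
    Phi l M (tP β P a - tP β P b) = Phi l M (tP β P a) * Phi l M (tP β P b) *
      ∏ k ∈ Finset.range M, (1 + TP β P (a - k) * TP β P (b - k)) := by
  rw [Phi_tP H, Phi_tP H]
  unfold Phi
  rw [← Finset.prod_mul_distrib, ← Finset.prod_mul_distrib]
  refine Finset.prod_congr rfl fun k _ => ?_
  rw [sub_mul, tP_mul_lpow H, tP_mul_lpow H, Real.cos_sub]
  unfold TP
  have h1 := cos_tP_ne H P hs (a - k)
  have h2 := cos_tP_ne H P hs (b - k)
  rw [Real.tan_eq_sin_div_cos, Real.tan_eq_sin_div_cos]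
  field_simp

theorem Phi_sub (H : S4 β l ζ) {P : ℤ[X]} {h : ℕ} {W : ℝ} (A : Adm β l ζ P h W)
    {a b : ℤ} (hab : b + 4 * h ≤ a) (hb : (h : ℤ) ≤ b) (M : ℕ) :
    |Phi l M (tP β P a - tP β P b) - Phi l M (tP β P a) * Phi l M (tP β P b)| ≤
      (Real.exp (tau ζ P ^ 2 * (b - h + 1) + 2 / 1000) - 1) *
        |Phi l M (tP β P a) * Phi l M (tP β P b)| := by
  have hs : ‖aeval ζ P‖ < 1 / 2 := by linarith [A.s_le]
  rw [Phi_tP_sub H P hs]
  set Φ := Phi l M (tP β P a) * Phi l M (tP β P b)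
  have h1 := Finset.norm_prod_one_add_sub_one_le (Finset.range M)
    (fun k : ℕ => TP β P (a - k) * TP β P (b - k))
  simp only [Real.norm_eq_abs] at h1
  have h2 := sumTT H A hab hb M
  have h3 : Φ * ∏ k ∈ Finset.range M, (1 + TP β P (a - k) * TP β P (b - k)) - Φ =
      (∏ k ∈ Finset.range M, (1 + TP β P (a - k) * TP β P (b - k)) - 1) * Φ := by ring
  rw [h3, abs_mul]
  apply mul_le_mul_of_nonneg_right _ (abs_nonneg _)
  refine h1.trans ?_
  have := Real.exp_le_exp.mpr h2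
  linarith

/-- `|cos t| ≥ exp (-tan² t / 2)` -/
theorem exp_le_abs_cos {t : ℝ} (ht : Real.cos t ≠ 0) :
    Real.exp (-(Real.tan t ^ 2 / 2)) ≤ |Real.cos t| := by
  have h1 : Real.cos t ^ 2 * (1 + Real.tan t ^ 2) = 1 := by
    rw [Real.tan_eq_sin_div_cos]
    field_simp
    rw [add_comm]
    exact Real.sin_sq_add_cos_sq t
  have h2 : 1 + Real.tan t ^ 2 ≤ Real.exp (Real.tan t ^ 2) := by
    linarith [Real.add_one_le_exp (Real.tan t ^ 2)]
  have h3 : Real.exp (-(Real.tan t ^ 2 / 2)) ^ 2 ≤ |Real.cos t| ^ 2 := by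
    rw [sq_abs, ← Real.exp_nat_mul]
    have e : ((2 : ℕ) : ℝ) * -(Real.tan t ^ 2 / 2) = -(Real.tan t ^ 2) := by push_cast; ring
    rw [e, Real.exp_neg]
    have hpos : 0 < 1 + Real.tan t ^ 2 := by positivity
    have : Real.cos t ^ 2 = (1 + Real.tan t ^ 2)⁻¹ := by
      field_simp
      linarith
    rw [this]
    exact inv_anti₀ hpos h2
  exact le_of_sq_le_sq h3 (abs_nonneg _)

end Pool.Agent.H938
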