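import Pool.Agent.H938_Salem4.A3

set_option autoImplicit false

namespace Pool.Agent.H938

open Polynomial

variable {β l : ℝ} {ζ : ℂ}

theorem geom2_le (H : S4 β l ζ) (r : ℕ) :
    ∑ k ∈ Finset.range r, (l ^ (k + 1)) ^ 2 ≤ 1 := by
  have hl := H.l_pos
  have h1 : ∀ k : ℕ, (l ^ (k + 1)) ^ 2 = l ^ 2 * (l ^ 2) ^ k := by
    intro k; ring
  simp_rw [h1]
  rw [← Finset.mul_sum]
  have h2 : l ^ 2 < 1 := by nlinarith [H.l_le]
  have h3 : ∑ k ∈ Finset.range r, (l ^ 2) ^ k ≤ ∑' k : ℕ, (l ^ 2) ^ k :=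
    (summable_geometric_of_lt_one (by positivity) h2).sum_le_tsum _ (fun k _ => by positivity)
  rw [tsum_geometric_of_lt_one (by positivity) h2] at h3
  have h4 : (1 - l ^ 2)⁻¹ ≤ 2 := by
    rw [inv_le_comm₀ (by linarith) (by norm_num)]
    nlinarith [H.l_le]
  have h5 : l ^ 2 ≤ 1 / 2 := by nlinarith [H.l_le]
  calc l ^ 2 * ∑ k ∈ Finset.range r, (l ^ 2) ^ k ≤ (1 / 2) * 2 := by
        apply mul_le_mul h5 (h3.trans h4) _ (by norm_num)
        exact Finset.sum_nonneg fun _ _ => by positivity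
    _ = 1 := by norm_num

theorem Phi_split (l : ℝ) (r M : ℕ) (x : ℝ) :
    Phi l (r + M) x = Phi l r x * Phi l M (x * l ^ r) := by
  unfold Phi
  rw [Finset.prod_range_add]
  congr 1
  refine Finset.prod_congr rfl fun k _ => ?_
  rw [pow_add]
  ring_nf

theorem abs_Phi_le_one (l : ℝ) (M : ℕ) (x : ℝ) : |Phi l M x| ≤ 1 := by
  unfold Phi
  rw [Finset.abs_prod]
  exact Finset.prod_le_one (fun _ _ => abs_nonneg _) (fun _ _ => Real.abs_cos_le_one _)

theorem Phi_anti (l : ℝ) {M M' : ℕ} (hM : M ≤ M') (x : ℝ) : |Phi l M' x| ≤ |Phi l M x| := by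
  obtain ⟨k, rfl⟩ := Nat.exists_eq_add_of_le hM
  rw [Phi_split, abs_mul]
  exact mul_le_of_le_one_right (abs_nonneg _) (abs_Phi_le_one _ _ _)

theorem Phi_forward (H : S4 β l ζ) {P : ℤ[X]} {h : ℕ} {W b : ℝ} (A : Adm β l ζ P h W)
    (B : BB β l P h b) (M r : ℕ) :
    b * Real.exp (-(tau ζ P ^ 2 * r) - 1) ≤ |Phi l M (tP β P (h + r))| := by
  have hs : ‖aeval ζ P‖ < 1 / 2 := by linarith [A.s_le]
  have hτ0 := tau_nonneg (ζ := ζ) P
  set τ := tau ζ P with hτdef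
  -- reduce to `Phi l (r + M)`
  refine le_trans ?_ (Phi_anti l (Nat.le_add_left M r) _)
  rw [Phi_split, abs_mul, tP_mul_lpow H]
  have e1 : ((h : ℤ) + r - r) = h := by ring
  rw [e1, mul_comm b]
  apply mul_le_mul _ (B.2 M) B.1.le (abs_nonneg _)
  rw [Phi_tP H, Finset.abs_prod]
  have hterm : ∀ k ∈ Finset.range r,
      Real.exp (-(TP β P ((h : ℤ) + r - k) ^ 2 / 2)) ≤ |Real.cos (tP β P ((h : ℤ) + r - k))| := by
    intro k _
    exact exp_le_abs_cos (cos_tP_ne H P hs _)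
  refine le_trans ?_ (Finset.prod_le_prod (fun k _ => (Real.exp_pos _).le) hterm)
  rw [← Real.exp_sum]
  apply Real.exp_le_exp.mpr
  have h2 : ∀ k ∈ Finset.range r, -(τ ^ 2 + (l ^ (r - k)) ^ 2) ≤
      -(TP β P ((h : ℤ) + r - k) ^ 2 / 2) := by
    intro k hk
    rw [Finset.mem_range] at hk
    have h3 := TP_pos_le H A.k1_le A.s_le (j := (h : ℤ) + r - k) (by omega)
    have h4 : β ^ ((h : ℤ) - ((h : ℤ) + r - k)) = l ^ (r - k) := by
      rw [H.l_pow]
      congr 1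
      push_cast [Nat.cast_sub hk.le]
      ring
    rw [h4] at h3
    have h5 : 0 < l ^ (r - k) := pow_pos H.l_pos _
    have h6 : TP β P ((h : ℤ) + r - k) ^ 2 ≤ (l ^ (r - k) + τ) ^ 2 := by
      rw [← sq_abs (TP β P ((h : ℤ) + r - k))]
      apply pow_le_pow_left₀ (abs_nonneg _) h3
    nlinarith [sq_nonneg (l ^ (r - k) - τ)]
  refine le_trans ?_ (Finset.sum_le_sum h2)
  rw [Finset.sum_neg_distrib, Finset.sum_add_distrib, Finset.sum_const, Finset.card_range,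
    nsmul_eq_mul]
  have h7 : ∑ k ∈ Finset.range r, (l ^ (r - k)) ^ 2 ≤ 1 := by
    have h8 := geom2_le H r
    rw [← Finset.sum_range_reflect] at h8
    refine le_trans (le_of_eq ?_) h8
    refine Finset.sum_congr rfl fun k hk => ?_
    rw [Finset.mem_range] at hk
    congr 2
    omega
  linarith

theorem BB_auto (H : S4 β l ζ) {P : ℤ[X]} {h : ℕ} {W : ℝ} (A : Adm β l ζ P h W) :
    BB β l P h (Real.exp (-((W + 1) ^ 2 / 2))) := by
  have hs : ‖aeval ζ P‖ < 1 / 2 := by linarith [A.s_le]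
  obtain ⟨w, w0, w1, w3, w4, w5⟩ := weights H A
  obtain ⟨hW, hτW, hWl, hτ, hlh⟩ := A.τW H
  have hτ0 := tau_nonneg (ζ := ζ) P
  set τ := tau ζ P with hτdef
  refine ⟨Real.exp_pos _, fun M => ?_⟩
  rw [Phi_tP H, Finset.abs_prod]
  have hterm : ∀ k ∈ Finset.range M,
      Real.exp (-(TP β P ((h : ℤ) - k) ^ 2 / 2)) ≤ |Real.cos (tP β P ((h : ℤ) - k))| := by
    intro k _
    exact exp_le_abs_cos (cos_tP_ne H P hs _)
  refine le_trans ?_ (Finset.prod_le_prod (fun k _ => (Real.exp_pos _).le) hterm)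
  rw [← Real.exp_sum]
  apply Real.exp_le_exp.mpr
  rw [Finset.sum_neg_distrib, ← Finset.sum_div]
  have h1 : ∑ k ∈ Finset.range M, |TP β P ((h : ℤ) - k)| ≤ W + 1 := by
    have h2 : ∀ k ∈ Finset.range M, |TP β P ((h : ℤ) - k)| ≤
        w ((h : ℤ) - k) + (if k = 0 then τ else 0) := by
      intro k _
      split_ifs with hk
      · exact w4 _
      · rw [add_zero]
        exact w3 _ (by omega)
    refine (Finset.sum_le_sum h2).trans ?_
    rw [Finset.sum_add_distrib]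
    have h3 := sumw_range w5 (h : ℤ) M
    have h4 : ∑ k ∈ Finset.range M, (if k = 0 then τ else 0) ≤ τ := by
      rw [Finset.sum_ite_eq']
      split_ifs
      · exact le_rfl
      · exact hτ0
    linarith
  have h5 : ∑ k ∈ Finset.range M, TP β P ((h : ℤ) - k) ^ 2 ≤
      (∑ k ∈ Finset.range M, |TP β P ((h : ℤ) - k)|) ^ 2 := by
    calc ∑ k ∈ Finset.range M, TP β P ((h : ℤ) - k) ^ 2
        = ∑ k ∈ Finset.range M, |TP β P ((h : ℤ) - k)| ^ 2 := by simp only [sq_abs]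
      _ ≤ _ := Finset.sum_sq_le_sq_sum_of_nonneg (fun _ _ => abs_nonneg _)
  have h6 : 0 ≤ ∑ k ∈ Finset.range M, |TP β P ((h : ℤ) - k)| :=
    Finset.sum_nonneg fun _ _ => abs_nonneg _
  have h7 : (∑ k ∈ Finset.range M, |TP β P ((h : ℤ) - k)|) ^ 2 ≤ (W + 1) ^ 2 :=
    pow_le_pow_left₀ h6 h1 2
  linarith

end Pool.Agent.H938
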