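import Pool.Agent.H938_Salem4.A4

set_option autoImplicit false

namespace Pool.Agent.H938

open Polynomial

variable {β l : ℝ} {ζ : ℂ}

theorem aeval_mulX {R : Type*} [CommRing R] [Algebra ℤ R] (x : R) (P : ℤ[X]) (n : ℕ) :
    aeval x (P * (X ^ n - 1)) = aeval x P * (x ^ n - 1) := by
  simp

theorem tP_mulX (H : S4 β l ζ) (P : ℤ[X]) (n : ℕ) (j : ℤ) :
    tP β (P * (X ^ n - 1)) j = tP β P (j + n) - tP β P j := by
  unfold tP
  rw [aeval_mulX, zpow_add₀ H.β_ne, zpow_natCast]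
  ring

theorem tau_mulX (P : ℤ[X]) (n : ℕ) : tau ζ (P * (X ^ n - 1)) = tau ζ P * dd ζ n := by
  unfold tau dd
  rw [aeval_mulX, norm_mul]
  ring

theorem mul_lpow_le {l : ℝ} (h0 : 0 < l) (h1 : l ≤ 3 / 5) {n : ℕ} (hn : 10 ≤ n) :
    n * l ^ n ≤ 1 / 4 ∧ 10 * l ^ n ≤ 1 := by
  have key : ∀ m : ℕ, ((10 + m : ℕ) : ℝ) * l ^ (10 + m) ≤ 1 / 10 ∧ l ^ (10 + m) ≤ 1 / 100 := by
    intro m
    induction m with
    | zero =>
      have h2 : l ^ 10 ≤ (3 / 5) ^ 10 := pow_le_pow_left₀ h0.le h1 10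
      norm_num at h2 ⊢
      constructor <;> linarith
    | succ m ih =>
      have e : l ^ (10 + (m + 1)) = l ^ (10 + m) * l := by rw [← add_assoc, pow_succ]
      have hp : 0 < l ^ (10 + m) := pow_pos h0 _
      rw [e]
      push_cast at ih ⊢
      constructor
      · have h3 : l ^ (10 + m) ≤ 1 / 100 := ih.2
        have h4 : (10 + (m + 1) : ℝ) * (l ^ (10 + m) * l) ≤
            ((10 + m) * l ^ (10 + m) + l ^ (10 + m)) * (3 / 5) := by
          have : (0 : ℝ) ≤ 10 + (m + 1) := by positivity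
          have h5 : l ^ (10 + m) * l ≤ l ^ (10 + m) * (3 / 5) :=
            mul_le_mul_of_nonneg_left h1 hp.le
          calc (10 + (m + 1) : ℝ) * (l ^ (10 + m) * l) ≤ (10 + (m + 1)) * (l ^ (10 + m) * (3 / 5)) :=
                mul_le_mul_of_nonneg_left h5 this
            _ = _ := by ring
        linarith [ih.1]
      · nlinarith [ih.2]
  obtain ⟨m, rfl⟩ := Nat.exists_eq_add_of_le hn
  have := key m
  constructor
  · linarith [this.1]
  · linarith [this.2]

theorem tan_sub_bound {u v : ℝ} (hu : Real.cos u ≠ 0) (hv : Real.cos v ≠ 0)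
    (h : |Real.tan u * Real.tan v| ≤ 1 / 2) :
    |Real.tan (u - v)| ≤ 2 * (|Real.tan u| + |Real.tan v|) := by
  have h1 : (1 : ℝ) / 2 ≤ 1 + Real.tan u * Real.tan v := by
    have := neg_abs_le (Real.tan u * Real.tan v)
    linarith
  have h2 : Real.tan (u - v) * (1 + Real.tan u * Real.tan v) = Real.tan u - Real.tan v := by
    have h3 : Real.cos (u - v) = Real.cos u * Real.cos v * (1 + Real.tan u * Real.tan v) := by
      rw [Real.cos_sub, Real.tan_eq_sin_div_cos, Real.tan_eq_sin_div_cos]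
      field_simp
    have h4 : Real.cos (u - v) ≠ 0 := by
      rw [h3]
      have : (1 + Real.tan u * Real.tan v) ≠ 0 := by linarith
      positivity
    have h5 : Real.sin (u - v) = Real.cos u * Real.cos v * (Real.tan u - Real.tan v) := by
      rw [Real.sin_sub, Real.tan_eq_sin_div_cos, Real.tan_eq_sin_div_cos]
      field_simp
    rw [Real.tan_eq_sin_div_cos (u - v), div_mul_eq_mul_div, div_eq_iff h4, h5, h3]
    ring
  have h6 : |Real.tan (u - v)| * (1 + Real.tan u * Real.tan v) ≤ |Real.tan u| + |Real.tan v| := by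
    have : |Real.tan (u - v) * (1 + Real.tan u * Real.tan v)| = |Real.tan u - Real.tan v| := by
      rw [h2]
    rw [abs_mul, abs_of_pos (by linarith : 0 < 1 + Real.tan u * Real.tan v)] at this
    rw [this]
    exact abs_sub _ _
  nlinarith [abs_nonneg (Real.tan (u - v))]

theorem step (H : S4 β l ζ) {P : ℤ[X]} {h : ℕ} {W b : ℝ} (A : Adm β l ζ P h W)
    (B : BB β l P h b) {n : ℕ} (hn : 4 * h ≤ n) (hn2 : tau ζ P ^ 2 * n ≤ 1 / 8)
    (hd : 3000 * dd ζ n ≤ 1) (hd0 : 0 < dd ζ n) :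
    Adm β l ζ (P * (X ^ n - 1)) (h + n) (4 * W + 8 * tau ζ P * (h + n) + 6) ∧
      BB β l (P * (X ^ n - 1)) (h + n) (b ^ 2 * Real.exp (-3)) := by
  have hs : ‖aeval ζ P‖ < 1 / 2 := by linarith [A.s_le]
  obtain ⟨w, w0, w1, w3, w4, w5⟩ := weights H A
  obtain ⟨hW, hτW, hWl, hτ, hlh⟩ := A.τW H
  have hτ0 := tau_nonneg (ζ := ζ) P
  have hten := A.ten
  have hβ := H.β_ge
  have hβ1 := H.β_gt_one
  have hl := H.l_pos
  have hk1 := A.k_one
  have hln : 0 < l ^ n := pow_pos hl _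
  have hln1 : l ^ n ≤ 1 := pow_le_one₀ hl.le H.l_lt_one.le
  have hβn : 2 ≤ β ^ n := by
    have h1 : β ^ 2 ≤ β ^ n := pow_le_pow_right₀ hβ1.le (by omega)
    nlinarith
  have hβh : 0 < β ^ h := pow_pos H.β_pos _
  have hnh : (h : ℝ) ≤ n / 4 := by
    have : (4 * h : ℝ) ≤ n := by exact_mod_cast hn
    linarith
  have ePow : β ^ (h + n) = β ^ h * β ^ n := pow_add _ _ _
  constructor
  · refine ⟨by omega, ?_, ?_, ?_, ?_, ?_, ?_, ?_, ?_⟩
    · rw [aeval_mulX]
      nlinarith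
    · rw [aeval_mulX, ePow]
      have := A.k_le
      nlinarith
    · rw [aeval_mulX, abs_mul, ePow]
      have h1 : |l ^ n - 1| ≤ 1 := by
        rw [abs_le]
        constructor <;> linarith
      have h2 := A.k1_le
      have h3 := abs_nonneg (aeval l P)
      calc 1000 * (|aeval l P| * |l ^ n - 1|) ≤ 1000 * (|aeval l P| * 1) := by
            have := mul_le_mul_of_nonneg_left h1 h3
            linarith
        _ ≤ β ^ h * 1 := by linarith
        _ ≤ β ^ h * β ^ n := by nlinarith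
    · rw [aeval_mulX, norm_mul]
      exact mul_pos A.s_pos hd0
    · rw [aeval_mulX, norm_mul]
      have h1 : ‖ζ ^ n - 1‖ ≤ 1 := by
        have : dd ζ n ≤ 1 := by linarith
        exact this
      have h2 := A.s_le
      have h3 := A.s_pos
      have h4 := norm_nonneg (ζ ^ n - 1)
      nlinarith
    · -- a3
      have hterm : ∀ j ∈ Finset.Ioo (-((h + n : ℕ) : ℤ)) ((h + n : ℕ) : ℤ),
          |TP β (P * (X ^ n - 1)) j| ≤ 2 * w (j + n) + 2 * w j + 4 * tau ζ P := by
        intro j _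
        have h1 : TP β (P * (X ^ n - 1)) j = Real.tan (tP β P (j + n) - tP β P j) := by
          unfold TP
          rw [tP_mulX H]
        rw [h1]
        have h2 : |TP β P (j + n) * TP β P j| ≤ 1 / 2 := oneTT H A (by omega)
        have h3 := tan_sub_bound (cos_tP_ne H P hs (j + n)) (cos_tP_ne H P hs j) h2
        have h4 := w4 (j + n)
        have h5 := w4 j
        unfold TP at h4 h5
        linarith
      have h1 := Finset.sum_le_sum hterm
      rw [Finset.sum_add_distrib, Finset.sum_add_distrib, ← Finset.mul_sum, ← Finset.mul_sum,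
        Finset.sum_const, nsmul_eq_mul] at h1
      have h2 : ∑ j ∈ Finset.Ioo (-((h + n : ℕ) : ℤ)) ((h + n : ℕ) : ℤ), w (j + n) ≤ W := by
        have e : ∑ j ∈ Finset.Ioo (-((h + n : ℕ) : ℤ)) ((h + n : ℕ) : ℤ), w (j + n) =
            ∑ j ∈ (Finset.Ioo (-((h + n : ℕ) : ℤ)) ((h + n : ℕ) : ℤ)).image
              (fun j : ℤ => j + n), w j := by
          rw [Finset.sum_image]
          intro x _ y _ hxy
          simp only at hxy
          omega
        rw [e]
        exact w5 _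
      have h3 := w5 (Finset.Ioo (-((h + n : ℕ) : ℤ)) ((h + n : ℕ) : ℤ))
      have h4 : ((Finset.Ioo (-((h + n : ℕ) : ℤ)) ((h + n : ℕ) : ℤ)).card : ℝ) ≤ 2 * (h + n) := by
        rw [Int.card_Ioo]
        have : (((((h + n : ℕ) : ℤ) - -((h + n : ℕ) : ℤ) - 1).toNat : ℕ) : ℤ) ≤ 2 * (h + n : ℕ) := by
          omega
        have h5 : (((((h + n : ℕ) : ℤ) - -((h + n : ℕ) : ℤ) - 1).toNat : ℕ) : ℝ) ≤
            ((2 * (h + n : ℕ) : ℤ) : ℝ) := by
          exact_mod_cast this
        push_cast at h5 ⊢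
        linarith
      have h6 : ((Finset.Ioo (-((h + n : ℕ) : ℤ)) ((h + n : ℕ) : ℤ)).card : ℝ) * (4 * tau ζ P) ≤
          2 * (h + n) * (4 * tau ζ P) := mul_le_mul_of_nonneg_right h4 (by linarith)
      linarith
    · -- a4
      rw [tau_mulX]
      have h1 : (h + n : ℝ) ≤ 5 / 4 * n := by linarith
      have h2 : tau ζ P * (4 * W + 8 * tau ζ P * (h + n) + 6) ≤
          5 * (tau ζ P * W) + 10 * (tau ζ P ^ 2 * n) := by
        have h3 : tau ζ P ^ 2 * (h + n) ≤ tau ζ P ^ 2 * (5 / 4 * n) :=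
          mul_le_mul_of_nonneg_left h1 (by positivity)
        nlinarith
      have h3 : 2 * (tau ζ P * dd ζ n) * (4 * W + 8 * tau ζ P * (h + n) + 6) =
          2 * dd ζ n * (tau ζ P * (4 * W + 8 * tau ζ P * (h + n) + 6)) := by ring
      rw [h3]
      have h4 : tau ζ P * (4 * W + 8 * tau ζ P * (h + n) + 6) ≤ 3 / 2 := by linarith
      calc 2 * dd ζ n * (tau ζ P * (4 * W + 8 * tau ζ P * (h + n) + 6)) ≤
            2 * dd ζ n * (3 / 2) := mul_le_mul_of_nonneg_left h4 (by linarith)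
        _ ≤ 1 / 1000 := by linarith
    · -- a5
      obtain ⟨h1, h2⟩ := mul_lpow_le hl H.l_le (n := h + n) (by omega)
      have h3 := (mul_lpow_le hl H.l_le (n := n) (by omega)).2
      have hlhn : 0 < l ^ (h + n) := pow_pos hl _
      push_cast at h1
      have h4 : 2 * (4 * W + 8 * tau ζ P * (h + n) + 6) * l ^ (h + n) ≤
          10 * (W * l ^ (h + n)) + 16 * (tau ζ P * ((h + n) * l ^ (h + n))) := by
        nlinarith
      refine h4.trans ?_
      have h5 : W * l ^ (h + n) ≤ 1 / 2000 * (1 / 10) := by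
        rw [pow_add, ← mul_assoc]
        apply mul_le_mul hWl (by linarith) hln.le (by norm_num)
      have h6 : tau ζ P * ((h + n) * l ^ (h + n)) ≤ 1 / 12000 * (1 / 4) := by
        apply mul_le_mul hτ h1 _ (by norm_num)
        positivity
      linarith
  · refine ⟨mul_pos (pow_pos B.1 2) (Real.exp_pos _), fun M => ?_⟩
    rw [tP_mulX H]
    push_cast
    have e1 : (h : ℤ) + n + n = (h : ℤ) + (2 * n : ℕ) := by push_cast; ring
    rw [e1]
    have f1 := Phi_forward H A B M (2 * n)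
    have f2 := Phi_forward H A B M n
    have f3 := Phi_sub H A (a := (h : ℤ) + (2 * n : ℕ)) (b := (h : ℤ) + n)
      (by push_cast; omega) (by omega) M
    set Φ1 := Phi l M (tP β P ((h : ℤ) + (2 * n : ℕ)))
    set Φ2 := Phi l M (tP β P ((h : ℤ) + n))
    have hx : tau ζ P ^ 2 * (((h : ℤ) + (n : ℤ) : ℤ) - h + 1) + 2 / 1000 ≤ 1 / 4 := by
      push_cast
      have h1 : tau ζ P ^ 2 * ((h : ℝ) + n - h + 1) = tau ζ P ^ 2 * n + tau ζ P ^ 2 := by ring
      have h2 : tau ζ P ^ 2 ≤ 1 / 1000 := by nlinarith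
      rw [h1]
      linarith
    have hexp : Real.exp (tau ζ P ^ 2 * (((h : ℤ) + (n : ℤ) : ℤ) - h + 1) + 2 / 1000) ≤ 1.3 := by
      refine (Real.exp_le_exp.mpr hx).trans ?_
      have h1 : Real.exp (1 / 4) ^ 4 ≤ (1.3 : ℝ) ^ 4 := by
        rw [← Real.exp_nat_mul]
        norm_num
        have := Real.exp_one_lt_d9
        linarith
      exact le_of_pow_le_pow_left₀ (by norm_num) (by norm_num) h1
    have hprod : b * Real.exp (-(tau ζ P ^ 2 * (2 * n : ℕ)) - 1) *
        (b * Real.exp (-(tau ζ P ^ 2 * n) - 1)) ≤ |Φ1 * Φ2| := by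
      rw [abs_mul]
      apply mul_le_mul f1 f2 (mul_nonneg B.1.le (Real.exp_pos _).le) (abs_nonneg _)
    have hlow : |Φ1 * Φ2| * 0.7 ≤
        |Phi l M (tP β P ((h : ℤ) + (2 * n : ℕ)) - tP β P ((h : ℤ) + n))| := by
      set D := Phi l M (tP β P ((h : ℤ) + (2 * n : ℕ)) - tP β P ((h : ℤ) + n))
      have h1 : |Φ1 * Φ2| - |D| ≤ |D - Φ1 * Φ2| := by
        have := abs_sub_abs_le_abs_sub (Φ1 * Φ2) D
        rwa [abs_sub_comm] at this
      have h2 := abs_nonneg (Φ1 * Φ2)
      nlinarith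
    refine le_trans ?_ hlow
    have e2 : b * Real.exp (-(tau ζ P ^ 2 * (2 * n : ℕ)) - 1) *
        (b * Real.exp (-(tau ζ P ^ 2 * n) - 1)) =
        b ^ 2 * Real.exp (-(3 * (tau ζ P ^ 2 * n)) - 2) := by
      have : Real.exp (-(3 * (tau ζ P ^ 2 * n)) - 2) =
          Real.exp (-(tau ζ P ^ 2 * (2 * n : ℕ)) - 1) * Real.exp (-(tau ζ P ^ 2 * n) - 1) := by
        rw [← Real.exp_add]
        congr 1
        push_cast
        ring
      rw [this]
      ring
    rw [e2] at hprod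
    have h3 : Real.exp (-3) ≤ Real.exp (-(3 * (tau ζ P ^ 2 * n)) - 2) * 0.7 := by
      have h4 : Real.exp (-(19 / 8 : ℝ)) ≤ Real.exp (-(3 * (tau ζ P ^ 2 * n)) - 2) := by
        apply Real.exp_le_exp.mpr
        linarith
      have h5 : Real.exp (-3) ≤ Real.exp (-(19 / 8 : ℝ)) * 0.7 := by
        have h6 : Real.exp (-3) = Real.exp (-(19 / 8 : ℝ)) * Real.exp (-(5 / 8 : ℝ)) := by
          rw [← Real.exp_add]
          norm_num
        rw [h6]
        apply mul_le_mul_of_nonneg_left _ (Real.exp_pos _).le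
        rw [Real.exp_neg]
        rw [inv_le_comm₀ (Real.exp_pos _) (by norm_num)]
        have := Real.add_one_le_exp (5 / 8 : ℝ)
        refine le_trans ?_ this
        norm_num
      exact h5.trans (mul_le_mul_of_nonneg_right h4 (by norm_num))
    calc b ^ 2 * Real.exp (-3) ≤ b ^ 2 * (Real.exp (-(3 * (tau ζ P ^ 2 * n)) - 2) * 0.7) :=
          mul_le_mul_of_nonneg_left h3 (by positivity)
      _ = b ^ 2 * Real.exp (-(3 * (tau ζ P ^ 2 * n)) - 2) * 0.7 := by ring
      _ ≤ |Φ1 * Φ2| * 0.7 := mul_le_mul_of_nonneg_right hprod (by norm_num)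

end Pool.Agent.H938
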