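import Pool.Agent.H938_Salem4.A5

set_option autoImplicit false

namespace Pool.Agent.H938

open Polynomial

variable {β l : ℝ} {ζ : ℂ}

theorem dd_pos (H : S4 β l ζ) {n : ℕ} (hn : 1 ≤ n) : 0 < dd ζ n := by
  unfold dd
  rw [norm_pos_iff]
  intro h
  have h1 := H.kerζ (X ^ n - 1) (by simpa using h)
  simp only [map_sub, map_pow, aeval_X, map_one] at h1
  have h2 : 1 < β ^ n := one_lt_pow₀ H.β_gt_one (by omega)
  linarith

theorem dd_mul (H : S4 β l ζ) (m q : ℕ) : dd ζ (m * q) ≤ m * dd ζ q := by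
  unfold dd
  induction m with
  | zero => simp
  | succ m ih =>
    have h1 : ζ ^ ((m + 1) * q) - 1 = (ζ ^ (m * q) - 1) * ζ ^ q + (ζ ^ q - 1) := by
      rw [add_mul, one_mul, pow_add]
      ring
    rw [h1]
    refine (norm_add_le _ _).trans ?_
    rw [norm_mul, norm_pow, H.nz, one_pow, mul_one]
    push_cast
    linarith

theorem dirichlet (H : S4 β l ζ) {L : ℕ} (hL : 1 ≤ L) :
    ∃ q : ℕ, 1 ≤ q ∧ q ≤ L ∧ dd ζ q ≤ 2 * Real.pi / L := by
  obtain ⟨j, k, hk0, hkL, hk⟩ := Real.exists_int_int_abs_mul_sub_le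
    (Complex.arg ζ / (2 * Real.pi)) (n := L) (by omega)
  have hpi := Real.pi_pos
  refine ⟨k.toNat, by omega, by omega, ?_⟩
  unfold dd
  have hζ : ζ = Complex.exp (Complex.arg ζ * Complex.I) := by
    have := Complex.norm_mul_exp_arg_mul_I ζ
    rw [H.nz] at this
    simpa using this.symm
  have hkr : ((k.toNat : ℕ) : ℝ) = (k : ℝ) := by
    have : ((k.toNat : ℕ) : ℤ) = k := Int.toNat_of_nonneg hk0.le
    exact_mod_cast congrArg (fun z : ℤ => (z : ℝ)) this
  set y : ℝ := (k : ℝ) * Complex.arg ζ - j * (2 * Real.pi) with hy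
  have h1 : ζ ^ k.toNat = Complex.exp (Complex.I * (y : ℂ)) := by
    conv_lhs => rw [hζ]
    rw [← Complex.exp_nat_mul]
    have : ((k.toNat : ℕ) : ℂ) = ((k : ℝ) : ℂ) := by rw [← hkr]; simp
    rw [this, hy]
    rw [Complex.exp_eq_exp_iff_exists_int]
    refine ⟨j, ?_⟩
    push_cast
    ring
  rw [h1]
  have h2 : ‖Complex.exp (Complex.I * (y : ℂ)) - 1‖ ≤ |y| := by
    have := Real.norm_exp_I_mul_ofReal_sub_one_le (x := y)
    simpa using this
  refine h2.trans ?_
  have h3 : y = 2 * Real.pi * ((k : ℝ) * (Complex.arg ζ / (2 * Real.pi)) - j) := by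
    rw [hy]
    field_simp
  rw [h3, abs_mul, abs_of_pos (by positivity : 0 < 2 * Real.pi), div_eq_mul_one_div (2 * Real.pi)]
  apply mul_le_mul_of_nonneg_left _ (by positivity)
  refine hk.trans ?_
  have hL' : (0 : ℝ) < L := by exact_mod_cast hL
  apply one_div_le_one_div_of_le hL'
  linarith

end Pool.Agent.H938
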