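import Pool.Agent.H938_Salem4.B0

set_option autoImplicit false

namespace Pool.Agent.H938

open Polynomial

variable {β l : ℝ} {ζ : ℂ}

theorem B1_tau_mul (P : ℤ[X]) (n : ℕ) : tau ζ (P * (X ^ n - 1)) = tau ζ P * dd ζ n := by
  unfold tau dd
  rw [map_mul, norm_mul, map_sub, map_pow, aeval_X, map_one]
  ring

/-- TARGET -/
theorem St_step (H : S4 β l ζ) {P : ℤ[X]} {h : ℕ} {W b : ℝ} {L Lp : ℕ}
    (S : St β l ζ P h W b L Lp) :
    ∃ (P' : ℤ[X]) (h' : ℕ) (W' : ℝ) (L' : ℕ),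
      St β l ζ P' h' W' (b ^ 2 * Real.exp (-3)) L' L ∧
      26 * tau ζ P' ≤ (26 * tau ζ P) ^ 3 ∧ tau ζ P' ^ 2 * h' ≤ (26 * tau ζ P) ^ 4 := by
  have hpi0 : 0 < Real.pi := Real.pi_pos
  have hpi1 : Real.pi < 3.15 := Real.pi_lt_d2
  set τ := tau ζ P with hτdef
  have hτ0 : 0 < τ := by
    have := S.adm.s_pos
    rw [hτdef]
    unfold tau
    positivity
  have hW : 6 ≤ W := by
    have h1 := S.adm.a3
    have h2 : 0 ≤ ∑ j ∈ Finset.Ioo (-(h : ℤ)) (h : ℤ), |TP β P j| :=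
      Finset.sum_nonneg fun j _ => abs_nonneg _
    linarith
  have hτ : 12000 * τ ≤ 1 := by
    have h1 := S.adm.a4
    rw [← hτdef] at h1
    nlinarith [mul_le_mul_of_nonneg_left hW hτ0.le]
  have hτsq : 0 < 10 * τ ^ 2 := by positivity
  have hτ2 : 14400000 * (10 * τ ^ 2) ≤ 1 := by nlinarith
  have hLr : (L : ℝ) ≤ 1 / (10 * τ ^ 2) := by
    rw [S.hL]
    exact Nat.floor_le (by positivity)
  have hL1 : 10 * τ ^ 2 * L ≤ 1 := by
    rw [le_div_iff₀ hτsq] at hLr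
    linarith
  have hLbig : 14400000 ≤ L := by
    rw [S.hL]
    apply Nat.le_floor
    rw [le_div_iff₀ hτsq]
    push_cast
    exact hτ2
  have hLbigR : (14400000 : ℝ) ≤ L := by exact_mod_cast hLbig
  have hL2 : 1 < 20 * τ ^ 2 * L := by
    have h1 : 1 / (10 * τ ^ 2) < (L : ℝ) + 1 := by
      rw [S.hL]
      exact Nat.lt_floor_add_one _
    rw [div_lt_iff₀ hτsq] at h1
    nlinarith
  have hLpos : (0 : ℝ) < L := by linarith
  -- the minimiser
  obtain ⟨q, hqmem, hqmin⟩ := Finset.exists_min_image (Finset.Icc 1 L) (dd ζ)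
    ⟨1, Finset.mem_Icc.2 ⟨le_rfl, by omega⟩⟩
  rw [Finset.mem_Icc] at hqmem
  obtain ⟨q0, hq01, hq0L, hq0⟩ := dirichlet H (L := L) (by omega)
  have hqd : dd ζ q ≤ 2 * Real.pi / L :=
    (hqmin q0 (Finset.mem_Icc.2 ⟨hq01, hq0L⟩)).trans hq0
  have hqLp : Lp < q := by
    by_contra hcon
    push Not at hcon
    have := S.n3 q hqmem.1 hcon
    linarith
  have hn1 := S.n1
  have hn2 := S.n2
  have hh10 := S.adm.ten
  have hLp1 := S.hLp
  obtain ⟨m, hm1, hm2, hm5⟩ : ∃ m : ℕ, 4 * h ≤ m * q ∧ m * q ≤ 4 * h + q ∧ m ≤ 5 := by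
    have hq0' : 0 < q := by omega
    refine ⟨(4 * h + q - 1) / q, ?_, ?_, ?_⟩
    · have h1 := Nat.div_add_mod (4 * h + q - 1) q
      have h2 := Nat.mod_lt (4 * h + q - 1) hq0'
      rw [mul_comm ((4 * h + q - 1) / q) q]
      omega
    · have h1 := Nat.div_mul_le_self (4 * h + q - 1) q
      omega
    · have h1 : (4 * h + q - 1) / q < 6 := by
        rw [Nat.div_lt_iff_lt_mul hq0']
        omega
      omega
  set n := m * q with hn
  have hn5 : 5 * n ≤ 6 * L := by omega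
  have hn1' : 1 ≤ n := by omega
  have hn5R : 5 * (n : ℝ) ≤ 6 * L := by exact_mod_cast hn5
  have hτn : τ ^ 2 * n ≤ 1 / 8 := by
    have h1 : τ ^ 2 * (5 * (n : ℝ)) ≤ τ ^ 2 * (6 * L) :=
      mul_le_mul_of_nonneg_left hn5R (by positivity)
    nlinarith
  set D := dd ζ n with hD
  have hD0 : 0 < D := dd_pos H hn1'
  have hDq : D ≤ 5 * dd ζ q := by
    have h1 := dd_mul H m q
    have h2 : (m : ℝ) ≤ 5 := by exact_mod_cast hm5
    have h3 : 0 ≤ dd ζ q := norm_nonneg _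
    calc D ≤ m * dd ζ q := h1
      _ ≤ 5 * dd ζ q := mul_le_mul_of_nonneg_right h2 h3
  have hDL : D * L ≤ 10 * Real.pi := by
    rw [le_div_iff₀ hLpos] at hqd
    nlinarith
  have hD3 : 3000 * D ≤ 1 := by
    have h1 : D * 14400000 ≤ D * L := mul_le_mul_of_nonneg_left hLbigR hD0.le
    nlinarith
  obtain ⟨hA, hB⟩ := step H S.adm S.bb hm1 hτn hD3 hD0
  set P' := P * (X ^ n - 1) with hP'
  have hτ' : tau ζ P' = τ * D := B1_tau_mul P n
  have hτ'0 : 0 < τ * D := mul_pos hτ0 hD0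
  have hsq' : 0 < 10 * (τ * D) ^ 2 := by positivity
  have hττ : τ ^ 2 ≤ 1 := by nlinarith
  have hDle : D ≤ 1 / 3000 := by linarith
  have hD2 : D ^ 2 ≤ 1 / 9000000 := by nlinarith
  have hL'ge : 25 * (L : ℝ) ≤ 1 / (10 * (τ * D) ^ 2) := by
    rw [le_div_iff₀ hsq']
    have h1 : 25 * (L : ℝ) * (10 * (τ * D) ^ 2) = 25 * (10 * τ ^ 2 * L) * D ^ 2 := by ring
    rw [h1]
    have h2 : 25 * (10 * τ ^ 2 * L) * D ^ 2 ≤ 25 * 1 * D ^ 2 := by gcongr
    linarith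
  set L' := ⌊1 / (10 * tau ζ P' ^ 2)⌋₊ with hL'
  have hL'25 : 25 * L ≤ L' := by
    rw [hL', hτ']
    apply Nat.le_floor
    push_cast
    exact hL'ge
  have hL'25R : 25 * (L : ℝ) ≤ L' := by exact_mod_cast hL'25
  have hL'pos : (0 : ℝ) < L' := by linarith
  have hL'low : 1 < 20 * (τ * D) ^ 2 * L' := by
    have h1 : 1 / (10 * (τ * D) ^ 2) < (L' : ℝ) + 1 := by
      rw [hL', hτ']
      exact Nat.lt_floor_add_one _
    rw [div_lt_iff₀ hsq'] at h1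
    have h2 : ((L' : ℝ) + 1) * (10 * (τ * D) ^ 2) ≤ (2 * L') * (10 * (τ * D) ^ 2) :=
      mul_le_mul_of_nonneg_right (by linarith) hsq'.le
    nlinarith
  have hhn : 4 * (h + n) ≤ 5 * L := by omega
  refine ⟨P', h + n, 4 * W + 8 * tau ζ P * (h + n) + 6, L', ⟨hA, hB, rfl, by omega, hhn, hL'25,
    ?_⟩, ?_, ?_⟩
  · intro q' hq1 hqL
    have h1 : D ≤ 5 * dd ζ q' := hDq.trans (by
      have := hqmin q' (Finset.mem_Icc.2 ⟨hq1, hqL⟩)
      linarith)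
    rw [div_lt_iff₀ hL'pos]
    -- `2 π < dd q' * L'`
    have h2 : D / 5 * L' ≤ dd ζ q' * L' := mul_le_mul_of_nonneg_right (by linarith) hL'pos.le
    refine lt_of_lt_of_le ?_ h2
    -- `100 τ² D * (D/5 L') > 1`
    have h3 : 1 < (100 * τ ^ 2 * D) * (D / 5 * L') := by
      have : (100 * τ ^ 2 * D) * (D / 5 * L') = 20 * (τ * D) ^ 2 * L' := by ring
      rw [this]; exact hL'low
    have h4 : 100 * τ ^ 2 * D ≤ 1 / 30 := by
      have : 100 * τ ^ 2 * D ≤ 100 * 1 * (1 / 3000) := by gcongr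
      linarith
    have h5 : 0 < D / 5 * L' := by positivity
    have h6 : (100 * τ ^ 2 * D) * (D / 5 * L') ≤ 1 / 30 * (D / 5 * L') :=
      mul_le_mul_of_nonneg_right h4 h5.le
    nlinarith
  · rw [hτ']
    -- `D ≤ 200 π τ²`
    have h1 : D ≤ 200 * Real.pi * τ ^ 2 := by
      have h2 : D * 1 ≤ D * (20 * τ ^ 2 * L) := mul_le_mul_of_nonneg_left hL2.le hD0.le
      have h3 : D * (20 * τ ^ 2 * L) = 20 * τ ^ 2 * (D * L) := by ring
      have h4 : 20 * τ ^ 2 * (D * L) ≤ 20 * τ ^ 2 * (10 * Real.pi) :=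
        mul_le_mul_of_nonneg_left hDL (by positivity)
      nlinarith
    have h5 : D ≤ 630 * τ ^ 2 := h1.trans (by nlinarith [sq_nonneg τ])
    calc 26 * (τ * D) ≤ 26 * (τ * (630 * τ ^ 2)) := by gcongr
      _ = 16380 * τ ^ 3 := by ring
      _ ≤ 17576 * τ ^ 3 := by
        have : 0 < τ ^ 3 := by positivity
        linarith
      _ = (26 * τ) ^ 3 := by ring
  · rw [hτ']
    have h1 : D ≤ 200 * Real.pi * τ ^ 2 := by
      have h2 : D * 1 ≤ D * (20 * τ ^ 2 * L) := mul_le_mul_of_nonneg_left hL2.le hD0.le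
      have h3 : D * (20 * τ ^ 2 * L) = 20 * τ ^ 2 * (D * L) := by ring
      have h4 : 20 * τ ^ 2 * (D * L) ≤ 20 * τ ^ 2 * (10 * Real.pi) :=
        mul_le_mul_of_nonneg_left hDL (by positivity)
      nlinarith
    have h5 : D ≤ 630 * τ ^ 2 := h1.trans (by nlinarith [sq_nonneg τ])
    have h6 : 2 * ((h + n : ℕ) : ℝ) ≤ 3 * L := by
      have : 2 * (h + n) ≤ 3 * L := by omega
      exact_mod_cast this
    have h7 : τ ^ 2 * ((h + n : ℕ) : ℝ) ≤ 3 / 20 := by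
      have : τ ^ 2 * (2 * ((h + n : ℕ) : ℝ)) ≤ τ ^ 2 * (3 * L) :=
        mul_le_mul_of_nonneg_left h6 (by positivity)
      nlinarith
    calc (τ * D) ^ 2 * ((h + n : ℕ) : ℝ) = D ^ 2 * (τ ^ 2 * ((h + n : ℕ) : ℝ)) := by ring
      _ ≤ (630 * τ ^ 2) ^ 2 * (3 / 20) := by gcongr
      _ = 59535 * τ ^ 4 := by ring
      _ ≤ 456976 * τ ^ 4 := by
        have : 0 < τ ^ 4 := by positivity
        linarith
      _ = (26 * τ) ^ 4 := by ring

end Pool.Agent.H938
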