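import Pool.Agent.H938_Salem4.B1

set_option autoImplicit false

namespace Pool.Agent.H938

open Polynomial

variable {β l : ℝ} {ζ : ℂ}

theorem stIter_aux (H : S4 β l ζ) {P : ℤ[X]} {h : ℕ} {W b : ℝ} {L Lp : ℕ}
    (S : St β l ζ P h W b L Lp) (i : ℕ) :
    ∃ (P' : ℤ[X]) (h' : ℕ) (W' b' : ℝ) (L' Lp' : ℕ), St β l ζ P' h' W' b' L' Lp' ∧
      26 * tau ζ P' ≤ (26 * tau ζ P) ^ (3 ^ i) ∧
      b' = Real.exp 3 * (b * Real.exp (-3)) ^ (2 ^ i) := by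
  induction i with
  | zero =>
    refine ⟨P, h, W, b, L, Lp, S, by simp, ?_⟩
    rw [pow_zero, pow_one, mul_comm b, ← mul_assoc, ← Real.exp_add]
    simp
  | succ i ih =>
    obtain ⟨P1, h1, W1, b1, L1, Lp1, S1, e1, e2⟩ := ih
    obtain ⟨P2, h2, W2, L2, S2, f1, f2⟩ := St_step H S1
    refine ⟨P2, h2, W2, _, L2, L1, S2, ?_, ?_⟩
    · have hn : 0 ≤ 26 * tau ζ P1 := by
        unfold tau
        positivity
      calc _ ≤ (26 * tau ζ P1) ^ 3 := f1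
        _ ≤ ((26 * tau ζ P) ^ (3 ^ i)) ^ 3 := pow_le_pow_left₀ hn e1 3
        _ = _ := by rw [← pow_mul, pow_succ]
    · rw [e2, mul_pow, ← pow_mul, ← Real.exp_nat_mul, pow_succ]
      rw [mul_right_comm, ← Real.exp_add]
      norm_num

theorem stIter_arith {u v : ℝ} (hu0 : 0 < u) (hu1 : u < 1) (hv0 : 0 < v) (K : ℝ) :
    ∃ i : ℕ, K * u ^ (4 * 3 ^ i) ≤ v ^ (4 * 2 ^ i) ∧ u ^ (4 * 3 ^ i) ≤ 1 / 100 := by
  set K' := max K 1 with hK'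
  have hK1 : 1 ≤ K' := le_max_right _ _
  obtain ⟨c, hc⟩ := exists_pow_lt_of_lt_one hv0 hu1
  obtain ⟨n0, hn0⟩ := exists_pow_lt_of_lt_one (show (0 : ℝ) < 1 / (100 * K') by positivity) hu1
  obtain ⟨i1, hi1⟩ := pow_unbounded_of_one_lt ((c : ℝ) + 1) (show (1 : ℝ) < 3 / 2 by norm_num)
  let i := max i1 n0
  have hi : (c + 1) * 2 ^ i ≤ 3 ^ i := by
    have h1 : ((c : ℝ) + 1) ≤ (3 / 2) ^ i :=
      hi1.le.trans (pow_le_pow_right₀ (by norm_num) (le_max_left _ _))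
    have h2 : ((c : ℝ) + 1) * 2 ^ i ≤ 3 ^ i := by
      rw [div_pow, le_div_iff₀ (by positivity)] at h1
      exact h1
    exact_mod_cast h2
  have hn : n0 ≤ 4 * 2 ^ i := by
    have h1 : n0 ≤ i := le_max_right _ _
    have h2 : i < 2 ^ i := Nat.lt_two_pow_self
    omega
  have hexp : 4 * 2 ^ i + c * (4 * 2 ^ i) ≤ 4 * 3 ^ i := by nlinarith
  have hA : K' * u ^ (4 * 2 ^ i) ≤ 1 / 100 := by
    have h1 : u ^ (4 * 2 ^ i) ≤ 1 / (100 * K') :=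
      (pow_le_pow_of_le_one hu0.le hu1.le hn).trans hn0.le
    calc _ ≤ K' * (1 / (100 * K')) := mul_le_mul_of_nonneg_left h1 (by linarith)
      _ = 1 / 100 := by
        have : K' ≠ 0 := by linarith
        field_simp
  have hB : u ^ (c * (4 * 2 ^ i)) ≤ v ^ (4 * 2 ^ i) := by
    rw [pow_mul]
    exact pow_le_pow_left₀ (pow_nonneg hu0.le _) hc.le _
  have hC : u ^ (4 * 3 ^ i) ≤ u ^ (4 * 2 ^ i) * u ^ (c * (4 * 2 ^ i)) := by
    rw [← pow_add]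
    exact pow_le_pow_of_le_one hu0.le hu1.le hexp
  refine ⟨i, ?_, ?_⟩
  · calc K * u ^ (4 * 3 ^ i) ≤ K' * u ^ (4 * 3 ^ i) :=
          mul_le_mul_of_nonneg_right (le_max_left _ _) (pow_nonneg hu0.le _)
      _ ≤ K' * (u ^ (4 * 2 ^ i) * u ^ (c * (4 * 2 ^ i))) :=
          mul_le_mul_of_nonneg_left hC (by linarith)
      _ = (K' * u ^ (4 * 2 ^ i)) * u ^ (c * (4 * 2 ^ i)) := by ring
      _ ≤ 1 * v ^ (4 * 2 ^ i) := by
          apply mul_le_mul (hA.trans (by norm_num)) hB (pow_nonneg hu0.le _) zero_le_one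
      _ = _ := one_mul _
  · calc u ^ (4 * 3 ^ i) ≤ u ^ (4 * 2 ^ i) :=
          pow_le_pow_of_le_one hu0.le hu1.le (by omega)
      _ ≤ K' * u ^ (4 * 2 ^ i) := le_mul_of_one_le_left (pow_nonneg hu0.le _) hK1
      _ ≤ 1 / 100 := hA

/-- TARGET -/
theorem St_iter (H : S4 β l ζ) {P : ℤ[X]} {h : ℕ} {W b : ℝ} {L Lp : ℕ}
    (S : St β l ζ P h W b L Lp) (K : ℝ) :
    ∃ (P' : ℤ[X]) (h' : ℕ) (W' b' : ℝ), Adm β l ζ P' h' W' ∧ BB β l P' h' b' ∧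
      K * (tau ζ P' ^ 2 * h') ≤ b' ^ 2 ∧ tau ζ P' ^ 2 * h' ≤ 1 / 100 := by
  have hb := S.bb.1
  have htau : 0 < tau ζ P := by
    have := S.adm.s_pos
    unfold tau
    positivity
  have hW : 6 ≤ W := by
    have h1 := S.adm.a3
    have h2 : 0 ≤ ∑ j ∈ Finset.Ioo (-(h : ℤ)) (h : ℤ), |TP β P j| :=
      Finset.sum_nonneg fun _ _ => abs_nonneg _
    linarith
  have htau1 : tau ζ P ≤ 1 / 12000 := by
    have h1 := S.adm.a4
    nlinarith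
  set u := 26 * tau ζ P with hu
  set v := b * Real.exp (-3) with hv
  have hu0 : 0 < u := by positivity
  have hu1 : u < 1 := by rw [hu]; linarith
  have hv0 : 0 < v := by positivity
  obtain ⟨i, hi1, hi2⟩ := stIter_arith hu0 hu1 hv0 (max K 0)
  obtain ⟨P1, h1, W1, b1, L1, Lp1, S1, e1, e2⟩ := stIter_aux H S i
  obtain ⟨P2, h2, W2, L2, S2, f1, f2⟩ := St_step H S1
  rw [← hv] at e2
  have hn : 0 ≤ 26 * tau ζ P1 := by
    unfold tau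
    positivity
  have hx : tau ζ P2 ^ 2 * h2 ≤ u ^ (4 * 3 ^ i) := by
    calc _ ≤ (26 * tau ζ P1) ^ 4 := f2
      _ ≤ (u ^ (3 ^ i)) ^ 4 := pow_le_pow_left₀ hn e1 4
      _ = _ := by rw [← pow_mul, mul_comm]
  have hx0 : 0 ≤ tau ζ P2 ^ 2 * (h2 : ℝ) := by positivity
  have hy : v ^ (4 * 2 ^ i) ≤ (b1 ^ 2 * Real.exp (-3)) ^ 2 := by
    have h3 : b1 ^ 2 * Real.exp (-3) = Real.exp 3 * v ^ (2 * 2 ^ i) := by
      rw [e2, mul_pow, ← pow_mul, ← Real.exp_nat_mul, mul_right_comm, ← Real.exp_add,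
        mul_comm (2 ^ i) 2]
      norm_num
    have h4 : v ^ (2 * 2 ^ i) ≤ b1 ^ 2 * Real.exp (-3) := by
      rw [h3]
      exact le_mul_of_one_le_left (pow_nonneg hv0.le _) (Real.one_le_exp (by norm_num))
    calc v ^ (4 * 2 ^ i) = (v ^ (2 * 2 ^ i)) ^ 2 := by rw [← pow_mul]; ring_nf
      _ ≤ _ := pow_le_pow_left₀ (pow_nonneg hv0.le _) h4 2
  refine ⟨P2, h2, W2, _, S2.adm, S2.bb, ?_, hx.trans hi2⟩
  calc K * (tau ζ P2 ^ 2 * h2) ≤ max K 0 * (tau ζ P2 ^ 2 * h2) :=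
        mul_le_mul_of_nonneg_right (le_max_left _ _) hx0
    _ ≤ max K 0 * u ^ (4 * 3 ^ i) := mul_le_mul_of_nonneg_left hx (le_max_right _ _)
    _ ≤ v ^ (4 * 2 ^ i) := hi1
    _ ≤ _ := hy

end Pool.Agent.H938
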