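import Pool.Agent.H938_Salem4.B0

set_option autoImplicit false

namespace Pool.Agent.H938

open Polynomial

variable {β l : ℝ} {ζ : ℂ}

theorem sum_Ico_int (f : ℤ → ℝ) (a : ℤ) (n : ℕ) :
    ∑ j ∈ Finset.Ico a (a + n), f j = ∑ i ∈ Finset.range n, f (a + i) := by
  refine Finset.sum_nbij' (fun j => (j - a).toNat) (fun i => a + (i : ℤ)) ?_ ?_ ?_ ?_ ?_
  · intro j hj; simp only [Finset.mem_Ico, Finset.mem_range] at *; omega
  · intro j hj; simp only [Finset.mem_Ico, Finset.mem_range] at *; omega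
  · intro j hj; simp only [Finset.mem_Ico, Finset.mem_range] at *; omega
  · intro j hj; simp only [Finset.mem_Ico, Finset.mem_range] at *; omega
  · intro j hj
    simp only [Finset.mem_Ico] at hj
    congr 1; omega

theorem C1_geom_le (H : S4 β l ζ) (n : ℕ) : ∑ i ∈ Finset.range n, l ^ i ≤ 5 / 2 := by
  have h0 := H.l_pos
  have h1 := H.l_le
  have h2 : ∑ i ∈ Finset.range n, l ^ i = (1 - l ^ n) / (1 - l) := by
    rw [eq_div_iff (by linarith)]
    have := geom_sum_mul_neg l n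
    exact this
  rw [h2, div_le_iff₀ (by linarith)]
  have : 0 < l ^ n := pow_pos h0 n
  linarith

theorem zpow_neg_nat (H : S4 β l ζ) (i : ℕ) : β ^ (-(i : ℤ)) = l ^ i := by
  rw [← H.l_zpow, zpow_natCast]

theorem aeval_mul' (x : ℝ) (P : ℤ[X]) (n : ℕ) :
    aeval x (P * (X ^ n - 1)) = aeval x P * (x ^ n - 1) := by simp

theorem aeval_mulc (x : ℂ) (P : ℤ[X]) (n : ℕ) :
    aeval x (P * (X ^ n - 1)) = aeval x P * (x ^ n - 1) := by simp

theorem abs_l_pow_sub (H : S4 β l ζ) (n : ℕ) : |l ^ n - 1| ≤ 1 := by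
  have h0 := H.l_pos
  have h1 := H.l_le
  have h2 : 0 < l ^ n := pow_pos h0 n
  have h3 : l ^ n ≤ 1 := pow_le_one₀ h0.le (by linarith)
  rw [abs_le]; constructor <;> linarith

theorem part1 (H : S4 β l ζ) {P : ℤ[X]} {h : ℕ} (k2 : 1000 * |aeval l P| ≤ β ^ h)
    (s1 : 16 * ‖aeval ζ P‖ ≤ 1) {n : ℕ} (hn : 7 ≤ n) (hd : dd ζ n ≤ 2 * Real.pi / n) :
    ∑ j ∈ Finset.Ico (h : ℤ) ((h : ℤ) + n), |TP β (P * (X ^ n - 1)) j| ≤ 5 / 2 + 5 := by
  have hn' : (7 : ℝ) ≤ n := by exact_mod_cast hn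
  have hpi := Real.pi_lt_d2
  have hpi0 := Real.pi_pos
  have hdd0 : 0 ≤ dd ζ n := norm_nonneg _
  have e1 : 1000 * |aeval l (P * (X ^ n - 1))| ≤ β ^ h := by
    rw [aeval_mul', abs_mul]
    have := abs_l_pow_sub H n
    have h3 : |aeval l P| * |l ^ n - 1| ≤ |aeval l P| * 1 :=
      mul_le_mul_of_nonneg_left this (abs_nonneg _)
    linarith
  have e3 : ‖aeval ζ (P * (X ^ n - 1))‖ ≤ 1 / 16 * (2 * Real.pi / n) := by
    rw [aeval_mulc, norm_mul]
    exact mul_le_mul (by linarith) hd hdd0 (by norm_num)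
  have e4 : 2 * Real.pi / n ≤ 1 := by
    rw [div_le_one (by linarith)]; linarith
  have e2 : 16 * ‖aeval ζ (P * (X ^ n - 1))‖ ≤ 1 := by linarith
  have e5 : tau ζ (P * (X ^ n - 1)) ≤ 5 / n := by
    unfold tau
    calc 4 * Real.pi * ‖aeval ζ (P * (X ^ n - 1))‖ ≤ 4 * Real.pi * (1 / 16 * (2 * Real.pi / n)) :=
          mul_le_mul_of_nonneg_left e3 (by positivity)
      _ = (Real.pi * Real.pi / 2) / n := by ring
      _ ≤ 5 / n := by
          apply div_le_div_of_nonneg_right _ (by linarith)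
          nlinarith
  calc ∑ j ∈ Finset.Ico (h : ℤ) ((h : ℤ) + n), |TP β (P * (X ^ n - 1)) j|
      ≤ ∑ j ∈ Finset.Ico (h : ℤ) ((h : ℤ) + n), (β ^ ((h : ℤ) - j) + 5 / n) := by
        apply Finset.sum_le_sum
        intro j hj
        simp only [Finset.mem_Ico] at hj
        have := TP_pos_le H e1 e2 hj.1
        linarith
    _ = ∑ i ∈ Finset.range n, (l ^ i + 5 / n) := by
        rw [sum_Ico_int]
        apply Finset.sum_congr rfl
        intro i _
        rw [← zpow_neg_nat H]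
        congr 2
        ring
    _ = ∑ i ∈ Finset.range n, l ^ i + 5 := by
        rw [Finset.sum_add_distrib, Finset.sum_const, Finset.card_range, nsmul_eq_mul]
        congr 1
        field_simp
    _ ≤ 5 / 2 + 5 := by
        have := C1_geom_le H n
        linarith

theorem tendsto_l_pow (H : S4 β l ζ) :
    Filter.Tendsto (fun n : ℕ => l ^ n) Filter.atTop (nhds 0) :=
  tendsto_pow_atTop_nhds_zero_of_lt_one H.l_pos.le (by have := H.l_le; linarith)

theorem tan_near {x0 : ℝ} (hx : Real.cos x0 ≠ 0) :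
    ∃ δ > 0, ∀ x, |x - x0| < δ → |Real.tan x| ≤ |Real.tan x0| + 1 := by
  have hc : ContinuousAt Real.tan x0 := Real.continuousAt_tan.2 hx
  rw [Metric.continuousAt_iff] at hc
  obtain ⟨δ, hδ, h⟩ := hc 1 one_pos
  refine ⟨δ, hδ, fun x hx => ?_⟩
  have := h (x := x) (by rwa [Real.dist_eq])
  rw [Real.dist_eq] at this
  have h3 := abs_sub_abs_le_abs_sub (Real.tan x) (Real.tan x0)
  linarith

theorem part2 (H : S4 β l ζ) {P : ℤ[X]} (s1 : 16 * ‖aeval ζ P‖ ≤ 1) (j : ℤ) :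
    ∀ᶠ n : ℕ in Filter.atTop, dd ζ n ≤ 2 * Real.pi / n →
      |TP β (P * (X ^ n - 1)) j| ≤ |Real.tan (-(Real.pi * aeval l P * l ^ j))| + 1 := by
  have hpi0 := Real.pi_pos
  have hcos : Real.cos (-(Real.pi * aeval l P * l ^ j)) ≠ 0 := by
    rw [Real.cos_neg]
    exact cos_l_ne H P (by linarith [norm_nonneg (aeval ζ P)]) j
  obtain ⟨δ, hδ, hδ2⟩ := tan_near hcos
  have hlim : Filter.Tendsto (fun n : ℕ => Real.pi * (|aeval l P| * l ^ n * l ^ j +
      2 * (‖aeval ζ P‖ * (2 * Real.pi / n)))) Filter.atTop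
      (nhds (Real.pi * (|aeval l P| * 0 * l ^ j + 2 * (‖aeval ζ P‖ * 0)))) := by
    apply Filter.Tendsto.const_mul
    apply Filter.Tendsto.add
    · exact (Filter.Tendsto.const_mul _ (tendsto_l_pow H)).mul_const _
    · apply Filter.Tendsto.const_mul
      apply Filter.Tendsto.const_mul
      exact tendsto_const_div_atTop_nhds_zero_nat _
  have hz : Real.pi * (|aeval l P| * 0 * l ^ j + 2 * (‖aeval ζ P‖ * 0)) = 0 := by ring
  rw [hz] at hlim
  filter_upwards [hlim.eventually_lt_const hδ] with n hn hd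
  rw [TP_eq H, abs_neg]
  apply hδ2
  refine lt_of_le_of_lt ?_ hn
  rw [aeval_mul', aeval_mulc]
  have e1 : Real.pi * (aeval l P * (l ^ n - 1) * l ^ j +
      2 * (aeval ζ P * (ζ ^ n - 1) * ζ ^ j).re) - -(Real.pi * aeval l P * l ^ j) =
      Real.pi * (aeval l P * l ^ n * l ^ j + 2 * (aeval ζ P * (ζ ^ n - 1) * ζ ^ j).re) := by
    ring
  rw [e1, abs_mul, abs_of_pos hpi0]
  apply mul_le_mul_of_nonneg_left _ hpi0.le
  refine (abs_add_le _ _).trans ?_
  apply add_le_add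
  · rw [abs_mul, abs_mul, abs_of_pos (pow_pos H.l_pos n), abs_of_pos (zpow_pos H.l_pos j)]
  · rw [abs_mul, abs_of_pos (by norm_num : (0:ℝ) < 2)]
    apply mul_le_mul_of_nonneg_left _ (by norm_num)
    refine (Complex.abs_re_le_norm _).trans ?_
    rw [norm_mul, norm_mul, norm_zpow, H.nz, one_zpow, mul_one]
    exact mul_le_mul_of_nonneg_left hd (norm_nonneg _)

theorem part4 (H : S4 β l ζ) {P : ℤ[X]} (s1 : 16 * ‖aeval ζ P‖ ≤ 1) (i : ℤ) :
    ∀ᶠ n : ℕ in Filter.atTop,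
      |TP β (P * (X ^ n - 1)) (i - n)| ≤ |TP β P i| + 1 := by
  have hpi0 := Real.pi_pos
  have hcos : Real.cos (tP β P i) ≠ 0 :=
    cos_tP_ne H P (by linarith [norm_nonneg (aeval ζ P)]) i
  obtain ⟨δ, hδ, hδ2⟩ := tan_near hcos
  have hlim : Filter.Tendsto (fun n : ℕ => |tP β P i| * l ^ n) Filter.atTop
      (nhds (|tP β P i| * 0)) := Filter.Tendsto.const_mul _ (tendsto_l_pow H)
  rw [mul_zero] at hlim
  filter_upwards [hlim.eventually_lt_const hδ] with n hn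
  unfold TP
  apply hδ2
  refine lt_of_le_of_lt (le_of_eq ?_) hn
  have e1 : β ^ (i - (n : ℤ)) = β ^ i * l ^ n := by
    rw [sub_eq_add_neg, zpow_add₀ H.β_pos.ne', zpow_neg_nat H]
  have e2 : β ^ n * l ^ n = 1 := by rw [← mul_pow, H.bl, one_pow]
  have e3 : tP β (P * (X ^ n - 1)) (i - n) - tP β P i = -(tP β P i * l ^ n) := by
    unfold tP
    rw [aeval_mul', e1]
    linear_combination (Real.pi * aeval β P * β ^ i) * e2
  rw [e3, abs_neg, abs_mul, abs_of_pos (pow_pos H.l_pos n)]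

theorem part3 (H : S4 β l ζ) {P : ℤ[X]} {h : ℕ} (k0 : 0 < aeval β P)
    (k1 : 8 * aeval β P ≤ β ^ h) (k2 : 1000 * |aeval l P| ≤ β ^ h) (s1 : 16 * ‖aeval ζ P‖ ≤ 1)
    (n : ℕ) (j : ℤ) (hj1 : (h : ℤ) - n ≤ j) (hj2 : j ≤ -(h : ℤ)) :
    |TP β (P * (X ^ n - 1)) j| ≤ β ^ ((h : ℤ) - n - j) + β ^ ((h : ℤ) + j) +
      4 * Real.pi * ‖aeval ζ P‖ := by
  have hpi := Real.pi_lt_d2
  have hpi0 := Real.pi_pos
  have hb0 := H.β_pos
  have hb1 := H.β_gt_one
  obtain ⟨k, hk⟩ := trP H P (j + n)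
  set x : ℝ := Real.pi * (aeval l P * l ^ (j + n) + 2 * (aeval ζ P * ζ ^ (j + n)).re) with hx
  have ht : tP β (P * (X ^ n - 1)) j = k * Real.pi - (x + tP β P j) := by
    unfold tP
    rw [aeval_mul', hx, ← hk, zpow_add₀ hb0.ne' j n, zpow_natCast]
    ring
  have hT : |TP β (P * (X ^ n - 1)) j| = |Real.tan (x + tP β P j)| := by
    unfold TP
    rw [ht, Real.tan_int_mul_pi_sub, abs_neg]
  have hA : |aeval l P * l ^ (j + n)| ≤ β ^ ((h : ℤ) - n - j) / 1000 := by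
    rw [abs_mul, abs_of_pos (zpow_pos H.l_pos _), H.l_zpow]
    have e : β ^ ((h : ℤ) - n - j) = β ^ h * β ^ (-(j + n)) := by
      rw [← zpow_natCast, ← zpow_add₀ hb0.ne']
      congr 1; ring
    rw [e]
    have : |aeval l P| ≤ β ^ h / 1000 := by linarith
    calc |aeval l P| * β ^ (-(j + n)) ≤ β ^ h / 1000 * β ^ (-(j + n)) :=
          mul_le_mul_of_nonneg_right this (zpow_pos hb0 _).le
      _ = _ := by ring
  have hB : |(aeval ζ P * ζ ^ (j + n)).re| ≤ ‖aeval ζ P‖ := by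
    refine (Complex.abs_re_le_norm _).trans ?_
    rw [norm_mul, norm_zpow, H.nz, one_zpow, mul_one]
  have hxle : |x| ≤ Real.pi * (β ^ ((h : ℤ) - n - j) / 1000 + 2 * ‖aeval ζ P‖) := by
    rw [hx, abs_mul, abs_of_pos hpi0]
    apply mul_le_mul_of_nonneg_left _ hpi0.le
    refine (abs_add_le _ _).trans ?_
    rw [abs_mul 2, abs_of_pos (by norm_num : (0:ℝ) < 2)]
    linarith
  have htle : |tP β P j| ≤ Real.pi / 8 * β ^ ((h : ℤ) + j) := by
    unfold tP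
    rw [abs_mul, abs_mul, abs_of_pos hpi0, abs_of_pos k0, abs_of_pos (zpow_pos hb0 _),
      zpow_add₀ hb0.ne', zpow_natCast]
    have : aeval β P ≤ β ^ h / 8 := by linarith
    calc Real.pi * aeval β P * β ^ j ≤ Real.pi * (β ^ h / 8) * β ^ j := by
          apply mul_le_mul_of_nonneg_right _ (zpow_pos hb0 _).le
          exact mul_le_mul_of_nonneg_left this hpi0.le
      _ = _ := by ring
  have hy1 : β ^ ((h : ℤ) - n - j) ≤ 1 := zpow_le_one_of_nonpos₀ hb1.le (by linarith)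
  have hy2 : β ^ ((h : ℤ) + j) ≤ 1 := zpow_le_one_of_nonpos₀ hb1.le (by linarith)
  have hy1' : 0 < β ^ ((h : ℤ) - n - j) := zpow_pos hb0 _
  have hy2' : 0 < β ^ ((h : ℤ) + j) := zpow_pos hb0 _
  set y1 := β ^ ((h : ℤ) - n - j) with hy1d
  set y2 := β ^ ((h : ℤ) + j) with hy2d
  set s := ‖aeval ζ P‖ with hs
  have hs0 : 0 ≤ s := norm_nonneg _
  have m1 : Real.pi * y1 ≤ 3.15 * y1 := mul_le_mul_of_nonneg_right hpi.le hy1'.le
  have m2 : Real.pi * y2 ≤ 3.15 * y2 := mul_le_mul_of_nonneg_right hpi.le hy2'.le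
  have m3 : Real.pi * s ≤ 3.15 * s := mul_le_mul_of_nonneg_right hpi.le hs0
  have hsum : |x + tP β P j| ≤ |x| + |tP β P j| := abs_add_le _ _
  have hone : |x + tP β P j| ≤ 1 := by
    nlinarith
  rw [hT]
  refine (abs_tan_le hone).trans ?_
  nlinarith

theorem sum_cover {f : ℤ → ℝ} (hf : ∀ j, 0 ≤ f j) {S A B C D : Finset ℤ}
    (hS : S ⊆ A ∪ B ∪ C ∪ D) :
    ∑ j ∈ S, f j ≤ ∑ j ∈ A, f j + ∑ j ∈ B, f j + ∑ j ∈ C, f j + ∑ j ∈ D, f j := by
  have h2 : ∀ U V : Finset ℤ, ∑ j ∈ U ∪ V, f j ≤ ∑ j ∈ U, f j + ∑ j ∈ V, f j := by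
    intro U V
    have := Finset.sum_union_inter (s₁ := U) (s₂ := V) (f := f)
    have h0 : 0 ≤ ∑ j ∈ U ∩ V, f j := Finset.sum_nonneg fun j _ => hf j
    linarith
  have h1 := Finset.sum_le_sum_of_subset_of_nonneg hS (fun j _ _ => hf j)
  have h3 := h2 (A ∪ B ∪ C) D
  have h4 := h2 (A ∪ B) C
  have h5 := h2 A B
  linarith

/-- TARGET -/
theorem initial_sum (H : S4 β l ζ) {P : ℤ[X]} {h : ℕ} (hh : 10 ≤ h) (k0 : 0 < aeval β P)
    (k1 : 8 * aeval β P ≤ β ^ h) (k2 : 1000 * |aeval l P| ≤ β ^ h) (s1 : 16 * ‖aeval ζ P‖ ≤ 1) :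
    ∃ (U : ℝ) (n0 : ℕ), ∀ n : ℕ, n0 ≤ n → dd ζ n ≤ 2 * Real.pi / n →
      ∑ j ∈ Finset.Ioo (-((n + h : ℕ) : ℤ)) ((n + h : ℕ) : ℤ), |TP β (P * (X ^ n - 1)) j| ≤
        U + 4 * Real.pi * ‖aeval ζ P‖ * n := by
  have e2 : ∀ᶠ n : ℕ in Filter.atTop, ∀ j ∈ Finset.Ioo (-(h : ℤ)) h, dd ζ n ≤ 2 * Real.pi / n →
      |TP β (P * (X ^ n - 1)) j| ≤ |Real.tan (-(Real.pi * aeval l P * l ^ j))| + 1 := by
    rw [Finset.eventually_all]
    intro j _
    exact part2 H s1 j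
  have e4 : ∀ᶠ n : ℕ in Filter.atTop, ∀ i ∈ Finset.Ioo (-(h : ℤ)) h,
      |TP β (P * (X ^ n - 1)) (i - n)| ≤ |TP β P i| + 1 := by
    rw [Finset.eventually_all]
    intro j _
    exact part4 H s1 j
  obtain ⟨n0, hn0⟩ := Filter.eventually_atTop.1 (e2.and (e4.and (Filter.eventually_ge_atTop (2 * h))))
  refine ⟨∑ i ∈ Finset.Ioo (-(h : ℤ)) h, (|TP β P i| + 1) + 5 +
    ∑ j ∈ Finset.Ioo (-(h : ℤ)) h, (|Real.tan (-(Real.pi * aeval l P * l ^ j))| + 1) +
    (5 / 2 + 5), n0, ?_⟩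
  intro n hn hd
  obtain ⟨f2, f4, f5⟩ := hn0 n hn
  have g1 := part1 H k2 s1 (n := n) (by omega) hd
  have g2 : ∑ j ∈ Finset.Ioo (-(h : ℤ)) h, |TP β (P * (X ^ n - 1)) j| ≤
      ∑ j ∈ Finset.Ioo (-(h : ℤ)) h, (|Real.tan (-(Real.pi * aeval l P * l ^ j))| + 1) :=
    Finset.sum_le_sum fun j hj => f2 j hj hd
  have g4 : ∑ j ∈ Finset.Ioo (-(n : ℤ) - h) (h - n), |TP β (P * (X ^ n - 1)) j| ≤
      ∑ i ∈ Finset.Ioo (-(h : ℤ)) h, (|TP β P i| + 1) := by
    have : ∑ j ∈ Finset.Ioo (-(n : ℤ) - h) (h - n), |TP β (P * (X ^ n - 1)) j| =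
        ∑ i ∈ Finset.Ioo (-(h : ℤ)) h, |TP β (P * (X ^ n - 1)) (i - n)| := by
      refine Finset.sum_nbij' (fun j => j + n) (fun i => i - n) ?_ ?_ ?_ ?_ ?_
      · intro j hj; simp only [Finset.mem_Ioo] at *; omega
      · intro j hj; simp only [Finset.mem_Ioo] at *; omega
      · intro j hj; ring
      · intro j hj; ring
      · intro j hj
        congr 2; ring
    rw [this]
    exact Finset.sum_le_sum fun j hj => f4 j hj
  have g3 : ∑ j ∈ Finset.Ico ((h : ℤ) - n) ((h : ℤ) - n + ((n - 2 * h + 1 : ℕ) : ℤ)),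
      |TP β (P * (X ^ n - 1)) j| ≤ 5 + 4 * Real.pi * ‖aeval ζ P‖ * n := by
    calc ∑ j ∈ Finset.Ico ((h : ℤ) - n) ((h : ℤ) - n + ((n - 2 * h + 1 : ℕ) : ℤ)),
        |TP β (P * (X ^ n - 1)) j| ≤
        ∑ j ∈ Finset.Ico ((h : ℤ) - n) ((h : ℤ) - n + ((n - 2 * h + 1 : ℕ) : ℤ)),
          (β ^ ((h : ℤ) - n - j) + β ^ ((h : ℤ) + j) + 4 * Real.pi * ‖aeval ζ P‖) := by
          apply Finset.sum_le_sum
          intro j hj
          simp only [Finset.mem_Ico] at hj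
          exact part3 H k0 k1 k2 s1 n j hj.1 (by omega)
      _ = ∑ i ∈ Finset.range (n - 2 * h + 1), l ^ i +
          ∑ i ∈ Finset.range (n - 2 * h + 1), l ^ i +
          ((n - 2 * h + 1 : ℕ) : ℝ) * (4 * Real.pi * ‖aeval ζ P‖) := by
          rw [sum_Ico_int, Finset.sum_add_distrib, Finset.sum_add_distrib, Finset.sum_const,
            Finset.card_range, nsmul_eq_mul]
          congr 2
          · apply Finset.sum_congr rfl
            intro i _
            rw [← zpow_neg_nat H]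
            congr 1
            ring
          · rw [← Finset.sum_range_reflect (fun i => l ^ i)]
            apply Finset.sum_congr rfl
            intro i hi
            simp only [Finset.mem_range] at hi
            rw [← zpow_neg_nat H]
            congr 1
            omega
      _ ≤ 5 / 2 + 5 / 2 + (n : ℝ) * (4 * Real.pi * ‖aeval ζ P‖) := by
          have q1 := C1_geom_le H (n - 2 * h + 1)
          have q2 : ((n - 2 * h + 1 : ℕ) : ℝ) ≤ n := by exact_mod_cast (by omega)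
          have q3 : 0 ≤ 4 * Real.pi * ‖aeval ζ P‖ := by positivity
          have q4 := mul_le_mul_of_nonneg_right q2 q3
          linarith
      _ = _ := by ring
  have hcov := sum_cover (f := fun j => |TP β (P * (X ^ n - 1)) j|) (fun j => abs_nonneg _)
    (S := Finset.Ioo (-((n + h : ℕ) : ℤ)) ((n + h : ℕ) : ℤ))
    (A := Finset.Ioo (-(n : ℤ) - h) (h - n))
    (B := Finset.Ico ((h : ℤ) - n) ((h : ℤ) - n + ((n - 2 * h + 1 : ℕ) : ℤ)))
    (C := Finset.Ioo (-(h : ℤ)) h)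
    (D := Finset.Ico (h : ℤ) ((h : ℤ) + n))
    (by
      intro j hj
      simp only [Finset.mem_union, Finset.mem_Ioo, Finset.mem_Ico] at *
      omega)
  refine hcov.trans ?_
  linarith

end Pool.Agent.H938
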