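import Pool.Agent.H938_Salem4.C1

set_option autoImplicit false

namespace Pool.Agent.H938

open Polynomial

variable {β l : ℝ} {ζ : ℂ}

theorem s4_beta (H : S4 β l ζ) : 5 / 3 ≤ β := by
  have h1 := H.l_half
  have h2 := H.l_le
  have h3 := H.bl
  by_contra hcon
  push Not at hcon
  by_cases hb : 0 ≤ β
  · have : β * l ≤ β * (3 / 5) := mul_le_mul_of_nonneg_left h2 hb
    linarith
  · push Not at hb
    have : β * l < 0 := mul_neg_of_neg_of_pos hb (by linarith)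
    linarith

theorem records (H : S4 β l ζ) (B : ℕ) : ∃ n : ℕ, B < n ∧ 1 ≤ n ∧ dd ζ n ≤ 2 * Real.pi / n ∧
    ∀ q : ℕ, 1 ≤ q → q ≤ n → dd ζ n ≤ dd ζ q := by
  obtain ⟨B', hB'1, hBB'⟩ : ∃ B' : ℕ, 1 ≤ B' ∧ B ≤ B' := ⟨max B 1, le_max_right _ _, le_max_left _ _⟩
  have hne : (Finset.Icc 1 B').Nonempty := ⟨1, by simp [hB'1]⟩
  obtain ⟨q1, hq1m, hq1⟩ := Finset.exists_min_image (Finset.Icc 1 B') (dd ζ) hne
  rw [Finset.mem_Icc] at hq1m
  have hδ : 0 < dd ζ q1 := dd_pos H hq1m.1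
  obtain ⟨L0, hL0⟩ := exists_nat_gt (2 * Real.pi / dd ζ q1)
  set L : ℕ := max L0 1 with hL
  have hL1 : 1 ≤ L := le_max_right _ _
  have hLpos : (0 : ℝ) < L := by exact_mod_cast hL1
  have hL0L : (L0 : ℝ) ≤ L := by exact_mod_cast le_max_left _ _
  have hLδ : 2 * Real.pi / L < dd ζ q1 := by
    rw [div_lt_iff₀ hLpos]
    have := lt_of_lt_of_le hL0 hL0L
    rw [div_lt_iff₀ hδ] at this
    linarith [mul_comm (dd ζ q1) (L : ℝ)]
  obtain ⟨q0, hq01, hq0L, hq0⟩ := dirichlet H hL1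
  have hneL : (Finset.Icc 1 L).Nonempty := ⟨1, by simp [hL1]⟩
  obtain ⟨n, hnm, hn⟩ := Finset.exists_min_image (Finset.Icc 1 L) (dd ζ) hneL
  rw [Finset.mem_Icc] at hnm
  have hn1 : (0 : ℝ) < n := by exact_mod_cast hnm.1
  have hnL : dd ζ n ≤ 2 * Real.pi / L := (hn q0 (by simp [hq01, hq0L])).trans hq0
  refine ⟨n, ?_, hnm.1, ?_, ?_⟩
  · by_contra hcon
    push Not at hcon
    have := hq1 n (by rw [Finset.mem_Icc]; exact ⟨hnm.1, hcon.trans hBB'⟩)
    linarith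
  · refine hnL.trans ?_
    apply div_le_div_of_nonneg_left (by positivity) hn1
    exact_mod_cast hnm.2
  · intro q h1 h2
    exact hn q (by rw [Finset.mem_Icc]; exact ⟨h1, h2.trans hnm.2⟩)

theorem eventually_small (C : ℝ) : ∃ N : ℕ, ∀ n : ℕ, N ≤ n →
    2 * (C + n) * (3 / 5 : ℝ) ^ n ≤ 1 / 1000 := by
  have h1 : Filter.Tendsto (fun n : ℕ => (n : ℝ) * (3 / 5 : ℝ) ^ n) Filter.atTop (nhds 0) :=
    tendsto_self_mul_const_pow_of_lt_one (by norm_num) (by norm_num)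
  have h2 : Filter.Tendsto (fun n : ℕ => (3 / 5 : ℝ) ^ n) Filter.atTop (nhds 0) :=
    tendsto_pow_atTop_nhds_zero_of_lt_one (by norm_num) (by norm_num)
  have h3 : Filter.Tendsto (fun n : ℕ => 2 * (C + n) * (3 / 5 : ℝ) ^ n) Filter.atTop (nhds 0) := by
    have := (h2.const_mul (2 * C)).add (h1.const_mul 2)
    simp only [mul_zero, add_zero] at this
    refine this.congr ?_
    intro n
    ring
  have h4 := h3.eventually (Iio_mem_nhds (show (0 : ℝ) < 1 / 1000 by norm_num))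
  obtain ⟨N, hN⟩ := Filter.eventually_atTop.mp h4
  exact ⟨N, fun n hn => (hN n hn).le⟩

/-- TARGET -/
theorem initial (H : S4 β l ζ) :
    ∃ (P : ℤ[X]) (h : ℕ) (W b : ℝ) (L Lp : ℕ), St β l ζ P h W b L Lp := by
  have hβ := s4_beta H
  have hβ1 : 1 < β := by linarith
  have hβ0 : 0 < β := by linarith
  have hl0 : 0 < l := by linarith [H.l_half]
  have hl1 : l ≤ 1 := by linarith [H.l_le]
  have hpi3 : Real.pi > 3 := Real.pi_gt_three
  have hpi4 : Real.pi < 3.1416 := Real.pi_lt_d4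
  have hpipos : 0 < Real.pi := Real.pi_pos
  -- Step 1
  obtain ⟨m0, hm01, -, hm0⟩ := dirichlet H (L := 20000) (by norm_num)
  set c : ℝ := dd ζ m0 with hc
  have hc0 : 0 < c := dd_pos H hm01
  have hc1 : c ≤ 1 / 2000 := by
    refine hm0.trans ?_
    rw [div_le_div_iff₀ (by norm_num) (by norm_num)]
    push_cast
    nlinarith
  set P0 : ℤ[X] := X ^ m0 - 1 with hP0
  have eβ : aeval β P0 = β ^ m0 - 1 := by simp [hP0]
  have el : aeval l P0 = l ^ m0 - 1 := by simp [hP0]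
  have eζ : aeval ζ P0 = ζ ^ m0 - 1 := by simp [hP0]
  have nζ : ‖aeval ζ P0‖ = c := by rw [eζ, hc]; rfl
  have hβm : β ≤ β ^ m0 := le_self_pow₀ hβ1.le (by omega)
  set h0 : ℕ := m0 + 16 with hh0
  have hβ16 : (1000 : ℝ) ≤ β ^ 16 := by
    calc (1000 : ℝ) ≤ (5 / 3 : ℝ) ^ 16 := by norm_num
      _ ≤ β ^ 16 := pow_le_pow_left₀ (by norm_num) hβ 16
  have hβm1 : 1 ≤ β ^ m0 := one_le_pow₀ hβ1.le
  have hh1 : 8 * β ^ m0 ≤ β ^ h0 := by
    rw [hh0, pow_add]
    nlinarith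
  have hh2 : 1000 ≤ β ^ h0 := by
    rw [hh0, pow_add]
    nlinarith
  have hk1 : 8 * aeval β P0 ≤ β ^ h0 := by rw [eβ]; linarith
  have hlm : l ^ m0 ≤ 1 := pow_le_one₀ hl0.le hl1
  have hlm0 : 0 ≤ l ^ m0 := pow_nonneg hl0.le _
  have hl_abs : |aeval l P0| ≤ 1 := by
    rw [el, abs_le]; constructor <;> linarith
  have hk2 : 1000 * |aeval l P0| ≤ β ^ h0 := by linarith
  obtain ⟨U, n0, hU⟩ := initial_sum H (P := P0) (h := h0) (by omega) (by rw [eβ]; linarith)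
    hk1 hk2 (by rw [nζ]; linarith)
  rw [nζ] at hU
  set U' : ℝ := max U 0 with hU'
  have hU'0 : 0 ≤ U' := le_max_right _ _
  have hUU' : U ≤ U' := le_max_left _ _
  obtain ⟨N1, hN1⟩ := eventually_small (U' + 6)
  obtain ⟨N2, hN2⟩ := exists_nat_gt (160 * (U' + 6))
  obtain ⟨n, hnB, hn1, hnd, hnmin⟩ := records H (n0 + 4 * h0 + N1 + N2 + 3)
  have hnn0 : n0 ≤ n := by omega
  have hnh0 : 4 * h0 ≤ n := by omega
  have hnN1 : N1 ≤ n := by omega
  have hnN2 : (160 * (U' + 6)) ≤ n := by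
    refine hN2.le.trans ?_
    exact_mod_cast (show N2 ≤ n by omega)
  have hn3 : (3 : ℝ) ≤ n := by exact_mod_cast (show 3 ≤ n by omega)
  have hnpos : (0 : ℝ) < n := by linarith
  have hd0 : 0 < dd ζ n := dd_pos H hn1
  -- the polynomial
  set P : ℤ[X] := P0 * (X ^ n - 1) with hP
  have fβ : aeval β P = (β ^ m0 - 1) * (β ^ n - 1) := by
    rw [hP, map_mul, eβ]; simp
  have fl : aeval l P = (l ^ m0 - 1) * (l ^ n - 1) := by
    rw [hP, map_mul, el]; simp
  have fζ : aeval ζ P = (ζ ^ m0 - 1) * (ζ ^ n - 1) := by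
    rw [hP, map_mul, eζ]; simp
  have nP : ‖aeval ζ P‖ = c * dd ζ n := by
    rw [fζ, norm_mul]; rfl
  have hβn1 : 1 ≤ β ^ n := one_le_pow₀ hβ1.le
  have hbern : 1 + (n : ℝ) * (2 / 3) ≤ β ^ n := by
    have h1 : (1 : ℝ) + (n : ℝ) * (2 / 3) ≤ (1 + 2 / 3 : ℝ) ^ n :=
      one_add_mul_le_pow (by norm_num) n
    refine h1.trans ?_
    apply pow_le_pow_left₀ (by norm_num)
    linarith
  have hln : l ^ n ≤ 1 := pow_le_one₀ hl0.le hl1
  have hln0 : 0 ≤ l ^ n := pow_nonneg hl0.le _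
  set W : ℝ := U' + 4 * Real.pi * c * n + 6 with hW
  have h4pic : 4 * Real.pi * c ≤ 1 := by nlinarith
  have h4pic0 : 0 < 4 * Real.pi * c := by positivity
  have hWpos : 0 < W := by
    have : 0 < 4 * Real.pi * c * n := by positivity
    linarith
  have hWle : W ≤ U' + 6 + n := by
    have : 4 * Real.pi * c * n ≤ 1 * n := mul_le_mul_of_nonneg_right h4pic hnpos.le
    linarith
  have hτ : tau ζ P = 4 * Real.pi * c * dd ζ n := by
    unfold tau; rw [nP]; ring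
  have hτ0 : 0 < tau ζ P := by rw [hτ]; positivity
  have hpi2 : Real.pi ^ 2 ≤ 10 := by nlinarith
  have hndn : dd ζ n * n ≤ 2 * Real.pi := by
    rw [le_div_iff₀ hnpos] at hnd
    exact hnd
  -- τ n ≤ 1/25
  have hτn : tau ζ P * n ≤ 1 / 25 := by
    rw [hτ]
    calc 4 * Real.pi * c * dd ζ n * n = 4 * Real.pi * c * (dd ζ n * n) := by ring
      _ ≤ 4 * Real.pi * c * (2 * Real.pi) := mul_le_mul_of_nonneg_left hndn h4pic0.le
      _ = 8 * Real.pi ^ 2 * c := by ring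
      _ ≤ 8 * 10 * (1 / 2000) := by
          apply mul_le_mul _ hc1 hc0.le (by norm_num)
          linarith
      _ = 1 / 25 := by norm_num
  have hτ1 : tau ζ P ≤ 1 / 75 := by nlinarith
  have A : Adm β l ζ P (n + h0) W := by
    refine ⟨by omega, ?_, ?_, ?_, ?_, ?_, ?_, ?_, ?_⟩
    · rw [fβ]
      have ha : 2 / 3 ≤ β ^ m0 - 1 := by linarith
      have hb : 2 ≤ β ^ n - 1 := by linarith
      nlinarith
    · rw [fβ, pow_add]
      have ha : (β ^ m0 - 1) * (β ^ n - 1) ≤ β ^ m0 * β ^ n := by nlinarith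
      have hb : 8 * β ^ m0 * β ^ n ≤ β ^ h0 * β ^ n :=
        mul_le_mul_of_nonneg_right hh1 (by linarith)
      nlinarith
    · have h1 : |aeval l P| ≤ 1 := by
        rw [fl, abs_mul]
        have ha : |l ^ m0 - 1| ≤ 1 := by rw [abs_le]; constructor <;> linarith
        have hb : |l ^ n - 1| ≤ 1 := by rw [abs_le]; constructor <;> linarith
        calc |l ^ m0 - 1| * |l ^ n - 1| ≤ 1 * 1 :=
              mul_le_mul ha hb (abs_nonneg _) (by norm_num)
          _ = 1 := by norm_num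
      have h2 : β ^ h0 ≤ β ^ (n + h0) := pow_le_pow_right₀ hβ1.le (by omega)
      linarith
    · rw [nP]; positivity
    · rw [nP]
      have h1 : dd ζ n ≤ 3 := by
        refine hnd.trans ?_
        rw [div_le_iff₀ hnpos]
        nlinarith
      nlinarith
    · have := hU n hnn0 hnd
      have h2 : 4 * Real.pi * c * n = 4 * Real.pi * c * (n : ℝ) := rfl
      linarith
    · -- a4
      rw [hτ]
      have e1 : 2 * (4 * Real.pi * c * dd ζ n) * W * n =
          8 * Real.pi * c * (dd ζ n * n) * W := by ring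
      have e2 : 8 * Real.pi * c * (dd ζ n * n) * W ≤ 8 * Real.pi * c * (2 * Real.pi) * W := by
        apply mul_le_mul_of_nonneg_right _ hWpos.le
        apply mul_le_mul_of_nonneg_left hndn
        positivity
      have e3 : 8 * Real.pi * c * (2 * Real.pi) * W =
          16 * Real.pi ^ 2 * c * (U' + 6) + 64 * Real.pi ^ 3 * c ^ 2 * n := by
        rw [hW]; ring
      have e4 : 16 * Real.pi ^ 2 * c * (U' + 6) ≤ 16 * 10 * (1 / 2000) * (U' + 6) := by
        apply mul_le_mul_of_nonneg_right _ (by linarith)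
        apply mul_le_mul _ hc1 hc0.le (by norm_num)
        linarith
      have e5 : 64 * Real.pi ^ 3 * c ^ 2 ≤ 1 / 2000 := by
        have g1 : Real.pi ^ 3 ≤ (3.1416 : ℝ) ^ 3 := pow_le_pow_left₀ hpipos.le hpi4.le 3
        have g2 : c ^ 2 ≤ (1 / 2000 : ℝ) ^ 2 := pow_le_pow_left₀ hc0.le hc1 2
        calc 64 * Real.pi ^ 3 * c ^ 2 ≤ 64 * (3.1416 : ℝ) ^ 3 * (1 / 2000 : ℝ) ^ 2 := by
              apply mul_le_mul _ g2 (by positivity) (by norm_num)
              linarith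
          _ ≤ 1 / 2000 := by norm_num
      have e6 : 64 * Real.pi ^ 3 * c ^ 2 * n ≤ 1 / 2000 * n :=
        mul_le_mul_of_nonneg_right e5 hnpos.le
      have e7 : 2 * (4 * Real.pi * c * dd ζ n) * W * n ≤ 1 / 1000 * n := by
        rw [e1]
        refine e2.trans ?_
        rw [e3]
        have : 16 * 10 * (1 / 2000) * (U' + 6) ≤ 1 / 2000 * n := by linarith
        linarith
      exact le_of_mul_le_mul_right e7 hnpos
    · -- a5
      have h1 : l ^ (n + h0) ≤ (3 / 5 : ℝ) ^ n := by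
        calc l ^ (n + h0) ≤ l ^ n := pow_le_pow_of_le_one hl0.le hl1 (by omega)
          _ ≤ (3 / 5 : ℝ) ^ n := pow_le_pow_left₀ hl0.le H.l_le n
      refine le_trans ?_ (hN1 n hnN1)
      apply mul_le_mul _ h1 (pow_nonneg hl0.le _) (by positivity)
      linarith
  have hτsq : 0 < 10 * tau ζ P ^ 2 := by positivity
  have hτn2 : tau ζ P ^ 2 * (n : ℝ) ^ 2 ≤ 1 / 625 := by
    have : (tau ζ P * n) ^ 2 ≤ (1 / 25) ^ 2 := pow_le_pow_left₀ (by positivity) hτn 2
    calc tau ζ P ^ 2 * (n : ℝ) ^ 2 = (tau ζ P * n) ^ 2 := by ring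
      _ ≤ (1 / 25) ^ 2 := this
      _ = 1 / 625 := by norm_num
  refine ⟨P, n + h0, W, Real.exp (-((W + 1) ^ 2 / 2)), ⌊1 / (10 * tau ζ P ^ 2)⌋₊, n,
    ⟨A, BB_auto H A, rfl, hn1, by omega, ?_, ?_⟩⟩
  · apply Nat.le_floor
    rw [le_div_iff₀ hτsq]
    push_cast
    have : 25 * (n : ℝ) * (10 * tau ζ P ^ 2) ≤ 250 * (tau ζ P ^ 2 * (n : ℝ) ^ 2) := by
      have h5 : (n : ℝ) ≤ (n : ℝ) ^ 2 := by nlinarith
      have h6 : 0 < tau ζ P ^ 2 := by positivity
      nlinarith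
    linarith
  · intro q hq1 hqn
    refine lt_of_lt_of_le ?_ (hnmin q hq1 hqn)
    set L : ℕ := ⌊1 / (10 * tau ζ P ^ 2)⌋₊ with hL
    have hL1 : 1 / (10 * tau ζ P ^ 2) < L + 1 := Nat.lt_floor_add_one _
    have hL2 : 1 / (20 * tau ζ P ^ 2) ≤ L := by
      have g1 : 1 / (10 * tau ζ P ^ 2) = 2 * (1 / (20 * tau ζ P ^ 2)) := by
        field_simp; norm_num
      have g2 : 1 ≤ 1 / (20 * tau ζ P ^ 2) := by
        rw [le_div_iff₀ (by positivity)]
        nlinarith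
      linarith
    have hLpos : (0 : ℝ) < L := lt_of_lt_of_le (by positivity) hL2
    have hdn : dd ζ n = tau ζ P / (4 * Real.pi * c) := by
      rw [hτ]; field_simp
    have h3 : 2 * Real.pi / L ≤ 40 * Real.pi * tau ζ P ^ 2 := by
      rw [div_le_iff₀ hLpos]
      rw [div_le_iff₀ (by positivity)] at hL2
      nlinarith
    refine lt_of_le_of_lt h3 ?_
    rw [hdn, lt_div_iff₀ h4pic0]
    have h4 : 160 * Real.pi ^ 2 * c * tau ζ P < 1 := by
      have g1 : Real.pi ^ 2 * c ≤ 10 * (1 / 2000) := mul_le_mul hpi2 hc1 hc0.le (by norm_num)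
      have g2 : Real.pi ^ 2 * c * tau ζ P ≤ 10 * (1 / 2000) * (1 / 75) :=
        mul_le_mul g1 hτ1 hτ0.le (by norm_num)
      nlinarith
    calc 40 * Real.pi * tau ζ P ^ 2 * (4 * Real.pi * c) =
          (160 * Real.pi ^ 2 * c * tau ζ P) * tau ζ P := by ring
      _ < 1 * tau ζ P := mul_lt_mul_of_pos_right h4 hτ0
      _ = tau ζ P := one_mul _

end Pool.Agent.H938
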