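import Mathlib

set_option autoImplicit false

namespace Pool.Agent.H938

open Polynomial

lemma coeff_quartic {R : Type*} [CommRing R] (e0 e1 e2 e3 : R) :
    (X ^ 4 + C e3 * X ^ 3 + C e2 * X ^ 2 + C e1 * X + C e0 : R[X]).coeff 0 = e0 ∧
    (X ^ 4 + C e3 * X ^ 3 + C e2 * X ^ 2 + C e1 * X + C e0 : R[X]).coeff 1 = e1 ∧
    (X ^ 4 + C e3 * X ^ 3 + C e2 * X ^ 2 + C e1 * X + C e0 : R[X]).coeff 2 = e2 ∧
    (X ^ 4 + C e3 * X ^ 3 + C e2 * X ^ 2 + C e1 * X + C e0 : R[X]).coeff 3 = e3 := by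
  refine ⟨?_, ?_, ?_, ?_⟩ <;> simp [coeff_X, coeff_C, coeff_X_pow, coeff_C_mul]

lemma quartic_mod_two : Irreducible (X ^ 4 - X ^ 3 - X ^ 2 - X + 1 : (ZMod 2)[X]) := by
  set p : (ZMod 2)[X] := X ^ 4 - X ^ 3 - X ^ 2 - X + 1 with hp
  have hdeg : p.natDegree = 4 := by rw [hp]; compute_degree!
  have hmon : p.Monic := by rw [hp]; monicity!
  have hp1 : p ≠ 1 := by
    intro h
    rw [h, natDegree_one] at hdeg
    omega
  rw [hmon.irreducible_iff_natDegree']
  refine ⟨hp1, ?_⟩
  intro f g hf hg hfg hdg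
  rw [hdeg, Finset.mem_Ioc] at hdg
  have hsum : f.natDegree + g.natDegree = 4 := by
    rw [← hf.natDegree_mul hg, hfg, hdeg]
  have hroot : ∀ x : ZMod 2, p.eval x ≠ 0 := by
    intro x
    rw [hp]
    simp only [eval_add, eval_sub, eval_pow, eval_X, eval_one]
    revert x
    decide
  have hcases : g.natDegree = 1 ∨ g.natDegree = 2 := by omega
  rcases hcases with h1 | h2
  · -- a linear factor
    have hg1 : g = X + C (g.coeff 0) := by
      have := hg.as_sum
      rw [h1] at this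
      simpa using this
    have hg0 : g.eval (-(g.coeff 0)) = 0 := by
      generalize g.coeff 0 = a at hg1
      rw [hg1]
      simp only [eval_add, eval_X, eval_C, neg_add_cancel]
    apply hroot (-(g.coeff 0))
    rw [← hfg, eval_mul, hg0, mul_zero]
  · have hf2 : f.natDegree = 2 := by omega
    have hg2 : g = X ^ 2 + (C (g.coeff 0) + C (g.coeff 1) * X) := by
      have := hg.as_sum
      rw [h2] at this
      simpa [Finset.sum_range_succ] using this
    have hf2' : f = X ^ 2 + (C (f.coeff 0) + C (f.coeff 1) * X) := by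
      have := hf.as_sum
      rw [hf2] at this
      simpa [Finset.sum_range_succ] using this
    set a := g.coeff 0
    set b := g.coeff 1
    set c := f.coeff 0
    set d := f.coeff 1
    have hprod : f * g = X ^ 4 + C (b + d) * X ^ 3 + C (a + c + b * d) * X ^ 2 +
        C (a * d + b * c) * X + C (a * c) := by
      rw [hf2', hg2]
      simp only [C_add, C_mul]
      ring
    have hpc : p = X ^ 4 + C (-1) * X ^ 3 + C (-1) * X ^ 2 + C (-1) * X + C 1 := by
      rw [hp]
      simp only [C_neg, C_1]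
      ring
    obtain ⟨u0, u1, u2, u3⟩ := coeff_quartic (a * c) (a * d + b * c) (a + c + b * d) (b + d)
    obtain ⟨v0, v1, v2, v3⟩ := coeff_quartic (1 : ZMod 2) (-1) (-1) (-1)
    rw [← hprod, hfg] at u0 u1 u2 u3
    rw [← hpc] at v0 v1 v2 v3
    rw [u0] at v0
    rw [u1] at v1
    rw [u2] at v2
    rw [u3] at v3
    clear u0 u1 u2 u3 hprod hpc
    clear_value a b c d
    clear hf2' hg2
    revert a b c d
    decide

/-- TARGET -/
theorem quartic_irreducible : Irreducible (X ^ 4 - X ^ 3 - X ^ 2 - X + 1 : ℚ[X]) := by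
  have hmon : (X ^ 4 - X ^ 3 - X ^ 2 - X + 1 : ℤ[X]).Monic := by monicity!
  have h1 : Irreducible (X ^ 4 - X ^ 3 - X ^ 2 - X + 1 : ℤ[X]) := by
    apply hmon.irreducible_of_irreducible_map (Int.castRingHom (ZMod 2))
    have : (X ^ 4 - X ^ 3 - X ^ 2 - X + 1 : ℤ[X]).map (Int.castRingHom (ZMod 2)) =
        X ^ 4 - X ^ 3 - X ^ 2 - X + 1 := by
      simp [Polynomial.map_sub]
    rw [this]
    exact quartic_mod_two
  have h2 := (IsPrimitive.Int.irreducible_iff_irreducible_map_cast hmon.isPrimitive).mp h1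
  have : (X ^ 4 - X ^ 3 - X ^ 2 - X + 1 : ℤ[X]).map (Int.castRingHom ℚ) =
      X ^ 4 - X ^ 3 - X ^ 2 - X + 1 := by
    simp [Polynomial.map_sub]
  rw [this] at h2
  exact h2

end Pool.Agent.H938
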