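import Pool.Agent.H938_Salem4.Defs
import Pool.Agent.H938_Salem4.D1

set_option autoImplicit false

namespace Pool.Agent.H938

open Polynomial

theorem d2_monic : (X ^ 4 - X ^ 3 - X ^ 2 - X + 1 : ℚ[X]).Monic := by
  monicity!

theorem d2_ker {A : Type*} [Field A] [Algebra ℚ A] {B : Type*} [Field B] [Algebra ℚ B]
    (a : A) (b : B) (ha : a ^ 4 - a ^ 3 - a ^ 2 - a + 1 = 0) (hb : b ^ 4 - b ^ 3 - b ^ 2 - b + 1 = 0)
    (Q : ℤ[X]) (hQ : aeval a Q = 0) : aeval b Q = 0 := by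
  have ha' : aeval a (X ^ 4 - X ^ 3 - X ^ 2 - X + 1 : ℚ[X]) = 0 := by
    simpa using ha
  have hb' : aeval b (X ^ 4 - X ^ 3 - X ^ 2 - X + 1 : ℚ[X]) = 0 := by
    simpa using hb
  have hm := minpoly.eq_of_irreducible_of_monic quartic_irreducible ha' d2_monic
  have hQ' : aeval a (Q.map (algebraMap ℤ ℚ)) = 0 := by
    rwa [aeval_map_algebraMap]
  have hd := minpoly.dvd ℚ a hQ'
  rw [← hm] at hd
  obtain ⟨R, hR⟩ := hd
  rw [← aeval_map_algebraMap ℚ b Q, hR, map_mul, hb', zero_mul]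

theorem d2_nat {a b c d : ℂ} (ha : a ^ 4 - a ^ 3 - a ^ 2 - a + 1 = 0)
    (hb : b ^ 4 - b ^ 3 - b ^ 2 - b + 1 = 0) (hc : c ^ 4 - c ^ 3 - c ^ 2 - c + 1 = 0)
    (hd : d ^ 4 - d ^ 3 - d ^ 2 - d + 1 = 0) (h1 : a + b + c + d = 1)
    (h2 : a ^ 2 + b ^ 2 + c ^ 2 + d ^ 2 = 3) (h3 : a ^ 3 + b ^ 3 + c ^ 3 + d ^ 3 = 7) (m : ℕ) :
    ∃ k : ℤ, a ^ m + b ^ m + c ^ m + d ^ m = k := by
  induction m using Nat.strong_induction_on with
  | _ m ih =>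
    rcases m with _ | _ | _ | _ | m
    · exact ⟨4, by norm_num⟩
    · exact ⟨1, by simpa using h1⟩
    · exact ⟨3, by simpa using h2⟩
    · exact ⟨7, by simpa using h3⟩
    · obtain ⟨k0, hk0⟩ := ih m (by omega)
      obtain ⟨k1, hk1⟩ := ih (m + 1) (by omega)
      obtain ⟨k2, hk2⟩ := ih (m + 2) (by omega)
      obtain ⟨k3, hk3⟩ := ih (m + 3) (by omega)
      refine ⟨k3 + k2 + k1 - k0, ?_⟩
      push_cast
      rw [← hk0, ← hk1, ← hk2, ← hk3]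
      linear_combination a ^ m * ha + b ^ m * hb + c ^ m * hc + d ^ m * hd

/-- TARGET -/
theorem S4_of_root {β : ℝ} (h1 : 1 < β) (h2 : β ^ 4 - β ^ 3 - β ^ 2 - β + 1 = 0) :
    ∃ ζ : ℂ, S4 β β⁻¹ ζ ∧ ∀ z : ℂ, z ^ 4 - z ^ 3 - z ^ 2 - z + 1 =
      (z - β) * (z - (β⁻¹ : ℝ)) * (z - ζ) * (z - (starRingEnd ℂ) ζ) := by
  have hb0 : 0 < β := by linarith
  have hbne : β ≠ 0 := hb0.ne'
  obtain ⟨l, hl⟩ : ∃ l, l = β⁻¹ := ⟨_, rfl⟩
  have hbl : β * l = 1 := by rw [hl]; exact mul_inv_cancel₀ hbne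
  have hl0 : 0 < l := by rw [hl]; positivity
  have hy : (β + l) ^ 2 - (β + l) - 3 = 0 := by
    have e : β ^ 2 * ((β + l) ^ 2 - (β + l) - 3) = 0 := by
      linear_combination h2 + (2 * β ^ 2 + (β * l + 1) - β) * hbl
    rcases mul_eq_zero.1 e with h | h
    · exact absurd h (pow_ne_zero _ hbne)
    · exact h
  have hy2 : 2 ≤ β + l := by nlinarith [sq_nonneg (β - 1), sq_nonneg (β - l)]
  have hy3 : β + l < 24 / 10 := by nlinarith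
  have hy4 : 34 / 15 < β + l := by nlinarith
  have hb2 : β < 2 := by
    by_contra hh
    have hh : 2 ≤ β := by linarith
    nlinarith [mul_nonneg (by linarith : (0 : ℝ) ≤ β - 2) hl0.le,
      mul_nonneg (by linarith : (0 : ℝ) ≤ β - 2) hb0.le]
  have hb53 : 5 / 3 ≤ β := by
    by_contra hh
    have hh : β < 5 / 3 := by linarith
    nlinarith [mul_pos (by linarith : (0 : ℝ) < 5 / 3 - β) (by linarith : (0 : ℝ) < β - 3 / 5)]
  have hl1 : 1 / 2 < l := by nlinarith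
  have hl2 : l ≤ 3 / 5 := by nlinarith
  obtain ⟨y, hyy⟩ : ∃ y, y = 1 - (β + l) := ⟨_, rfl⟩
  have hy5 : -(7 / 5) < y := by rw [hyy]; linarith
  have hy6 : y < 0 := by rw [hyy]; linarith
  have hpos : 0 ≤ 1 - y ^ 2 / 4 := by nlinarith
  obtain ⟨r, hr⟩ : ∃ r, r = Real.sqrt (1 - y ^ 2 / 4) := ⟨_, rfl⟩
  have hr2 : r ^ 2 = 1 - y ^ 2 / 4 := by rw [hr]; exact Real.sq_sqrt hpos
  obtain ⟨ζ, hζ⟩ : ∃ ζ : ℂ, ζ = ⟨y / 2, r⟩ := ⟨_, rfl⟩
  have hsum : ζ + (starRingEnd ℂ) ζ = (y : ℂ) := by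
    rw [hζ]
    apply Complex.ext <;> simp
  have hprod : ζ * (starRingEnd ℂ) ζ = 1 := by
    rw [Complex.mul_conj, hζ, Complex.normSq_mk]
    norm_cast
    nlinarith
  have hnorm : ‖ζ‖ = 1 := by
    have : ‖ζ‖ ^ 2 = 1 := by
      rw [← Complex.normSq_eq_norm_sq, hζ, Complex.normSq_mk]
      nlinarith
    nlinarith [norm_nonneg ζ]
  have hblC : (β : ℂ) * (l : ℂ) = 1 := by exact_mod_cast hbl
  have hyC : ((β : ℂ) + l) ^ 2 - (β + l) - 3 = 0 := by exact_mod_cast hy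
  have hyyC : (y : ℂ) = 1 - (β + l) := by rw [hyy]; push_cast; ring
  rw [← hl]
  have hfac : ∀ z : ℂ, z ^ 4 - z ^ 3 - z ^ 2 - z + 1 =
      (z - β) * (z - (l : ℝ)) * (z - ζ) * (z - (starRingEnd ℂ) ζ) := by
    intro z
    have e1 : (z - β) * (z - l) = z ^ 2 - (β + l) * z + 1 := by linear_combination hblC
    have e2 : (z - ζ) * (z - (starRingEnd ℂ) ζ) = z ^ 2 - y * z + 1 := by
      linear_combination hprod - z * hsum
    rw [mul_assoc ((z - β) * (z - l)), e1, e2, hyyC]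
    linear_combination (z ^ 2) * hyC
  have hrβ : (β : ℂ) ^ 4 - β ^ 3 - β ^ 2 - β + 1 = 0 := by rw [hfac]; simp
  have hrl : (l : ℂ) ^ 4 - l ^ 3 - l ^ 2 - l + 1 = 0 := by rw [hfac]; simp
  have hrζ : ζ ^ 4 - ζ ^ 3 - ζ ^ 2 - ζ + 1 = 0 := by rw [hfac]; simp
  have hrζ' : (starRingEnd ℂ ζ) ^ 4 - (starRingEnd ℂ ζ) ^ 3 - (starRingEnd ℂ ζ) ^ 2
      - (starRingEnd ℂ ζ) + 1 = 0 := by rw [hfac]; simp
  have hrlR : l ^ 4 - l ^ 3 - l ^ 2 - l + 1 = 0 := by exact_mod_cast hrl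
  have htr : ∀ m : ℕ, ∃ k : ℤ, β ^ m + l ^ m + 2 * (ζ ^ m).re = k := by
    intro m
    have hc1 : (β : ℂ) + l + ζ + starRingEnd ℂ ζ = 1 := by
      linear_combination hsum + hyyC
    have hc2 : (β : ℂ) ^ 2 + l ^ 2 + ζ ^ 2 + (starRingEnd ℂ ζ) ^ 2 = 3 := by
      have e : ζ ^ 2 + (starRingEnd ℂ ζ) ^ 2 = y ^ 2 - 2 := by
        rw [← hsum]; linear_combination (-2) * hprod
      have e' : (y : ℂ) ^ 2 = (1 - (β + l)) ^ 2 := by rw [hyyC]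
      linear_combination e + e' + 2 * hyC - 2 * hblC
    have hc3 : (β : ℂ) ^ 3 + l ^ 3 + ζ ^ 3 + (starRingEnd ℂ ζ) ^ 3 = 7 := by
      have e : ζ ^ 3 + (starRingEnd ℂ ζ) ^ 3 = y ^ 3 - 3 * y := by
        rw [← hsum]; linear_combination (-3 * (ζ + starRingEnd ℂ ζ)) * hprod
      have e' : (y : ℂ) ^ 3 - 3 * y = (1 - (β + l)) ^ 3 - 3 * (1 - (β + l)) := by rw [hyyC]
      linear_combination e + e' + 3 * hyC - 3 * (β + l) * hblC
    obtain ⟨k, hk⟩ := d2_nat hrβ hrl hrζ hrζ' hc1 hc2 hc3 m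
    refine ⟨k, ?_⟩
    have e := congrArg Complex.re hk
    rw [← map_pow] at e
    simp only [Complex.add_re, Complex.conj_re, Complex.intCast_re] at e
    rw [← Complex.ofReal_pow, ← Complex.ofReal_pow, Complex.ofReal_re, Complex.ofReal_re] at e
    linarith
  refine ⟨ζ, ⟨hl1, hl2, hbl, hnorm, ?_, ?_, ?_, ?_⟩, hfac⟩
  · intro m
    rcases Int.eq_nat_or_neg m with ⟨n, rfl | rfl⟩
    · simpa using htr n
    · obtain ⟨k, hk⟩ := htr n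
      refine ⟨k, ?_⟩
      have hζinv : ζ⁻¹ = starRingEnd ℂ ζ := inv_eq_of_mul_eq_one_right hprod
      have e1 : ζ ^ (-(n : ℤ)) = starRingEnd ℂ (ζ ^ n) := by
        rw [zpow_neg, zpow_natCast, map_pow, ← hζinv, inv_pow]
      have e2 : β ^ (-(n : ℤ)) = l ^ n := by
        rw [zpow_neg, zpow_natCast, hl, inv_pow]
      have e3 : l ^ (-(n : ℤ)) = β ^ n := by
        rw [zpow_neg, zpow_natCast, hl, inv_pow, inv_inv]
      rw [e1, e2, e3, Complex.conj_re]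
      linarith
  · exact fun Q hQ => d2_ker β ζ h2 hrζ Q hQ
  · exact fun Q hQ => d2_ker l ζ hrlR hrζ Q hQ
  · exact fun Q hQ => d2_ker ζ β hrζ h2 Q hQ

end Pool.Agent.H938
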