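import Pool.Agent.H938_Salem4.Defs

set_option autoImplicit false

namespace Pool.Agent.H938

open Polynomial

theorem aeval_conj_int (Q : ℤ[X]) (z : ℂ) (h : aeval (starRingEnd ℂ z) Q = 0) : aeval z Q = 0 := by
  have h1 : starRingEnd ℂ (aeval z Q) = aeval (starRingEnd ℂ z) Q := by
    rw [aeval_def, aeval_def, hom_eval₂]
    congr 1
    ext
    simp
  rw [h] at h1
  exact (map_eq_zero _).1 h1

/-- TARGET -/
theorem S4_of_salem {β : ℝ} (h1 : 1 < β) (h2 : β < 2) (hint : IsIntegral ℤ β)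
    (hdeg : (minpoly ℚ β).natDegree = 4)
    (hle : ∀ z ∈ (minpoly ℚ β).aroots ℂ, z ≠ (β : ℂ) → ‖z‖ ≤ 1)
    (hone : ∃ z ∈ (minpoly ℚ β).aroots ℂ, ‖z‖ = 1) : ∃ ζ : ℂ, S4 β β⁻¹ ζ := by
  obtain ⟨z, hz, hnz⟩ := hone
  have hQ : minpoly ℚ β = (minpoly ℤ β).map (algebraMap ℤ ℚ) :=
    minpoly.isIntegrallyClosed_eq_field_fractions' ℚ hint
  have hmon : (minpoly ℤ β).Monic := minpoly.monic hint
  have hdegZ : (minpoly ℤ β).natDegree = 4 := by
    rw [hQ, hmon.natDegree_map] at hdeg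
    exact hdeg
  have hzp : aeval z (minpoly ℤ β) = 0 := by
    have h := (mem_aroots.1 hz).2
    rw [hQ, aeval_map_algebraMap] at h
    exact h
  have hirr : Irreducible (minpoly ℤ β) := minpoly.irreducible hint
  have kerβ : ∀ Q : ℤ[X], aeval β Q = 0 → aeval z Q = 0 := by
    intro Q hQ0
    obtain ⟨R, hR⟩ := minpoly.isIntegrallyClosed_dvd hint hQ0
    rw [hR, map_mul, hzp, zero_mul]
  have hzint : IsIntegral ℤ z := ⟨minpoly ℤ β, hmon, by rwa [← aeval_def]⟩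
  have kerζ : ∀ Q : ℤ[X], aeval z Q = 0 → aeval β Q = 0 := by
    intro Q hQ0
    have hd1 : minpoly ℤ z ∣ minpoly ℤ β := minpoly.isIntegrallyClosed_dvd hzint hzp
    have hd2 : minpoly ℤ β ∣ minpoly ℤ z :=
      (minpoly.irreducible hzint).dvd_symm hirr hd1
    obtain ⟨R, hR⟩ := hd2.trans (minpoly.isIntegrallyClosed_dvd hzint hQ0)
    rw [hR, map_mul, minpoly.aeval, zero_mul]
  have hβ0 : β ≠ 0 := by positivity
  have hz0 : z ≠ 0 := by
    intro h
    rw [h, norm_zero] at hnz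
    exact zero_ne_one hnz
  have hconj : starRingEnd ℂ z = z⁻¹ := by
    rw [Complex.inv_def, Complex.normSq_eq_norm_sq, hnz]
    simp
  have kerl : ∀ Q : ℤ[X], aeval β⁻¹ Q = 0 → aeval z Q = 0 := by
    intro Q hQ0
    have := invertibleOfNonzero (inv_ne_zero hβ0)
    have := invertibleOfNonzero (inv_ne_zero hz0)
    rw [aeval_def, ← eval₂_reverse_eq_zero_iff, invOf_eq_inv, inv_inv, ← aeval_def] at hQ0
    have h3 := kerβ _ hQ0
    apply aeval_conj_int
    rw [hconj, aeval_def, ← eval₂_reverse_eq_zero_iff, invOf_eq_inv, inv_inv, ← aeval_def]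
    exact h3
  -- coefficients
  obtain ⟨c0, hc0⟩ : ∃ c : ℤ, (minpoly ℤ β).coeff 0 = c := ⟨_, rfl⟩
  obtain ⟨c1, hc1⟩ : ∃ c : ℤ, (minpoly ℤ β).coeff 1 = c := ⟨_, rfl⟩
  obtain ⟨b, hc2⟩ : ∃ c : ℤ, (minpoly ℤ β).coeff 2 = c := ⟨_, rfl⟩
  obtain ⟨c3, hc3⟩ : ∃ c : ℤ, (minpoly ℤ β).coeff 3 = c := ⟨_, rfl⟩
  have hc4 : (minpoly ℤ β).coeff 4 = 1 := by
    rw [← hdegZ]
    exact hmon
  have hpβ : (c0 : ℝ) + c1 * β + b * β ^ 2 + c3 * β ^ 3 + β ^ 4 = 0 := by
    have h := minpoly.aeval ℤ β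
    rw [aeval_eq_sum_range, hdegZ] at h
    simp only [Finset.sum_range_succ, Finset.sum_range_zero, hc0, hc1, hc2, hc3, hc4] at h
    simpa using h
  have hpz : (c0 : ℂ) + c1 * z + b * z ^ 2 + c3 * z ^ 3 + z ^ 4 = 0 := by
    have h := hzp
    rw [aeval_eq_sum_range, hdegZ] at h
    simp only [Finset.sum_range_succ, Finset.sum_range_zero, hc0, hc1, hc2, hc3, hc4] at h
    simpa using h
  have lin4 : ∀ d0 d1 d2 d3 : ℤ, (d0 : ℝ) + d1 * β + d2 * β ^ 2 + d3 * β ^ 3 = 0 →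
      d0 = 0 ∧ d1 = 0 ∧ d2 = 0 ∧ d3 = 0 := by
    intro d0 d1 d2 d3 hd
    have hD : (C d0 + C d1 * X + C d2 * X ^ 2 + C d3 * X ^ 3 : ℤ[X]) = 0 := by
      by_contra hne
      have h3 : aeval β (C d0 + C d1 * X + C d2 * X ^ 2 + C d3 * X ^ 3 : ℤ[X]) = 0 := by
        simpa using hd
      have h4 := minpoly.isIntegrallyClosed_dvd hint h3
      have h5 := natDegree_le_of_dvd h4 hne
      have h6 : (C d0 + C d1 * X + C d2 * X ^ 2 + C d3 * X ^ 3 : ℤ[X]).natDegree ≤ 3 := by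
        compute_degree
      omega
    refine ⟨?_, ?_, ?_, ?_⟩
    · have := congrArg (fun p : ℤ[X] => p.coeff 0) hD
      simpa only [coeff_add, coeff_C_mul, coeff_X, coeff_X_pow, coeff_C, coeff_zero, mul_ite, mul_one,
        mul_zero, OfNat.ofNat_ne_zero, OfNat.ofNat_ne_one, OfNat.zero_ne_ofNat, OfNat.one_ne_ofNat, one_ne_zero, zero_ne_one,
        if_true, if_false, add_zero, zero_add, Nat.reduceEqDiff, reduceIte] using this
    · have := congrArg (fun p : ℤ[X] => p.coeff 1) hD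
      simpa only [coeff_add, coeff_C_mul, coeff_X, coeff_X_pow, coeff_C, coeff_zero, mul_ite, mul_one,
        mul_zero, OfNat.ofNat_ne_zero, OfNat.ofNat_ne_one, OfNat.zero_ne_ofNat, OfNat.one_ne_ofNat, one_ne_zero, zero_ne_one,
        if_true, if_false, add_zero, zero_add, Nat.reduceEqDiff, reduceIte] using this
    · have := congrArg (fun p : ℤ[X] => p.coeff 2) hD
      simpa only [coeff_add, coeff_C_mul, coeff_X, coeff_X_pow, coeff_C, coeff_zero, mul_ite, mul_one,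
        mul_zero, OfNat.ofNat_ne_zero, OfNat.ofNat_ne_one, OfNat.zero_ne_ofNat, OfNat.one_ne_ofNat, one_ne_zero, zero_ne_one,
        if_true, if_false, add_zero, zero_add, Nat.reduceEqDiff, reduceIte] using this
    · have := congrArg (fun p : ℤ[X] => p.coeff 3) hD
      simpa only [coeff_add, coeff_C_mul, coeff_X, coeff_X_pow, coeff_C, coeff_zero, mul_ite, mul_one,
        mul_zero, OfNat.ofNat_ne_zero, OfNat.ofNat_ne_one, OfNat.zero_ne_ofNat, OfNat.one_ne_ofNat, one_ne_zero, zero_ne_one,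
        if_true, if_false, add_zero, zero_add, Nat.reduceEqDiff, reduceIte] using this
  -- the reciprocal polynomial
  have hrec : (c0 : ℝ) * β ^ 4 + c1 * β ^ 3 + b * β ^ 2 + c3 * β + 1 = 0 := by
    have h3 : aeval z (C c0 * X ^ 4 + C c1 * X ^ 3 + C b * X ^ 2 + C c3 * X + 1 : ℤ[X]) = 0 := by
      apply aeval_conj_int
      rw [hconj]
      have h4 : (c0 : ℂ) * z⁻¹ ^ 4 + c1 * z⁻¹ ^ 3 + b * z⁻¹ ^ 2 + c3 * z⁻¹ + 1 =
          z⁻¹ ^ 4 * ((c0 : ℂ) + c1 * z + b * z ^ 2 + c3 * z ^ 3 + z ^ 4) := by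
        field_simp
      have h5 : (c0 : ℂ) * z⁻¹ ^ 4 + c1 * z⁻¹ ^ 3 + b * z⁻¹ ^ 2 + c3 * z⁻¹ + 1 = 0 := by
        rw [h4, hpz, mul_zero]
      simpa using h5
    have h6 := kerζ _ h3
    simpa using h6
  obtain ⟨e0, e1, e2, e3⟩ := lin4 (1 - c0 * c0) (c3 - c0 * c1) (b - c0 * b) (c1 - c0 * c3) (by
    push_cast
    linear_combination hrec - (c0 : ℝ) * hpβ)
  have hc0' : c0 = 1 := by
    have h3 : (c0 - 1) * (c0 + 1) = 0 := by linarith
    rcases mul_eq_zero.1 h3 with h | h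
    · linarith
    · exfalso
      have h4 : c0 = -1 := by linarith
      subst h4
      have h5 : b = 0 := by linarith
      have h6 : c1 = -c3 := by linarith
      subst h5 h6
      have h7 : (β - 1) * ((β + 1) * (β ^ 2 + c3 * β + 1)) = 0 := by
        push_cast at hpβ
        linear_combination hpβ
      rcases mul_eq_zero.1 h7 with h | h
      · linarith
      rcases mul_eq_zero.1 h with h | h
      · linarith
      · have := lin4 1 c3 1 0 (by push_cast; linear_combination h)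
        omega
  subst hc0'
  have hc13 : c1 = c3 := by linarith
  subst hc13
  obtain ⟨a, rfl⟩ : ∃ a : ℤ, c1 = -a := ⟨-c1, by ring⟩
  push_cast at hpβ hpz
  -- y1 and y2
  obtain ⟨y1, hy1⟩ : ∃ y : ℝ, y = β + β⁻¹ := ⟨_, rfl⟩
  obtain ⟨y2, hy2⟩ : ∃ y : ℝ, y = 2 * z.re := ⟨_, rfl⟩
  have hbl : β * β⁻¹ = 1 := mul_inv_cancel₀ hβ0
  have hl0 : 0 < β⁻¹ := by positivity
  have hqy1 : y1 ^ 2 - a * y1 + (b - 2) = 0 := by
    have h3 : β ^ 2 * (y1 ^ 2 - a * y1 + (b - 2)) = 0 := by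
      rw [hy1]
      have : β ^ 2 * ((β + β⁻¹) ^ 2 - a * (β + β⁻¹) + (b - 2)) =
          1 + -a * β + b * β ^ 2 + -a * β ^ 3 + β ^ 4 := by
        field_simp
        ring
      rw [this]
      linear_combination hpβ
    rcases mul_eq_zero.1 h3 with h | h
    · exact absurd (pow_eq_zero_iff (two_ne_zero) |>.1 h) hβ0
    · exact h
  have hy2c : ((y2 : ℝ) : ℂ) = z + z⁻¹ := by
    rw [hy2, ← hconj, Complex.add_conj]
  have hqy2 : y2 ^ 2 - a * y2 + (b - 2) = 0 := by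
    have h3 : z ^ 2 * (((y2 : ℝ) : ℂ) ^ 2 - a * ((y2 : ℝ) : ℂ) + (b - 2)) = 0 := by
      rw [hy2c]
      have : z ^ 2 * ((z + z⁻¹) ^ 2 - a * (z + z⁻¹) + (b - 2)) =
          1 + -a * z + b * z ^ 2 + -a * z ^ 3 + z ^ 4 := by
        field_simp
        ring
      rw [this]
      linear_combination hpz
    rcases mul_eq_zero.1 h3 with h | h
    · exact absurd (pow_eq_zero_iff (two_ne_zero) |>.1 h) hz0
    · exact_mod_cast h
  have hy1gt : 2 < y1 := by
    have h3 : 0 < (β - 1) ^ 2 * β⁻¹ := by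
      have : 0 < β - 1 := by linarith
      positivity
    have h4 : (β - 1) ^ 2 * β⁻¹ = y1 - 2 := by
      rw [hy1]; field_simp; ring
    linarith
  have hy1lt : y1 < 5 / 2 := by
    have h3 : 0 < (2 - β) * (β - 1 / 2) * β⁻¹ := by
      have h4 : 0 < 2 - β := by linarith
      have h5 : 0 < β - 1 / 2 := by linarith
      positivity
    have h4 : (2 - β) * (β - 1 / 2) * β⁻¹ = 5 / 2 - y1 := by
      rw [hy1]; field_simp; ring
    linarith
  have hre : |z.re| ≤ 1 := by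
    rw [← hnz]; exact Complex.abs_re_le_norm z
  have hy2le : y2 ≤ 2 := by have := (abs_le.1 hre).2; linarith
  have hy2ge : -2 ≤ y2 := by have := (abs_le.1 hre).1; linarith
  have hsum : y1 + y2 = a := by
    have h3 : (y1 - y2) * (y1 + y2 - a) = 0 := by linear_combination hqy1 - hqy2
    rcases mul_eq_zero.1 h3 with h | h
    · linarith
    · linarith
  have hprod : y1 * y2 = b - 2 := by
    have : (a : ℝ) = y1 + y2 := hsum.symm
    rw [this] at hqy1
    linear_combination -hqy1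
  have hn1 : b - 2 * a + 2 ≠ 0 := by
    intro h
    have hb : b = 2 * a - 2 := by linarith
    have h3 : (β - 1) ^ 2 * (β ^ 2 + (2 - a) * β + 1) = 0 := by
      have hb' : (b : ℝ) = 2 * a - 2 := by exact_mod_cast hb
      rw [hb'] at hpβ
      linear_combination hpβ
    rcases mul_eq_zero.1 h3 with h | h
    · have := pow_eq_zero_iff (two_ne_zero) |>.1 h
      linarith
    · have := lin4 1 (2 - a) 1 0 (by push_cast; linear_combination h)
      omega
  have hn2 : b + 2 * a + 2 ≠ 0 := by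
    intro h
    have hb : b = -2 * a - 2 := by linarith
    have h3 : (β + 1) ^ 2 * (β ^ 2 - (2 + a) * β + 1) = 0 := by
      have hb' : (b : ℝ) = -2 * a - 2 := by exact_mod_cast hb
      rw [hb'] at hpβ
      linear_combination hpβ
    rcases mul_eq_zero.1 h3 with h | h
    · have := pow_eq_zero_iff (two_ne_zero) |>.1 h
      linarith
    · have := lin4 1 (-(2 + a)) 1 0 (by push_cast; linear_combination h)
      omega
  have hi1 : b - 2 * a + 2 ≤ 0 := by
    have : (b : ℝ) - 2 * a + 2 ≤ 0 := by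
      rw [← hsum]
      have : (b : ℝ) = y1 * y2 + 2 := by linarith
      rw [this]
      nlinarith
    exact_mod_cast this
  have hi2 : 0 ≤ b + 2 * a + 2 := by
    have : 0 ≤ (b : ℝ) + 2 * a + 2 := by
      rw [← hsum]
      have : (b : ℝ) = y1 * y2 + 2 := by linarith
      rw [this]
      nlinarith
    exact_mod_cast this
  have hi3 : 0 < 4 * b - 10 * a + 17 := by
    have : 0 < 4 * (b : ℝ) - 10 * a + 17 := by
      rw [← hsum]
      have : (b : ℝ) = y1 * y2 + 2 := by linarith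
      rw [this]
      nlinarith
    exact_mod_cast this
  have hcases : (a = 1 ∧ b = -1) ∨ (a = 2 ∧ b = 1) := by omega
  have hle35 : β⁻¹ ≤ 3 / 5 := by
    by_contra hcon
    rw [not_le] at hcon
    have hβlt : β < 5 / 3 := by
      by_contra h
      rw [not_lt] at h
      nlinarith
    have h3 : 0 < (5 / 3 - β) * (β - 3 / 5) * β⁻¹ := by
      have h4 : 0 < 5 / 3 - β := by linarith
      have h5 : 0 < β - 3 / 5 := by linarith
      positivity
    have h4 : (5 / 3 - β) * (β - 3 / 5) * β⁻¹ = 34 / 15 - y1 := by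
      rw [hy1]; field_simp; ring
    have h5 : y1 < 34 / 15 := by linarith
    rcases hcases with ⟨ha, hb⟩ | ⟨ha, hb⟩
    · rw [ha, hb] at hqy1
      push_cast at hqy1
      nlinarith
    · rw [ha, hb] at hqy1
      push_cast at hqy1
      nlinarith
  -- traces
  have hrecβ : ∀ n : ℕ, β ^ (n + 4) = a * β ^ (n + 3) - b * β ^ (n + 2) + a * β ^ (n + 1) - β ^ n := by
    intro n
    linear_combination β ^ n * hpβ
  have hpl : (1 : ℝ) - a * β⁻¹ + b * β⁻¹ ^ 2 - a * β⁻¹ ^ 3 + β⁻¹ ^ 4 = 0 := by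
    have : (1 : ℝ) - a * β⁻¹ + b * β⁻¹ ^ 2 - a * β⁻¹ ^ 3 + β⁻¹ ^ 4 =
        β⁻¹ ^ 4 * (1 + -a * β + b * β ^ 2 + -a * β ^ 3 + β ^ 4) := by
      field_simp
      ring
    rw [this]
    linear_combination β⁻¹ ^ 4 * hpβ
  have hrecl : ∀ n : ℕ, β⁻¹ ^ (n + 4) =
      a * β⁻¹ ^ (n + 3) - b * β⁻¹ ^ (n + 2) + a * β⁻¹ ^ (n + 1) - β⁻¹ ^ n := by
    intro n
    linear_combination β⁻¹ ^ n * hpl
  have hrecz : ∀ n : ℕ, (z ^ (n + 4)).re =
      a * (z ^ (n + 3)).re - b * (z ^ (n + 2)).re + a * (z ^ (n + 1)).re - (z ^ n).re := by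
    intro n
    have h3 : z ^ (n + 4) = a * z ^ (n + 3) - b * z ^ (n + 2) + a * z ^ (n + 1) - z ^ n := by
      linear_combination z ^ n * hpz
    have h4 := congrArg Complex.re h3
    rw [h4]
    simp only [Complex.add_re, Complex.sub_re, Complex.mul_re, Complex.intCast_re,
      Complex.intCast_im, zero_mul, sub_zero]
  have hnat : ∀ n : ℕ, (∃ k : ℤ, β ^ n + β⁻¹ ^ n + 2 * (z ^ n).re = k) ∧
      (∃ k : ℤ, β ^ (n + 1) + β⁻¹ ^ (n + 1) + 2 * (z ^ (n + 1)).re = k) ∧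
      (∃ k : ℤ, β ^ (n + 2) + β⁻¹ ^ (n + 2) + 2 * (z ^ (n + 2)).re = k) ∧
      (∃ k : ℤ, β ^ (n + 3) + β⁻¹ ^ (n + 3) + 2 * (z ^ (n + 3)).re = k) := by
    intro n
    induction n with
    | zero =>
      have hz2 : 2 * (z ^ 2).re = y2 ^ 2 - 2 := by
        have h3 : ((y2 : ℝ) : ℂ) ^ 2 - 2 = z ^ 2 + (starRingEnd ℂ) (z ^ 2) := by
          rw [map_pow, hconj, hy2c]
          field_simp
          ring
        rw [Complex.add_conj] at h3
        exact_mod_cast h3.symm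
      have hz3 : 2 * (z ^ 3).re = y2 ^ 3 - 3 * y2 := by
        have h3 : ((y2 : ℝ) : ℂ) ^ 3 - 3 * (y2 : ℂ) = z ^ 3 + (starRingEnd ℂ) (z ^ 3) := by
          rw [map_pow, hconj, hy2c]
          field_simp
          ring
        rw [Complex.add_conj] at h3
        exact_mod_cast h3.symm
      refine ⟨⟨4, by simp; norm_num⟩, ⟨a, ?_⟩, ⟨a ^ 2 - 2 * b, ?_⟩,
        ⟨a ^ 3 - 3 * a * (b - 2) - 3 * a, ?_⟩⟩
      · rw [zero_add, pow_one, pow_one, pow_one, ← hy1, ← hy2]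
        exact hsum
      · rw [zero_add, hz2]
        push_cast
        have h3 : β ^ 2 + β⁻¹ ^ 2 = y1 ^ 2 - 2 := by
          rw [hy1]; linear_combination (-2) * hbl
        rw [h3, ← hsum]
        have : (b : ℝ) = y1 * y2 + 2 := by linarith
        rw [this]
        ring
      · rw [zero_add, hz3]
        push_cast
        have h3 : β ^ 3 + β⁻¹ ^ 3 = y1 ^ 3 - 3 * y1 := by
          rw [hy1]; linear_combination (-3 * β - 3 * β⁻¹) * hbl
        rw [h3, ← hsum]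
        have : (b : ℝ) = y1 * y2 + 2 := by linarith
        rw [this]
        ring
    | succ n ih =>
      obtain ⟨⟨k0, i0⟩, ⟨k1, i1⟩, ⟨k2, i2⟩, ⟨k3, i3⟩⟩ := ih
      refine ⟨⟨k1, i1⟩, ⟨k2, i2⟩, ⟨k3, i3⟩, ⟨a * k3 - b * k2 + a * k1 - k0, ?_⟩⟩
      have e1 : n + 1 + 3 = n + 4 := by ring
      rw [e1, hrecβ, hrecl, hrecz]
      push_cast
      rw [← i0, ← i1, ← i2, ← i3]
      ring
  refine ⟨z, ?_, hle35, hbl, hnz, ?_, kerβ, kerl, kerζ⟩
  · rw [lt_inv_comm₀ (by norm_num) (by linarith)]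
    norm_num
    exact h2
  · intro m
    have hconjpow : ∀ n : ℕ, (z⁻¹ ^ n).re = (z ^ n).re := by
      intro n
      rw [← hconj, ← map_pow, Complex.conj_re]
    rcases Int.eq_nat_or_neg m with ⟨n, rfl | rfl⟩
    · obtain ⟨k, hk⟩ := (hnat n).1
      exact ⟨k, by simpa using hk⟩
    · obtain ⟨k, hk⟩ := (hnat n).1
      refine ⟨k, ?_⟩
      rw [zpow_neg, zpow_neg, zpow_neg, zpow_natCast, zpow_natCast, zpow_natCast, ← inv_pow,
        ← inv_pow, inv_inv, ← inv_pow, hconjpow]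
      linarith

end Pool.Agent.H938
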