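import Pool.Agent.H938_Salem4.D3

set_option autoImplicit false

namespace Pool.Agent.H938

open Polynomial

/-- a Salem number of degree four in `(1,2)` -/
theorem salem_hyp_four : ∃ l : ℝ, 1 / 2 < l ∧ l < 1 ∧ (minpoly ℚ l⁻¹).natDegree = 4 ∧
      (IsIntegral ℤ l⁻¹ ∧ 1 < l⁻¹ ∧
        (∀ z ∈ (minpoly ℚ l⁻¹).aroots ℂ, z ≠ ((l⁻¹ : ℝ) : ℂ) → ‖z‖ ≤ 1) ∧
        (∃ z ∈ (minpoly ℚ l⁻¹).aroots ℂ, ‖z‖ = 1)) ∧ ∃ ζ : ℂ, S4 l⁻¹ l ζ := by
  obtain ⟨β, hβ, hβ0⟩ : ∃ β ∈ Set.Icc (17 / 10 : ℝ) (18 / 10),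
      β ^ 4 - β ^ 3 - β ^ 2 - β + 1 = 0 := by
    have hc : ContinuousOn (fun x : ℝ => x ^ 4 - x ^ 3 - x ^ 2 - x + 1)
        (Set.Icc (17 / 10 : ℝ) (18 / 10)) := by fun_prop
    have h := intermediate_value_Icc (by norm_num : (17 / 10 : ℝ) ≤ 18 / 10) hc
    have h0 : (0 : ℝ) ∈ Set.Icc ((fun x : ℝ => x ^ 4 - x ^ 3 - x ^ 2 - x + 1) (17 / 10))
        ((fun x : ℝ => x ^ 4 - x ^ 3 - x ^ 2 - x + 1) (18 / 10)) := by
      constructor <;> norm_num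
    obtain ⟨β, hβ, h1⟩ := h h0
    exact ⟨β, hβ, h1⟩
  have h1 : 1 < β := by have := hβ.1; linarith
  have hpos : 0 < β := by linarith
  obtain ⟨ζ, hS, hfac⟩ := S4_of_root h1 hβ0
  have hmin : minpoly ℚ β = X ^ 4 - X ^ 3 - X ^ 2 - X + 1 := by
    refine (minpoly.eq_of_irreducible_of_monic quartic_irreducible ?_ salem_hyp_monic).symm
    simpa using hβ0
  have hmem : ∀ z : ℂ, z ∈ (minpoly ℚ β).aroots ℂ ↔ z ^ 4 - z ^ 3 - z ^ 2 - z + 1 = 0 := by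
    intro z
    rw [mem_aroots, hmin]
    constructor
    · rintro ⟨_, h⟩
      simpa using h
    · intro h
      exact ⟨salem_hyp_monic.ne_zero, by simpa using h⟩
  have hinv : β⁻¹ < 1 := inv_lt_one_of_one_lt₀ h1
  have hinv2 : 1 / 2 < β⁻¹ := by
    rw [one_div, inv_lt_inv₀ (by norm_num) hpos]
    have := hβ.2; linarith
  refine ⟨β⁻¹, hinv2, hinv, ?_, ?_, ?_⟩
  · rw [inv_inv, hmin]
    compute_degree!
  · rw [inv_inv]
    refine ⟨⟨X ^ 4 - X ^ 3 - X ^ 2 - X + 1, salem_hyp_monic, ?_⟩, h1, ?_, ?_⟩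
    · simpa using hβ0
    · intro z hz hne
      rw [hmem, hfac] at hz
      rcases mul_eq_zero.1 hz with hz | hz
      · rcases mul_eq_zero.1 hz with hz | hz
        · rcases mul_eq_zero.1 hz with hz | hz
          · exact absurd (sub_eq_zero.1 hz) hne
          · rw [sub_eq_zero.1 hz, Complex.norm_real, Real.norm_eq_abs,
              abs_of_pos (inv_pos.2 hpos)]
            exact hinv.le
        · rw [sub_eq_zero.1 hz, hS.nz]
      · rw [sub_eq_zero.1 hz, Complex.norm_conj, hS.nz]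
    · refine ⟨ζ, ?_, hS.nz⟩
      rw [hmem, hfac, sub_self, mul_zero, zero_mul]
  · rw [inv_inv]
    exact ⟨ζ, hS⟩

end Pool.Agent.H938
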