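import Mathlib

/-!
Common definitions for the degree-four Salem project (helper938, paper 72).

`S4 β l ζ` : standing hypotheses.  In the application `β` is the real root `> 1` of
`x^4-x^3-x^2-x+1`, `l = 1/β` and `ζ` is a root on the unit circle.
-/

set_option autoImplicit false

namespace Pool.Agent.H938

open Polynomial

/-- Standing hypotheses on `β`, `l = 1/β` and the unimodular number `ζ`. -/
structure S4 (β l : ℝ) (ζ : ℂ) : Prop where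
  l_half : 1 / 2 < l
  l_le : l ≤ 3 / 5
  bl : β * l = 1
  nz : ‖ζ‖ = 1
  tr : ∀ m : ℤ, ∃ k : ℤ, β ^ m + l ^ m + 2 * (ζ ^ m).re = k
  kerβ : ∀ Q : ℤ[X], aeval β Q = 0 → aeval ζ Q = 0
  kerl : ∀ Q : ℤ[X], aeval l Q = 0 → aeval ζ Q = 0
  kerζ : ∀ Q : ℤ[X], aeval ζ Q = 0 → aeval β Q = 0

/-- `Phi l M x = ∏_{k < M} cos (x l^k)`, the characteristic function of `∑_{k<M} ± l^k`. -/
noncomputable def Phi (l : ℝ) (M : ℕ) (x : ℝ) : ℝ :=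
  ∏ k ∈ Finset.range M, Real.cos (x * l ^ k)

/-- the frequencies `t_j = π P(β) β^j`, `j ∈ ℤ` -/
noncomputable def tP (β : ℝ) (P : ℤ[X]) (j : ℤ) : ℝ :=
  Real.pi * aeval β P * β ^ j

/-- `T_j = tan t_j` -/
noncomputable def TP (β : ℝ) (P : ℤ[X]) (j : ℤ) : ℝ :=
  Real.tan (tP β P j)

/-- `τ = 4 π |P(ζ)|` -/
noncomputable def tau (ζ : ℂ) (P : ℤ[X]) : ℝ :=
  4 * Real.pi * ‖aeval ζ P‖

/-- `d(n) = |ζ^n - 1|` -/
noncomputable def dd (ζ : ℂ) (n : ℕ) : ℝ := ‖ζ ^ n - 1‖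

/-- Admissible triples `(P, h, W)`. -/
structure Adm (β l : ℝ) (ζ : ℂ) (P : ℤ[X]) (h : ℕ) (W : ℝ) : Prop where
  ten : 10 ≤ h
  k_one : 1 ≤ aeval β P
  k_le : 8 * aeval β P ≤ β ^ h
  k1_le : 1000 * |aeval l P| ≤ β ^ h
  s_pos : 0 < ‖aeval ζ P‖
  s_le : 16 * ‖aeval ζ P‖ ≤ 1
  a3 : ∑ j ∈ Finset.Ioo (-(h : ℤ)) (h : ℤ), |TP β P j| + 6 ≤ W
  a4 : 2 * tau ζ P * W ≤ 1 / 1000
  a5 : 2 * W * l ^ h ≤ 1 / 1000

/-- `B(b)`: all finite products at `t_h` are at least `b` in absolute value. -/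
def BB (β l : ℝ) (P : ℤ[X]) (h : ℕ) (b : ℝ) : Prop :=
  0 < b ∧ ∀ M : ℕ, b ≤ |Phi l M (tP β P h)|

/-- States of the recursion (Lemma 6). -/
structure St (β l : ℝ) (ζ : ℂ) (P : ℤ[X]) (h : ℕ) (W b : ℝ) (L Lp : ℕ) : Prop where
  adm : Adm β l ζ P h W
  bb : BB β l P h b
  hL : L = ⌊1 / (10 * tau ζ P ^ 2)⌋₊
  hLp : 1 ≤ Lp
  n1 : 4 * h ≤ 5 * Lp
  n2 : 25 * Lp ≤ L
  n3 : ∀ q : ℕ, 1 ≤ q → q ≤ Lp → 2 * Real.pi / L < dd ζ q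

/-- The conclusion of the main resonance theorem, for a given `K`. -/
structure Res (β l : ℝ) (ζ : ℂ) (P : ℤ[X]) (h N : ℕ) (K : ℝ) : Prop where
  ten : 10 ≤ h
  hN : h ≤ N
  k_one : 1 ≤ aeval β P
  k_le : 8 * aeval β P ≤ β ^ h
  k1_le : 1000 * |aeval l P| ≤ β ^ h
  s_pos : 0 < ‖aeval ζ P‖
  m2 : tau ζ P ^ 2 * (N + 2 * h) ≤ 1 / 10
  lh : l ^ h ≤ 1 / 12000
  m3 : ∀ M : ℕ, K * h ≤ ∑ n ∈ Finset.Icc h N, Phi l M (tP β P n) ^ 2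
  m4 : ∀ (M n m : ℕ), h ≤ m → n ≤ N → m + 4 * h ≤ n →
    |Phi l M (tP β P n - tP β P m) - Phi l M (tP β P n) * Phi l M (tP β P m)| ≤
      4 / 1000 * |Phi l M (tP β P n) * Phi l M (tP β P m)|
  m5 : ∀ (M n : ℕ), h ≤ n → n ≤ N → N + 2 * h ≤ M →
    |Phi l M (tP β P n) - Phi l (N + 2 * h) (tP β P n)| ≤
      1 / 1000 * |Phi l (N + 2 * h) (tP β P n)|

end Pool.Agent.H938
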