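import Pool.Agent.H938_Salem4.Defs

/-!
Definitions for the entropy part (R2) of the degree-four Salem project (helper938, paper 72).
-/

set_option autoImplicit false

namespace Pool.Agent.H938

open Polynomial

/-- the `i`-th sign of `ω` (zero outside the range) -/
noncomputable def xs {n : ℕ} (ω : Fin n → Bool) (i : ℕ) : ℝ :=
  if h : i < n then (if ω ⟨i, h⟩ then 1 else -1) else 0

/-- `S(ω) = ∑_{i<n} ± l^i` -/
noncomputable def SS (l : ℝ) {n : ℕ} (ω : Fin n → Bool) : ℝ :=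
  ∑ i ∈ Finset.range n, xs ω i * l ^ i

/-- `c_p(ω) = ∑_{i<p} ± ζ^{-i}` -/
noncomputable def cz (ζ : ℂ) {n : ℕ} (ω : Fin n → Bool) (p : ℕ) : ℂ :=
  ∑ i ∈ Finset.range p, (xs ω i : ℂ) * ζ ^ (-(i : ℤ))

/-- Shannon entropy of a function on a finite set with the uniform law -/
noncomputable def Ent {Ω α : Type*} [Fintype Ω] [DecidableEq α] (f : Ω → α) : ℝ :=
  ∑ x ∈ Finset.univ.image f,
    Real.negMulLog (((Finset.univ.filter (fun ω => f ω = x)).card : ℝ) / Fintype.card Ω)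

/-- `tr_P(j)`, an integer by `trP` -/
noncomputable def trR (β l : ℝ) (ζ : ℂ) (P : ℤ[X]) (j : ℤ) : ℝ :=
  aeval β P * β ^ j + aeval l P * l ^ j + 2 * (aeval ζ P * ζ ^ j).re

/-- the phases `u_ν(p,g)` -/
noncomputable def uu (β l : ℝ) (ζ : ℂ) (P : ℤ[X]) (w : ℝ) (p : ℕ) (g : ℤ × ℤ) (ν : ℕ) : ℂ :=
  Complex.exp (((Real.pi * ∑ i ∈ Finset.range p, trR β l ζ P ((ν : ℤ) + p - i) +
    2 * Real.pi * (aeval ζ P * ζ ^ ((ν : ℤ) + p) * (w * ((g.1 : ℂ) + g.2 * Complex.I))).re : ℝ) : ℂ)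
      * Complex.I)

/-- `F(z) = ∑_{ν ∈ [h,N]} a_ν u_ν e^{i t_ν z}` -/
noncomputable def FF (h N : ℕ) (a : ℕ → ℝ) (u : ℕ → ℂ) (t : ℕ → ℝ) (z : ℝ) : ℂ :=
  ∑ ν ∈ Finset.Icc h N, (a ν : ℂ) * u ν * Complex.exp (((t ν * z : ℝ) : ℂ) * Complex.I)

end Pool.Agent.H938
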