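import Pool.Agent.H938_Salem4.Defs2

set_option autoImplicit false

namespace Pool.Agent.H938

open Polynomial

/-- TARGET -/
theorem Ent_le_cross {Ω α : Type*} [Fintype Ω] [Nonempty Ω] [DecidableEq α] (f : Ω → α)
    (Q : α → ℝ) (hQ : ∀ ω, 0 < Q (f ω)) (hs : ∑ x ∈ Finset.univ.image f, Q x ≤ 1) :
    Ent f ≤ (∑ ω, -Real.log (Q (f ω))) / Fintype.card Ω := by
  classical
  have hcard : (0 : ℝ) < Fintype.card Ω := by
    exact_mod_cast Fintype.card_pos
  set p : α → ℝ := fun x => ((Finset.univ.filter (fun ω => f ω = x)).card : ℝ) / Fintype.card Ω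
    with hp
  have hR : (∑ ω, -Real.log (Q (f ω))) / Fintype.card Ω =
      ∑ x ∈ Finset.univ.image f, p x * (-Real.log (Q x)) := by
    rw [← Finset.sum_fiberwise_of_maps_to (s := Finset.univ) (t := Finset.univ.image f)
      (g := f) (fun ω _ => Finset.mem_image_of_mem f (Finset.mem_univ ω)), Finset.sum_div]
    refine Finset.sum_congr rfl fun x _ => ?_
    have h1 : ∑ ω ∈ Finset.univ.filter (fun ω => f ω = x), -Real.log (Q (f ω)) =
        ∑ ω ∈ Finset.univ.filter (fun ω => f ω = x), -Real.log (Q x) := by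
      refine Finset.sum_congr rfl fun ω hω => ?_
      rw [(Finset.mem_filter.mp hω).2]
    rw [h1, Finset.sum_const, nsmul_eq_mul]
    simp only [hp]
    ring
  have hsum : ∑ x ∈ Finset.univ.image f, p x = 1 := by
    simp only [hp]
    rw [← Finset.sum_div, ← Nat.cast_sum,
      ← Finset.card_eq_sum_card_fiberwise (s := Finset.univ) (t := Finset.univ.image f) (f := f)
        (fun ω _ => Finset.mem_coe.mpr (Finset.mem_image_of_mem f (Finset.mem_univ ω)))]
    rw [Finset.card_univ]
    exact div_self hcard.ne'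
  rw [hR]
  unfold Ent
  have key : ∀ x ∈ Finset.univ.image f,
      Real.negMulLog (p x) - p x * (-Real.log (Q x)) ≤ Q x - p x := by
    intro x hx
    obtain ⟨ω, -, rfl⟩ := Finset.mem_image.mp hx
    have hppos : 0 < p (f ω) := by
      simp only [hp]
      apply div_pos _ hcard
      have : 0 < (Finset.univ.filter (fun ω' => f ω' = f ω)).card :=
        Finset.card_pos.mpr ⟨ω, by simp⟩
      exact_mod_cast this
    have hQpos := hQ ω
    have h1 : Real.log (Q (f ω) / p (f ω)) ≤ Q (f ω) / p (f ω) - 1 :=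
      Real.log_le_sub_one_of_pos (div_pos hQpos hppos)
    rw [Real.log_div hQpos.ne' hppos.ne'] at h1
    have h2 := mul_le_mul_of_nonneg_left h1 hppos.le
    have h3 : p (f ω) * (Q (f ω) / p (f ω) - 1) = Q (f ω) - p (f ω) := by
      field_simp
    rw [h3] at h2
    unfold Real.negMulLog
    linarith
  have := Finset.sum_le_sum key
  rw [Finset.sum_sub_distrib, Finset.sum_sub_distrib, hsum] at this
  change ∑ x ∈ Finset.univ.image f, Real.negMulLog (p x) ≤ _
  linarith

end Pool.Agent.H938
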