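import Pool.Agent.H938_Salem4.Defs2
import Pool.Agent.H938_Salem4.A1

set_option autoImplicit false

namespace Pool.Agent.H938

open Polynomial

variable {β l : ℝ} {ζ : ℂ}

/-- TARGET -/
theorem phase_le {β l : ℝ} {ζ : ℂ} (H : S4 β l ζ) {P : ℤ[X]} {h : ℕ}
    (h1 : 1000 * |aeval l P| ≤ β ^ h) {ν : ℕ} (hν : h ≤ ν) {w : ℝ} (hw : 0 < w)
    (hsw : ‖aeval ζ P‖ * w ≤ 1 / 200) {n : ℕ} (ω : Fin n → Bool) {p : ℕ} (hp : p ≤ n)
    (g : ℤ × ℤ) (hg1 : |(cz ζ ω p).re - w * g.1| ≤ w) (hg2 : |(cz ζ ω p).im - w * g.2| ≤ w) :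
    ‖uu β l ζ P w p g ν * Complex.exp (((tP β P ν *
      ∑ i ∈ Finset.range p, xs ω i * β ^ ((p : ℤ) - i) : ℝ) : ℂ) * Complex.I) - 1‖ ≤ 1 / 8 := by
  have hl0 : 0 < l := by linarith [H.l_half]
  have hβ0 : 0 < β := by
    have := H.bl
    by_contra hn
    push Not at hn
    nlinarith
  have hζ0 : ζ ≠ 0 := by
    intro h0
    have := H.nz
    rw [h0, norm_zero] at this
    norm_num at this
  have hx : ∀ i ∈ Finset.range p, xs ω i = 1 ∨ xs ω i = -1 := by
    intro i hi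
    have hin : i < n := lt_of_lt_of_le (Finset.mem_range.mp hi) hp
    unfold xs
    rw [dif_pos hin]
    split_ifs
    · exact Or.inl rfl
    · exact Or.inr rfl
  -- integrality
  have hN : ∃ N : ℤ, ∑ i ∈ Finset.range p, (xs ω i + 1) * trR β l ζ P ((ν : ℤ) + p - i) =
      2 * N := by
    apply Finset.sum_induction (fun i => (xs ω i + 1) * trR β l ζ P ((ν : ℤ) + p - i))
      (fun r : ℝ => ∃ N : ℤ, r = 2 * N)
    · rintro a b ⟨N, rfl⟩ ⟨N', rfl⟩
      exact ⟨N + N', by push_cast; ring⟩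
    · exact ⟨0, by simp⟩
    · intro i hi
      obtain ⟨k, hk⟩ := trP H P ((ν : ℤ) + p - i)
      have hk' : trR β l ζ P ((ν : ℤ) + p - i) = k := hk
      rcases hx i hi with h | h
      · exact ⟨k, by rw [h, hk']; ring⟩
      · exact ⟨0, by rw [h]; simp⟩
  obtain ⟨N, hN⟩ := hN
  have hre : ∑ i ∈ Finset.range p, xs ω i * (aeval ζ P * ζ ^ ((ν : ℤ) + p - i)).re =
      (aeval ζ P * ζ ^ ((ν : ℤ) + p) * cz ζ ω p).re := by
    unfold cz
    rw [Finset.mul_sum, Complex.re_sum]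
    refine Finset.sum_congr rfl fun i _ => ?_
    rw [← Complex.re_ofReal_mul]
    congr 1
    rw [sub_eq_add_neg, zpow_add₀ hζ0]
    ring
  set c : ℂ := cz ζ ω p with hc
  set G : ℂ := (w : ℂ) * ((g.1 : ℂ) + g.2 * Complex.I) with hG
  set δ : ℝ := -(Real.pi * (aeval l P * ∑ i ∈ Finset.range p, xs ω i * l ^ ((ν : ℤ) + p - i))) -
    2 * Real.pi * (aeval ζ P * ζ ^ ((ν : ℤ) + p) * (c - G)).re with hδ
  have hkey : Real.pi * ∑ i ∈ Finset.range p, trR β l ζ P ((ν : ℤ) + p - i) +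
      2 * Real.pi * (aeval ζ P * ζ ^ ((ν : ℤ) + p) * G).re + tP β P ν *
      ∑ i ∈ Finset.range p, xs ω i * β ^ ((p : ℤ) - i) = δ + N * (2 * Real.pi) := by
    have h2 : tP β P ν * ∑ i ∈ Finset.range p, xs ω i * β ^ ((p : ℤ) - i) =
        Real.pi * ∑ i ∈ Finset.range p, xs ω i * (aeval β P * β ^ ((ν : ℤ) + p - i)) := by
      unfold tP
      rw [Finset.mul_sum, Finset.mul_sum]
      refine Finset.sum_congr rfl fun i _ => ?_
      have : β ^ ((ν : ℤ) + p - i) = β ^ (ν : ℤ) * β ^ ((p : ℤ) - i) := by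
        rw [← zpow_add₀ hβ0.ne', add_sub_assoc]
      rw [this]
      ring
    have h3 : ∑ i ∈ Finset.range p, (xs ω i + 1) * trR β l ζ P ((ν : ℤ) + p - i) =
        ∑ i ∈ Finset.range p, trR β l ζ P ((ν : ℤ) + p - i) +
        ∑ i ∈ Finset.range p, xs ω i * (aeval β P * β ^ ((ν : ℤ) + p - i)) +
        aeval l P * ∑ i ∈ Finset.range p, xs ω i * l ^ ((ν : ℤ) + p - i) +
        2 * ∑ i ∈ Finset.range p, xs ω i * (aeval ζ P * ζ ^ ((ν : ℤ) + p - i)).re := by
      rw [Finset.mul_sum, Finset.mul_sum, ← Finset.sum_add_distrib, ← Finset.sum_add_distrib,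
        ← Finset.sum_add_distrib]
      refine Finset.sum_congr rfl fun i _ => ?_
      unfold trR
      ring
    have h4 : (aeval ζ P * ζ ^ ((ν : ℤ) + p) * (c - G)).re =
        (aeval ζ P * ζ ^ ((ν : ℤ) + p) * c).re - (aeval ζ P * ζ ^ ((ν : ℤ) + p) * G).re := by
      rw [mul_sub, Complex.sub_re]
    rw [h2, hδ, h4]
    rw [hN, hre] at h3
    linear_combination Real.pi * (-h3)
  have hexp : uu β l ζ P w p g ν * Complex.exp (((tP β P ν *
      ∑ i ∈ Finset.range p, xs ω i * β ^ ((p : ℤ) - i) : ℝ) : ℂ) * Complex.I) =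
      Complex.exp (Complex.I * δ) := by
    unfold uu
    rw [← Complex.exp_add, ← add_mul, ← Complex.ofReal_add, ← hG, hkey]
    have : ((δ + N * (2 * Real.pi) : ℝ) : ℂ) * Complex.I =
        Complex.I * δ + N * (2 * Real.pi * Complex.I) := by
      push_cast; ring
    rw [this, Complex.exp_add, Complex.exp_int_mul_two_pi_mul_I, mul_one]
  rw [hexp]
  refine Real.norm_exp_I_mul_ofReal_sub_one_le.trans ?_
  rw [Real.norm_eq_abs]
  -- the estimate
  have hL : ∀ q : ℕ, ∑ i ∈ Finset.range q, l ^ ((q : ℤ) - i) ≤ 3 / 2 := by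
    intro q
    induction q with
    | zero => norm_num
    | succ q ih =>
      rw [Finset.sum_range_succ]
      have h5 : ∑ i ∈ Finset.range q, l ^ (((q + 1 : ℕ) : ℤ) - i) =
          l * ∑ i ∈ Finset.range q, l ^ ((q : ℤ) - i) := by
        rw [Finset.mul_sum]
        refine Finset.sum_congr rfl fun i _ => ?_
        rw [← zpow_one_add₀ hl0.ne']
        congr 1
        push_cast; ring
      have h6 : l ^ (((q + 1 : ℕ) : ℤ) - (q : ℕ)) = l := by
        have : ((q + 1 : ℕ) : ℤ) - (q : ℕ) = 1 := by push_cast; ring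
        rw [this, zpow_one]
      rw [h5, h6]
      nlinarith [H.l_le]
  have hβl : β ^ h * l ^ ν ≤ 1 := by
    obtain ⟨d, rfl⟩ := Nat.exists_eq_add_of_le hν
    rw [pow_add, ← mul_assoc, ← mul_pow, H.bl, one_pow, one_mul]
    exact pow_le_one₀ hl0.le (by linarith [H.l_le])
  have hκ1 : |aeval l P| * l ^ ν ≤ 1 / 1000 := by
    have h7 : 0 < l ^ ν := pow_pos hl0 ν
    nlinarith
  have hsum : |∑ i ∈ Finset.range p, xs ω i * l ^ ((ν : ℤ) + p - i)| ≤ l ^ ν * (3 / 2) := by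
    refine (Finset.abs_sum_le_sum_abs _ _).trans ?_
    calc ∑ i ∈ Finset.range p, |xs ω i * l ^ ((ν : ℤ) + p - i)|
        = ∑ i ∈ Finset.range p, l ^ ν * l ^ ((p : ℤ) - i) := by
          refine Finset.sum_congr rfl fun i hi => ?_
          have h8 : |xs ω i| = 1 := by
            rcases hx i hi with h | h <;> rw [h] <;> simp
          rw [abs_mul, h8, one_mul, abs_of_pos (zpow_pos hl0 _), ← zpow_natCast l ν,
            ← zpow_add₀ hl0.ne', add_sub_assoc]
      _ = l ^ ν * ∑ i ∈ Finset.range p, l ^ ((p : ℤ) - i) := by rw [Finset.mul_sum]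
      _ ≤ l ^ ν * (3 / 2) := mul_le_mul_of_nonneg_left (hL p) (pow_pos hl0 ν).le
  have hfirst : |aeval l P * ∑ i ∈ Finset.range p, xs ω i * l ^ ((ν : ℤ) + p - i)| ≤ 3 / 2000 := by
    rw [abs_mul]
    calc |aeval l P| * |∑ i ∈ Finset.range p, xs ω i * l ^ ((ν : ℤ) + p - i)|
        ≤ |aeval l P| * (l ^ ν * (3 / 2)) := mul_le_mul_of_nonneg_left hsum (abs_nonneg _)
      _ = (|aeval l P| * l ^ ν) * (3 / 2) := by ring
      _ ≤ 1 / 1000 * (3 / 2) := mul_le_mul_of_nonneg_right hκ1 (by norm_num)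
      _ = 3 / 2000 := by norm_num
  have hcG : ‖c - G‖ ≤ 2 * w := by
    refine (Complex.norm_le_abs_re_add_abs_im _).trans ?_
    have h9 : (c - G).re = c.re - w * g.1 := by
      simp [hG, Complex.sub_re]
    have h10 : (c - G).im = c.im - w * g.2 := by
      simp [hG, Complex.sub_im]
    rw [h9, h10]
    linarith
  have hsecond : |(aeval ζ P * ζ ^ ((ν : ℤ) + p) * (c - G)).re| ≤ 1 / 100 := by
    refine (Complex.abs_re_le_norm _).trans ?_
    rw [norm_mul, norm_mul, norm_zpow, H.nz, one_zpow, mul_one]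
    have h11 : 0 ≤ ‖aeval ζ P‖ := norm_nonneg _
    calc ‖aeval ζ P‖ * ‖c - G‖ ≤ ‖aeval ζ P‖ * (2 * w) := mul_le_mul_of_nonneg_left hcG h11
      _ = 2 * (‖aeval ζ P‖ * w) := by ring
      _ ≤ 2 * (1 / 200) := by linarith
      _ = 1 / 100 := by norm_num
  have hpi := Real.pi_lt_d2
  have hpi0 := Real.pi_pos
  rw [hδ]
  have h12 := abs_le.mp hfirst
  have h13 := abs_le.mp hsecond
  rw [abs_le]
  constructor <;> nlinarith

end Pool.Agent.H938
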