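import Pool.Agent.H938_Salem4.Defs2

set_option autoImplicit false

namespace Pool.Agent.H938

open Polynomial

theorem norm_uu {β l : ℝ} {ζ : ℂ} (P : ℤ[X]) (w : ℝ) (p : ℕ) (g : ℤ × ℤ) (ν : ℕ) :
    ‖uu β l ζ P w p g ν‖ = 1 := by
  unfold uu
  exact Complex.norm_exp_ofReal_mul_I _

end Pool.Agent.H938
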