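import Pool.Agent.H938_Salem4.F4
import Pool.Agent.H938_Salem4.F7
import Pool.Agent.H938_Salem4.NU

set_option autoImplicit false

namespace Pool.Agent.H938

open Polynomial

theorem F10_xs_left {p r : ℕ} (a : Fin p → Bool) (s : Fin r → Bool) {i : ℕ} (hi : i < p) :
    xs (Fin.append a s) i = xs a i := by
  unfold xs
  rw [dif_pos (by omega : i < p + r), dif_pos hi]
  have : (⟨i, by omega⟩ : Fin (p + r)) = Fin.castAdd r ⟨i, hi⟩ := rfl
  rw [this, Fin.append_left]

theorem F10_xs_right {p r : ℕ} (a : Fin p → Bool) (s : Fin r → Bool) {j : ℕ} (hj : j < r) :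
    xs (Fin.append a s) (p + j) = xs s j := by
  unfold xs
  rw [dif_pos (by omega : p + j < p + r), dif_pos hj]
  have : (⟨p + j, by omega⟩ : Fin (p + r)) = Fin.natAdd p ⟨j, hj⟩ := rfl
  rw [this, Fin.append_right]

theorem F10_cz (ζ : ℂ) {p r : ℕ} (a : Fin p → Bool) (s : Fin r → Bool) :
    cz ζ (Fin.append a s) p = cz ζ a p := by
  unfold cz
  refine Finset.sum_congr rfl fun i hi => ?_
  rw [F10_xs_left a s (Finset.mem_range.1 hi)]

theorem F10_SS {β l : ℝ} {ζ : ℂ} (H : S4 β l ζ) {p r : ℕ} (a : Fin p → Bool)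
    (s : Fin r → Bool) : β ^ p * SS l (Fin.append a s) =
      ∑ i ∈ Finset.range p, xs a i * β ^ ((p : ℤ) - i) + SS l s := by
  have hbl := H.bl
  have hβ : β ≠ 0 := left_ne_zero_of_mul_eq_one hbl
  have hl : l = β⁻¹ := eq_inv_of_mul_eq_one_right hbl
  unfold SS
  rw [Finset.sum_range_add, mul_add]
  congr 1
  · rw [Finset.mul_sum]
    refine Finset.sum_congr rfl fun i hi => ?_
    rw [F10_xs_left a s (Finset.mem_range.1 hi), zpow_sub₀ hβ, zpow_natCast, zpow_natCast, hl,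
      inv_pow]
    ring
  · rw [Finset.mul_sum]
    refine Finset.sum_congr rfl fun j hj => ?_
    rw [F10_xs_right a s (Finset.mem_range.1 hj), pow_add]
    have : β ^ p * l ^ p = 1 := by rw [← mul_pow, hbl, one_pow]
    calc β ^ p * (xs s j * (l ^ p * l ^ j)) = (β ^ p * l ^ p) * (xs s j * l ^ j) := by ring
      _ = _ := by rw [this, one_mul]

theorem F10_FF (h N : ℕ) (a : ℕ → ℝ) (u : ℕ → ℂ) (t : ℕ → ℝ) (Q z : ℝ) :
    FF h N a u t (Q + z) =
      FF h N a (fun ν => u ν * Complex.exp (((t ν * Q : ℝ) : ℂ) * Complex.I)) t z := by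
  unfold FF
  refine Finset.sum_congr rfl fun ν _ => ?_
  have : Complex.exp (((t ν * (Q + z) : ℝ) : ℂ) * Complex.I) =
      Complex.exp (((t ν * Q : ℝ) : ℂ) * Complex.I) *
        Complex.exp (((t ν * z : ℝ) : ℂ) * Complex.I) := by
    rw [← Complex.exp_add]
    congr 1
    push_cast
    ring
  rw [this]
  ring

theorem F10_floor {x w : ℝ} (hw : 0 < w) : |x - w * ((⌊x / w⌋ : ℤ) : ℝ)| ≤ w := by
  have h1 := Int.floor_le (x / w)
  have h2 := Int.lt_floor_add_one (x / w)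
  rw [le_div_iff₀ hw] at h1
  rw [div_lt_iff₀ hw] at h2
  rw [abs_le]
  constructor <;> nlinarith

theorem F10_count {p r : ℕ} (Q : (Fin (p + r) → Bool) → Prop) [DecidablePred Q] :
    ((Finset.univ : Finset (Fin (p + r) → Bool)).filter Q).card =
      ∑ a : Fin p → Bool, ((Finset.univ : Finset (Fin r → Bool)).filter
        (fun s => Q (Fin.append a s))).card := by
  rw [Finset.card_filter, ← Equiv.sum_comp (Fin.appendEquiv p r), Fintype.sum_prod_type]
  refine Finset.sum_congr rfl fun a _ => ?_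
  rw [Finset.card_filter]
  rfl

/-- TARGET -/
theorem good_half {β l : ℝ} {ζ : ℂ} (H : S4 β l ζ) {P : ℤ[X]} {h N : ℕ} {K : ℝ}
    (R : Res β l ζ P h N K) (hK : 100000 ≤ K) {w : ℝ} (hw : 0 < w)
    (hsw : ‖aeval ζ P‖ * w ≤ 1 / 200) {n p : ℕ} (hp : p + (N + 2 * h) ≤ n) :
    2 * (((Finset.univ : Finset (Fin n → Bool)).filter (fun ω =>
        ‖FF h N (fun ν => Phi l (N + 2 * h) (tP β P ν))
          (uu β l ζ P w p (⌊(cz ζ ω p).re / w⌋, ⌊(cz ζ ω p).im / w⌋))
          (fun ν => tP β P ν) (β ^ p * SS l ω)‖ <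
          1 / 2 * ∑ ν ∈ Finset.Icc h N, Phi l (N + 2 * h) (tP β P ν) ^ 2)).card : ℝ) ≤ 2 ^ n := by
  obtain ⟨r, rfl⟩ : ∃ r, n = p + r := Nat.exists_eq_add_of_le (by omega)
  have hr : N + 2 * h ≤ r := by omega
  rw [F10_count]
  push_cast
  rw [Finset.mul_sum]
  have hcard : (∑ _a : Fin p → Bool, (2 : ℝ) ^ r) = 2 ^ (p + r) := by
    rw [Finset.sum_const, Finset.card_univ, Fintype.card_fun, Fintype.card_bool, Fintype.card_fin,
      nsmul_eq_mul, pow_add]
    push_cast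
    ring
  rw [← hcard]
  refine Finset.sum_le_sum fun a _ => ?_
  set g : ℤ × ℤ := (⌊(cz ζ a p).re / w⌋, ⌊(cz ζ a p).im / w⌋) with hg
  set Qp : ℝ := ∑ i ∈ Finset.range p, xs a i * β ^ ((p : ℤ) - i) with hQp
  have key := block (l := l) (t := fun ν => tP β P ν) (h := h) (N := N) (L := N + 2 * h)
    (by have := R.ten; omega) (fun M n hn1 hn2 hM => R.m5 M n hn1 hn2 hM)
    (fun M n m h1 h2 h3 => R.m4 M n m h1 h2 h3)
    ((mul_le_mul_of_nonneg_right hK (Nat.cast_nonneg h)).trans (R.m3 (N + 2 * h)))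
    (fun ν => uu β l ζ P w p g ν * Complex.exp (((tP β P ν * Qp : ℝ) : ℂ) * Complex.I))
    (fun ν => by rw [norm_mul, norm_uu, one_mul, Complex.norm_exp_ofReal_mul_I])
    (fun ν hν1 _ => phase_le H R.k1_le hν1 hw hsw a le_rfl g (F10_floor hw) (F10_floor hw))
    hr
  refine le_trans (le_of_eq ?_) key
  congr 3
  refine Finset.filter_congr fun s _ => ?_
  rw [F10_cz, F10_SS H, F10_FF]

end Pool.Agent.H938
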