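import Pool.Agent.H938_Salem4.F1

set_option autoImplicit false

namespace Pool.Agent.H938

open Polynomial

/-- the weights of the path code -/
noncomputable def F2_Rw {Ω Γ : Type*} [Fintype Ω] [DecidableEq Γ] (σ : ℕ → Ω → Γ) (q0 : Γ → ℝ)
    (q : ℕ → Γ → Γ → ℝ) : ℕ → Γ → ℝ
  | 0, s => q0 s
  | b + 1, s' => ∑ s ∈ Finset.univ.image (σ b), F2_Rw σ q0 q b s * q b s s'

section

variable {Ω Γ : Type*} [Fintype Ω] [DecidableEq Γ] (σ : ℕ → Ω → Γ) (q0 : Γ → ℝ)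
  (q : ℕ → Γ → Γ → ℝ)

theorem F2_nonneg (hq0 : ∀ s, 0 ≤ q0 s) (hq : ∀ b s s', 0 ≤ q b s s') (b : ℕ) (s : Γ) :
    0 ≤ F2_Rw σ q0 q b s := by
  induction b generalizing s with
  | zero => exact hq0 s
  | succ b ih => exact Finset.sum_nonneg fun s' _ => mul_nonneg (ih s') (hq b s' s)

theorem F2_sum (m : ℕ) (hq0 : ∀ s, 0 ≤ q0 s) (hq : ∀ b s s', 0 ≤ q b s s')
    (hs0 : ∀ G : Finset Γ, ∑ s ∈ G, q0 s ≤ 1)
    (hs : ∀ b < m, ∀ s, ∀ G : Finset Γ, ∑ s' ∈ G, q b s s' ≤ 1) (b : ℕ) (hb : b ≤ m)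
    (F : Finset Γ) : ∑ s ∈ F, F2_Rw σ q0 q b s ≤ 1 := by
  induction b generalizing F with
  | zero => exact hs0 F
  | succ b ih =>
    calc ∑ s' ∈ F, F2_Rw σ q0 q (b + 1) s'
        = ∑ s' ∈ F, ∑ s ∈ Finset.univ.image (σ b), F2_Rw σ q0 q b s * q b s s' := rfl
      _ = ∑ s ∈ Finset.univ.image (σ b), F2_Rw σ q0 q b s * ∑ s' ∈ F, q b s s' := by
          rw [Finset.sum_comm]
          exact Finset.sum_congr rfl fun s _ => by rw [Finset.mul_sum]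
      _ ≤ ∑ s ∈ Finset.univ.image (σ b), F2_Rw σ q0 q b s := by
          refine Finset.sum_le_sum fun s _ => ?_
          exact mul_le_of_le_one_right (F2_nonneg σ q0 q hq0 hq b s) (hs b (by omega) s F)
      _ ≤ 1 := ih (by omega) _

theorem F2_lower (hq0 : ∀ s, 0 ≤ q0 s) (hq : ∀ b s s', 0 ≤ q b s s') (b : ℕ) (ω : Ω) :
    q0 (σ 0 ω) * ∏ i ∈ Finset.range b, q i (σ i ω) (σ (i + 1) ω) ≤ F2_Rw σ q0 q b (σ b ω) := by
  induction b with
  | zero =>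
    rw [Finset.prod_range_zero, mul_one]
    exact le_refl _
  | succ b ih =>
    rw [Finset.prod_range_succ, ← mul_assoc]
    refine (mul_le_mul_of_nonneg_right ih (hq _ _ _)).trans ?_
    exact Finset.single_le_sum
      (f := fun s => F2_Rw σ q0 q b s * q b s (σ (b + 1) ω))
      (fun s _ => mul_nonneg (F2_nonneg σ q0 q hq0 hq b s) (hq b s _))
      (Finset.mem_image_of_mem (σ b) (Finset.mem_univ ω))

end

/-- TARGET -/
theorem Ent_le_code {Ω α Γ : Type*} [Fintype Ω] [Nonempty Ω] [DecidableEq α] [DecidableEq Γ]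
    (f : Ω → α) (σ : ℕ → Ω → Γ) (m : ℕ) (q0 : Γ → ℝ) (q : ℕ → Γ → Γ → ℝ) (K2 : ℕ)
    (hq0 : ∀ s, 0 ≤ q0 s) (hq : ∀ b s s', 0 ≤ q b s s')
    (hq0' : ∀ ω, 0 < q0 (σ 0 ω)) (hq' : ∀ b < m, ∀ ω, 0 < q b (σ b ω) (σ (b + 1) ω))
    (hs0 : ∀ G : Finset Γ, ∑ s ∈ G, q0 s ≤ 1)
    (hs : ∀ b < m, ∀ s, ∀ G : Finset Γ, ∑ s' ∈ G, q b s s' ≤ 1)
    (hK : ∀ s, ((Finset.univ.filter (fun ω => σ m ω = s)).image f).card ≤ K2) :
    Ent f ≤ Real.log K2 + (∑ ω, -Real.log (q0 (σ 0 ω))) / Fintype.card Ω +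
      ∑ b ∈ Finset.range m,
        (∑ ω, -Real.log (q b (σ b ω) (σ (b + 1) ω))) / Fintype.card Ω := by
  classical
  have hK1 : 1 ≤ K2 := by
    obtain ⟨ω⟩ := (inferInstance : Nonempty Ω)
    refine le_trans ?_ (hK (σ m ω))
    rw [Nat.one_le_iff_ne_zero, ← Nat.pos_iff_ne_zero, Finset.card_pos]
    exact ⟨f ω, Finset.mem_image_of_mem f (by simp)⟩
  have hKpos : (0 : ℝ) < K2 := by exact_mod_cast hK1
  have hKi : (0 : ℝ) < (K2 : ℝ)⁻¹ := inv_pos.2 hKpos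
  set Im : Γ → Finset α := fun s => (Finset.univ.filter (fun ω => σ m ω = s)).image f with hIm
  set Q : α → ℝ := fun x => (K2 : ℝ)⁻¹ * ∑ s ∈ Finset.univ.image (σ m),
    if x ∈ Im s then F2_Rw σ q0 q m s else 0 with hQdef
  have hterm : ∀ x s, 0 ≤ (if x ∈ Im s then F2_Rw σ q0 q m s else 0) := by
    intro x s
    split_ifs
    · exact F2_nonneg σ q0 q hq0 hq m s
    · exact le_refl _
  have hlow : ∀ ω, (K2 : ℝ)⁻¹ * (q0 (σ 0 ω) *
      ∏ i ∈ Finset.range m, q i (σ i ω) (σ (i + 1) ω)) ≤ Q (f ω) := by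
    intro ω
    refine mul_le_mul_of_nonneg_left ?_ hKi.le
    refine (F2_lower σ q0 q hq0 hq m ω).trans ?_
    have h1 := Finset.single_le_sum
      (f := fun s => if f ω ∈ Im s then F2_Rw σ q0 q m s else 0)
      (fun s _ => hterm (f ω) s)
      (Finset.mem_image_of_mem (σ m) (Finset.mem_univ ω))
    have h2 : f ω ∈ Im (σ m ω) := Finset.mem_image_of_mem f (by simp)
    simp only [if_pos h2] at h1
    exact h1
  have hppos : ∀ ω, 0 < ∏ i ∈ Finset.range m, q i (σ i ω) (σ (i + 1) ω) := fun ω =>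
    Finset.prod_pos fun i hi => hq' i (Finset.mem_range.1 hi) ω
  have hpos : ∀ ω, 0 < (K2 : ℝ)⁻¹ * (q0 (σ 0 ω) *
      ∏ i ∈ Finset.range m, q i (σ i ω) (σ (i + 1) ω)) := fun ω =>
    mul_pos hKi (mul_pos (hq0' ω) (hppos ω))
  have hQpos : ∀ ω, 0 < Q (f ω) := fun ω => lt_of_lt_of_le (hpos ω) (hlow ω)
  have hsum : ∑ x ∈ Finset.univ.image f, Q x ≤ 1 := by
    have h1 : ∑ x ∈ Finset.univ.image f, Q x = (K2 : ℝ)⁻¹ *
        ∑ s ∈ Finset.univ.image (σ m), ∑ x ∈ Finset.univ.image f,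
          (if x ∈ Im s then F2_Rw σ q0 q m s else 0) := by
      rw [hQdef, ← Finset.mul_sum, Finset.sum_comm]
    have h2 : ∀ s, ∑ x ∈ Finset.univ.image f, (if x ∈ Im s then F2_Rw σ q0 q m s else 0) ≤
        K2 * F2_Rw σ q0 q m s := by
      intro s
      rw [← Finset.sum_filter, Finset.sum_const, nsmul_eq_mul]
      refine mul_le_mul_of_nonneg_right ?_ (F2_nonneg σ q0 q hq0 hq m s)
      have h3 : ((Finset.univ.image f).filter (fun x => x ∈ Im s)).card ≤ K2 :=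
        (Finset.card_le_card (fun x hx => (Finset.mem_filter.1 hx).2)).trans (hK s)
      exact_mod_cast h3
    rw [h1]
    calc (K2 : ℝ)⁻¹ * ∑ s ∈ Finset.univ.image (σ m), ∑ x ∈ Finset.univ.image f,
          (if x ∈ Im s then F2_Rw σ q0 q m s else 0)
        ≤ (K2 : ℝ)⁻¹ * ∑ s ∈ Finset.univ.image (σ m), K2 * F2_Rw σ q0 q m s :=
          mul_le_mul_of_nonneg_left (Finset.sum_le_sum fun s _ => h2 s) hKi.le
      _ = ∑ s ∈ Finset.univ.image (σ m), F2_Rw σ q0 q m s := by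
          rw [← Finset.mul_sum, ← mul_assoc, inv_mul_cancel₀ hKpos.ne', one_mul]
      _ ≤ 1 := F2_sum σ q0 q m hq0 hq hs0 hs m le_rfl _
  refine (Ent_le_cross f Q hQpos hsum).trans ?_
  have hcard : (0 : ℝ) < Fintype.card Ω := by exact_mod_cast Fintype.card_pos
  have hlog : ∀ ω, -Real.log (Q (f ω)) ≤ Real.log K2 + -Real.log (q0 (σ 0 ω)) +
      ∑ b ∈ Finset.range m, -Real.log (q b (σ b ω) (σ (b + 1) ω)) := by
    intro ω
    have h1 := Real.log_le_log (hpos ω) (hlow ω)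
    rw [Real.log_mul hKi.ne' (mul_pos (hq0' ω) (hppos ω)).ne', Real.log_inv,
      Real.log_mul (hq0' ω).ne' (hppos ω).ne', Real.log_prod (fun i hi =>
        (hq' i (Finset.mem_range.1 hi) ω).ne')] at h1
    rw [Finset.sum_neg_distrib]
    linarith
  have hS : ∑ ω, -Real.log (Q (f ω)) ≤ Fintype.card Ω * Real.log K2 +
      ∑ ω, -Real.log (q0 (σ 0 ω)) +
      ∑ b ∈ Finset.range m, ∑ ω, -Real.log (q b (σ b ω) (σ (b + 1) ω)) := by
    refine (Finset.sum_le_sum fun ω _ => hlog ω).trans ?_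
    rw [Finset.sum_add_distrib, Finset.sum_add_distrib, Finset.sum_const, Finset.card_univ,
      nsmul_eq_mul, Finset.sum_comm]
  rw [div_le_iff₀ hcard]
  refine hS.trans (le_of_eq ?_)
  rw [add_mul, add_mul, Finset.sum_mul, div_mul_cancel₀ _ hcard.ne', mul_comm (Real.log _)]
  congr 1
  exact Finset.sum_congr rfl fun b _ => (div_mul_cancel₀ _ hcard.ne').symm

end Pool.Agent.H938
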