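import Pool.Agent.H938_Salem4.Defs2

set_option autoImplicit false

namespace Pool.Agent.H938

open Polynomial

/-- TARGET -/
theorem avg_exp (l : ℝ) (r : ℕ) (x : ℝ) :
    ∑ s : Fin r → Bool, Complex.exp (((x * SS l s : ℝ) : ℂ) * Complex.I) =
      (2 : ℂ) ^ r * (Phi l r x : ℂ) := by
  have h1 : ∀ s : Fin r → Bool, Complex.exp (((x * SS l s : ℝ) : ℂ) * Complex.I) =
      ∏ i : Fin r, Complex.exp (((x * ((if s i then 1 else -1) * l ^ (i : ℕ)) : ℝ) : ℂ) *
        Complex.I) := by
    intro s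
    rw [← Complex.exp_sum, SS, Finset.sum_range, ← Finset.sum_mul, ← Complex.ofReal_sum,
      Finset.mul_sum]
    congr 4
    ext i
    rw [xs, dif_pos i.2]
  have h2 := Finset.prod_univ_sum (fun _ : Fin r => (Finset.univ : Finset Bool))
    (fun (i : Fin r) (b : Bool) =>
      Complex.exp (((x * ((if b then 1 else -1) * l ^ (i : ℕ)) : ℝ) : ℂ) * Complex.I))
  rw [Fintype.piFinset_univ] at h2
  rw [Finset.sum_congr rfl fun s _ => h1 s, ← h2]
  have h3 : ∀ i : Fin r, ∑ b : Bool,
      Complex.exp (((x * ((if b then 1 else -1) * l ^ (i : ℕ)) : ℝ) : ℂ) * Complex.I) =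
      2 * ((Real.cos (x * l ^ (i : ℕ)) : ℝ) : ℂ) := by
    intro i
    rw [Fintype.sum_bool]
    simp only [if_true, Bool.false_eq_true, if_false]
    rw [Complex.ofReal_cos, Complex.two_cos]
    push_cast
    congr 2 <;> ring
  rw [Finset.prod_congr rfl fun i _ => h3 i, Finset.prod_mul_distrib, Finset.prod_const,
    Finset.card_univ, Fintype.card_fin, Phi, Finset.prod_range, Complex.ofReal_prod]

end Pool.Agent.H938
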