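import Pool.Agent.H938_Salem4.F3

set_option autoImplicit false

namespace Pool.Agent.H938

open Polynomial

theorem block_Phi_abs (l : ℝ) (M : ℕ) (x : ℝ) : |Phi l M x| ≤ 1 := by
  unfold Phi
  rw [Finset.abs_prod]
  exact Finset.prod_le_one (fun _ _ => abs_nonneg _) fun _ _ => Real.abs_cos_le_one _

theorem block_Phi_neg (l : ℝ) (M : ℕ) (x : ℝ) : Phi l M (-x) = Phi l M x := by
  unfold Phi
  refine Finset.prod_congr rfl fun k _ => ?_
  rw [neg_mul, Real.cos_neg]

theorem block_conj_exp (x : ℝ) : (starRingEnd ℂ) (Complex.exp (((x : ℝ) : ℂ) * Complex.I)) =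
    Complex.exp (((-x : ℝ) : ℂ) * Complex.I) := by
  rw [← Complex.exp_conj, map_mul, Complex.conj_ofReal, Complex.conj_I]
  congr 1
  push_cast
  ring

theorem block_second (l : ℝ) (r : ℕ) (I : Finset ℕ) (a : ℕ → ℝ) (v : ℕ → ℂ)
    (hv : ∀ n, ‖v n‖ = 1) (t : ℕ → ℝ) :
    ∑ s : Fin r → Bool, ‖(∑ n ∈ I, (a n : ℂ) * v n *
        Complex.exp (((t n * SS l s : ℝ) : ℂ) * Complex.I)) -
        ∑ n ∈ I, (a n : ℂ) * v n * (Phi l r (t n) : ℂ)‖ ^ 2 ≤
      2 ^ r * ∑ n ∈ I, ∑ k ∈ I, |a n| * |a k| *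
        |Phi l r (t n - t k) - Phi l r (t n) * Phi l r (t k)| := by
  set e : (Fin r → Bool) → ℕ → ℂ := fun s n =>
    Complex.exp (((t n * SS l s : ℝ) : ℂ) * Complex.I) with he
  set b : ℕ → ℝ := fun n => Phi l r (t n) with hb
  have he1 : ∀ n, ∑ s : Fin r → Bool, e s n = (2 : ℂ) ^ r * (b n : ℂ) := fun n => avg_exp l r (t n)
  have he2 : ∀ n, ∑ s : Fin r → Bool, (starRingEnd ℂ) (e s n) = (2 : ℂ) ^ r * (b n : ℂ) := by
    intro n
    rw [← map_sum, he1, map_mul, Complex.conj_ofReal, map_pow, Complex.conj_ofNat]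
  have he3 : ∀ n k, ∑ s : Fin r → Bool, e s n * (starRingEnd ℂ) (e s k) =
      (2 : ℂ) ^ r * (Phi l r (t n - t k) : ℂ) := by
    intro n k
    rw [← avg_exp l r (t n - t k)]
    refine Finset.sum_congr rfl fun s _ => ?_
    simp only [he]
    rw [block_conj_exp, ← Complex.exp_add]
    congr 1
    push_cast
    ring
  have hW : ((∑ s : Fin r → Bool, ‖(∑ n ∈ I, (a n : ℂ) * v n * e s n) -
        ∑ n ∈ I, (a n : ℂ) * v n * (b n : ℂ)‖ ^ 2 : ℝ) : ℂ) =
      ∑ n ∈ I, ∑ k ∈ I, ((a n : ℂ) * v n) * ((a k : ℂ) * (starRingEnd ℂ) (v k)) *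
        ((2 : ℂ) ^ r * (((Phi l r (t n - t k) - b n * b k : ℝ)) : ℂ)) := by
    have e1 : ∀ s : Fin r → Bool, ((‖(∑ n ∈ I, (a n : ℂ) * v n * e s n) -
        ∑ n ∈ I, (a n : ℂ) * v n * (b n : ℂ)‖ ^ 2 : ℝ) : ℂ) =
        ∑ n ∈ I, ∑ k ∈ I, ((a n : ℂ) * v n) * ((a k : ℂ) * (starRingEnd ℂ) (v k)) *
          ((e s n - b n) * ((starRingEnd ℂ) (e s k) - b k)) := by
      intro s
      rw [← Finset.sum_sub_distrib]
      push_cast
      rw [← Complex.mul_conj', map_sum, Finset.sum_mul_sum]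
      refine Finset.sum_congr rfl fun n _ => Finset.sum_congr rfl fun k _ => ?_
      simp only [map_sub, map_mul, Complex.conj_ofReal]
      ring
    push_cast
    push_cast at e1
    rw [Finset.sum_congr rfl fun s _ => e1 s, Finset.sum_comm]
    refine Finset.sum_congr rfl fun n _ => ?_
    rw [Finset.sum_comm]
    refine Finset.sum_congr rfl fun k _ => ?_
    rw [← Finset.mul_sum]
    congr 1
    have e2 : ∑ s : Fin r → Bool, (e s n - b n) * ((starRingEnd ℂ) (e s k) - b k) =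
        ∑ s : Fin r → Bool, e s n * (starRingEnd ℂ) (e s k) - (∑ s : Fin r → Bool, e s n) * b k -
          b n * (∑ s : Fin r → Bool, (starRingEnd ℂ) (e s k)) +
          ∑ s : Fin r → Bool, (b n : ℂ) * b k := by
      rw [Finset.sum_mul, Finset.mul_sum, ← Finset.sum_sub_distrib, ← Finset.sum_sub_distrib,
        ← Finset.sum_add_distrib]
      refine Finset.sum_congr rfl fun s _ => ?_
      ring
    rw [e2, he1, he2, he3, Finset.sum_const, Finset.card_univ, Fintype.card_pi_const,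
      Fintype.card_bool, nsmul_eq_mul]
    push_cast
    ring
  have hWn : 0 ≤ ∑ s : Fin r → Bool, ‖(∑ n ∈ I, (a n : ℂ) * v n * e s n) -
        ∑ n ∈ I, (a n : ℂ) * v n * (b n : ℂ)‖ ^ 2 := Finset.sum_nonneg fun _ _ => sq_nonneg _
  rw [← abs_of_nonneg hWn, ← Real.norm_eq_abs, ← Complex.norm_real, hW, Finset.mul_sum]
  refine (norm_sum_le _ _).trans (Finset.sum_le_sum fun n _ => ?_)
  rw [Finset.mul_sum]
  refine (norm_sum_le _ _).trans (Finset.sum_le_sum fun k _ => ?_)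
  rw [norm_mul, norm_mul, norm_mul, norm_mul, norm_mul, hv, RCLike.norm_conj, hv, norm_pow,
    Complex.norm_real, Complex.norm_real, Complex.norm_real, Real.norm_eq_abs, Real.norm_eq_abs,
    Real.norm_eq_abs, Complex.norm_ofNat]
  apply le_of_eq
  ring

theorem block_near (h n : ℕ) (I : Finset ℕ) :
    ((I.filter (fun k => n < k + 4 * h ∧ k < n + 4 * h)).card : ℝ) ≤ 8 * h := by
  have h1 : I.filter (fun k => n < k + 4 * h ∧ k < n + 4 * h) ⊆
      Finset.Ico (n + 1 - 4 * h) (n + 4 * h) := by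
    intro k hk
    have := (Finset.mem_filter.1 hk).2
    rw [Finset.mem_Ico]
    omega
  have h2 := Finset.card_le_card h1
  rw [Nat.card_Ico] at h2
  have h3 : (I.filter (fun k => n < k + 4 * h ∧ k < n + 4 * h)).card ≤ 8 * h := by omega
  exact_mod_cast h3

/-- TARGET -/
theorem block {l : ℝ} {t : ℕ → ℝ} {h N L : ℕ} (hh : 1 ≤ h)
    (h1 : ∀ M n : ℕ, h ≤ n → n ≤ N → L ≤ M →
      |Phi l M (t n) - Phi l L (t n)| ≤ 1 / 1000 * |Phi l L (t n)|)
    (h2 : ∀ M n m : ℕ, h ≤ m → n ≤ N → m + 4 * h ≤ n →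
      |Phi l M (t n - t m) - Phi l M (t n) * Phi l M (t m)| ≤
        4 / 1000 * |Phi l M (t n) * Phi l M (t m)|)
    (hA : 100000 * h ≤ ∑ n ∈ Finset.Icc h N, Phi l L (t n) ^ 2)
    (v : ℕ → ℂ) (hv : ∀ n, ‖v n‖ = 1) (hv1 : ∀ n, h ≤ n → n ≤ N → ‖v n - 1‖ ≤ 1 / 8)
    {r : ℕ} (hr : L ≤ r) :
    2 * (((Finset.univ : Finset (Fin r → Bool)).filter (fun s =>
        ‖FF h N (fun n => Phi l L (t n)) v t (SS l s)‖ <
          1 / 2 * ∑ n ∈ Finset.Icc h N, Phi l L (t n) ^ 2)).card : ℝ) ≤ 2 ^ r := by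
  classical
  set I := Finset.Icc h N with hI
  set a : ℕ → ℝ := fun n => Phi l L (t n) with ha
  set b : ℕ → ℝ := fun n => Phi l r (t n) with hb
  set A : ℝ := ∑ n ∈ I, Phi l L (t n) ^ 2 with hAd
  have hA' : A = ∑ n ∈ I, a n ^ 2 := rfl
  have hh' : (1 : ℝ) ≤ h := by exact_mod_cast hh
  have hA0 : 0 < A := by linarith
  have hmem : ∀ n ∈ I, h ≤ n ∧ n ≤ N := fun n hn => Finset.mem_Icc.1 hn
  have hba : ∀ n ∈ I, |b n - a n| ≤ 1 / 1000 * |a n| := fun n hn =>
    h1 r n (hmem n hn).1 (hmem n hn).2 hr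
  have hba' : ∀ n ∈ I, |b n| ≤ 1001 / 1000 * |a n| := by
    intro n hn
    have e1 : |b n| ≤ |b n - a n| + |a n| := by
      calc |b n| = |(b n - a n) + a n| := by congr 1; ring
        _ ≤ _ := abs_add_le _ _
    linarith [hba n hn]
  have hb1 : ∀ n, |b n| ≤ 1 := fun n => block_Phi_abs l r (t n)
  -- the mean
  set m : ℂ := ∑ n ∈ I, (a n : ℂ) * v n * (b n : ℂ) with hm
  have hmA : ‖m - (A : ℂ)‖ ≤ 13 / 100 * A := by
    have e1 : m - (A : ℂ) = ∑ n ∈ I, (a n : ℂ) * ((v n - 1) * (b n : ℂ) + ((b n - a n : ℝ) : ℂ)) := by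
      rw [hm, hA']
      push_cast
      rw [← Finset.sum_sub_distrib]
      refine Finset.sum_congr rfl fun n _ => ?_
      ring
    rw [e1]
    refine (norm_sum_le _ _).trans ?_
    rw [hA', Finset.mul_sum]
    refine Finset.sum_le_sum fun n hn => ?_
    rw [norm_mul, Complex.norm_real, Real.norm_eq_abs]
    have e2 : ‖(v n - 1) * (b n : ℂ) + ((b n - a n : ℝ) : ℂ)‖ ≤
        1 / 8 * (1001 / 1000 * |a n|) + 1 / 1000 * |a n| := by
      refine (norm_add_le _ _).trans (add_le_add ?_ ?_)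
      · rw [norm_mul, Complex.norm_real, Real.norm_eq_abs]
        exact mul_le_mul (hv1 n (hmem n hn).1 (hmem n hn).2) (hba' n hn) (abs_nonneg _)
          (by norm_num)
      · rw [Complex.norm_real, Real.norm_eq_abs]
        exact hba n hn
    have e3 := mul_le_mul_of_nonneg_left e2 (abs_nonneg (a n))
    refine e3.trans ?_
    have e4 : |a n| * |a n| = a n ^ 2 := by rw [← sq, sq_abs]
    nlinarith [sq_nonneg (a n)]
  have hmn : 87 / 100 * A ≤ ‖m‖ := by
    have e1 : ‖(A : ℂ)‖ = A := by rw [Complex.norm_real, Real.norm_eq_abs, abs_of_pos hA0]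
    have e2 : ‖(A : ℂ)‖ ≤ ‖m‖ + ‖m - (A : ℂ)‖ := by
      calc ‖(A : ℂ)‖ = ‖m - (m - (A : ℂ))‖ := by congr 1; ring
        _ ≤ _ := norm_sub_le _ _
    rw [e1] at e2
    linarith
  -- pairs
  have hpair : ∀ n ∈ I, ∀ k ∈ I, |a n| * |a k| * |Phi l r (t n - t k) - b n * b k| ≤
      41 / 10000 * (a n ^ 2 * a k ^ 2) +
        (if n < k + 4 * h ∧ k < n + 4 * h then a n ^ 2 + a k ^ 2 else 0) := by
    intro n hn k hk
    have sn : |a n| * |a n| = a n ^ 2 := by rw [← sq, sq_abs]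
    have sk : |a k| * |a k| = a k ^ 2 := by rw [← sq, sq_abs]
    have p0 : 0 ≤ |a n| * |a k| := mul_nonneg (abs_nonneg _) (abs_nonneg _)
    by_cases hnear : n < k + 4 * h ∧ k < n + 4 * h
    · rw [if_pos hnear]
      have e1 : |Phi l r (t n - t k) - b n * b k| ≤ 2 := by
        refine (abs_sub _ _).trans ?_
        rw [abs_mul]
        have e2 := block_Phi_abs l r (t n - t k)
        have e3 : |b n| * |b k| ≤ 1 := mul_le_one₀ (hb1 n) (abs_nonneg _) (hb1 k)
        linarith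
      have e2 := mul_le_mul_of_nonneg_left e1 p0
      have e3 : 0 ≤ a n ^ 2 * a k ^ 2 := by positivity
      nlinarith [sq_nonneg (|a n| - |a k|)]
    · rw [if_neg hnear, add_zero]
      have hfar : |Phi l r (t n - t k) - b n * b k| ≤ 4 / 1000 * |b n * b k| := by
        rcases not_and_or.1 hnear with hc | hc
        · exact h2 r n k (hmem k hk).1 (hmem n hn).2 (by omega)
        · have e1 := h2 r k n (hmem n hn).1 (hmem k hk).2 (by omega)
          rw [← neg_sub (t n) (t k), block_Phi_neg, mul_comm (Phi l r (t k))] at e1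
          exact e1
      have e2 : |b n * b k| ≤ (1001 / 1000) ^ 2 * (|a n| * |a k|) := by
        rw [abs_mul]
        calc |b n| * |b k| ≤ (1001 / 1000 * |a n|) * (1001 / 1000 * |a k|) :=
              mul_le_mul (hba' n hn) (hba' k hk) (abs_nonneg _) (by positivity)
          _ = _ := by ring
      have e3 : |a n| * |a k| * |Phi l r (t n - t k) - b n * b k| ≤
          |a n| * |a k| * (4 / 1000 * ((1001 / 1000) ^ 2 * (|a n| * |a k|))) :=
        mul_le_mul_of_nonneg_left (hfar.trans (mul_le_mul_of_nonneg_left e2 (by norm_num))) p0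
      refine e3.trans ?_
      have e4 : |a n| * |a k| * (|a n| * |a k|) = a n ^ 2 * a k ^ 2 := by
        rw [← sn, ← sk]; ring
      have e5 : 0 ≤ a n ^ 2 * a k ^ 2 := by positivity
      calc |a n| * |a k| * (4 / 1000 * ((1001 / 1000) ^ 2 * (|a n| * |a k|)))
          = 4 / 1000 * (1001 / 1000) ^ 2 * (|a n| * |a k| * (|a n| * |a k|)) := by ring
        _ = 4 / 1000 * (1001 / 1000) ^ 2 * (a n ^ 2 * a k ^ 2) := by rw [e4]
        _ ≤ _ := by nlinarith
  have hnear : ∑ n ∈ I, ∑ k ∈ I, (if n < k + 4 * h ∧ k < n + 4 * h then a n ^ 2 + a k ^ 2 else 0) ≤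
      16 * h * A := by
    have e1 : ∑ n ∈ I, ∑ k ∈ I, (if n < k + 4 * h ∧ k < n + 4 * h then a n ^ 2 else 0) ≤
        8 * h * A := by
      rw [hA', Finset.mul_sum]
      refine Finset.sum_le_sum fun n _ => ?_
      rw [← Finset.sum_filter, Finset.sum_const, nsmul_eq_mul]
      exact mul_le_mul_of_nonneg_right (block_near h n I) (sq_nonneg _)
    have e2 : ∑ n ∈ I, ∑ k ∈ I, (if n < k + 4 * h ∧ k < n + 4 * h then a k ^ 2 else 0) ≤
        8 * h * A := by
      rw [Finset.sum_comm]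
      refine le_trans (le_of_eq ?_) e1
      refine Finset.sum_congr rfl fun n _ => Finset.sum_congr rfl fun k _ => ?_
      simp only [and_comm]
    have e3 : ∑ n ∈ I, ∑ k ∈ I, (if n < k + 4 * h ∧ k < n + 4 * h then a n ^ 2 + a k ^ 2 else 0) =
        ∑ n ∈ I, ∑ k ∈ I, (if n < k + 4 * h ∧ k < n + 4 * h then a n ^ 2 else 0) +
        ∑ n ∈ I, ∑ k ∈ I, (if n < k + 4 * h ∧ k < n + 4 * h then a k ^ 2 else 0) := by
      rw [← Finset.sum_add_distrib]
      refine Finset.sum_congr rfl fun n _ => ?_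
      rw [← Finset.sum_add_distrib]
      refine Finset.sum_congr rfl fun k _ => ?_
      split_ifs <;> ring
    rw [e3]
    linarith
  have hsum : ∑ n ∈ I, ∑ k ∈ I, |a n| * |a k| * |Phi l r (t n - t k) - b n * b k| ≤
      45 / 10000 * A ^ 2 := by
    have e1 : ∑ n ∈ I, ∑ k ∈ I, |a n| * |a k| * |Phi l r (t n - t k) - b n * b k| ≤
        ∑ n ∈ I, ∑ k ∈ I, (41 / 10000 * (a n ^ 2 * a k ^ 2) +
        (if n < k + 4 * h ∧ k < n + 4 * h then a n ^ 2 + a k ^ 2 else 0)) :=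
      Finset.sum_le_sum fun n hn => Finset.sum_le_sum fun k hk => hpair n hn k hk
    refine e1.trans ?_
    simp only [Finset.sum_add_distrib]
    have e2 : ∑ n ∈ I, ∑ k ∈ I, 41 / 10000 * (a n ^ 2 * a k ^ 2) = 41 / 10000 * A ^ 2 := by
      rw [sq A, hA', Finset.sum_mul_sum, Finset.mul_sum]
      refine Finset.sum_congr rfl fun n _ => ?_
      rw [Finset.mul_sum]
    rw [e2]
    have e3 : 16 * (h : ℝ) * A ≤ 16 / 100000 * A ^ 2 := by nlinarith
    nlinarith [sq_nonneg A]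
  -- Chebyshev
  have hV := block_second l r I a v hv t
  set B := (Finset.univ : Finset (Fin r → Bool)).filter (fun s =>
        ‖FF h N (fun n => Phi l L (t n)) v t (SS l s)‖ < 1 / 2 * A) with hB
  have hcheb : (B.card : ℝ) * ((37 / 100 * A) ^ 2) ≤
      ∑ s : Fin r → Bool, ‖(∑ n ∈ I, (a n : ℂ) * v n *
        Complex.exp (((t n * SS l s : ℝ) : ℂ) * Complex.I)) -
        ∑ n ∈ I, (a n : ℂ) * v n * (Phi l r (t n) : ℂ)‖ ^ 2 := by
    calc (B.card : ℝ) * ((37 / 100 * A) ^ 2) = ∑ s ∈ B, ((37 / 100 * A) ^ 2) := by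
          rw [Finset.sum_const, nsmul_eq_mul]
      _ ≤ ∑ s ∈ B, ‖(∑ n ∈ I, (a n : ℂ) * v n *
        Complex.exp (((t n * SS l s : ℝ) : ℂ) * Complex.I)) -
        ∑ n ∈ I, (a n : ℂ) * v n * (Phi l r (t n) : ℂ)‖ ^ 2 := by
          refine Finset.sum_le_sum fun s hs => ?_
          have e1 : ‖FF h N (fun n => Phi l L (t n)) v t (SS l s)‖ < 1 / 2 * A :=
            (Finset.mem_filter.1 hs).2
          have e2 : 37 / 100 * A ≤ ‖FF h N (fun n => Phi l L (t n)) v t (SS l s) - m‖ := by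
            have e3 : ‖m‖ ≤ ‖FF h N (fun n => Phi l L (t n)) v t (SS l s)‖ +
                ‖FF h N (fun n => Phi l L (t n)) v t (SS l s) - m‖ := by
              calc ‖m‖ = ‖FF h N (fun n => Phi l L (t n)) v t (SS l s) -
                    (FF h N (fun n => Phi l L (t n)) v t (SS l s) - m)‖ := by congr 1; ring
                _ ≤ _ := norm_sub_le _ _
            linarith
          exact pow_le_pow_left₀ (by positivity) e2 2
      _ ≤ _ := Finset.sum_le_sum_of_subset_of_nonneg (Finset.subset_univ _)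
          fun _ _ _ => sq_nonneg _
  have hfin := hcheb.trans hV
  have h2r : (0 : ℝ) < 2 ^ r := by positivity
  have h3 : (B.card : ℝ) * ((37 / 100 * A) ^ 2) ≤ 2 ^ r * (45 / 10000 * A ^ 2) :=
    hfin.trans (mul_le_mul_of_nonneg_left hsum h2r.le)
  have h4 : (B.card : ℝ) * (1369 / 10000) ≤ 2 ^ r * (45 / 10000) := by
    have hA2 : 0 < A ^ 2 := by positivity
    have h5 : ((B.card : ℝ) * (1369 / 10000)) * A ^ 2 ≤ (2 ^ r * (45 / 10000)) * A ^ 2 := by
      nlinarith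
    exact le_of_mul_le_mul_right h5 hA2
  linarith

end Pool.Agent.H938
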