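import Pool.Agent.H938_Salem4.Defs2

set_option autoImplicit false

namespace Pool.Agent.H938

open Polynomial

/-- TARGET -/
theorem FF_var {β l κ : ℝ} {h N : ℕ} (hl : 1 / 2 < l) (hl' : l ≤ 3 / 5) (hβ : β * l = 1)
    (hκ : 1 ≤ κ) (hκ' : 8 * κ ≤ β ^ h) (hh : 10 ≤ h) (hN : h ≤ N) (hlh : l ^ h ≤ 1 / 12000)
    (a : ℕ → ℝ) (ha : ∀ n, |a n| ≤ 1) (u : ℕ → ℂ) (hu : ∀ n, ‖u n‖ = 1)
    (hA : 1 ≤ ∑ n ∈ Finset.Icc h N, a n ^ 2) {z z' : ℝ} (hz : |z - z'| ≤ l ^ (N + 2 * h)) :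
    ‖FF h N a u (fun n => Real.pi * κ * β ^ n) z - FF h N a u (fun n => Real.pi * κ * β ^ n) z'‖ ≤
      1 / 4 * ∑ n ∈ Finset.Icc h N, a n ^ 2 := by
  have hl0 : 0 < l := by linarith
  have hβ0 : 0 < β := by
    by_contra hn
    push Not at hn
    nlinarith
  have hexp : ∀ x y : ℝ, ‖Complex.exp ((x : ℂ) * Complex.I) - Complex.exp ((y : ℂ) * Complex.I)‖ ≤
      |x - y| := by
    intro x y
    have h1 : Complex.exp ((x : ℂ) * Complex.I) - Complex.exp ((y : ℂ) * Complex.I) =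
        Complex.exp ((y : ℂ) * Complex.I) * (Complex.exp (Complex.I * ((x - y : ℝ) : ℂ)) - 1) := by
      rw [mul_sub, mul_one, ← Complex.exp_add]
      congr 2
      push_cast; ring
    rw [h1, norm_mul, Complex.norm_exp_ofReal_mul_I, one_mul]
    exact Real.norm_exp_I_mul_ofReal_sub_one_le
  have hS : ∀ m : ℕ, ∑ ν ∈ Finset.range (m + 1), β ^ ν ≤ 5 / 2 * β ^ m := by
    intro m
    induction m with
    | zero => norm_num
    | succ m ih =>
      rw [Finset.sum_range_succ]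
      have h1 : β ^ m = β ^ (m + 1) * l := by
        rw [pow_succ, mul_assoc, hβ, mul_one]
      have h2 : 0 < β ^ (m + 1) := pow_pos hβ0 _
      rw [h1] at ih
      nlinarith
  have hS' : ∑ ν ∈ Finset.Icc h N, β ^ ν ≤ 5 / 2 * β ^ N := by
    refine le_trans (Finset.sum_le_sum_of_subset_of_nonneg ?_ ?_) (hS N)
    · intro i hi
      rw [Finset.mem_Icc] at hi
      exact Finset.mem_range.mpr (by omega)
    · intro i _ _
      exact (pow_pos hβ0 i).le
  have hpi0 := Real.pi_pos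
  have hpi := Real.pi_lt_d2
  have h1 : ‖FF h N a u (fun n => Real.pi * κ * β ^ n) z -
      FF h N a u (fun n => Real.pi * κ * β ^ n) z'‖ ≤
      ∑ ν ∈ Finset.Icc h N, Real.pi * κ * l ^ (N + 2 * h) * β ^ ν := by
    unfold FF
    rw [← Finset.sum_sub_distrib]
    refine (norm_sum_le _ _).trans (Finset.sum_le_sum fun ν _ => ?_)
    rw [← mul_sub, norm_mul, norm_mul, hu, mul_one, Complex.norm_real, Real.norm_eq_abs]
    have h2 := hexp (Real.pi * κ * β ^ ν * z) (Real.pi * κ * β ^ ν * z')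
    have h3 : |Real.pi * κ * β ^ ν * z - Real.pi * κ * β ^ ν * z'| =
        Real.pi * κ * β ^ ν * |z - z'| := by
      rw [← mul_sub, abs_mul, abs_of_pos (by positivity)]
    rw [h3] at h2
    have h4 : Real.pi * κ * β ^ ν * |z - z'| ≤ Real.pi * κ * l ^ (N + 2 * h) * β ^ ν := by
      have h5 : 0 ≤ Real.pi * κ * β ^ ν := by positivity
      calc Real.pi * κ * β ^ ν * |z - z'| ≤ Real.pi * κ * β ^ ν * l ^ (N + 2 * h) :=
            mul_le_mul_of_nonneg_left hz h5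
        _ = _ := by ring
    calc |a ν| * ‖Complex.exp (((Real.pi * κ * β ^ ν * z : ℝ) : ℂ) * Complex.I) -
          Complex.exp (((Real.pi * κ * β ^ ν * z' : ℝ) : ℂ) * Complex.I)‖
        ≤ 1 * ‖Complex.exp (((Real.pi * κ * β ^ ν * z : ℝ) : ℂ) * Complex.I) -
          Complex.exp (((Real.pi * κ * β ^ ν * z' : ℝ) : ℂ) * Complex.I)‖ :=
          mul_le_mul_of_nonneg_right (ha ν) (norm_nonneg _)
      _ ≤ _ := by rw [one_mul]; exact h2.trans h4
  rw [← Finset.mul_sum] at h1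
  have h6 : Real.pi * κ * l ^ (N + 2 * h) * ∑ ν ∈ Finset.Icc h N, β ^ ν ≤
      Real.pi * (5 / 16) * l ^ h := by
    have h7 : 0 ≤ Real.pi * κ * l ^ (N + 2 * h) := by positivity
    have h8 : κ ≤ β ^ h / 8 := by linarith
    have h9 : 0 ≤ Real.pi * l ^ (N + 2 * h) * (5 / 2 * β ^ N) := by positivity
    calc Real.pi * κ * l ^ (N + 2 * h) * ∑ ν ∈ Finset.Icc h N, β ^ ν
        ≤ Real.pi * κ * l ^ (N + 2 * h) * (5 / 2 * β ^ N) := mul_le_mul_of_nonneg_left hS' h7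
      _ = κ * (Real.pi * l ^ (N + 2 * h) * (5 / 2 * β ^ N)) := by ring
      _ ≤ β ^ h / 8 * (Real.pi * l ^ (N + 2 * h) * (5 / 2 * β ^ N)) :=
          mul_le_mul_of_nonneg_right h8 h9
      _ = Real.pi * (5 / 16) * l ^ h * ((β * l) ^ h * (β * l) ^ N) := by
          rw [mul_pow, mul_pow, pow_add, two_mul, pow_add]; ring
      _ = Real.pi * (5 / 16) * l ^ h := by rw [hβ, one_pow, one_pow, mul_one, mul_one]
  have h10 : Real.pi * (5 / 16) * l ^ h ≤ 1 / 4 := by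
    have h11 : 0 < l ^ h := pow_pos hl0 h
    nlinarith
  linarith

end Pool.Agent.H938
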