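import Pool.Agent.H938_Salem4.Defs2

set_option autoImplicit false

namespace Pool.Agent.H938

open Polynomial

/-- geometric sums over an interval of integers -/
theorem cg_geom (p q : ℤ) (θ : ℝ) (h0 : θ ≠ 0) (h1 : |θ| ≤ Real.pi) :
    ‖∑ C ∈ Finset.Icc p q, Complex.exp (((θ * C : ℝ) : ℂ) * Complex.I)‖ ≤ Real.pi / |θ| := by
  have hθ : 0 < |θ| := abs_pos.mpr h0
  have hpi := Real.pi_pos
  rcases lt_or_ge q p with hlt | hle
  · rw [Finset.Icc_eq_empty (by omega), Finset.sum_empty, norm_zero]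
    positivity
  · have htel : ∀ q : ℤ, p ≤ q → (Complex.exp (Complex.I * θ) - 1) *
        ∑ C ∈ Finset.Icc p q, Complex.exp (((θ * C : ℝ) : ℂ) * Complex.I) =
        Complex.exp (((θ * (q + 1) : ℝ) : ℂ) * Complex.I) -
          Complex.exp (((θ * p : ℝ) : ℂ) * Complex.I) := by
      intro q hq
      have hstep : ∀ C : ℤ, (Complex.exp (Complex.I * θ) - 1) *
          Complex.exp (((θ * C : ℝ) : ℂ) * Complex.I) =
          Complex.exp (((θ * (C + 1) : ℝ) : ℂ) * Complex.I) -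
          Complex.exp (((θ * C : ℝ) : ℂ) * Complex.I) := by
        intro C
        rw [sub_mul, one_mul, ← Complex.exp_add]
        congr 2
        push_cast
        ring
      induction q, hq using Int.leInduction with
      | base => rw [Finset.Icc_self, Finset.sum_singleton]; exact hstep p
      | succ k hk ih =>
        have hI : Finset.Icc p (k + 1) = insert (k + 1) (Finset.Icc p k) := by
          ext x; simp only [Finset.mem_Icc, Finset.mem_insert]; omega
        rw [hI, Finset.sum_insert (by simp), mul_add, ih, hstep]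
        push_cast
        ring
    have h2 := congrArg norm (htel q hle)
    rw [norm_mul, Complex.norm_exp_I_mul_ofReal_sub_one] at h2
    have h3 : ‖Complex.exp (((θ * (q + 1) : ℝ) : ℂ) * Complex.I) -
          Complex.exp (((θ * p : ℝ) : ℂ) * Complex.I)‖ ≤ 2 := by
      refine (norm_sub_le _ _).trans ?_
      rw [Complex.norm_exp_ofReal_mul_I, Complex.norm_exp_ofReal_mul_I]
      norm_num
    have h4 : 2 / Real.pi * |θ / 2| ≤ |Real.sin (θ / 2)| := by
      refine Real.mul_abs_le_abs_sin ?_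
      rw [abs_div, abs_of_pos (by norm_num : (0 : ℝ) < 2)]
      linarith
    rw [Real.norm_eq_abs, abs_mul, abs_of_pos (by norm_num : (0 : ℝ) < 2)] at h2
    have h5 : 2 / Real.pi * |θ| ≤ 2 * |Real.sin (θ / 2)| := by
      rw [abs_div, abs_of_pos (by norm_num : (0 : ℝ) < 2)] at h4
      linarith
    have h6 : 2 / Real.pi * |θ| *
        ‖∑ C ∈ Finset.Icc p q, Complex.exp (((θ * C : ℝ) : ℂ) * Complex.I)‖ ≤ 2 := by
      calc _ ≤ 2 * |Real.sin (θ / 2)| *
          ‖∑ C ∈ Finset.Icc p q, Complex.exp (((θ * C : ℝ) : ℂ) * Complex.I)‖ :=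
            mul_le_mul_of_nonneg_right h5 (norm_nonneg _)
        _ ≤ 2 := h2 ▸ h3
    rw [le_div_iff₀ hθ]
    generalize ‖∑ C ∈ Finset.Icc p q, Complex.exp (((θ * C : ℝ) : ℂ) * Complex.I)‖ = S at h6 ⊢
    have h7 : 2 / Real.pi * |θ| * S * Real.pi = 2 * (S * |θ|) := by
      field_simp
    nlinarith [mul_le_mul_of_nonneg_right h6 hpi.le]

/-- TARGET -/
theorem count_good {β l κ : ℝ} {h N : ℕ} (hl : 1 / 2 < l) (hl' : l ≤ 3 / 5) (hβ : β * l = 1)
    (hκ : 1 ≤ κ) (hκ' : 8 * κ ≤ β ^ h) (hh : 10 ≤ h) (hN : h ≤ N) (hlh : l ^ h ≤ 1 / 12000)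
    (a : ℕ → ℝ) (ha : ∀ n, |a n| ≤ 1) (u : ℕ → ℂ) (hu : ∀ n, ‖u n‖ = 1)
    (hA : 1 ≤ ∑ n ∈ Finset.Icc h N, a n ^ 2) (C : ℤ) (G : Finset ℤ)
    (hG : ∀ C' ∈ G, β ^ (N + 2 * h) * C - 1 ≤ C' ∧ (C' : ℝ) ≤ β ^ (N + 2 * h) * (C + 1) ∧
      1 / 4 * ∑ n ∈ Finset.Icc h N, a n ^ 2 ≤
        ‖FF h N a u (fun n => Real.pi * κ * β ^ n) (C' * l ^ (N + 2 * h))‖) :
    (G.card : ℝ) ≤ 48 * β ^ (N + 2 * h) / ∑ n ∈ Finset.Icc h N, a n ^ 2 := by
  have hpi := Real.pi_pos
  have hl0 : 0 < l := by linarith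
  have hβ0 : 0 < β := by
    by_contra hcon
    push Not at hcon
    nlinarith
  have hβ1 : 1 < β := by nlinarith
  have hβlow : 5 / 3 ≤ β := by nlinarith
  set L := N + 2 * h with hL
  set A := ∑ n ∈ Finset.Icc h N, a n ^ 2 with hAdef
  have hA0 : 0 < A := by linarith
  have hβL : 2 ≤ β ^ L := by
    have h1 : β ^ 2 ≤ β ^ L := pow_le_pow_right₀ hβ1.le (by omega)
    nlinarith
  have hβlL : β ^ L * l ^ L = 1 := by rw [← mul_pow, hβ, one_pow]
  -- the interval
  set R : Finset ℤ := Finset.Icc ⌈β ^ L * C - 1⌉ ⌊β ^ L * (C + 1)⌋ with hR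
  have hGR : G ⊆ R := by
    intro C' hC'
    obtain ⟨h1, h2, _⟩ := hG C' hC'
    rw [hR, Finset.mem_Icc]
    exact ⟨Int.ceil_le.mpr h1, Int.le_floor.mpr h2⟩
  have hRcard : (R.card : ℝ) ≤ 2 * β ^ L := by
    have h0 : (R.card : ℝ) ≤ β ^ L + 2 := by
      rw [hR, Int.card_Icc]
      have h1 : (⌊β ^ L * (C + 1)⌋ : ℝ) ≤ β ^ L * (C + 1) := Int.floor_le _
      have h2 : β ^ L * C - 1 ≤ (⌈β ^ L * C - 1⌉ : ℝ) := Int.le_ceil _
      rcases le_total 0 (⌊β ^ L * (C + 1)⌋ + 1 - ⌈β ^ L * C - 1⌉) with h3 | h3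
      · have h4 : (((⌊β ^ L * (C + 1)⌋ + 1 - ⌈β ^ L * C - 1⌉).toNat : ℤ) : ℝ) =
            ((⌊β ^ L * (C + 1)⌋ + 1 - ⌈β ^ L * C - 1⌉ : ℤ) : ℝ) := by
          rw [Int.toNat_of_nonneg h3]
        have h5 : (((⌊β ^ L * (C + 1)⌋ + 1 - ⌈β ^ L * C - 1⌉).toNat : ℕ) : ℝ) =
            ((⌊β ^ L * (C + 1)⌋ + 1 - ⌈β ^ L * C - 1⌉ : ℤ) : ℝ) := by
          rw [← h4]; norm_cast
        rw [h5]
        push_cast
        nlinarith
      · rw [Int.toNat_of_nonpos h3]
        push_cast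
        linarith
    linarith
  -- the square root of l
  obtain ⟨s, hs0, hs2⟩ : ∃ s : ℝ, 0 < s ∧ s ^ 2 = l :=
    ⟨Real.sqrt l, Real.sqrt_pos.mpr hl0, Real.sq_sqrt hl0.le⟩
  have hs1 : s ≤ 31 / 40 := by nlinarith
  -- the phases
  set t : ℕ → ℝ := fun n => Real.pi * κ * β ^ n with ht
  have hθ : ∀ n ∈ Finset.Icc h N, ∀ m ∈ Finset.Icc h N, n ≠ m →
      ‖∑ C' ∈ R, Complex.exp ((((t n - t m) * l ^ L * C' : ℝ) : ℂ) * Complex.I)‖ ≤
        5 / 2 * β ^ L * (s ^ n * s ^ m) := by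
    have key : ∀ n ∈ Finset.Icc h N, ∀ m ∈ Finset.Icc h N, m < n →
        2 / 5 * Real.pi * β ^ n ≤ t n - t m ∧ t n - t m ≤ Real.pi * κ * β ^ N := by
      intro n hn m hm hmn
      rw [Finset.mem_Icc] at hn hm
      have h1 : β ^ m ≤ β ^ (n - 1) := pow_le_pow_right₀ hβ1.le (by omega)
      have h2 : β ^ (n - 1) = l * β ^ n := by
        have : β ^ n = β ^ (n - 1) * β := by rw [← pow_succ]; congr 1; omega
        rw [this]
        calc β ^ (n - 1) = β ^ (n - 1) * (β * l) := by rw [hβ, mul_one]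
          _ = _ := by ring
      have h3 : β ^ n ≤ β ^ N := pow_le_pow_right₀ hβ1.le hn.2
      have h4 : 0 < β ^ m := by positivity
      have h5 : 0 < β ^ n := by positivity
      simp only [ht]
      constructor
      · have h6 : 2 / 5 * β ^ n ≤ β ^ n - β ^ m := by nlinarith
        have h7 : Real.pi * (2 / 5 * β ^ n) ≤ Real.pi * (κ * (β ^ n - β ^ m)) := by
          refine mul_le_mul_of_nonneg_left ?_ hpi.le
          nlinarith
        linarith
      · have h6 : 0 < Real.pi * κ := by positivity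
        nlinarith
    have main : ∀ n ∈ Finset.Icc h N, ∀ m ∈ Finset.Icc h N, n ≠ m → ∀ k, (n ≤ k ∧ m ≤ k) →
        2 / 5 * Real.pi * β ^ k ≤ |t n - t m| → |t n - t m| ≤ Real.pi * κ * β ^ N →
        ‖∑ C' ∈ R, Complex.exp ((((t n - t m) * l ^ L * C' : ℝ) : ℂ) * Complex.I)‖ ≤
        5 / 2 * β ^ L * (s ^ n * s ^ m) := by
      intro n hn m hm hnm k hk hlow hup
      have hlL : 0 < l ^ L := by positivity
      have hβk : 0 < β ^ k := by positivity
      have habs : |(t n - t m) * l ^ L| = |t n - t m| * l ^ L := by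
        rw [abs_mul, abs_of_pos hlL]
      have hpos : 0 < |t n - t m| := lt_of_lt_of_le (by positivity) hlow
      have hne : (t n - t m) * l ^ L ≠ 0 := by
        rw [← abs_pos, habs]; positivity
      have hle : |(t n - t m) * l ^ L| ≤ Real.pi := by
        rw [habs]
        have h1 : β ^ N * l ^ L = l ^ h * l ^ h := by
          have : l ^ L = l ^ N * (l ^ h * l ^ h) := by rw [hL]; ring
          rw [this, ← mul_assoc, ← mul_pow, hβ, one_pow, one_mul]
        have h2 : κ * l ^ h ≤ 1 / 8 := by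
          have h3 : β ^ h * l ^ h = 1 := by rw [← mul_pow, hβ, one_pow]
          have h4 : 0 < l ^ h := by positivity
          nlinarith
        have h5 : l ^ h ≤ 1 := by linarith
        have h6 : 0 < l ^ h := by positivity
        calc |t n - t m| * l ^ L ≤ Real.pi * κ * β ^ N * l ^ L :=
              mul_le_mul_of_nonneg_right hup hlL.le
          _ = Real.pi * ((κ * l ^ h) * l ^ h) := by rw [mul_assoc (Real.pi * κ), h1]; ring
          _ ≤ Real.pi * 1 := by
              refine mul_le_mul_of_nonneg_left ?_ hpi.le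
              nlinarith
          _ = Real.pi := mul_one _
      have hg := cg_geom ⌈β ^ L * C - 1⌉ ⌊β ^ L * (C + 1)⌋ _ hne hle
      refine hg.trans ?_
      rw [habs, div_le_iff₀ (by positivity)]
      -- s^n s^m >= l^k
      have hsk : l ^ k ≤ s ^ n * s ^ m := by
        rw [← hs2, ← pow_mul, ← pow_add]
        exact pow_le_pow_of_le_one hs0.le (by linarith) (by omega)
      have hβlk : β ^ k * l ^ k = 1 := by rw [← mul_pow, hβ, one_pow]
      have hlk : 0 < l ^ k := by positivity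
      have h1 : 1 ≤ β ^ k * (s ^ n * s ^ m) := by nlinarith
      have h2 : 2 / 5 * Real.pi ≤ |t n - t m| * (s ^ n * s ^ m) := by
        have h3 : 2 / 5 * Real.pi * (β ^ k * (s ^ n * s ^ m)) ≤ |t n - t m| * (s ^ n * s ^ m) := by
          rw [← mul_assoc]
          exact mul_le_mul_of_nonneg_right hlow (by positivity)
        have h4 : 2 / 5 * Real.pi * 1 ≤ 2 / 5 * Real.pi * (β ^ k * (s ^ n * s ^ m)) :=
          mul_le_mul_of_nonneg_left h1 (by positivity)
        linarith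
      calc Real.pi ≤ 5 / 2 * (|t n - t m| * (s ^ n * s ^ m)) := by linarith
        _ = 5 / 2 * (β ^ L * l ^ L) * (|t n - t m| * (s ^ n * s ^ m)) := by rw [hβlL, mul_one]
        _ = _ := by ring
    intro n hn m hm hnm
    rcases lt_or_gt_of_ne hnm with hlt | hgt
    · obtain ⟨k1, k2⟩ := key m hm n hn hlt
      have hneg : |t n - t m| = t m - t n := by
        rw [abs_sub_comm, abs_of_nonneg]
        exact le_trans (by positivity) k1
      exact main n hn m hm hnm m ⟨hlt.le, le_rfl⟩ (by rw [hneg]; exact k1) (by rw [hneg]; exact k2)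
    · obtain ⟨k1, k2⟩ := key n hn m hm hgt
      have hneg : |t n - t m| = t n - t m := by
        rw [abs_of_nonneg]
        exact le_trans (by positivity) k1
      exact main n hn m hm hnm n ⟨le_rfl, hgt.le⟩ (by rw [hneg]; exact k1) (by rw [hneg]; exact k2)
  -- expand the square
  have hexp : (((∑ C' ∈ R, ‖FF h N a u t (C' * l ^ L)‖ ^ 2 : ℝ)) : ℂ) =
      ∑ n ∈ Finset.Icc h N, ∑ m ∈ Finset.Icc h N, ((a n : ℂ) * u n * ((a m : ℂ) * (starRingEnd ℂ) (u m))) *
        ∑ C' ∈ R, Complex.exp ((((t n - t m) * l ^ L * C' : ℝ) : ℂ) * Complex.I) := by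
    push_cast
    have h1 : ∀ C' ∈ R, ((‖FF h N a u t (C' * l ^ L)‖ : ℂ)) ^ 2 =
        ∑ n ∈ Finset.Icc h N, ∑ m ∈ Finset.Icc h N,
          ((a n : ℂ) * u n * ((a m : ℂ) * (starRingEnd ℂ) (u m))) *
            Complex.exp ((((t n - t m) * l ^ L * C' : ℝ) : ℂ) * Complex.I) := by
      intro C' _
      rw [← Complex.mul_conj', FF, map_sum, Finset.sum_mul_sum]
      refine Finset.sum_congr rfl fun n _ => Finset.sum_congr rfl fun m _ => ?_
      rw [map_mul, map_mul, Complex.conj_ofReal, ← Complex.exp_conj, map_mul, Complex.conj_ofReal,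
        Complex.conj_I]
      have : Complex.exp ((((t n - t m) * l ^ L * C' : ℝ) : ℂ) * Complex.I) =
          Complex.exp (((t n * (C' * l ^ L) : ℝ) : ℂ) * Complex.I) *
          Complex.exp (((t m * (C' * l ^ L) : ℝ) : ℂ) * -Complex.I) := by
        rw [← Complex.exp_add]
        congr 1
        push_cast
        ring
      rw [this]
      ring
    rw [Finset.sum_congr rfl h1, Finset.sum_comm]
    refine Finset.sum_congr rfl fun n _ => ?_
    rw [Finset.sum_comm]
    refine Finset.sum_congr rfl fun m _ => ?_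
    rw [Finset.mul_sum]
    push_cast
    rfl
  have hbound : ∑ C' ∈ R, ‖FF h N a u t (C' * l ^ L)‖ ^ 2 ≤ 3 * β ^ L * A := by
    have h1 : ∑ C' ∈ R, ‖FF h N a u t (C' * l ^ L)‖ ^ 2 ≤
        ‖(((∑ C' ∈ R, ‖FF h N a u t (C' * l ^ L)‖ ^ 2 : ℝ)) : ℂ)‖ := by
      rw [Complex.norm_real, Real.norm_eq_abs]
      exact le_abs_self _
    rw [hexp] at h1
    have h2 : ∀ n ∈ Finset.Icc h N, ∀ m ∈ Finset.Icc h N,
        ‖((a n : ℂ) * u n * ((a m : ℂ) * (starRingEnd ℂ) (u m))) *
        ∑ C' ∈ R, Complex.exp ((((t n - t m) * l ^ L * C' : ℝ) : ℂ) * Complex.I)‖ ≤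
        (if n = m then a n ^ 2 * (2 * β ^ L) else 0) + 5 / 2 * β ^ L * (s ^ n * s ^ m) := by
      intro n hn m hm
      rw [norm_mul]
      have hc : ‖(a n : ℂ) * u n * ((a m : ℂ) * (starRingEnd ℂ) (u m))‖ = |a n| * |a m| := by
        simp [hu]
      rw [hc]
      by_cases hnm : n = m
      · subst hnm
        rw [if_pos rfl]
        have h3 : ‖∑ C' ∈ R, Complex.exp ((((t n - t n) * l ^ L * C' : ℝ) : ℂ) * Complex.I)‖ ≤
            2 * β ^ L := by
          simp only [sub_self, zero_mul, Complex.ofReal_zero, Complex.exp_zero,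
            Finset.sum_const, nsmul_eq_mul, mul_one]
          rw [Complex.norm_natCast]
          exact hRcard
        have h4 : |a n| * |a n| = a n ^ 2 := by rw [← abs_mul, ← sq, abs_of_nonneg (sq_nonneg _)]
        rw [h4]
        have h5 : 0 ≤ 5 / 2 * β ^ L * (s ^ n * s ^ n) := by positivity
        have := mul_le_mul_of_nonneg_left h3 (sq_nonneg (a n))
        linarith
      · rw [if_neg hnm, zero_add]
        have h3 := hθ n hn m hm hnm
        have h4 : |a n| * |a m| ≤ 1 := mul_le_one₀ (ha n) (abs_nonneg _) (ha m)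
        calc _ ≤ 1 * ‖∑ C' ∈ R, Complex.exp ((((t n - t m) * l ^ L * C' : ℝ) : ℂ) * Complex.I)‖ :=
              mul_le_mul_of_nonneg_right h4 (norm_nonneg _)
          _ ≤ _ := by rw [one_mul]; exact h3
    have h3 : ‖∑ n ∈ Finset.Icc h N, ∑ m ∈ Finset.Icc h N,
        ((a n : ℂ) * u n * ((a m : ℂ) * (starRingEnd ℂ) (u m))) *
        ∑ C' ∈ R, Complex.exp ((((t n - t m) * l ^ L * C' : ℝ) : ℂ) * Complex.I)‖ ≤
        ∑ n ∈ Finset.Icc h N, ∑ m ∈ Finset.Icc h N,
        ((if n = m then a n ^ 2 * (2 * β ^ L) else 0) + 5 / 2 * β ^ L * (s ^ n * s ^ m)) :=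
      (norm_sum_le _ _).trans (Finset.sum_le_sum fun n hn =>
        (norm_sum_le _ _).trans (Finset.sum_le_sum fun m hm => h2 n hn m hm))
    have h4 : ∑ n ∈ Finset.Icc h N, ∑ m ∈ Finset.Icc h N,
        ((if n = m then a n ^ 2 * (2 * β ^ L) else 0) + 5 / 2 * β ^ L * (s ^ n * s ^ m)) =
        A * (2 * β ^ L) + 5 / 2 * β ^ L * (∑ n ∈ Finset.Icc h N, s ^ n) ^ 2 := by
      simp only [Finset.sum_add_distrib]
      congr 1
      · rw [hAdef, Finset.sum_mul]
        refine Finset.sum_congr rfl fun n hn => ?_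
        rw [Finset.sum_ite_eq, if_pos hn]
      · rw [sq, Finset.sum_mul_sum, Finset.mul_sum]
        refine Finset.sum_congr rfl fun n _ => ?_
        rw [Finset.mul_sum]
    have h5 : ∑ n ∈ Finset.Icc h N, s ^ n ≤ s ^ h * (40 / 9) := by
      have h6 : (∑ n ∈ Finset.Icc h N, s ^ n) * (1 - s) ≤ s ^ h := by
        have h7 : ∀ M, h ≤ M → (∑ n ∈ Finset.Icc h M, s ^ n) * (1 - s) = s ^ h - s ^ (M + 1) := by
          intro M hM
          induction M, hM using Nat.le_induction with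
          | base => rw [Finset.Icc_self, Finset.sum_singleton]; ring
          | succ k hk ih =>
            rw [← Finset.insert_Icc_right_eq_Icc_add_one (by omega), Finset.sum_insert (by simp), add_mul, ih]
            ring
        rw [h7 N hN]
        have : 0 < s ^ (N + 1) := by positivity
        linarith
      have h8 : 0 ≤ ∑ n ∈ Finset.Icc h N, s ^ n := Finset.sum_nonneg fun n _ => by positivity
      nlinarith
    have h9 : (∑ n ∈ Finset.Icc h N, s ^ n) ^ 2 ≤ 1 / 12000 * (1600 / 81) := by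
      have h8 : 0 ≤ ∑ n ∈ Finset.Icc h N, s ^ n := Finset.sum_nonneg fun n _ => by positivity
      calc (∑ n ∈ Finset.Icc h N, s ^ n) ^ 2 ≤ (s ^ h * (40 / 9)) ^ 2 :=
            pow_le_pow_left₀ h8 h5 2
        _ = l ^ h * (1600 / 81) := by rw [← hs2]; ring
        _ ≤ _ := by nlinarith
    have h10 : 0 < β ^ L := by positivity
    nlinarith
  -- conclusion
  have hlow : (G.card : ℝ) * (1 / 4 * A) ^ 2 ≤ 3 * β ^ L * A := by
    calc (G.card : ℝ) * (1 / 4 * A) ^ 2 = ∑ C' ∈ G, (1 / 4 * A) ^ 2 := by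
          rw [Finset.sum_const, nsmul_eq_mul]
      _ ≤ ∑ C' ∈ G, ‖FF h N a u t (C' * l ^ L)‖ ^ 2 := by
          refine Finset.sum_le_sum fun C' hC' => ?_
          exact pow_le_pow_left₀ (by positivity) (hG C' hC').2.2 2
      _ ≤ ∑ C' ∈ R, ‖FF h N a u t (C' * l ^ L)‖ ^ 2 :=
          Finset.sum_le_sum_of_subset_of_nonneg hGR fun _ _ _ => by positivity
      _ ≤ _ := hbound
  rw [le_div_iff₀ hA0]
  have h1 : (G.card : ℝ) * A * A ≤ 48 * β ^ L * A := by nlinarith
  exact le_of_mul_le_mul_right h1 hA0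

end Pool.Agent.H938
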