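import Pool.Agent.H938_Salem4.Defs2

set_option autoImplicit false

namespace Pool.Agent.H938

open Polynomial

theorem xs_flip_self {n : ℕ} (ω : Fin n → Bool) (i : ℕ) (h : i < n) :
    xs (Function.update ω ⟨i, h⟩ (!ω ⟨i, h⟩)) i = - xs ω i := by
  unfold xs
  rw [dif_pos h, dif_pos h, Function.update_self]
  cases ω ⟨i, h⟩ <;> simp

theorem xs_flip_ne {n : ℕ} (ω : Fin n → Bool) (i j : ℕ) (h : i < n) (hij : i ≠ j) :
    xs (Function.update ω ⟨i, h⟩ (!ω ⟨i, h⟩)) j = xs ω j := by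
  unfold xs
  by_cases hj : j < n
  · rw [dif_pos hj, dif_pos hj, Function.update_of_ne]
    intro h'
    exact hij (Fin.mk.inj_iff.mp h').symm
  · rw [dif_neg hj, dif_neg hj]

theorem sum_xs_mul {n : ℕ} (i j : ℕ) (hij : i ≠ j) :
    ∑ ω : Fin n → Bool, xs ω i * xs ω j = 0 := by
  by_cases h : i < n
  · let e : Equiv.Perm (Fin n → Bool) := Function.Involutive.toPerm
      (fun ω => Function.update ω ⟨i, h⟩ (!ω ⟨i, h⟩)) (by
        intro ω
        simp)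
    have h1 : ∑ ω : Fin n → Bool, xs (e ω) i * xs (e ω) j = ∑ ω : Fin n → Bool, xs ω i * xs ω j :=
      Equiv.sum_comp e (fun ω => xs ω i * xs ω j)
    have h2 : ∀ ω : Fin n → Bool, xs (e ω) i * xs (e ω) j = - (xs ω i * xs ω j) := by
      intro ω
      change xs (Function.update ω ⟨i, h⟩ (!ω ⟨i, h⟩)) i * xs (Function.update ω ⟨i, h⟩ (!ω ⟨i, h⟩)) j = _
      rw [xs_flip_self, xs_flip_ne ω i j h hij]
      ring
    rw [Finset.sum_congr rfl (fun ω _ => h2 ω), Finset.sum_neg_distrib] at h1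
    linarith
  · refine Finset.sum_eq_zero fun ω _ => ?_
    unfold xs
    rw [dif_neg h, zero_mul]

theorem xs_sq_le {n : ℕ} (ω : Fin n → Bool) (i : ℕ) : xs ω i * xs ω i ≤ 1 := by
  unfold xs
  split_ifs <;> norm_num

/-- TARGET -/
theorem avg_abs_le {n : ℕ} (J : Finset ℕ) (c : ℕ → ℝ) :
    ∑ ω : Fin n → Bool, |∑ i ∈ J, xs ω i * c i| ≤ 2 ^ n * Real.sqrt (∑ i ∈ J, c i ^ 2) := by
  have hZ : ∑ ω : Fin n → Bool, (∑ i ∈ J, xs ω i * c i) ^ 2 ≤ 2 ^ n * ∑ i ∈ J, c i ^ 2 := by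
    have h1 : ∀ ω : Fin n → Bool, (∑ i ∈ J, xs ω i * c i) ^ 2 =
        ∑ i ∈ J, ∑ j ∈ J, (c i * c j) * (xs ω i * xs ω j) := by
      intro ω
      rw [pow_two, Finset.sum_mul_sum]
      refine Finset.sum_congr rfl fun i _ => Finset.sum_congr rfl fun j _ => ?_
      ring
    rw [Finset.sum_congr rfl (fun ω _ => h1 ω), Finset.sum_comm, Finset.mul_sum]
    refine Finset.sum_le_sum fun i hi => ?_
    rw [Finset.sum_comm]
    rw [Finset.sum_eq_single i]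
    · rw [← Finset.mul_sum]
      have h2 : ∑ ω : Fin n → Bool, xs ω i * xs ω i ≤ 2 ^ n := by
        refine (Finset.sum_le_sum fun ω _ => xs_sq_le ω i).trans ?_
        simp
      have h3 : 0 ≤ c i * c i := mul_self_nonneg _
      calc c i * c i * ∑ ω : Fin n → Bool, xs ω i * xs ω i ≤ c i * c i * 2 ^ n := mul_le_mul_of_nonneg_left h2 h3
        _ = 2 ^ n * c i ^ 2 := by ring
    · intro j _ hj
      rw [← Finset.mul_sum, sum_xs_mul i j hj.symm, mul_zero]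
    · intro h; exact absurd hi h
  have hCS : (∑ ω : Fin n → Bool, |∑ i ∈ J, xs ω i * c i|) ^ 2 ≤
      2 ^ n * ∑ ω : Fin n → Bool, |∑ i ∈ J, xs ω i * c i| ^ 2 := by
    have := sq_sum_le_card_mul_sum_sq (s := (Finset.univ : Finset (Fin n → Bool))) (f := fun ω => |∑ i ∈ J, xs ω i * c i|)
    simpa using this
  have h0 : 0 ≤ ∑ i ∈ J, c i ^ 2 := Finset.sum_nonneg fun i _ => sq_nonneg _
  refine abs_le_of_sq_le_sq' ?_ (by positivity) |>.2
  calc (∑ ω : Fin n → Bool, |∑ i ∈ J, xs ω i * c i|) ^ 2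
      ≤ 2 ^ n * ∑ ω : Fin n → Bool, |∑ i ∈ J, xs ω i * c i| ^ 2 := hCS
    _ = 2 ^ n * ∑ ω : Fin n → Bool, (∑ i ∈ J, xs ω i * c i) ^ 2 := by simp only [sq_abs]
    _ ≤ 2 ^ n * (2 ^ n * ∑ i ∈ J, c i ^ 2) := mul_le_mul_of_nonneg_left hZ (by positivity)
    _ = (2 ^ n * Real.sqrt (∑ i ∈ J, c i ^ 2)) ^ 2 := by
        rw [mul_pow, Real.sq_sqrt h0]; ring

end Pool.Agent.H938
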