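import Pool.Agent.H938_Salem4.Defs2
import Pool.Agent.H938_Salem4.A1

set_option autoImplicit false

namespace Pool.Agent.H938

open Polynomial

variable {β l : ℝ} {ζ : ℂ}

/-- the signs as integers -/
noncomputable def F9xz {n : ℕ} (ω : Fin n → Bool) (i : ℕ) : ℤ :=
  if h : i < n then (if ω ⟨i, h⟩ then 1 else -1) else 0

lemma F9xz_cast {n : ℕ} (ω : Fin n → Bool) (i : ℕ) : ((F9xz ω i : ℤ) : ℝ) = xs ω i := by
  unfold F9xz xs
  split_ifs <;> simp

lemma F9xs_abs {n : ℕ} (ω : Fin n → Bool) (i : ℕ) : |xs ω i| ≤ 1 := by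
  unfold xs
  split_ifs <;> simp

/-- the polynomial of `ω` -/
noncomputable def F9R {n : ℕ} (ω : Fin n → Bool) : ℤ[X] :=
  ∑ i ∈ Finset.range n, C (F9xz ω i) * X ^ (n - i)

lemma F9R_β (H : S4 β l ζ) {n : ℕ} (ω : Fin n → Bool) :
    aeval β (F9R ω) = β ^ n * SS l ω := by
  unfold F9R SS
  rw [map_sum, Finset.mul_sum]
  apply Finset.sum_congr rfl
  intro i hi
  have hi' : i ≤ n := (Finset.mem_range.1 hi).le
  rw [map_mul, map_pow, aeval_X, aeval_C]
  rw [← F9xz_cast]
  have h1 : β ^ n = β ^ (n - i) * β ^ i := by rw [← pow_add, Nat.sub_add_cancel hi']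
  have h2 : β ^ i * l ^ i = 1 := by rw [← mul_pow, H.bl, one_pow]
  rw [h1]
  simp only [algebraMap_int_eq, eq_intCast]
  linear_combination (-(F9xz ω i : ℝ) * β ^ (n - i)) * h2

lemma F9R_l {n : ℕ} (ω : Fin n → Bool) (h0 : 0 < l) (hl : l ≤ 3 / 5) :
    |aeval l (F9R ω)| ≤ 3 / 2 := by
  have hs : ∀ n : ℕ, ∑ i ∈ Finset.range n, l ^ (n - i) ≤ 3 / 2 := by
    intro n
    induction n with
    | zero => norm_num
    | succ n ih =>
      have e : ∑ i ∈ Finset.range (n + 1), l ^ (n + 1 - i) =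
          l * (∑ i ∈ Finset.range n, l ^ (n - i) + 1) := by
        rw [Finset.sum_range_succ, mul_add, Finset.mul_sum]
        congr 1
        · apply Finset.sum_congr rfl
          intro i hi
          have hi' : i ≤ n := (Finset.mem_range.1 hi).le
          rw [Nat.succ_sub hi', pow_succ]
          ring
        · simp
      rw [e]
      nlinarith
  refine le_trans ?_ (hs n)
  unfold F9R
  rw [map_sum]
  refine (Finset.abs_sum_le_sum_abs _ _).trans ?_
  apply Finset.sum_le_sum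
  intro i _
  rw [map_mul, map_pow, aeval_X, aeval_C, abs_mul]
  have h1 : |(algebraMap ℤ ℝ) (F9xz ω i)| ≤ 1 := by
    simp only [algebraMap_int_eq, eq_intCast]
    rw [F9xz_cast]
    exact F9xs_abs ω i
  have h2 : |l ^ (n - i)| = l ^ (n - i) := abs_of_nonneg (by positivity)
  rw [h2]
  have h3 : 0 ≤ l ^ (n - i) := by positivity
  nlinarith

lemma F9R_ζ (H : S4 β l ζ) {n : ℕ} (ω : Fin n → Bool) :
    aeval ζ (F9R ω) = ζ ^ n * cz ζ ω n := by
  have hz : ζ ≠ 0 := by
    intro h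
    have := H.nz
    rw [h, norm_zero] at this
    exact zero_ne_one this
  unfold F9R cz
  rw [map_sum, Finset.mul_sum]
  apply Finset.sum_congr rfl
  intro i hi
  have hi' : i ≤ n := (Finset.mem_range.1 hi).le
  rw [map_mul, map_pow, aeval_X, aeval_C]
  have h0 : ((F9xz ω i : ℤ) : ℂ) = ((xs ω i : ℝ) : ℂ) := by
    rw [← F9xz_cast]
    push_cast
    rfl
  have h1 : ζ ^ n = ζ ^ (n - i) * ζ ^ i := by rw [← pow_add, Nat.sub_add_cancel hi']
  have h2 : ζ ^ i * ζ ^ (-(i : ℤ)) = 1 := by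
    rw [zpow_neg, zpow_natCast, mul_inv_cancel₀ (pow_ne_zero _ hz)]
  simp only [algebraMap_int_eq, eq_intCast]
  rw [h0, h1]
  linear_combination (-((xs ω i : ℝ) : ℂ) * ζ ^ (n - i)) * h2

lemma F9_det {β l c s dx dy a b : ℝ} (h1 : c ^ 2 + s ^ 2 = 1)
    (e0 : dx + dy + 2 * a = 0) (e1 : dx * β + dy * l + 2 * (a * c - b * s) = 0)
    (e2 : dx * β ^ 2 + dy * l ^ 2 + 2 * (a * (c ^ 2 - s ^ 2) - b * (2 * c * s)) = 0)
    (e3 : dx * β ^ 3 + dy * l ^ 3 +
      2 * (a * (c ^ 3 - 3 * c * s ^ 2) - b * (3 * c ^ 2 * s - s ^ 3)) = 0) :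
    dx * ((β - l) * (β ^ 2 - 2 * c * β + 1)) = 0 := by
  linear_combination e3 - (2 * c + l) * e2 + (1 + 2 * c * l) * e1 - l * e0 +
    2 * (a * (c - l) - b * s) * h1

lemma F9_card_image_le {α γ δ : Type*} [DecidableEq γ] [DecidableEq δ] (s : Finset α)
    (f : α → γ) (T : α → δ) (h : ∀ a ∈ s, ∀ b ∈ s, T a = T b → f a = f b) :
    (s.image f).card ≤ (s.image T).card := by
  classical
  rcases s.eq_empty_or_nonempty with rfl | ⟨a0, ha0⟩
  · simp
  · let g : δ → γ := fun v => if hv : ∃ a ∈ s, T a = v then f hv.choose else f a0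
    apply Finset.card_le_card_of_surjOn g
    intro y hy
    obtain ⟨a, ha, rfl⟩ := Finset.mem_image.1 (Finset.mem_coe.1 hy)
    refine ⟨T a, Finset.mem_coe.2 (Finset.mem_image_of_mem T ha), ?_⟩
    have hv : ∃ b ∈ s, T b = T a := ⟨a, ha, rfl⟩
    simp only [g, dif_pos hv]
    exact h _ hv.choose_spec.1 _ ha hv.choose_spec.2

/-- TARGET -/
theorem K2_exists {β l : ℝ} {ζ : ℂ} (H : S4 β l ζ) {w : ℝ} (hw : 0 < w) :
    ∃ K2 : ℕ, 1 ≤ K2 ∧ ∀ (n : ℕ) (C : ℤ) (g : ℤ × ℤ),
      (((Finset.univ : Finset (Fin n → Bool)).filter (fun ω =>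
        ⌊β ^ n * SS l ω⌋ = C ∧ ⌊(cz ζ ω n).re / w⌋ = g.1 ∧ ⌊(cz ζ ω n).im / w⌋ = g.2)).image
          (fun ω => SS l ω)).card ≤ K2 := by
  classical
  have hl0 : 0 < l := by linarith [H.l_half]
  have hl1 : l < 1 := by linarith [H.l_le]
  have hβ1 : 1 < β := by
    by_contra hcon
    push Not at hcon
    have := H.bl
    nlinarith
  have hβ2 : β < 2 := by
    by_contra hcon
    push Not at hcon
    have := H.bl
    have := H.l_half
    nlinarith
  set D : ℕ := ⌈(11 : ℝ) + 4 * w⌉₊ with hD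
  have hDle : (11 : ℝ) + 4 * w ≤ D := Nat.le_ceil _
  refine ⟨(2 * D + 1) ^ 4, Nat.one_le_pow _ _ (by omega), ?_⟩
  intro n C g
  -- integrality
  have hT : ∀ (ω : Fin n → Bool) (j : Fin 4), ∃ k : ℤ,
      β ^ n * SS l ω * β ^ (j : ℕ) + aeval l (F9R ω) * l ^ (j : ℕ) +
        2 * ((ζ ^ n * cz ζ ω n) * ζ ^ (j : ℕ)).re = k := by
    intro ω j
    obtain ⟨k, hk⟩ := trP H (F9R ω) ((j : ℕ) : ℤ)
    refine ⟨k, ?_⟩
    rw [← hk, F9R_β H, F9R_ζ H]
    simp only [zpow_natCast]
  choose T hTs using hT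
  set s : Finset (Fin n → Bool) := (Finset.univ : Finset (Fin n → Bool)).filter (fun ω =>
        ⌊β ^ n * SS l ω⌋ = C ∧ ⌊(cz ζ ω n).re / w⌋ = g.1 ∧ ⌊(cz ζ ω n).im / w⌋ = g.2) with hs
  rcases s.eq_empty_or_nonempty with he | ⟨ω0, hω0⟩
  · rw [he]
    simp
  refine (F9_card_image_le s (fun ω => SS l ω) T ?_).trans ?_
  · -- the four integers determine the value
    intro ω _ ω' _ hTT
    have hj : ∀ j : Fin 4, (β ^ n * SS l ω - β ^ n * SS l ω') * β ^ (j : ℕ) +
        (aeval l (F9R ω) - aeval l (F9R ω')) * l ^ (j : ℕ) +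
        2 * ((ζ ^ n * cz ζ ω n - ζ ^ n * cz ζ ω' n) * ζ ^ (j : ℕ)).re = 0 := by
      intro j
      have h1 := hTs ω j
      have h2 := hTs ω' j
      rw [congrFun hTT j] at h1
      rw [sub_mul (ζ ^ n * cz ζ ω n), Complex.sub_re]
      linear_combination h1 - h2
    have hc : ζ.re ^ 2 + ζ.im ^ 2 = 1 := by
      have h := Complex.sq_norm ζ
      rw [H.nz, Complex.normSq_apply] at h
      nlinarith
    have e0 := hj 0
    have e1 := hj 1
    have e2 := hj 2
    have e3 := hj 3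
    have hdet := F9_det (β := β) (l := l) (c := ζ.re) (s := ζ.im)
      (dx := β ^ n * SS l ω - β ^ n * SS l ω')
      (dy := aeval l (F9R ω) - aeval l (F9R ω'))
      (a := (ζ ^ n * cz ζ ω n - ζ ^ n * cz ζ ω' n).re)
      (b := (ζ ^ n * cz ζ ω n - ζ ^ n * cz ζ ω' n).im) hc ?_ ?_ ?_ ?_
    · have hre : ζ.re ≤ 1 := by nlinarith [sq_nonneg ζ.im]
      have hq : 0 < (β - l) * (β ^ 2 - 2 * ζ.re * β + 1) := by
        apply mul_pos (by linarith)
        nlinarith
      have hx : β ^ n * SS l ω - β ^ n * SS l ω' = 0 := by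
        rcases mul_eq_zero.1 hdet with h | h
        · exact h
        · exact absurd h hq.ne'
      have hβn : β ^ n ≠ 0 := pow_ne_zero _ (by linarith)
      have : β ^ n * (SS l ω - SS l ω') = 0 := by linarith
      rcases mul_eq_zero.1 this with h | h
      · exact absurd h hβn
      · exact sub_eq_zero.1 h
    · simpa using e0
    · have : (((1 : Fin 4) : ℕ)) = 1 := rfl
      rw [this, pow_one, pow_one, pow_one, Complex.mul_re] at e1
      linarith
    · have : (((2 : Fin 4) : ℕ)) = 2 := rfl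
      rw [this, Complex.mul_re] at e2
      have h2r : (ζ ^ 2).re = ζ.re ^ 2 - ζ.im ^ 2 := by
        rw [pow_two, Complex.mul_re]; ring
      have h2i : (ζ ^ 2).im = 2 * ζ.re * ζ.im := by
        rw [pow_two, Complex.mul_im]; ring
      rw [h2r, h2i] at e2
      linarith
    · have : (((3 : Fin 4) : ℕ)) = 3 := rfl
      rw [this, Complex.mul_re] at e3
      have h3r : (ζ ^ 3).re = ζ.re ^ 3 - 3 * ζ.re * ζ.im ^ 2 := by
        rw [pow_succ, pow_two, Complex.mul_re, Complex.mul_re, Complex.mul_im]; ring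
      have h3i : (ζ ^ 3).im = 3 * ζ.re ^ 2 * ζ.im - ζ.im ^ 3 := by
        rw [pow_succ, pow_two, Complex.mul_im, Complex.mul_re, Complex.mul_im]; ring
      rw [h3r, h3i] at e3
      linarith
  · -- each integer takes few values
    have hsub : s.image T ⊆ Fintype.piFinset
        (fun j : Fin 4 => Finset.Icc (T ω0 j - D) (T ω0 j + D)) := by
      intro v hv
      obtain ⟨ω, hω, rfl⟩ := Finset.mem_image.1 hv
      rw [Fintype.mem_piFinset]
      intro j
      have hω1 := (Finset.mem_filter.1 hω).2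
      have hω2 := (Finset.mem_filter.1 hω0).2
      -- ranges
      have hfl : ∀ {x y : ℝ} {k : ℤ}, ⌊x⌋ = k → ⌊y⌋ = k → |x - y| ≤ 1 := by
        intro x y k hx hy
        have h1 := Int.floor_le x
        have h2 := Int.lt_floor_add_one x
        have h3 := Int.floor_le y
        have h4 := Int.lt_floor_add_one y
        rw [hx] at h1 h2
        rw [hy] at h3 h4
        rw [abs_le]
        constructor <;> linarith
      have hx := hfl hω1.1 hω2.1
      have hre := hfl hω1.2.1 hω2.2.1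
      have him := hfl hω1.2.2 hω2.2.2
      have hy1 := F9R_l ω hl0 H.l_le
      have hy2 := F9R_l ω0 hl0 H.l_le
      have hre' : |(cz ζ ω n - cz ζ ω0 n).re| ≤ w := by
        rw [Complex.sub_re]
        rw [← sub_div, abs_div, abs_of_pos hw, div_le_one hw] at hre
        exact hre
      have him' : |(cz ζ ω n - cz ζ ω0 n).im| ≤ w := by
        rw [Complex.sub_im]
        rw [← sub_div, abs_div, abs_of_pos hw, div_le_one hw] at him
        exact him
      have hcz : ‖cz ζ ω n - cz ζ ω0 n‖ ≤ 2 * w := by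
        refine (Complex.norm_le_abs_re_add_abs_im _).trans ?_
        linarith
      have hzz : |((ζ ^ n * cz ζ ω n - ζ ^ n * cz ζ ω0 n) * ζ ^ (j : ℕ)).re| ≤ 2 * w := by
        refine (Complex.abs_re_le_norm _).trans ?_
        rw [← mul_sub, norm_mul, norm_mul, norm_pow, norm_pow, H.nz, one_pow, one_pow, one_mul,
          mul_one]
        exact hcz
      have hβj : β ^ (j : ℕ) ≤ 8 := by
        have hj3 : (j : ℕ) ≤ 3 := by omega
        calc β ^ (j : ℕ) ≤ β ^ 3 := pow_le_pow_right₀ hβ1.le hj3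
          _ ≤ 2 ^ 3 := by gcongr
          _ = 8 := by norm_num
      have hβj0 : 0 < β ^ (j : ℕ) := by positivity
      have hlj : l ^ (j : ℕ) ≤ 1 := pow_le_one₀ hl0.le hl1.le
      have hlj0 : 0 < l ^ (j : ℕ) := by positivity
      have h1 := hTs ω j
      have h2 := hTs ω0 j
      have hdiff : ((T ω j : ℝ) - T ω0 j) = (β ^ n * SS l ω - β ^ n * SS l ω0) * β ^ (j : ℕ) +
          (aeval l (F9R ω) - aeval l (F9R ω0)) * l ^ (j : ℕ) +
          2 * ((ζ ^ n * cz ζ ω n - ζ ^ n * cz ζ ω0 n) * ζ ^ (j : ℕ)).re := by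
        rw [sub_mul (ζ ^ n * cz ζ ω n), Complex.sub_re]
        linear_combination h2 - h1
      have hb1 : |(β ^ n * SS l ω - β ^ n * SS l ω0) * β ^ (j : ℕ)| ≤ 8 := by
        rw [abs_mul, abs_of_pos hβj0]
        nlinarith [abs_nonneg (β ^ n * SS l ω - β ^ n * SS l ω0)]
      have hb2 : |(aeval l (F9R ω) - aeval l (F9R ω0)) * l ^ (j : ℕ)| ≤ 3 := by
        rw [abs_mul, abs_of_pos hlj0]
        have h3 : |aeval l (F9R ω) - aeval l (F9R ω0)| ≤ 3 := by
          refine (abs_sub _ _).trans ?_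
          linarith
        nlinarith [abs_nonneg (aeval l (F9R ω) - aeval l (F9R ω0))]
      have hb : |((T ω j : ℝ) - T ω0 j)| ≤ D := by
        rw [hdiff]
        rw [abs_le] at hb1 hb2 hzz ⊢
        constructor <;> linarith [hb1.1, hb1.2, hb2.1, hb2.2, hzz.1, hzz.2]
      rw [abs_le] at hb
      rw [Finset.mem_Icc]
      constructor
      · have h3 : ((T ω0 j - D : ℤ) : ℝ) ≤ (T ω j : ℝ) := by
          push_cast
          linarith [hb.1]
        exact_mod_cast h3
      · have h3 : (T ω j : ℝ) ≤ ((T ω0 j + D : ℤ) : ℝ) := by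
          push_cast
          linarith [hb.2]
        exact_mod_cast h3
    refine (Finset.card_le_card hsub).trans ?_
    rw [Fintype.card_piFinset]
    have hcard : ∀ j : Fin 4, (Finset.Icc (T ω0 j - (D : ℤ)) (T ω0 j + D)).card = 2 * D + 1 := by
      intro j
      rw [Int.card_Icc]
      omega
    simp only [hcard, Finset.prod_const, Finset.card_univ, Fintype.card_fin]
    exact le_refl _

end Pool.Agent.H938
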