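import Pool.Agent.H938_Salem4.Defs2
import Pool.Agent.H938_Salem4.A4

set_option autoImplicit false

namespace Pool.Agent.H938

open Polynomial

/-- one-dimensional weights sum to at most 3 -/
theorem half_pow_sum (G : Finset ℤ) (c : ℤ) :
    ∑ v ∈ G, (1 / 2 : ℝ) ^ ((v - c).natAbs) ≤ 3 := by
  have hs : Summable (fun k : ℕ => (1 / 2 : ℝ) ^ k) := summable_geometric_two
  have one : ∀ F : Finset ℕ, ∑ k ∈ F, (1 / 2 : ℝ) ^ k ≤ 2 := by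
    intro F
    have := hs.sum_le_tsum F (fun k _ => by positivity)
    rwa [tsum_geometric_two] at this
  rw [← Finset.sum_filter_add_sum_filter_not G (fun v => c ≤ v)]
  have h1 : ∑ v ∈ G.filter (fun v => c ≤ v), (1 / 2 : ℝ) ^ ((v - c).natAbs) ≤ 2 := by
    have e : ∑ v ∈ G.filter (fun v => c ≤ v), (1 / 2 : ℝ) ^ ((v - c).natAbs) =
        ∑ k ∈ (G.filter (fun v => c ≤ v)).image (fun v => (v - c).natAbs), (1 / 2 : ℝ) ^ k := by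
      rw [Finset.sum_image]
      intro x hx y hy hxy
      simp only [Finset.coe_filter, Set.mem_ofPred_eq] at hx hy hxy
      omega
    rw [e]
    exact one _
  have h2 : ∑ v ∈ G.filter (fun v => ¬ c ≤ v), (1 / 2 : ℝ) ^ ((v - c).natAbs) ≤ 1 := by
    have e : ∑ v ∈ G.filter (fun v => ¬ c ≤ v), (1 / 2 : ℝ) ^ ((v - c).natAbs) =
        ∑ k ∈ (G.filter (fun v => ¬ c ≤ v)).image (fun v => (c - 1 - v).natAbs),
          (1 / 2 : ℝ) * (1 / 2 : ℝ) ^ k := by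
      rw [Finset.sum_image]
      · refine Finset.sum_congr rfl fun v hv => ?_
        rw [Finset.mem_filter] at hv
        rw [← pow_succ']
        congr 1
        omega
      · intro x hx y hy hxy
        simp only [Finset.coe_filter, Set.mem_ofPred_eq] at hx hy hxy
        omega
    rw [e, ← Finset.mul_sum]
    have := one ((G.filter (fun v => ¬ c ≤ v)).image (fun v => (c - 1 - v).natAbs))
    linarith
  linarith

/-- number of integers in a real interval -/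
theorem card_int_le {x y : ℝ} (hxy : x ≤ y + 1) (G : Finset ℤ)
    (hG : ∀ v ∈ G, x ≤ v ∧ (v : ℝ) ≤ y) :
    (G.card : ℝ) ≤ y - x + 1 := by
  have hsub : G ⊆ Finset.Icc ⌈x⌉ ⌊y⌋ := by
    intro v hv
    rw [Finset.mem_Icc]
    exact ⟨Int.ceil_le.mpr (hG v hv).1, Int.le_floor.mpr (hG v hv).2⟩
  have h1 : (G.card : ℝ) ≤ ((Finset.Icc ⌈x⌉ ⌊y⌋).card : ℝ) := by
    exact_mod_cast Finset.card_le_card hsub
  refine h1.trans ?_
  rw [Int.card_Icc]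
  have h2 : (⌈x⌉ : ℝ) ≥ x := Int.le_ceil x
  have h3 : (⌊y⌋ : ℝ) ≤ y := Int.floor_le y
  rcases le_or_gt 0 (⌊y⌋ + 1 - ⌈x⌉) with h | h
  · have h4 : (((⌊y⌋ + 1 - ⌈x⌉).toNat : ℕ) : ℝ) = ((⌊y⌋ + 1 - ⌈x⌉ : ℤ) : ℝ) := by
      have : (((⌊y⌋ + 1 - ⌈x⌉).toNat : ℕ) : ℤ) = ⌊y⌋ + 1 - ⌈x⌉ := Int.toNat_of_nonneg h
      exact_mod_cast congrArg (fun z : ℤ => (z : ℝ)) this
    rw [h4]
    push_cast
    linarith
  · rw [Int.toNat_of_nonpos h.le]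
    push_cast
    linarith

/-- the resonance mass -/
noncomputable def AA (β l : ℝ) (P : ℤ[X]) (h N : ℕ) : ℝ :=
  ∑ ν ∈ Finset.Icc h N, Phi l (N + 2 * h) (tP β P ν) ^ 2

/-- the code -/
noncomputable def sg (β l : ℝ) (ζ : ℂ) (w : ℝ) (L b : ℕ) {n : ℕ} (ω : Fin n → Bool) :
    ℤ × (ℤ × ℤ) :=
  (⌊β ^ (b * L) * SS l ω⌋, (⌊(cz ζ ω (b * L)).re / w⌋, ⌊(cz ζ ω (b * L)).im / w⌋))

open Classical in
/-- the cell part of the transition weight -/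
noncomputable def qc (β l : ℝ) (ζ : ℂ) (P : ℤ[X]) (h N : ℕ) (w : ℝ) (b : ℕ) (C : ℤ)
    (g : ℤ × ℤ) (C' : ℤ) : ℝ :=
  if β ^ (N + 2 * h) * C - 1 ≤ C' ∧ (C' : ℝ) ≤ β ^ (N + 2 * h) * (C + 1) then
    (if 1 / 4 * AA β l P h N ≤
      ‖FF h N (fun ν => Phi l (N + 2 * h) (tP β P ν)) (uu β l ζ P w (b * (N + 2 * h)) g)
        (fun ν => tP β P ν) (C' * l ^ (N + 2 * h))‖ then
      AA β l P h N / (96 * β ^ (N + 2 * h)) else 0) + 1 / (4 * β ^ (N + 2 * h))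
  else 0

/-- the transition weight -/
noncomputable def qq (β l : ℝ) (ζ : ℂ) (P : ℤ[X]) (h N : ℕ) (w : ℝ) (b : ℕ)
    (s s' : ℤ × (ℤ × ℤ)) : ℝ :=
  qc β l ζ P h N w b s.1 s.2 s'.1 *
    ((1 / 3) * (1 / 2) ^ ((s'.2.1 - s.2.1).natAbs)) *
    ((1 / 3) * (1 / 2) ^ ((s'.2.2 - s.2.2).natAbs))

theorem sum_prod3 (f : ℤ → ℝ) (g k : ℤ → ℝ) (hf : ∀ x, 0 ≤ f x) (hg : ∀ x, 0 ≤ g x)
    (hk : ∀ x, 0 ≤ k x) (hf1 : ∀ G : Finset ℤ, ∑ x ∈ G, f x ≤ 1)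
    (hg1 : ∀ G : Finset ℤ, ∑ x ∈ G, g x ≤ 1) (hk1 : ∀ G : Finset ℤ, ∑ x ∈ G, k x ≤ 1)
    (G : Finset (ℤ × (ℤ × ℤ))) : ∑ s ∈ G, f s.1 * g s.2.1 * k s.2.2 ≤ 1 := by
  set G1 := G.image (fun s => s.1)
  set G2 := G.image (fun s => s.2.1)
  set G3 := G.image (fun s => s.2.2)
  have hsub : G ⊆ G1 ×ˢ (G2 ×ˢ G3) := by
    intro s hs
    rw [Finset.mem_product, Finset.mem_product]
    exact ⟨Finset.mem_image_of_mem _ hs, Finset.mem_image_of_mem _ hs,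
      Finset.mem_image_of_mem _ hs⟩
  have h1 : ∑ s ∈ G, f s.1 * g s.2.1 * k s.2.2 ≤
      ∑ s ∈ G1 ×ˢ (G2 ×ˢ G3), f s.1 * g s.2.1 * k s.2.2 :=
    Finset.sum_le_sum_of_subset_of_nonneg hsub (fun s _ _ =>
      mul_nonneg (mul_nonneg (hf _) (hg _)) (hk _))
  refine h1.trans ?_
  rw [Finset.sum_product]
  have h2 : ∀ x ∈ G1, ∑ y ∈ G2 ×ˢ G3, f x * g y.1 * k y.2 ≤ f x := by
    intro x _
    rw [Finset.sum_product]
    have h3 : ∑ y ∈ G2, ∑ z ∈ G3, f x * g y * k z = f x * ((∑ y ∈ G2, g y) * ∑ z ∈ G3, k z) := by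
      rw [Finset.sum_mul_sum, Finset.mul_sum]
      refine Finset.sum_congr rfl fun y _ => ?_
      rw [Finset.mul_sum]
      refine Finset.sum_congr rfl fun z _ => ?_
      ring
    simp only at h3 ⊢
    rw [h3]
    have h4 : (∑ y ∈ G2, g y) * ∑ z ∈ G3, k z ≤ 1 * 1 :=
      mul_le_mul (hg1 _) (hk1 _) (Finset.sum_nonneg fun z _ => hk z) (by norm_num)
    calc f x * ((∑ y ∈ G2, g y) * ∑ z ∈ G3, k z) ≤ f x * (1 * 1) :=
          mul_le_mul_of_nonneg_left h4 (hf x)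
      _ = f x := by ring
  exact (Finset.sum_le_sum h2).trans (hf1 _)

end Pool.Agent.H938
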