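import Pool.Agent.H938_Salem4.G1
import Pool.Agent.H938_Salem4.F2
import Pool.Agent.H938_Salem4.F5
import Pool.Agent.H938_Salem4.F6
import Pool.Agent.H938_Salem4.F8
import Pool.Agent.H938_Salem4.F9
import Pool.Agent.H938_Salem4.F10

set_option autoImplicit false

namespace Pool.Agent.H938

open Polynomial

variable {β l : ℝ} {ζ : ℂ}

theorem tP_nat (P : ℤ[X]) :
    (fun ν : ℕ => tP β P (ν : ℤ)) = fun n : ℕ => Real.pi * aeval β P * β ^ n := by
  funext n
  unfold tP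
  rw [zpow_natCast]

/-- facts about a resonance -/
theorem Res.facts (H : S4 β l ζ) {P : ℤ[X]} {h N : ℕ} {K : ℝ} (R : Res β l ζ P h N K) :
    K * h ≤ AA β l P h N ∧ 12000 ≤ β ^ (N + 2 * h) ∧ 0 < l ^ (N + 2 * h) ∧
      β ^ (N + 2 * h) * l ^ (N + 2 * h) = 1 := by
  have hl := H.l_pos
  have e : ∀ k : ℕ, β ^ k * l ^ k = 1 := fun k => by rw [← mul_pow, H.bl, one_pow]
  refine ⟨R.m3 _, ?_, pow_pos hl _, e _⟩
  have h1 : β ^ h * l ^ h = 1 := e h
  have h2 := R.lh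
  have h3 : 0 < β ^ h := pow_pos H.β_pos _
  have h4 : 12000 ≤ β ^ h := by
    have : β ^ h * l ^ h ≤ β ^ h * (1 / 12000) := mul_le_mul_of_nonneg_left h2 h3.le
    rw [h1] at this
    linarith
  exact h4.trans (pow_le_pow_right₀ H.β_gt_one.le (by omega))

theorem qc_nonneg (H : S4 β l ζ) (P : ℤ[X]) (h N : ℕ) (w : ℝ) (b : ℕ) (C : ℤ) (g : ℤ × ℤ)
    (C' : ℤ) : 0 ≤ qc β l ζ P h N w b C g C' := by
  have hβ := H.β_pos
  have hA : 0 ≤ AA β l P h N := Finset.sum_nonneg fun _ _ => sq_nonneg _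
  unfold qc
  split_ifs <;> positivity

theorem qc_sum (H : S4 β l ζ) {P : ℤ[X]} {h N : ℕ} {K : ℝ} (R : Res β l ζ P h N K)
    (hA : 1 ≤ AA β l P h N) (w : ℝ) (b : ℕ) (C : ℤ) (g : ℤ × ℤ) (G : Finset ℤ) :
    ∑ C' ∈ G, qc β l ζ P h N w b C g C' ≤ 1 := by
  classical
  obtain ⟨-, hL, hlL, hbl⟩ := R.facts H
  have hβL : 0 < β ^ (N + 2 * h) := by linarith
  set A := AA β l P h N with hAdef
  set a : ℕ → ℝ := fun ν => Phi l (N + 2 * h) (tP β P ν)
  set u : ℕ → ℂ := uu β l ζ P w (b * (N + 2 * h)) g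
  set S : ℤ → Prop := fun C' => β ^ (N + 2 * h) * C - 1 ≤ C' ∧ (C' : ℝ) ≤ β ^ (N + 2 * h) * (C + 1)
    with hS
  set D : ℤ → Prop := fun C' => 1 / 4 * A ≤
      ‖FF h N a u (fun ν => tP β P ν) (C' * l ^ (N + 2 * h))‖ with hD
  have h1 : ∀ C' ∈ G, qc β l ζ P h N w b C g C' =
      (if S C' ∧ D C' then A / (96 * β ^ (N + 2 * h)) else 0) +
      (if S C' then 1 / (4 * β ^ (N + 2 * h)) else 0) := by
    intro C' _
    unfold qc
    by_cases hs : S C'
    · by_cases hd : D C'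
      · rw [if_pos hs, if_pos hd, if_pos ⟨hs, hd⟩, if_pos hs]
      · rw [if_pos hs, if_neg hd, if_neg (fun hh => hd hh.2), if_pos hs]
    · rw [if_neg hs, if_neg (fun hh => hs hh.1), if_neg hs, add_zero]
  rw [Finset.sum_congr rfl h1, Finset.sum_add_distrib, ← Finset.sum_filter, ← Finset.sum_filter,
    Finset.sum_const, Finset.sum_const, nsmul_eq_mul, nsmul_eq_mul]
  have c1 : ((G.filter (fun C' => S C' ∧ D C')).card : ℝ) ≤ 48 * β ^ (N + 2 * h) / A := by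
    have := count_good (β := β) (l := l) (κ := aeval β P) (h := h) (N := N) H.l_half H.l_le H.bl
      R.k_one R.k_le R.ten R.hN R.lh a (fun n => abs_Phi_le_one _ _ _) u
      (fun n => norm_uu _ _ _ _ _) (by simpa [a, AA, hAdef] using hA) C
      (G.filter (fun C' => S C' ∧ D C')) (by
        intro C' hC'
        rw [Finset.mem_filter] at hC'
        obtain ⟨-, hs, hd⟩ := hC'
        refine ⟨hs.1, hs.2, ?_⟩
        rw [← tP_nat]
        exact hd)
    exact this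
  have c2 : ((G.filter (fun C' => S C')).card : ℝ) ≤ 2 * β ^ (N + 2 * h) := by
    have := card_int_le (x := β ^ (N + 2 * h) * C - 1) (y := β ^ (N + 2 * h) * (C + 1))
      (by linarith) (G.filter (fun C' => S C')) (by
        intro v hv
        rw [Finset.mem_filter] at hv
        exact hv.2)
    refine this.trans ?_
    linarith
  have d1 : ((G.filter (fun C' => S C' ∧ D C')).card : ℝ) * (A / (96 * β ^ (N + 2 * h))) ≤ 1 / 2 := by
    calc ((G.filter (fun C' => S C' ∧ D C')).card : ℝ) * (A / (96 * β ^ (N + 2 * h)))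
        ≤ (48 * β ^ (N + 2 * h) / A) * (A / (96 * β ^ (N + 2 * h))) :=
          mul_le_mul_of_nonneg_right c1 (by positivity)
      _ = 1 / 2 := by
          field_simp
          norm_num
  have d2 : ((G.filter (fun C' => S C')).card : ℝ) * (1 / (4 * β ^ (N + 2 * h))) ≤ 1 / 2 := by
    calc ((G.filter (fun C' => S C')).card : ℝ) * (1 / (4 * β ^ (N + 2 * h)))
        ≤ (2 * β ^ (N + 2 * h)) * (1 / (4 * β ^ (N + 2 * h))) :=
          mul_le_mul_of_nonneg_right c2 (by positivity)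
      _ = 1 / 2 := by
          field_simp
          norm_num
  linarith

theorem third_sum (c : ℤ) (G : Finset ℤ) :
    ∑ v ∈ G, ((1 / 3 : ℝ) * (1 / 2) ^ ((v - c).natAbs)) ≤ 1 := by
  rw [← Finset.mul_sum]
  linarith [half_pow_sum G c]

theorem qq_sum (H : S4 β l ζ) {P : ℤ[X]} {h N : ℕ} {K : ℝ} (R : Res β l ζ P h N K)
    (hA : 1 ≤ AA β l P h N) (w : ℝ) (b : ℕ) (s : ℤ × (ℤ × ℤ)) (G : Finset (ℤ × (ℤ × ℤ))) :
    ∑ s' ∈ G, qq β l ζ P h N w b s s' ≤ 1 := by
  unfold qq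
  exact sum_prod3 (fun x => qc β l ζ P h N w b s.1 s.2 x)
    (fun y => (1 / 3) * (1 / 2) ^ ((y - s.2.1).natAbs))
    (fun z => (1 / 3) * (1 / 2) ^ ((z - s.2.2).natAbs))
    (fun x => qc_nonneg H _ _ _ _ _ _ _ _) (fun y => by positivity) (fun z => by positivity)
    (fun F => qc_sum H R hA w b s.1 s.2 F) (fun F => third_sum _ F) (fun F => third_sum _ F) G

theorem qq_nonneg (H : S4 β l ζ) (P : ℤ[X]) (h N : ℕ) (w : ℝ) (b : ℕ)
    (s s' : ℤ × (ℤ × ℤ)) : 0 ≤ qq β l ζ P h N w b s s' := by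
  unfold qq
  have := qc_nonneg H P h N w b s.1 s.2 s'.1
  positivity

end Pool.Agent.H938
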