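import Pool.Agent.H938_Salem4.G2

set_option autoImplicit false

namespace Pool.Agent.H938

open Polynomial

variable {β l : ℝ} {ζ : ℂ}

/-- the realised cells -/
theorem cell_real (hβL : ∀ k : ℕ, 0 < β ^ k) (L b : ℕ) (S : ℝ) :
    β ^ L * (⌊β ^ (b * L) * S⌋ : ℤ) - 1 ≤ (⌊β ^ ((b + 1) * L) * S⌋ : ℤ) ∧
    ((⌊β ^ ((b + 1) * L) * S⌋ : ℤ) : ℝ) ≤ β ^ L * ((⌊β ^ (b * L) * S⌋ : ℤ) + 1) := by
  have e : β ^ ((b + 1) * L) * S = β ^ L * (β ^ (b * L) * S) := by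
    rw [add_mul, one_mul, pow_add]; ring
  rw [e]
  set z := β ^ (b * L) * S
  have h1 := Int.floor_le z
  have h2 := Int.lt_floor_add_one z
  have h3 := Int.floor_le (β ^ L * z)
  have h4 := Int.lt_floor_add_one (β ^ L * z)
  have h5 := hβL L
  have h6 : β ^ L * (⌊z⌋ : ℝ) ≤ β ^ L * z := mul_le_mul_of_nonneg_left h1 h5.le
  have h7 : β ^ L * z ≤ β ^ L * ((⌊z⌋ : ℝ) + 1) := mul_le_mul_of_nonneg_left h2.le h5.le
  constructor <;> linarith

theorem qc_lower (H : S4 β l ζ) {P : ℤ[X]} {h N : ℕ} {K : ℝ} (R : Res β l ζ P h N K)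
    (hA : 1 ≤ AA β l P h N) (w : ℝ) (b : ℕ) (g : ℤ × ℤ) (S : ℝ) :
    1 / (4 * β ^ (N + 2 * h)) ≤
      qc β l ζ P h N w b ⌊β ^ (b * (N + 2 * h)) * S⌋ g ⌊β ^ ((b + 1) * (N + 2 * h)) * S⌋ ∧
    (1 / 2 * AA β l P h N ≤ ‖FF h N (fun ν => Phi l (N + 2 * h) (tP β P ν))
        (uu β l ζ P w (b * (N + 2 * h)) g) (fun ν => tP β P ν)
          (β ^ (b * (N + 2 * h)) * S)‖ →
      AA β l P h N / (96 * β ^ (N + 2 * h)) ≤
      qc β l ζ P h N w b ⌊β ^ (b * (N + 2 * h)) * S⌋ g ⌊β ^ ((b + 1) * (N + 2 * h)) * S⌋) := by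
  have hβ := H.β_pos
  have hl := H.l_pos
  have hsub := cell_real (fun k => pow_pos hβ k) (N + 2 * h) b S
  obtain ⟨-, -, hlL, hbl⟩ := R.facts H
  have hβL : 0 < β ^ (N + 2 * h) := pow_pos hβ _
  unfold qc
  rw [if_pos hsub]
  constructor
  · split_ifs
    · have : 0 ≤ AA β l P h N / (96 * β ^ (N + 2 * h)) := by positivity
      linarith
    · linarith
  · intro hF
    have hclose : |β ^ (b * (N + 2 * h)) * S -
        ((⌊β ^ ((b + 1) * (N + 2 * h)) * S⌋ : ℤ) : ℝ) * l ^ (N + 2 * h)| ≤ l ^ (N + 2 * h) := by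
      have e : β ^ ((b + 1) * (N + 2 * h)) * S =
          β ^ (N + 2 * h) * (β ^ (b * (N + 2 * h)) * S) := by
        rw [add_mul, one_mul, pow_add]; ring
      rw [e]
      set z := β ^ (b * (N + 2 * h)) * S
      have h1 := Int.floor_le (β ^ (N + 2 * h) * z)
      have h2 := Int.lt_floor_add_one (β ^ (N + 2 * h) * z)
      have h3 : z = (β ^ (N + 2 * h) * z) * l ^ (N + 2 * h) := by
        calc z = (β ^ (N + 2 * h) * l ^ (N + 2 * h)) * z := by rw [hbl, one_mul]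
          _ = _ := by ring
      have h4 : z - ((⌊β ^ (N + 2 * h) * z⌋ : ℤ) : ℝ) * l ^ (N + 2 * h) =
          (β ^ (N + 2 * h) * z - (⌊β ^ (N + 2 * h) * z⌋ : ℤ)) * l ^ (N + 2 * h) := by
        rw [sub_mul, ← h3]
      rw [h4, abs_mul, abs_of_pos hlL]
      have h5 : |β ^ (N + 2 * h) * z - (⌊β ^ (N + 2 * h) * z⌋ : ℤ)| ≤ 1 := by
        rw [abs_le]; constructor <;> linarith
      calc |β ^ (N + 2 * h) * z - (⌊β ^ (N + 2 * h) * z⌋ : ℤ)| * l ^ (N + 2 * h) ≤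
            1 * l ^ (N + 2 * h) := mul_le_mul_of_nonneg_right h5 hlL.le
        _ = _ := one_mul _
    have hvar := FF_var (β := β) (l := l) (κ := aeval β P) (h := h) (N := N) H.l_half H.l_le H.bl
      R.k_one R.k_le R.ten R.hN R.lh (fun ν => Phi l (N + 2 * h) (tP β P ν))
      (fun n => abs_Phi_le_one _ _ _) (uu β l ζ P w (b * (N + 2 * h)) g)
      (fun n => norm_uu _ _ _ _ _) (by simpa [AA] using hA) hclose
    rw [← tP_nat] at hvar
    have htri := norm_sub_norm_le (FF h N (fun ν => Phi l (N + 2 * h) (tP β P ν))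
        (uu β l ζ P w (b * (N + 2 * h)) g) (fun ν => tP β P ν) (β ^ (b * (N + 2 * h)) * S))
        (FF h N (fun ν => Phi l (N + 2 * h) (tP β P ν))
        (uu β l ζ P w (b * (N + 2 * h)) g) (fun ν => tP β P ν)
          (((⌊β ^ ((b + 1) * (N + 2 * h)) * S⌋ : ℤ) : ℝ) * l ^ (N + 2 * h)))
    have hAA : ∑ n ∈ Finset.Icc h N, Phi l (N + 2 * h) (tP β P ↑n) ^ 2 = AA β l P h N := rfl
    rw [hAA] at hvar
    rw [if_pos (by linarith)]
    have : 0 ≤ 1 / (4 * β ^ (N + 2 * h)) := by positivity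
    linarith

/-- displacement of the coded coordinate, real part -/
theorem disp_re {n : ℕ} (H : S4 β l ζ) {w : ℝ} (hw : 0 < w) (L b : ℕ) :
    ∑ ω : Fin n → Bool, (((⌊(cz ζ ω ((b + 1) * L)).re / w⌋ -
      ⌊(cz ζ ω (b * L)).re / w⌋ : ℤ).natAbs : ℕ) : ℝ) ≤ 2 ^ n * (Real.sqrt L / w + 1) := by
  have h1 : ∀ ω : Fin n → Bool, (((⌊(cz ζ ω ((b + 1) * L)).re / w⌋ -
      ⌊(cz ζ ω (b * L)).re / w⌋ : ℤ).natAbs : ℕ) : ℝ) ≤
      |∑ i ∈ Finset.Ico (b * L) ((b + 1) * L), xs ω i * (ζ ^ (-(i : ℤ))).re| / w + 1 := by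
    intro ω
    have e1 : (cz ζ ω ((b + 1) * L)).re - (cz ζ ω (b * L)).re =
        ∑ i ∈ Finset.Ico (b * L) ((b + 1) * L), xs ω i * (ζ ^ (-(i : ℤ))).re := by
      unfold cz
      rw [Complex.re_sum, Complex.re_sum, ← Finset.sum_Ico_eq_sub _ (Nat.mul_le_mul_right L (by omega))]
      refine Finset.sum_congr rfl fun i _ => ?_
      rw [Complex.re_ofReal_mul]
    rw [← e1]
    set x := (cz ζ ω ((b + 1) * L)).re
    set y := (cz ζ ω (b * L)).re
    rw [Nat.cast_natAbs]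
    push_cast
    have h2 := Int.floor_le (x / w)
    have h3 := Int.lt_floor_add_one (x / w)
    have h4 := Int.floor_le (y / w)
    have h5 := Int.lt_floor_add_one (y / w)
    have h6 : |x - y| / w = |x / w - y / w| := by
      rw [← sub_div, abs_div, abs_of_pos hw]
    rw [h6]
    rw [abs_le]
    have h7 := neg_abs_le (x / w - y / w)
    have h8 := le_abs_self (x / w - y / w)
    constructor <;> linarith
  refine (Finset.sum_le_sum fun ω _ => h1 ω).trans ?_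
  rw [Finset.sum_add_distrib, ← Finset.sum_div, Finset.sum_const, Finset.card_univ, nsmul_eq_mul]
  have h2 := avg_abs_le (n := n) (Finset.Ico (b * L) ((b + 1) * L)) (fun i => (ζ ^ (-(i : ℤ))).re)
  have h3 : ∑ i ∈ Finset.Ico (b * L) ((b + 1) * L), (ζ ^ (-(i : ℤ))).re ^ 2 ≤ L := by
    have h4 : ∀ i ∈ Finset.Ico (b * L) ((b + 1) * L), (ζ ^ (-(i : ℤ))).re ^ 2 ≤ 1 := by
      intro i _
      have h5 : |(ζ ^ (-(i : ℤ))).re| ≤ 1 := by
        have := Complex.abs_re_le_norm (ζ ^ (-(i : ℤ)))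
        rwa [H.norm_zpow] at this
      rw [← sq_abs]
      exact pow_le_one₀ (abs_nonneg _) h5
    refine (Finset.sum_le_sum h4).trans ?_
    rw [Finset.sum_const, Nat.card_Ico, nsmul_eq_mul, mul_one]
    have : (b + 1) * L - b * L = L := by rw [add_mul, one_mul]; omega
    rw [this]
  have h5 : Real.sqrt (∑ i ∈ Finset.Ico (b * L) ((b + 1) * L), (ζ ^ (-(i : ℤ))).re ^ 2) ≤
      Real.sqrt L := Real.sqrt_le_sqrt h3
  have h6 : (∑ ω : Fin n → Bool, |∑ i ∈ Finset.Ico (b * L) ((b + 1) * L),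
      xs ω i * (ζ ^ (-(i : ℤ))).re|) / w ≤ 2 ^ n * (Real.sqrt L / w) := by
    rw [div_le_iff₀ hw]
    refine h2.trans ?_
    have e : 2 ^ n * (Real.sqrt L / w) * w = 2 ^ n * Real.sqrt L := by field_simp
    rw [e]
    exact mul_le_mul_of_nonneg_left h5 (by positivity)
  have h7 : ((Fintype.card (Fin n → Bool) : ℕ) : ℝ) = 2 ^ n := by
    simp
  rw [h7]
  linarith

/-- displacement of the coded coordinate, imaginary part -/
theorem disp_im {n : ℕ} (H : S4 β l ζ) {w : ℝ} (hw : 0 < w) (L b : ℕ) :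
    ∑ ω : Fin n → Bool, (((⌊(cz ζ ω ((b + 1) * L)).im / w⌋ -
      ⌊(cz ζ ω (b * L)).im / w⌋ : ℤ).natAbs : ℕ) : ℝ) ≤ 2 ^ n * (Real.sqrt L / w + 1) := by
  have h1 : ∀ ω : Fin n → Bool, (((⌊(cz ζ ω ((b + 1) * L)).im / w⌋ -
      ⌊(cz ζ ω (b * L)).im / w⌋ : ℤ).natAbs : ℕ) : ℝ) ≤
      |∑ i ∈ Finset.Ico (b * L) ((b + 1) * L), xs ω i * (ζ ^ (-(i : ℤ))).im| / w + 1 := by
    intro ω
    have e1 : (cz ζ ω ((b + 1) * L)).im - (cz ζ ω (b * L)).im =
        ∑ i ∈ Finset.Ico (b * L) ((b + 1) * L), xs ω i * (ζ ^ (-(i : ℤ))).im := by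
      unfold cz
      rw [Complex.im_sum, Complex.im_sum, ← Finset.sum_Ico_eq_sub _ (Nat.mul_le_mul_right L (by omega))]
      refine Finset.sum_congr rfl fun i _ => ?_
      rw [Complex.im_ofReal_mul]
    rw [← e1]
    set x := (cz ζ ω ((b + 1) * L)).im
    set y := (cz ζ ω (b * L)).im
    rw [Nat.cast_natAbs]
    push_cast
    have h2 := Int.floor_le (x / w)
    have h3 := Int.lt_floor_add_one (x / w)
    have h4 := Int.floor_le (y / w)
    have h5 := Int.lt_floor_add_one (y / w)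
    have h6 : |x - y| / w = |x / w - y / w| := by
      rw [← sub_div, abs_div, abs_of_pos hw]
    rw [h6]
    rw [abs_le]
    have h7 := neg_abs_le (x / w - y / w)
    have h8 := le_abs_self (x / w - y / w)
    constructor <;> linarith
  refine (Finset.sum_le_sum fun ω _ => h1 ω).trans ?_
  rw [Finset.sum_add_distrib, ← Finset.sum_div, Finset.sum_const, Finset.card_univ, nsmul_eq_mul]
  have h2 := avg_abs_le (n := n) (Finset.Ico (b * L) ((b + 1) * L)) (fun i => (ζ ^ (-(i : ℤ))).im)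
  have h3 : ∑ i ∈ Finset.Ico (b * L) ((b + 1) * L), (ζ ^ (-(i : ℤ))).im ^ 2 ≤ L := by
    have h4 : ∀ i ∈ Finset.Ico (b * L) ((b + 1) * L), (ζ ^ (-(i : ℤ))).im ^ 2 ≤ 1 := by
      intro i _
      have h5 : |(ζ ^ (-(i : ℤ))).im| ≤ 1 := by
        have := Complex.abs_im_le_norm (ζ ^ (-(i : ℤ)))
        rwa [H.norm_zpow] at this
      rw [← sq_abs]
      exact pow_le_one₀ (abs_nonneg _) h5
    refine (Finset.sum_le_sum h4).trans ?_
    rw [Finset.sum_const, Nat.card_Ico, nsmul_eq_mul, mul_one]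
    have : (b + 1) * L - b * L = L := by rw [add_mul, one_mul]; omega
    rw [this]
  have h5 : Real.sqrt (∑ i ∈ Finset.Ico (b * L) ((b + 1) * L), (ζ ^ (-(i : ℤ))).im ^ 2) ≤
      Real.sqrt L := Real.sqrt_le_sqrt h3
  have h6 : (∑ ω : Fin n → Bool, |∑ i ∈ Finset.Ico (b * L) ((b + 1) * L),
      xs ω i * (ζ ^ (-(i : ℤ))).im|) / w ≤ 2 ^ n * (Real.sqrt L / w) := by
    rw [div_le_iff₀ hw]
    refine h2.trans ?_
    have e : 2 ^ n * (Real.sqrt L / w) * w = 2 ^ n * Real.sqrt L := by field_simp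
    rw [e]
    exact mul_le_mul_of_nonneg_left h5 (by positivity)
  have h7 : ((Fintype.card (Fin n → Bool) : ℕ) : ℝ) = 2 ^ n := by
    simp
  rw [h7]
  linarith

end Pool.Agent.H938
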