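import Pool.Agent.H938_Salem4.G3

set_option autoImplicit false

namespace Pool.Agent.H938

open Polynomial

variable {β l : ℝ} {ζ : ℂ}

theorem qq_pos (H : S4 β l ζ) {P : ℤ[X]} {h N : ℕ} {K : ℝ} (R : Res β l ζ P h N K)
    (hA : 1 ≤ AA β l P h N) (w : ℝ) (b : ℕ) {n : ℕ} (ω : Fin n → Bool) :
    0 < qq β l ζ P h N w b (sg β l ζ w (N + 2 * h) b ω) (sg β l ζ w (N + 2 * h) (b + 1) ω) := by
  have h1 := (qc_lower H R hA w b (sg β l ζ w (N + 2 * h) b ω).2 (SS l ω)).1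
  have hβL : 0 < β ^ (N + 2 * h) := pow_pos H.β_pos _
  have h2 : 0 < qc β l ζ P h N w b ⌊β ^ (b * (N + 2 * h)) * SS l ω⌋
      (sg β l ζ w (N + 2 * h) b ω).2 ⌊β ^ ((b + 1) * (N + 2 * h)) * SS l ω⌋ :=
    lt_of_lt_of_le (by positivity) h1
  unfold qq
  have e1 : (sg β l ζ w (N + 2 * h) b ω).1 = ⌊β ^ (b * (N + 2 * h)) * SS l ω⌋ := rfl
  have e2 : (sg β l ζ w (N + 2 * h) (b + 1) ω).1 = ⌊β ^ ((b + 1) * (N + 2 * h)) * SS l ω⌋ := rfl
  rw [e1, e2]
  positivity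

theorem neg_log_qq (H : S4 β l ζ) {P : ℤ[X]} {h N : ℕ} {K : ℝ} (R : Res β l ζ P h N K)
    (hA : 1 ≤ AA β l P h N) (w : ℝ) (b : ℕ) {n : ℕ} (ω : Fin n → Bool) :
    -Real.log (qq β l ζ P h N w b (sg β l ζ w (N + 2 * h) b ω)
      (sg β l ζ w (N + 2 * h) (b + 1) ω)) =
    -Real.log (qc β l ζ P h N w b ⌊β ^ (b * (N + 2 * h)) * SS l ω⌋
      (⌊(cz ζ ω (b * (N + 2 * h))).re / w⌋, ⌊(cz ζ ω (b * (N + 2 * h))).im / w⌋)
      ⌊β ^ ((b + 1) * (N + 2 * h)) * SS l ω⌋) + 2 * Real.log 3 +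
    Real.log 2 * ((((⌊(cz ζ ω ((b + 1) * (N + 2 * h))).re / w⌋ -
      ⌊(cz ζ ω (b * (N + 2 * h))).re / w⌋ : ℤ).natAbs : ℕ) : ℝ) +
      (((⌊(cz ζ ω ((b + 1) * (N + 2 * h))).im / w⌋ -
      ⌊(cz ζ ω (b * (N + 2 * h))).im / w⌋ : ℤ).natAbs : ℕ) : ℝ)) := by
  have h1 := (qc_lower H R hA w b (⌊(cz ζ ω (b * (N + 2 * h))).re / w⌋,
    ⌊(cz ζ ω (b * (N + 2 * h))).im / w⌋) (SS l ω)).1
  have hβL : 0 < β ^ (N + 2 * h) := pow_pos H.β_pos _
  have h2 : 0 < qc β l ζ P h N w b ⌊β ^ (b * (N + 2 * h)) * SS l ω⌋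
      (⌊(cz ζ ω (b * (N + 2 * h))).re / w⌋, ⌊(cz ζ ω (b * (N + 2 * h))).im / w⌋)
      ⌊β ^ ((b + 1) * (N + 2 * h)) * SS l ω⌋ :=
    lt_of_lt_of_le (by positivity) h1
  unfold qq sg
  simp only
  set q := qc β l ζ P h N w b ⌊β ^ (b * (N + 2 * h)) * SS l ω⌋
      (⌊(cz ζ ω (b * (N + 2 * h))).re / w⌋, ⌊(cz ζ ω (b * (N + 2 * h))).im / w⌋)
      ⌊β ^ ((b + 1) * (N + 2 * h)) * SS l ω⌋
  set n1 := (⌊(cz ζ ω ((b + 1) * (N + 2 * h))).re / w⌋ -
      ⌊(cz ζ ω (b * (N + 2 * h))).re / w⌋ : ℤ).natAbs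
  set n2 := (⌊(cz ζ ω ((b + 1) * (N + 2 * h))).im / w⌋ -
      ⌊(cz ζ ω (b * (N + 2 * h))).im / w⌋ : ℤ).natAbs
  rw [Real.log_mul (by positivity) (by positivity), Real.log_mul (by positivity) (by positivity),
    Real.log_mul (by positivity) (by positivity), Real.log_mul (by positivity) (by positivity),
    Real.log_pow, Real.log_pow]
  have e1 : Real.log (1 / 3) = -Real.log 3 := by rw [one_div, Real.log_inv]
  have e2 : Real.log (1 / 2) = -Real.log 2 := by rw [one_div, Real.log_inv]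
  rw [e1, e2]
  ring

theorem log_three_le : Real.log 3 ≤ 2 * Real.log 2 := by
  have : Real.log 3 ≤ Real.log (2 ^ 2) := Real.log_le_log (by norm_num) (by norm_num)
  rwa [Real.log_pow] at this

theorem block_cost (H : S4 β l ζ) {P : ℤ[X]} {h N : ℕ} {K : ℝ} (R : Res β l ζ P h N K)
    (hK : 100000 ≤ K) {w : ℝ} (hw : w = 1 / (200 * ‖aeval ζ P‖)) {n b : ℕ}
    (hb : (b + 1) * (N + 2 * h) ≤ n) :
    (∑ ω : Fin n → Bool, -Real.log (qq β l ζ P h N w b (sg β l ζ w (N + 2 * h) b ω)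
      (sg β l ζ w (N + 2 * h) (b + 1) ω))) / 2 ^ n ≤
    (N + 2 * h : ℕ) * Real.log β - 1 / 2 * Real.log (AA β l P h N) + 15 := by
  classical
  obtain ⟨hKA, hL, hlL, hbl⟩ := R.facts H
  have hs := R.s_pos
  have hw0 : 0 < w := by rw [hw]; positivity
  have hsw : ‖aeval ζ P‖ * w ≤ 1 / 200 := by
    rw [hw]
    apply le_of_eq
    field_simp
  have hten : (10 : ℝ) ≤ h := by exact_mod_cast R.ten
  have hA6 : 1000000 ≤ AA β l P h N := by nlinarith
  have hA1 : 1 ≤ AA β l P h N := by linarith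
  have hA0 : 0 < AA β l P h N := by linarith
  have hβL : 0 < β ^ (N + 2 * h) := pow_pos H.β_pos _
  have hbad := good_half H R hK hw0 hsw (n := n) (p := b * (N + 2 * h)) (by
    calc b * (N + 2 * h) + (N + 2 * h) = (b + 1) * (N + 2 * h) := by ring
      _ ≤ n := hb)
  set bad := (Finset.univ : Finset (Fin n → Bool)).filter (fun ω =>
        ‖FF h N (fun ν => Phi l (N + 2 * h) (tP β P ν))
          (uu β l ζ P w (b * (N + 2 * h)) (⌊(cz ζ ω (b * (N + 2 * h))).re / w⌋,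
            ⌊(cz ζ ω (b * (N + 2 * h))).im / w⌋))
          (fun ν => tP β P ν) (β ^ (b * (N + 2 * h)) * SS l ω)‖ <
          1 / 2 * ∑ ν ∈ Finset.Icc h N, Phi l (N + 2 * h) (tP β P ν) ^ 2) with hbaddef
  set x := Real.log (4 * β ^ (N + 2 * h)) with hx
  set y := Real.log (96 * β ^ (N + 2 * h) / AA β l P h N) with hy
  have hyx : y ≤ x := by
    apply Real.log_le_log (by positivity)
    rw [div_le_iff₀ hA0]
    nlinarith
  -- cost of the cell part
  have hcell : ∀ ω : Fin n → Bool, -Real.log (qc β l ζ P h N w b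
      ⌊β ^ (b * (N + 2 * h)) * SS l ω⌋
      (⌊(cz ζ ω (b * (N + 2 * h))).re / w⌋, ⌊(cz ζ ω (b * (N + 2 * h))).im / w⌋)
      ⌊β ^ ((b + 1) * (N + 2 * h)) * SS l ω⌋) ≤ y + (if ω ∈ bad then x - y else 0) := by
    intro ω
    obtain ⟨h1, h2⟩ := qc_lower H R hA1 w b (⌊(cz ζ ω (b * (N + 2 * h))).re / w⌋,
      ⌊(cz ζ ω (b * (N + 2 * h))).im / w⌋) (SS l ω)
    split_ifs with hω
    · have h3 := Real.log_le_log (by positivity) h1
      rw [one_div, Real.log_inv] at h3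
      linarith
    · have h4 : 1 / 2 * AA β l P h N ≤ ‖FF h N (fun ν => Phi l (N + 2 * h) (tP β P ν))
          (uu β l ζ P w (b * (N + 2 * h)) (⌊(cz ζ ω (b * (N + 2 * h))).re / w⌋,
            ⌊(cz ζ ω (b * (N + 2 * h))).im / w⌋))
          (fun ν => tP β P ν) (β ^ (b * (N + 2 * h)) * SS l ω)‖ := by
        by_contra hc
        push Not at hc
        apply hω
        rw [hbaddef, Finset.mem_filter]
        exact ⟨Finset.mem_univ _, hc⟩
      have h5 := Real.log_le_log (by positivity) (h2 h4)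
      have h6 : Real.log (AA β l P h N / (96 * β ^ (N + 2 * h))) = -y := by
        rw [hy, ← Real.log_inv, inv_div]
      rw [h6] at h5
      linarith
  have hsumcell : ∑ ω : Fin n → Bool, -Real.log (qc β l ζ P h N w b
      ⌊β ^ (b * (N + 2 * h)) * SS l ω⌋
      (⌊(cz ζ ω (b * (N + 2 * h))).re / w⌋, ⌊(cz ζ ω (b * (N + 2 * h))).im / w⌋)
      ⌊β ^ ((b + 1) * (N + 2 * h)) * SS l ω⌋) ≤ 2 ^ n * ((x + y) / 2) := by
    refine (Finset.sum_le_sum fun ω _ => hcell ω).trans ?_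
    rw [Finset.sum_add_distrib, Finset.sum_const, Finset.card_univ, nsmul_eq_mul,
      Finset.sum_ite_mem, Finset.univ_inter, Finset.sum_const, nsmul_eq_mul]
    have h7 : ((Fintype.card (Fin n → Bool) : ℕ) : ℝ) = 2 ^ n := by simp
    rw [h7]
    have h8 : (bad.card : ℝ) * (x - y) ≤ 2 ^ n / 2 * (x - y) :=
      mul_le_mul_of_nonneg_right (by linarith) (by linarith)
    linarith
  have hre := disp_re (n := n) H hw0 (N + 2 * h) b
  have him := disp_im (n := n) H hw0 (N + 2 * h) b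
  have hlog2 : 0 < Real.log 2 := Real.log_pos (by norm_num)
  have htotal : ∑ ω : Fin n → Bool, -Real.log (qq β l ζ P h N w b
      (sg β l ζ w (N + 2 * h) b ω) (sg β l ζ w (N + 2 * h) (b + 1) ω)) ≤
      2 ^ n * ((x + y) / 2 + 2 * Real.log 3 +
        Real.log 2 * (2 * (Real.sqrt (N + 2 * h : ℕ) / w + 1))) := by
    have h1 : ∀ ω : Fin n → Bool, -Real.log (qq β l ζ P h N w b
      (sg β l ζ w (N + 2 * h) b ω) (sg β l ζ w (N + 2 * h) (b + 1) ω)) = _ :=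
      fun ω => neg_log_qq H R hA1 w b ω
    rw [Finset.sum_congr rfl fun ω _ => h1 ω, Finset.sum_add_distrib, Finset.sum_add_distrib,
      Finset.sum_const, Finset.card_univ, nsmul_eq_mul, ← Finset.mul_sum, Finset.sum_add_distrib]
    have h7 : ((Fintype.card (Fin n → Bool) : ℕ) : ℝ) = 2 ^ n := by simp
    rw [h7]
    have h8 := mul_le_mul_of_nonneg_left (add_le_add hre him) hlog2.le
    linarith
  have hsqrt : Real.sqrt (N + 2 * h : ℕ) / w ≤ 5.1 := by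
    have h1 : Real.sqrt (N + 2 * h : ℕ) / w = 200 * ‖aeval ζ P‖ * Real.sqrt (N + 2 * h : ℕ) := by
      rw [hw]
      field_simp
    rw [h1]
    apply le_of_sq_le_sq _ (by norm_num)
    rw [mul_pow, Real.sq_sqrt (by positivity)]
    have h2 := R.m2
    unfold tau at h2
    have h3 := Real.pi_gt_d2
    have h4 : (9.85 : ℝ) ≤ Real.pi ^ 2 := by nlinarith
    set s := ‖aeval ζ P‖
    have h5 : 0 ≤ s ^ 2 * (N + 2 * h : ℝ) := by positivity
    have h6 : 16 * Real.pi ^ 2 * (s ^ 2 * (N + 2 * h : ℝ)) ≤ 1 / 10 := by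
      calc 16 * Real.pi ^ 2 * (s ^ 2 * (N + 2 * h : ℝ)) = (4 * Real.pi * s) ^ 2 * (N + 2 * h) := by
            ring
        _ ≤ 1 / 10 := h2
    have h7 : 16 * 9.85 * (s ^ 2 * (N + 2 * h : ℝ)) ≤ 1 / 10 := by
      refine le_trans ?_ h6
      apply mul_le_mul_of_nonneg_right _ h5
      linarith
    push_cast
    nlinarith
  rw [div_le_iff₀ (by positivity)]
  refine htotal.trans ?_
  rw [mul_comm]
  apply mul_le_mul_of_nonneg_right _ (by positivity)
  have ex : x = 2 * Real.log 2 + (N + 2 * h : ℕ) * Real.log β := by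
    rw [hx, Real.log_mul (by norm_num) (by positivity), Real.log_pow]
    have : Real.log 4 = 2 * Real.log 2 := by
      rw [show (4 : ℝ) = 2 ^ 2 by norm_num, Real.log_pow]; norm_num
    rw [this]
  have ey : y ≤ 7 * Real.log 2 + (N + 2 * h : ℕ) * Real.log β - Real.log (AA β l P h N) := by
    rw [hy, Real.log_div (by positivity) hA0.ne', Real.log_mul (by norm_num) (by positivity),
      Real.log_pow]
    have : Real.log 96 ≤ 7 * Real.log 2 := by
      have h1 : Real.log 96 ≤ Real.log (2 ^ 7) := Real.log_le_log (by norm_num) (by norm_num)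
      rw [Real.log_pow] at h1
      exact_mod_cast h1
    linarith
  have hl2 := Real.log_two_lt_d9
  have hl3 := log_three_le
  have h9 : Real.log 2 * (2 * (Real.sqrt (N + 2 * h : ℕ) / w + 1)) ≤ Real.log 2 * 12.2 :=
    mul_le_mul_of_nonneg_left (by linarith) hlog2.le
  linarith

end Pool.Agent.H938
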