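import Pool.Agent.H938_Salem4.M1
import Pool.Agent.H938_Salem4.B2
import Pool.Agent.H938_Salem4.C2

set_option autoImplicit false

namespace Pool.Agent.H938

open Polynomial

/-- the main resonance theorem -/
theorem MRT {β l : ℝ} {ζ : ℂ} (H : S4 β l ζ) (K : ℝ) :
    ∃ (P : ℤ[X]) (h N : ℕ), Res β l ζ P h N K := by
  obtain ⟨P, h, W, b, L, Lp, S⟩ := initial H
  obtain ⟨P', h', W', b', A, B, h1, h2⟩ := St_iter H S (9000 * K)
  obtain ⟨N, hN⟩ := Res_of_state H A B h1 h2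
  exact ⟨P', h', N, hN⟩

end Pool.Agent.H938
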