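import Pool.Agent.H938_Salem4.G4
import Pool.Agent.H938_Salem4.MRT

set_option autoImplicit false

namespace Pool.Agent.H938

open Polynomial

variable {β l : ℝ} {ζ : ℂ}

theorem abs_xs_le {n : ℕ} (ω : Fin n → Bool) (i : ℕ) : |xs ω i| ≤ 1 := by
  unfold xs
  split_ifs <;> simp

theorem abs_SS_le (H : S4 β l ζ) {n : ℕ} (ω : Fin n → Bool) : |SS l ω| ≤ 5 / 2 := by
  have hl := H.l_pos
  unfold SS
  refine (Finset.abs_sum_le_sum_abs _ _).trans ?_
  have h1 : ∀ i ∈ Finset.range n, |xs ω i * l ^ i| ≤ l ^ i := by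
    intro i _
    rw [abs_mul, abs_of_pos (pow_pos hl i)]
    have := abs_xs_le ω i
    have := pow_pos hl i
    nlinarith
  refine (Finset.sum_le_sum h1).trans ?_
  have hsum : Summable (fun k : ℕ => l ^ k) := summable_geometric_of_lt_one hl.le H.l_lt_one
  have h1 : ∑ k ∈ Finset.range n, l ^ k ≤ ∑' k : ℕ, l ^ k :=
    hsum.sum_le_tsum _ (fun k _ => by positivity)
  rw [tsum_geometric_of_lt_one hl.le H.l_lt_one] at h1
  refine h1.trans ?_
  rw [inv_le_comm₀ (by linarith [H.l_lt_one]) (by norm_num)]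
  linarith [H.l_le]

/-- the initial weight -/
noncomputable def q0 (s : ℤ × (ℤ × ℤ)) : ℝ :=
  if -3 ≤ s.1 ∧ s.1 ≤ 2 ∧ s.2 = (0, 0) then 1 / 6 else 0

theorem q0_sum (G : Finset (ℤ × (ℤ × ℤ))) : ∑ s ∈ G, q0 s ≤ 1 := by
  unfold q0
  rw [← Finset.sum_filter, Finset.sum_const, nsmul_eq_mul]
  have h1 : (G.filter (fun s => -3 ≤ s.1 ∧ s.1 ≤ 2 ∧ s.2 = (0, 0))).card ≤ 6 := by
    have hsub : G.filter (fun s => -3 ≤ s.1 ∧ s.1 ≤ 2 ∧ s.2 = (0, 0)) ⊆
        (Finset.Icc (-3 : ℤ) 2) ×ˢ ({((0 : ℤ), (0 : ℤ))} : Finset (ℤ × ℤ)) := by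
      intro s hs
      rw [Finset.mem_filter] at hs
      rw [Finset.mem_product, Finset.mem_Icc, Finset.mem_singleton]
      exact ⟨⟨hs.2.1, hs.2.2.1⟩, hs.2.2.2⟩
    refine (Finset.card_le_card hsub).trans ?_
    rw [Finset.card_product, Finset.card_singleton]
    decide
  have h2 : ((G.filter (fun s => -3 ≤ s.1 ∧ s.1 ≤ 2 ∧ s.2 = (0, 0))).card : ℝ) ≤ 6 := by
    exact_mod_cast h1
  linarith

theorem q0_real (H : S4 β l ζ) (w : ℝ) (L : ℕ) {n : ℕ} (ω : Fin n → Bool) :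
    q0 (sg β l ζ w L 0 ω) = 1 / 6 := by
  unfold q0 sg cz
  have h1 := abs_SS_le H ω
  rw [abs_le] at h1
  have h2 : -3 ≤ ⌊β ^ (0 * L) * SS l ω⌋ := by
    rw [Int.le_floor, zero_mul, pow_zero, one_mul]
    push_cast
    linarith [h1.1]
  have h3 : ⌊β ^ (0 * L) * SS l ω⌋ ≤ 2 := by
    have : ⌊β ^ (0 * L) * SS l ω⌋ < 3 := by
      rw [Int.floor_lt, zero_mul, pow_zero, one_mul]
      push_cast
      linarith [h1.2]
    omega
  rw [if_pos]
  refine ⟨h2, h3, ?_⟩
  simp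

/-- final entropy bound -/
theorem entropy_drop (H : S4 β l ζ) :
    ∃ (L : ℕ) (C : ℝ), 1 ≤ L ∧ ∀ m : ℕ,
      Ent (fun ω : Fin (m * L) → Bool => SS l ω) ≤ C + m * (L * Real.log β - 1) := by
  obtain ⟨P, h, N, R⟩ := MRT H (max 100000 (Real.exp 32))
  have hK : (100000 : ℝ) ≤ max 100000 (Real.exp 32) := le_max_left _ _
  obtain ⟨hKA, hL, hlL, hbl⟩ := R.facts H
  have hs := R.s_pos
  set w : ℝ := 1 / (200 * ‖aeval ζ P‖) with hw
  have hw0 : 0 < w := by rw [hw]; positivity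
  obtain ⟨K2, hK2, hcard⟩ := K2_exists H hw0
  have hten : (10 : ℝ) ≤ h := by exact_mod_cast R.ten
  have hAexp : Real.exp 32 ≤ AA β l P h N := by
    have h1 : Real.exp 32 ≤ max 100000 (Real.exp 32) := le_max_right _ _
    have h2 : 0 < Real.exp 32 := Real.exp_pos _
    have h3 : max 100000 (Real.exp 32) * 1 ≤ max 100000 (Real.exp 32) * (h : ℝ) :=
      mul_le_mul_of_nonneg_left (by linarith) (by linarith)
    linarith
  have hA1 : 1 ≤ AA β l P h N := by
    have : (1 : ℝ) ≤ Real.exp 32 := Real.one_le_exp (by norm_num)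
    linarith
  have hlogA : 32 ≤ Real.log (AA β l P h N) := by
    have := Real.log_le_log (Real.exp_pos _) hAexp
    rwa [Real.log_exp] at this
  refine ⟨N + 2 * h, Real.log K2 + Real.log 6, by have := R.ten; omega, fun m => ?_⟩
  have main := Ent_le_code (Ω := Fin (m * (N + 2 * h)) → Bool)
    (fun ω => SS l ω) (fun b ω => sg β l ζ w (N + 2 * h) b ω) m q0
    (fun b s s' => qq β l ζ P h N w b s s') K2
    (fun s => by unfold q0; split_ifs <;> norm_num)
    (fun b s s' => qq_nonneg H P h N w b s s')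
    (fun ω => by rw [q0_real H]; norm_num)
    (fun b _ ω => qq_pos H R hA1 w b ω)
    q0_sum
    (fun b _ s G => qq_sum H R hA1 w b s G)
    (fun s => by
      have h1 := hcard (m * (N + 2 * h)) s.1 s.2
      refine le_trans (Finset.card_le_card ?_) h1
      apply Finset.image_subset_image
      intro ω hω
      rw [Finset.mem_filter] at hω ⊢
      refine ⟨Finset.mem_univ _, ?_⟩
      have h2 := hω.2
      unfold sg at h2
      refine ⟨congrArg Prod.fst h2, congrArg (fun z => z.2.1) h2, congrArg (fun z => z.2.2) h2⟩)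
  refine main.trans ?_
  have hcardΩ : ((Fintype.card (Fin (m * (N + 2 * h)) → Bool) : ℕ) : ℝ) = 2 ^ (m * (N + 2 * h)) := by
    simp
  have e0 : (∑ ω : Fin (m * (N + 2 * h)) → Bool, -Real.log (q0 (sg β l ζ w (N + 2 * h) 0 ω))) /
      (Fintype.card (Fin (m * (N + 2 * h)) → Bool) : ℝ) = Real.log 6 := by
    have h1 : ∀ ω : Fin (m * (N + 2 * h)) → Bool,
        -Real.log (q0 (sg β l ζ w (N + 2 * h) 0 ω)) = Real.log 6 := by
      intro ω
      rw [q0_real H, one_div, Real.log_inv, neg_neg]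
    rw [Finset.sum_congr rfl fun ω _ => h1 ω, Finset.sum_const, Finset.card_univ, nsmul_eq_mul]
    rw [hcardΩ]
    field_simp
  rw [e0]
  have e1 : ∑ b ∈ Finset.range m, (∑ ω : Fin (m * (N + 2 * h)) → Bool,
      -Real.log (qq β l ζ P h N w b (sg β l ζ w (N + 2 * h) b ω)
        (sg β l ζ w (N + 2 * h) (b + 1) ω))) /
      (Fintype.card (Fin (m * (N + 2 * h)) → Bool) : ℝ) ≤
      m * (((N + 2 * h : ℕ) : ℝ) * Real.log β - 1) := by
    have h1 : ∀ b ∈ Finset.range m, (∑ ω : Fin (m * (N + 2 * h)) → Bool,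
        -Real.log (qq β l ζ P h N w b (sg β l ζ w (N + 2 * h) b ω)
          (sg β l ζ w (N + 2 * h) (b + 1) ω))) /
        (Fintype.card (Fin (m * (N + 2 * h)) → Bool) : ℝ) ≤
        ((N + 2 * h : ℕ) : ℝ) * Real.log β - 1 := by
      intro b hb
      rw [Finset.mem_range] at hb
      have h2 := block_cost H R hK hw (n := m * (N + 2 * h)) (b := b)
        (Nat.mul_le_mul_right _ (by omega))
      rw [hcardΩ]
      linarith
    refine (Finset.sum_le_sum h1).trans ?_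
    rw [Finset.sum_const, Finset.card_range, nsmul_eq_mul]
  linarith

end Pool.Agent.H938
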