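import Pool.Agent.H938_Salem4.B0

set_option autoImplicit false

namespace Pool.Agent.H938

open Polynomial

variable {β l : ℝ} {ζ : ℂ}

theorem Phi_near_one (H : S4 β l ζ) {x : ℝ} (hx : |x| ≤ 1 / 1000) (M : ℕ) :
    |Phi l M x - 1| ≤ 1 / 1000 := by
  unfold Phi
  have hl := H.l_pos
  have h1 := Finset.norm_prod_one_add_sub_one_le (Finset.range M)
    (fun k : ℕ => Real.cos (x * l ^ k) - 1)
  simp only [Real.norm_eq_abs, add_sub_cancel] at h1
  refine h1.trans ?_
  have h2 : ∀ k ∈ Finset.range M, |Real.cos (x * l ^ k) - 1| ≤ 1 / 10000 * l ^ k := by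
    intro k _
    have h3 : 1 - (x * l ^ k) ^ 2 / 2 ≤ Real.cos (x * l ^ k) := Real.one_sub_sq_div_two_le_cos
    have h4 := Real.cos_le_one (x * l ^ k)
    rw [abs_of_nonpos (by linarith)]
    have h5 : (x * l ^ k) ^ 2 = |x| ^ 2 * (l ^ k) ^ 2 := by rw [mul_pow, sq_abs]
    have h6 : 0 < l ^ k := pow_pos hl _
    have h7 : l ^ k ≤ 1 := pow_le_one₀ hl.le H.l_lt_one.le
    have h8 : |x| ^ 2 ≤ 1 / 10000 := by nlinarith [abs_nonneg x]
    have h9 : |x| ^ 2 * (l ^ k) ^ 2 ≤ 1 / 10000 * l ^ k := by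
      apply mul_le_mul h8 _ (by positivity) (by norm_num)
      nlinarith
    linarith
  have h3 : ∑ k ∈ Finset.range M, |Real.cos (x * l ^ k) - 1| ≤ 1 / 4000 := by
    refine (Finset.sum_le_sum h2).trans ?_
    rw [← Finset.mul_sum]
    have h4 : ∑ k ∈ Finset.range M, l ^ k ≤ 5 / 2 := by
      have hsum : Summable (fun k : ℕ => l ^ k) := summable_geometric_of_lt_one hl.le H.l_lt_one
      have h1 : ∑ k ∈ Finset.range M, l ^ k ≤ ∑' k : ℕ, l ^ k :=
        hsum.sum_le_tsum _ (fun k _ => by positivity)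
      rw [tsum_geometric_of_lt_one hl.le H.l_lt_one] at h1
      refine h1.trans ?_
      rw [inv_le_comm₀ (by linarith [H.l_lt_one]) (by norm_num)]
      linarith [H.l_le]
    linarith
  have h4 : Real.exp (∑ k ∈ Finset.range M, |Real.cos (x * l ^ k) - 1|) ≤ Real.exp (1 / 4000) :=
    Real.exp_le_exp.mpr h3
  have h5 : Real.exp (1 / 4000 : ℝ) ≤ 1 + 1 / 1000 := by
    have := Real.abs_exp_sub_one_le (x := (1 / 4000 : ℝ)) (by norm_num)
    rw [abs_le] at this
    have h6 : |(1 / 4000 : ℝ)| = 1 / 4000 := by norm_num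
    rw [h6] at this
    linarith [this.2]
  linarith

theorem Res_of_state (H : S4 β l ζ) {P : ℤ[X]} {h : ℕ} {W b K : ℝ} (A : Adm β l ζ P h W)
    (B : BB β l P h b) (hK : 9000 * K * (tau ζ P ^ 2 * h) ≤ b ^ 2)
    (hτh : tau ζ P ^ 2 * h ≤ 1 / 100) :
    ∃ N : ℕ, Res β l ζ P h N K := by
  obtain ⟨hW, hτW, hWl, hτ, hlh⟩ := A.τW H
  have hl := H.l_pos
  have hpi := Real.pi_pos
  have hτpos : 0 < tau ζ P := by
    unfold tau
    have := A.s_pos
    positivity
  set τ := tau ζ P with hτdef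
  have hτ2 : 0 < τ ^ 2 := by positivity
  set R := ⌊1 / (1000 * τ ^ 2)⌋₊ with hR
  have hR1 : (R : ℝ) * τ ^ 2 ≤ 1 / 1000 := by
    have h1 : (R : ℝ) ≤ 1 / (1000 * τ ^ 2) := Nat.floor_le (by positivity)
    have h2 : (R : ℝ) * τ ^ 2 ≤ 1 / (1000 * τ ^ 2) * τ ^ 2 :=
      mul_le_mul_of_nonneg_right h1 hτ2.le
    have h3 : 1 / (1000 * τ ^ 2) * τ ^ 2 = 1 / 1000 := by field_simp
    linarith
  have hR2 : 1 / 1000 ≤ ((R : ℝ) + 1) * τ ^ 2 := by
    have h1 : 1 / (1000 * τ ^ 2) ≤ (R : ℝ) + 1 := (Nat.lt_floor_add_one _).le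
    have h2 : 1 / (1000 * τ ^ 2) * τ ^ 2 ≤ ((R : ℝ) + 1) * τ ^ 2 :=
      mul_le_mul_of_nonneg_right h1 hτ2.le
    have h3 : 1 / (1000 * τ ^ 2) * τ ^ 2 = 1 / 1000 := by field_simp
    linarith
  refine ⟨h + R, ?_⟩
  refine ⟨A.ten, by omega, A.k_one, A.k_le, A.k1_le, A.s_pos, ?_, hlh, ?_, ?_, ?_⟩
  · push_cast
    nlinarith
  · -- m3
    intro M
    have hterm : ∀ n ∈ Finset.Icc h (h + R), b ^ 2 / 9 ≤ Phi l M (tP β P n) ^ 2 := by
      intro n hn
      rw [Finset.mem_Icc] at hn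
      obtain ⟨r, rfl⟩ := Nat.exists_eq_add_of_le hn.1
      have hr : r ≤ R := by omega
      have h1 := Phi_forward H A B M r
      have e : ((h + r : ℕ) : ℤ) = (h : ℤ) + r := by push_cast; ring
      rw [e]
      have h2 : (r : ℝ) ≤ R := by exact_mod_cast hr
      have h3 : τ ^ 2 * r ≤ 1 / 1000 := by nlinarith
      have h4 : Real.exp (-(1.001 : ℝ)) ≤ Real.exp (-(τ ^ 2 * r) - 1) :=
        Real.exp_le_exp.mpr (by linarith)
      have h5 : (1 : ℝ) / 3 ≤ Real.exp (-(1.001 : ℝ)) := by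
        rw [Real.exp_neg, one_div]
        apply inv_anti₀ (Real.exp_pos _)
        have h6 : Real.exp (1.001 : ℝ) = Real.exp 1 * Real.exp (1 / 1000) := by
          rw [← Real.exp_add]; norm_num
        rw [h6]
        have h7 := Real.exp_one_lt_d9
        have h8 : Real.exp (1 / 1000 : ℝ) ≤ 1 + 2 / 1000 := by
          have := Real.abs_exp_sub_one_le (x := (1 / 1000 : ℝ)) (by norm_num)
          rw [abs_le] at this
          have h6 : |(1 / 1000 : ℝ)| = 1 / 1000 := by norm_num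
          rw [h6] at this
          linarith [this.2]
        have h9 := Real.exp_pos (1 : ℝ)
        have h10 := Real.exp_pos (1 / 1000 : ℝ)
        nlinarith
      have h6 : b / 3 ≤ |Phi l M (tP β P ((h : ℤ) + r))| := by
        have := B.1
        have h7 : b * (1 / 3) ≤ b * Real.exp (-(τ ^ 2 * r) - 1) :=
          mul_le_mul_of_nonneg_left (h5.trans h4) B.1.le
        linarith
      have h7 : (b / 3) ^ 2 ≤ |Phi l M (tP β P ((h : ℤ) + r))| ^ 2 :=
        pow_le_pow_left₀ (by linarith [B.1]) h6 2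
      rw [sq_abs] at h7
      linarith
    have h1 := Finset.sum_le_sum hterm
    rw [Finset.sum_const, Nat.card_Icc, nsmul_eq_mul] at h1
    refine le_trans ?_ h1
    have h2 : ((h + R + 1 - h : ℕ) : ℝ) = (R : ℝ) + 1 := by
      have : h + R + 1 - h = R + 1 := by omega
      rw [this]; push_cast; ring
    rw [h2]
    have h3 : τ ^ 2 * (K * h) ≤ τ ^ 2 * (((R : ℝ) + 1) * (b ^ 2 / 9)) := by
      have h4 : 1 / 1000 * (b ^ 2 / 9) ≤ ((R : ℝ) + 1) * τ ^ 2 * (b ^ 2 / 9) :=
        mul_le_mul_of_nonneg_right hR2 (by positivity)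
      nlinarith
    exact le_of_mul_le_mul_left h3 hτ2
  · -- m4
    intro M n m hm hn hnm
    have h1 := Phi_sub H A (a := (n : ℤ)) (b := (m : ℤ)) (by omega) (by omega) M
    refine h1.trans ?_
    apply mul_le_mul_of_nonneg_right _ (abs_nonneg _)
    have h2 : ((m : ℤ) : ℝ) - h + 1 ≤ R + 1 := by
      have : (m : ℝ) ≤ h + R := by
        have : m ≤ h + R := by omega
        exact_mod_cast this
      push_cast
      linarith
    have h3 : τ ^ 2 * (((m : ℤ) : ℝ) - h + 1) ≤ 1 / 1000 + τ ^ 2 := by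
      calc τ ^ 2 * (((m : ℤ) : ℝ) - h + 1) ≤ τ ^ 2 * (R + 1) :=
            mul_le_mul_of_nonneg_left h2 hτ2.le
        _ ≤ _ := by linarith
    have h4 : τ ^ 2 ≤ 1 / 10000 := by nlinarith
    have h5 : τ ^ 2 * (((m : ℤ) : ℝ) - h + 1) + 2 / 1000 ≤ 31 / 10000 := by linarith
    have h6 : Real.exp (τ ^ 2 * (((m : ℤ) : ℝ) - h + 1) + 2 / 1000) ≤ Real.exp (31 / 10000) :=
      Real.exp_le_exp.mpr h5
    have h7 : Real.exp (31 / 10000 : ℝ) ≤ 1 + 4 / 1000 := by
      have := Real.abs_exp_sub_one_sub_id_le (x := (31 / 10000 : ℝ)) (by norm_num)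
      rw [abs_le] at this
      have h8 := this.2
      norm_num at h8
      linarith
    linarith
  · -- m5
    intro M n hn hnN hM
    obtain ⟨k, rfl⟩ := Nat.exists_eq_add_of_le hM
    set L := h + R + 2 * h with hL
    rw [Phi_split]
    have h1 : |Phi l k (tP β P n * l ^ L) - 1| ≤ 1 / 1000 := by
      apply Phi_near_one H
      rw [tP_mul_lpow H]
      unfold tP
      have hβ := H.β_pos
      have h2 : β ^ ((n : ℤ) - L) ≤ β ^ (-(2 * h : ℤ)) :=
        zpow_le_zpow_right₀ H.β_gt_one.le (by rw [hL]; push_cast; omega)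
      have h3 : β ^ (-(2 * h : ℤ)) = l ^ h * l ^ h := by
        rw [← pow_add, H.l_pow]
        congr 1
        push_cast
        ring
      have h4 : 0 < β ^ ((n : ℤ) - L) := zpow_pos hβ _
      have hk1 := A.k_one
      rw [abs_of_nonneg (by positivity)]
      have h5 : β ^ h * l ^ h = 1 := by rw [← mul_pow, H.bl, one_pow]
      have hlh0 : 0 < l ^ h := pow_pos hl _
      have h6 : aeval β P * (l ^ h * l ^ h) ≤ 1 / 8 * l ^ h := by
        have h7 := A.k_le
        have h8 : 8 * aeval β P * l ^ h ≤ β ^ h * l ^ h :=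
          mul_le_mul_of_nonneg_right h7 hlh0.le
        rw [h5] at h8
        nlinarith
      calc Real.pi * aeval β P * β ^ ((n : ℤ) - L) ≤ Real.pi * aeval β P * (l ^ h * l ^ h) := by
            apply mul_le_mul_of_nonneg_left (h2.trans_eq h3) (by positivity)
        _ = Real.pi * (aeval β P * (l ^ h * l ^ h)) := by ring
        _ ≤ 4 * (1 / 8 * l ^ h) := by
            apply mul_le_mul Real.pi_le_four h6 (by positivity) (by norm_num)
        _ ≤ 1 / 1000 := by linarith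
    have h2 : Phi l L (tP β P n) * Phi l k (tP β P n * l ^ L) - Phi l L (tP β P n) =
        (Phi l k (tP β P n * l ^ L) - 1) * Phi l L (tP β P n) := by ring
    rw [h2, abs_mul]
    exact mul_le_mul_of_nonneg_right h1 (abs_nonneg _)

end Pool.Agent.H938
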