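import Pool.Agent.H938_Salem4.Defs

set_option autoImplicit false

namespace Pool.Agent.H938

open Polynomial MeasureTheory Filter Topology

/-- the Bernoulli convolution -/
noncomputable def nuB (t : ℝ) : Measure ℝ :=
  Measure.map (fun ω : ℕ → Bool => ∑' n : ℕ, (if ω n then (1 : ℝ) else -1) * t ^ n)
    (Measure.infinitePi (fun _ : ℕ => (PMF.uniformOfFintype Bool).toMeasure))

/-- the uniform measure on Bool -/
noncomputable abbrev R1a_m : Measure Bool := (PMF.uniformOfFintype Bool).toMeasure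

/-- the product measure -/
noncomputable abbrev R1a_P : Measure (ℕ → Bool) := Measure.infinitePi (fun _ : ℕ => R1a_m)

/-- the summands -/
noncomputable def R1a_Y (l : ℝ) (n : ℕ) (ω : ℕ → Bool) : ℝ := (if ω n then (1 : ℝ) else -1) * l ^ n

theorem R1a_Y_meas (l : ℝ) (n : ℕ) : Measurable (R1a_Y l n) := by
  have h : Measurable (fun b : Bool => (if b then (1 : ℝ) else -1) * l ^ n) := measurable_from_top
  exact h.comp (measurable_pi_apply n)

theorem R1a_Y_abs {l : ℝ} (h0 : 0 < l) (n : ℕ) (ω : ℕ → Bool) : |R1a_Y l n ω| = l ^ n := by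
  unfold R1a_Y
  rw [abs_mul, abs_of_pos (pow_pos h0 n)]
  split_ifs <;> simp

theorem R1a_summable {l : ℝ} (h0 : 0 < l) (h1 : l < 1) (ω : ℕ → Bool) :
    Summable (fun n => R1a_Y l n ω) := by
  refine Summable.of_norm_bounded (summable_geometric_of_lt_one h0.le h1) (fun n => ?_)
  rw [Real.norm_eq_abs, R1a_Y_abs h0]

theorem R1a_tendsto {l : ℝ} (h0 : 0 < l) (h1 : l < 1) (ω : ℕ → Bool) :
    Tendsto (fun M => ∑ n ∈ Finset.range M, R1a_Y l n ω) atTop (𝓝 (∑' n, R1a_Y l n ω)) :=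
  (R1a_summable h0 h1 ω).hasSum.tendsto_sum_nat

theorem R1a_meas {l : ℝ} (h0 : 0 < l) (h1 : l < 1) :
    Measurable (fun ω : ℕ → Bool => ∑' n, R1a_Y l n ω) := by
  refine measurable_of_tendsto_metrizable
    (f := fun M ω => ∑ n ∈ Finset.range M, R1a_Y l n ω) (fun M => ?_) ?_
  · exact Finset.measurable_sum _ (fun n _ => R1a_Y_meas l n)
  · rw [tendsto_pi_nhds]
    exact fun ω => R1a_tendsto h0 h1 ω

/-- the factors -/
noncomputable def R1a_X (x l : ℝ) (n : ℕ) (b : Bool) : ℂ :=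
  Complex.exp (((x * ((if b then (1 : ℝ) else -1) * l ^ n) : ℝ) : ℂ) * Complex.I)

theorem R1a_X_int (x l : ℝ) (n : ℕ) : ∫ b, R1a_X x l n b ∂(R1a_m) = ((Real.cos (x * l ^ n) : ℝ) : ℂ) := by
  rw [PMF.integral_eq_sum, Fintype.sum_bool]
  simp only [PMF.uniformOfFintype_apply, Fintype.card_bool]
  unfold R1a_X
  rw [if_pos rfl, if_neg (by decide), Complex.ofReal_cos, Complex.cos]
  have e : ((2 : ENNReal)⁻¹).toReal = (2 : ℝ)⁻¹ := by simp
  push_cast
  rw [e]
  simp only [Complex.real_smul]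
  push_cast
  have e1 : ((x : ℂ) * (1 * (l : ℂ) ^ n)) * Complex.I = (x : ℂ) * (l : ℂ) ^ n * Complex.I := by ring
  have e2 : ((x : ℂ) * (-1 * (l : ℂ) ^ n)) * Complex.I = -((x : ℂ) * (l : ℂ) ^ n) * Complex.I := by ring
  rw [e1, e2]
  ring

theorem R1a_prod (x l : ℝ) (M : ℕ) :
    ∫ ω, Complex.exp (((x * ∑ n ∈ Finset.range M, R1a_Y l n ω : ℝ) : ℂ) * Complex.I) ∂(R1a_P) =
      ((Phi l M x : ℝ) : ℂ) := by
  have hind : ProbabilityTheory.iIndepFun (fun (i : Fin M) (ω : ℕ → Bool) => R1a_X x l i (ω i)) R1a_P := by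
    have h := ProbabilityTheory.iIndepFun_infinitePi (P := fun _ : ℕ => R1a_m)
      (X := fun n => R1a_X x l n) (fun n => measurable_from_top)
    exact h.precomp (g := fun i : Fin M => (i : ℕ)) Fin.val_injective
  have hm : ∀ n : ℕ, Measurable (fun ω : ℕ → Bool => R1a_X x l n (ω n)) := fun n => by
    have h : Measurable (R1a_X x l n) := measurable_from_top
    exact h.comp (measurable_pi_apply n)
  have h1 := hind.integral_fun_prod_eq_prod_integral (fun i => (hm i).aestronglyMeasurable)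
  have h2 : ∀ ω : ℕ → Bool, ∏ i : Fin M, R1a_X x l i (ω i) =
      Complex.exp (((x * ∑ n ∈ Finset.range M, R1a_Y l n ω : ℝ) : ℂ) * Complex.I) := by
    intro ω
    unfold R1a_X
    rw [← Complex.exp_sum, ← Finset.sum_mul, ← Complex.ofReal_sum, ← Finset.mul_sum,
      Finset.sum_range]
    rfl
  simp only [h2] at h1
  rw [h1]
  unfold Phi
  rw [Finset.prod_range, Complex.ofReal_prod]
  apply Finset.prod_congr rfl
  intro i _
  rw [← R1a_X_int]
  have h3 := Measure.infinitePi_map_eval (fun _ : ℕ => R1a_m) (i : ℕ)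
  conv_rhs => rw [← h3]
  rw [integral_map (measurable_pi_apply _).aemeasurable
    (measurable_from_top : Measurable (R1a_X x l i)).aestronglyMeasurable]

/-- TARGET -/
theorem nuB_char {l : ℝ} (h0 : 0 < l) (h1 : l < 1) :
    IsProbabilityMeasure (nuB l) ∧ ∀ x : ℝ, Tendsto (fun M : ℕ => ((Phi l M x : ℝ) : ℂ)) atTop
      (𝓝 (∫ y, Complex.exp (((x * y : ℝ) : ℂ) * Complex.I) ∂(nuB l))) := by
  have hm := R1a_meas h0 h1
  have hnu : nuB l = Measure.map (fun ω : ℕ → Bool => ∑' n, R1a_Y l n ω) R1a_P := rfl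
  refine ⟨?_, ?_⟩
  · rw [hnu]
    exact Measure.isProbabilityMeasure_map hm.aemeasurable
  · intro x
    rw [hnu, integral_map hm.aemeasurable (by fun_prop)]
    have h : (fun M : ℕ => ((Phi l M x : ℝ) : ℂ)) = fun M : ℕ => ∫ ω, Complex.exp
        (((x * ∑ n ∈ Finset.range M, R1a_Y l n ω : ℝ) : ℂ) * Complex.I) ∂(R1a_P) := by
      funext M
      rw [R1a_prod]
    rw [h]
    refine tendsto_integral_of_dominated_convergence (fun _ => (1 : ℝ)) ?_ ?_ ?_ ?_
    · intro M
      have : Measurable (fun ω : ℕ → Bool => ∑ n ∈ Finset.range M, R1a_Y l n ω) :=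
        Finset.measurable_sum _ (fun n _ => R1a_Y_meas l n)
      apply Measurable.aestronglyMeasurable
      fun_prop
    · exact integrable_const _
    · intro M
      refine Filter.Eventually.of_forall (fun ω => ?_)
      rw [Complex.norm_exp_ofReal_mul_I]
    · refine Filter.Eventually.of_forall (fun ω => ?_)
      have hc : Continuous (fun y : ℝ => Complex.exp (((x * y : ℝ) : ℂ) * Complex.I)) := by fun_prop
      exact (hc.tendsto _).comp (R1a_tendsto h0 h1 ω)

end Pool.Agent.H938
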