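import Pool.Agent.H938_Salem4.Defs

set_option autoImplicit false

namespace Pool.Agent.H938

open Polynomial MeasureTheory Filter Topology

namespace NotAC

open scoped BigOperators

theorem count_near (I : Finset ℕ) (h n : ℕ) (hh : 1 ≤ h) :
    ((I.filter fun m => n < m + 4 * h ∧ m < n + 4 * h).card : ℝ) ≤ 8 * h := by
  have hsub : (I.filter fun m => n < m + 4 * h ∧ m < n + 4 * h) ⊆
      Finset.Ico (n + 1 - 4 * h) (n + 4 * h) := by
    intro m hm
    rw [Finset.mem_filter] at hm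
    rw [Finset.mem_Ico]
    omega
  have h1 := Finset.card_le_card hsub
  rw [Nat.card_Ico] at h1
  have h2 : (I.filter fun m => n < m + 4 * h ∧ m < n + 4 * h).card ≤ 8 * h := by omega
  exact_mod_cast h2

theorem quad_bound (I : Finset ℕ) (h : ℕ) (hh : 1 ≤ h) (a : ℕ → ℝ) (c : ℕ → ℕ → ℝ)
    (ha : ∀ n, |a n| ≤ 1) (hc : ∀ n m, |c n m| ≤ 1) (hs : ∀ n m, c n m = c m n)
    (hfar : ∀ n ∈ I, ∀ m ∈ I, m + 4 * h ≤ n → |c n m - a n * a m| ≤ 4 / 1000 * |a n * a m|) :
    ∑ n ∈ I, ∑ m ∈ I, a n * a m * (c n m - a n * a m) ≤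
      16 * h * (∑ n ∈ I, a n ^ 2) + 4 / 1000 * (∑ n ∈ I, a n ^ 2) ^ 2 := by
  have hfar2 : ∀ n ∈ I, ∀ m ∈ I, ¬ (n < m + 4 * h ∧ m < n + 4 * h) →
      |c n m - a n * a m| ≤ 4 / 1000 * |a n * a m| := by
    intro n hn m hm hnm
    rcases (by omega : m + 4 * h ≤ n ∨ n + 4 * h ≤ m) with h1 | h1
    · exact hfar n hn m hm h1
    · have := hfar m hm n hn h1
      rw [hs n m, mul_comm (a n) (a m)]
      exact this
  have hterm : ∀ n ∈ I, ∀ m ∈ I, a n * a m * (c n m - a n * a m) ≤
      4 / 1000 * (a n ^ 2 * a m ^ 2) +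
        if n < m + 4 * h ∧ m < n + 4 * h then (a n ^ 2 + a m ^ 2) else 0 := by
    intro n hn m hm
    by_cases hnm : n < m + 4 * h ∧ m < n + 4 * h
    · rw [if_pos hnm]
      have h1 : |c n m - a n * a m| ≤ 2 := by
        have h2 : |a n * a m| ≤ 1 := by
          rw [abs_mul]
          exact mul_le_one₀ (ha n) (abs_nonneg _) (ha m)
        calc |c n m - a n * a m| ≤ |c n m| + |a n * a m| := abs_sub _ _
          _ ≤ 2 := by linarith [hc n m]
      have h3 : a n * a m * (c n m - a n * a m) ≤ |a n| * |a m| * 2 := by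
        calc a n * a m * (c n m - a n * a m) ≤ |a n * a m * (c n m - a n * a m)| := le_abs_self _
          _ = |a n| * |a m| * |c n m - a n * a m| := by rw [abs_mul, abs_mul]
          _ ≤ |a n| * |a m| * 2 := by
            exact mul_le_mul_of_nonneg_left h1 (by positivity)
      have h4 : |a n| * |a m| * 2 ≤ a n ^ 2 + a m ^ 2 := by
        nlinarith [sq_nonneg (|a n| - |a m|), sq_abs (a n), sq_abs (a m)]
      have h5 : 0 ≤ a n ^ 2 * a m ^ 2 := by positivity
      linarith
    · rw [if_neg hnm, add_zero]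
      have h1 := hfar2 n hn m hm hnm
      calc a n * a m * (c n m - a n * a m) ≤ |a n * a m * (c n m - a n * a m)| := le_abs_self _
        _ = |a n * a m| * |c n m - a n * a m| := by rw [abs_mul]
        _ ≤ |a n * a m| * (4 / 1000 * |a n * a m|) := mul_le_mul_of_nonneg_left h1 (abs_nonneg _)
        _ = 4 / 1000 * (a n ^ 2 * a m ^ 2) := by
          rw [mul_left_comm, abs_mul_abs_self]; ring
  have hA2 : ∑ n ∈ I, ∑ m ∈ I, 4 / 1000 * (a n ^ 2 * a m ^ 2) =
      4 / 1000 * (∑ n ∈ I, a n ^ 2) ^ 2 := by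
    rw [pow_two (∑ n ∈ I, a n ^ 2), Finset.sum_mul_sum, Finset.mul_sum]
    refine Finset.sum_congr rfl fun n _ => ?_
    rw [Finset.mul_sum]
  have hnear : ∑ n ∈ I, ∑ m ∈ I, (if n < m + 4 * h ∧ m < n + 4 * h then (a n ^ 2 + a m ^ 2) else 0) ≤
      16 * h * (∑ n ∈ I, a n ^ 2) := by
    have e1 : ∑ n ∈ I, ∑ m ∈ I,
        (if n < m + 4 * h ∧ m < n + 4 * h then (a n ^ 2 + a m ^ 2) else 0) =
        (∑ n ∈ I, ∑ m ∈ I, (if n < m + 4 * h ∧ m < n + 4 * h then a n ^ 2 else 0)) +
        ∑ n ∈ I, ∑ m ∈ I, (if n < m + 4 * h ∧ m < n + 4 * h then a m ^ 2 else 0) := by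
      rw [← Finset.sum_add_distrib]
      refine Finset.sum_congr rfl fun n _ => ?_
      rw [← Finset.sum_add_distrib]
      refine Finset.sum_congr rfl fun m _ => ?_
      split_ifs <;> simp
    have e2 : ∑ n ∈ I, ∑ m ∈ I, (if n < m + 4 * h ∧ m < n + 4 * h then a m ^ 2 else 0) =
        ∑ n ∈ I, ∑ m ∈ I, (if n < m + 4 * h ∧ m < n + 4 * h then a n ^ 2 else 0) := by
      rw [Finset.sum_comm]
      refine Finset.sum_congr rfl fun n _ => Finset.sum_congr rfl fun m _ => ?_
      exact if_congr (by tauto) rfl rfl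
    have e3 : ∑ n ∈ I, ∑ m ∈ I, (if n < m + 4 * h ∧ m < n + 4 * h then a n ^ 2 else 0) ≤
        8 * h * (∑ n ∈ I, a n ^ 2) := by
      rw [Finset.mul_sum]
      refine Finset.sum_le_sum fun n _ => ?_
      rw [← Finset.sum_filter, Finset.sum_const, nsmul_eq_mul]
      exact mul_le_mul_of_nonneg_right (count_near I h n hh) (sq_nonneg _)
    rw [e1, e2]
    linarith
  calc ∑ n ∈ I, ∑ m ∈ I, a n * a m * (c n m - a n * a m)
      ≤ ∑ n ∈ I, ∑ m ∈ I, (4 / 1000 * (a n ^ 2 * a m ^ 2) +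
        if n < m + 4 * h ∧ m < n + 4 * h then (a n ^ 2 + a m ^ 2) else 0) :=
        Finset.sum_le_sum fun n hn => Finset.sum_le_sum fun m hm => hterm n hn m hm
    _ = 4 / 1000 * (∑ n ∈ I, a n ^ 2) ^ 2 +
        ∑ n ∈ I, ∑ m ∈ I, (if n < m + 4 * h ∧ m < n + 4 * h then (a n ^ 2 + a m ^ 2) else 0) := by
        rw [← hA2, ← Finset.sum_add_distrib]
        refine Finset.sum_congr rfl fun n _ => ?_
        rw [← Finset.sum_add_distrib]
    _ ≤ _ := by linarith

/-- geometric double sum -/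
theorem geom_double (I : Finset ℕ) : ∑ n ∈ I, ∑ m ∈ I, (4 / 5 : ℝ) ^ (n + m) ≤ 25 := by
  have h1 : ∑ n ∈ I, (4 / 5 : ℝ) ^ n ≤ 5 := by
    have hs : Summable fun n : ℕ => (4 / 5 : ℝ) ^ n :=
      summable_geometric_of_lt_one (by norm_num) (by norm_num)
    calc ∑ n ∈ I, (4 / 5 : ℝ) ^ n ≤ ∑' n : ℕ, (4 / 5 : ℝ) ^ n :=
          hs.sum_le_tsum I (fun n _ => by positivity)
      _ = 5 := by rw [tsum_geometric_of_lt_one (by norm_num) (by norm_num)]; norm_num
  have h2 : ∑ n ∈ I, ∑ m ∈ I, (4 / 5 : ℝ) ^ (n + m) = (∑ n ∈ I, (4 / 5 : ℝ) ^ n) ^ 2 := by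
    rw [pow_two, Finset.sum_mul_sum]
    refine Finset.sum_congr rfl fun n _ => Finset.sum_congr rfl fun m _ => ?_
    rw [pow_add]
  have h3 : 0 ≤ ∑ n ∈ I, (4 / 5 : ℝ) ^ n := Finset.sum_nonneg fun n _ => by positivity
  rw [h2]
  nlinarith

/-- separation of the frequencies -/
theorem sep_bound {β l k1 : ℝ} (hl : 1 / 2 < l) (hl2 : l ≤ 3 / 5) (hbl : β * l = 1) (hk : 1 ≤ k1)
    {n m : ℕ} (hmn : m < n) :
    1 ≤ (Real.pi * k1 * β ^ (n : ℤ) - Real.pi * k1 * β ^ (m : ℤ)) * (4 / 5 : ℝ) ^ (n + m) := by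
  have hl0 : 0 < l := by linarith
  have hβ : β = l⁻¹ := eq_inv_of_mul_eq_one_left hbl
  have hβ1 : 1 < β := by
    rw [hβ]; exact (one_lt_inv₀ hl0).2 (by linarith)
  rw [zpow_natCast, zpow_natCast]
  obtain ⟨k, rfl⟩ : ∃ k, n = m + 1 + k := ⟨n - (m + 1), by omega⟩
  have h53 : 5 / 3 ≤ β := by
    rw [hβ, le_inv_comm₀ (by norm_num) hl0]
    linarith
  have hpi := Real.pi_gt_three
  have h1 : β ^ (m + 1 + k) - β ^ m ≥ 2 / 5 * β ^ (m + 1 + k) := by
    have h2 : β ^ m * β ≤ β ^ (m + 1 + k) := by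
      rw [← pow_succ]
      exact pow_le_pow_right₀ hβ1.le (by omega)
    have h3 : 0 < β ^ m := by positivity
    nlinarith
  have h4 : 1 ≤ β ^ (m + 1 + k) * (4 / 5 : ℝ) ^ (m + 1 + k + m) := by
    have h5 : (1 : ℝ) ≤ (β * (16 / 25)) ^ (m + 1 + k) := one_le_pow₀ (by nlinarith)
    have h6 : (16 / 25 : ℝ) ^ (m + 1 + k) ≤ (4 / 5 : ℝ) ^ (m + 1 + k + m) := by
      have : (16 / 25 : ℝ) = (4 / 5) ^ 2 := by norm_num
      rw [this, ← pow_mul]
      exact pow_le_pow_of_le_one (by norm_num) (by norm_num) (by omega)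
    calc (1 : ℝ) ≤ (β * (16 / 25)) ^ (m + 1 + k) := h5
      _ = β ^ (m + 1 + k) * (16 / 25 : ℝ) ^ (m + 1 + k) := mul_pow _ _ _
      _ ≤ _ := mul_le_mul_of_nonneg_left h6 (by positivity)
  have h7 : 0 < β ^ (m + 1 + k) := by positivity
  have h8 : 0 < (4 / 5 : ℝ) ^ (m + 1 + k + m) := by positivity
  have h9 : Real.pi * k1 * β ^ (m + 1 + k) - Real.pi * k1 * β ^ m ≥
      1 * β ^ (m + 1 + k) := by
    have h10 : Real.pi * k1 * β ^ (m + 1 + k) - Real.pi * k1 * β ^ m =
        (Real.pi * k1) * (β ^ (m + 1 + k) - β ^ m) := by ring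
    rw [h10]
    have h11 : 3 ≤ Real.pi * k1 := by nlinarith
    have h12 : 0 ≤ β ^ (m + 1 + k) - β ^ m := by nlinarith
    nlinarith
  calc (1 : ℝ) ≤ β ^ (m + 1 + k) * (4 / 5 : ℝ) ^ (m + 1 + k + m) := h4
    _ ≤ _ := mul_le_mul_of_nonneg_right (by linarith) h8.le

theorem int_cos_bound (x R b : ℝ) (hR : 0 ≤ R) (hb : 0 < b) (hx : 1 ≤ |x| * b) :
    |∫ y in (-R)..R, Real.cos (x * y)| ≤ 2 * b := by
  have hx0 : x ≠ 0 := by
    rintro rfl
    simp at hx
    linarith
  have h1 : ∫ y in (-R)..R, Real.cos (x * y) = x⁻¹ * (Real.sin (x * R) - Real.sin (x * (-R))) := by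
    rw [intervalIntegral.integral_comp_mul_left (fun y => Real.cos y) hx0, integral_cos, smul_eq_mul]
  rw [h1, abs_mul, abs_inv]
  have h2 : |Real.sin (x * R) - Real.sin (x * (-R))| ≤ 2 := by
    calc _ ≤ |Real.sin (x * R)| + |Real.sin (x * (-R))| := abs_sub _ _
      _ ≤ 2 := by linarith [Real.abs_sin_le_one (x * R), Real.abs_sin_le_one (x * (-R))]
  have h3 : |x|⁻¹ ≤ b := by
    rw [inv_le_iff_one_le_mul₀ (abs_pos.2 hx0)]
    linarith
  calc |x|⁻¹ * |Real.sin (x * R) - Real.sin (x * (-R))| ≤ b * 2 :=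
        mul_le_mul h3 h2 (abs_nonneg _) hb.le
    _ = 2 * b := by ring

/-- the sum of squares identity -/
theorem sq_identity (I : Finset ℕ) (a t : ℕ → ℝ) (y : ℝ) :
    ∑ n ∈ I, ∑ m ∈ I, a n * a m * Real.cos ((t n - t m) * y) =
      (∑ n ∈ I, a n * Real.cos (t n * y)) ^ 2 + (∑ n ∈ I, a n * Real.sin (t n * y)) ^ 2 := by
  rw [pow_two, pow_two, Finset.sum_mul_sum, Finset.sum_mul_sum, ← Finset.sum_add_distrib]
  refine Finset.sum_congr rfl fun n _ => ?_
  rw [← Finset.sum_add_distrib]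
  refine Finset.sum_congr rfl fun m _ => ?_
  rw [sub_mul, Real.cos_sub]
  ring

/-- the real characteristic function -/
noncomputable def ph (ν : Measure ℝ) (x : ℝ) : ℝ := ∫ y, Real.cos (x * y) ∂ν

theorem cos_int (ν : Measure ℝ) [IsFiniteMeasure ν] (x : ℝ) :
    Integrable (fun y : ℝ => Real.cos (x * y)) ν := by
  refine Integrable.mono' (integrable_const (1 : ℝ)) ?_ ?_
  · exact (Real.continuous_cos.comp (continuous_const.mul continuous_id)).aestronglyMeasurable
  · exact Filter.Eventually.of_forall fun y => by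
      rw [Real.norm_eq_abs]; exact Real.abs_cos_le_one _

theorem ph_lim {l : ℝ} (ν : Measure ℝ) [IsProbabilityMeasure ν]
    (hν : ∀ x : ℝ, Tendsto (fun M : ℕ => ((Phi l M x : ℝ) : ℂ)) atTop
      (𝓝 (∫ y, Complex.exp (((x * y : ℝ) : ℂ) * Complex.I) ∂ν))) (x : ℝ) :
    Tendsto (fun M : ℕ => Phi l M x) atTop (𝓝 (ph ν x)) := by
  have h1 := (Complex.continuous_re.tendsto _).comp (hν x)
  have h2 : (∫ y, Complex.exp (((x * y : ℝ) : ℂ) * Complex.I) ∂ν).re = ph ν x := by
    have hint : Integrable (fun y : ℝ => Complex.exp (((x * y : ℝ) : ℂ) * Complex.I)) ν := by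
      refine Integrable.mono' (integrable_const (1 : ℝ)) ?_ ?_
      · exact (by fun_prop : Continuous fun y : ℝ =>
          Complex.exp (((x * y : ℝ) : ℂ) * Complex.I)).aestronglyMeasurable
      · exact Filter.Eventually.of_forall fun y => by
          rw [Complex.norm_exp_ofReal_mul_I]
    have h3 := integral_re hint
    unfold ph
    rw [show (∫ y, Complex.exp (((x * y : ℝ) : ℂ) * Complex.I) ∂ν).re =
      RCLike.re (∫ y, Complex.exp (((x * y : ℝ) : ℂ) * Complex.I) ∂ν) from rfl, ← h3]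
    refine integral_congr_ae (Filter.Eventually.of_forall fun y => ?_)
    show (Complex.exp (((x * y : ℝ) : ℂ) * Complex.I)).re = _
    rw [Complex.exp_ofReal_mul_I_re]
  rw [h2] at h1
  exact h1

theorem ph_abs (ν : Measure ℝ) [IsProbabilityMeasure ν] (x : ℝ) : |ph ν x| ≤ 1 := by
  have h1 := norm_integral_le_of_norm_le_const (μ := ν) (f := fun y : ℝ => Real.cos (x * y))
    (C := 1) (Filter.Eventually.of_forall fun y => by
      rw [Real.norm_eq_abs]; exact Real.abs_cos_le_one _)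
  simpa [ph] using h1

theorem ph_symm (ν : Measure ℝ) (x y : ℝ) : ph ν (x - y) = ph ν (y - x) := by
  unfold ph
  refine integral_congr_ae (Filter.Eventually.of_forall fun z => ?_)
  show Real.cos ((x - y) * z) = Real.cos ((y - x) * z)
  rw [← Real.cos_neg]
  congr 1
  ring

theorem exists_set {β l : ℝ} {ζ : ℂ} (H : S4 β l ζ) {P : ℤ[X]} {h N : ℕ} {K : ℝ}
    (hK : 100000 ≤ K) (D : Res β l ζ P h N K) (ν : Measure ℝ) [IsProbabilityMeasure ν]
    (hφ : ∀ x : ℝ, Tendsto (fun M : ℕ => Phi l M x) atTop (𝓝 (ph ν x)))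
    (r : ℝ) (hr : 0 ≤ r) (hνr : ν.real (Set.Icc (-r) r)ᶜ ≤ 1 / 10) :
    ∃ E : Set ℝ, MeasurableSet E ∧ 1 / 2 ≤ ν.real E ∧
      volume E ≤ ENNReal.ofReal (4 * (2 * r + 50) / K) := by
  classical
  set I : Finset ℕ := Finset.Icc h N with hI
  set t : ℕ → ℝ := fun n => tP β P n with ht
  set a : ℕ → ℝ := fun n => ph ν (t n) with ha
  set A : ℝ := ∑ n ∈ I, a n ^ 2 with hA
  have h10 : (10 : ℝ) ≤ h := by exact_mod_cast D.ten
  have hAK : K * h ≤ A := by
    refine ge_of_tendsto' (tendsto_finsetSum I fun n _ => (hφ (t n)).pow 2) fun M => ?_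
    exact D.m3 M
  have hAK2 : K ≤ A := by nlinarith
  have hA0 : 0 < A := by linarith
  have hfar : ∀ n ∈ I, ∀ m ∈ I, m + 4 * h ≤ n →
      |ph ν (t n - t m) - a n * a m| ≤ 4 / 1000 * |a n * a m| := by
    intro n hn m hm hnm
    rw [hI, Finset.mem_Icc] at hn hm
    refine le_of_tendsto_of_tendsto'
      (((hφ (t n - t m)).sub ((hφ (t n)).mul (hφ (t m)))).abs)
      ((((hφ (t n)).mul (hφ (t m))).abs).const_mul (4 / 1000)) fun M => ?_
    exact D.m4 M n m hm.1 hn.2 hnm
  have hQ := quad_bound I h (by have := D.ten; omega) a (fun n m => ph ν (t n - t m))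
    (fun n => ph_abs ν _) (fun n m => ph_abs ν _) (fun n m => ph_symm ν _ _) hfar
  set G : ℝ → ℝ := fun y => ∑ n ∈ I, ∑ m ∈ I, a n * a m * Real.cos ((t n - t m) * y) with hG
  set c1 : ℝ → ℝ := fun y => ∑ n ∈ I, a n * Real.cos (t n * y) with hc1
  set s1 : ℝ → ℝ := fun y => ∑ n ∈ I, a n * Real.sin (t n * y) with hs1
  have hGsq : ∀ y, G y = c1 y ^ 2 + s1 y ^ 2 := fun y => sq_identity I a t y
  have hGcont : Continuous G := by
    rw [hG]; fun_prop
  have hc1cont : Continuous c1 := by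
    rw [hc1]; fun_prop
  have hGint : Integrable G ν := by
    rw [hG]
    refine integrable_finsetSum _ fun n _ => integrable_finsetSum _ fun m _ => ?_
    exact (cos_int ν _).const_mul _
  have hGI : ∫ y, G y ∂ν = ∑ n ∈ I, ∑ m ∈ I, a n * a m * ph ν (t n - t m) := by
    rw [hG, integral_finsetSum]
    · refine Finset.sum_congr rfl fun n _ => ?_
      rw [integral_finsetSum]
      · refine Finset.sum_congr rfl fun m _ => ?_
        rw [integral_const_mul]
        rfl
      · exact fun m _ => (cos_int ν _).const_mul _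
    · exact fun n _ => integrable_finsetSum _ fun m _ => (cos_int ν _).const_mul _
  have hc1int : Integrable c1 ν := by
    rw [hc1]
    exact integrable_finsetSum _ fun n _ => (cos_int ν _).const_mul _
  have hc1I : ∫ y, c1 y ∂ν = A := by
    rw [hc1, integral_finsetSum, hA]
    · refine Finset.sum_congr rfl fun n _ => ?_
      rw [integral_const_mul, pow_two]
      rfl
    · exact fun n _ => (cos_int ν _).const_mul _
  set F : ℝ → ℝ := fun y => G y / A ^ 2 - 2 * c1 y / A + 1 with hF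
  have hFeq : ∀ y, F y = (c1 y / A - 1) ^ 2 + (s1 y / A) ^ 2 := by
    intro y
    rw [hF]
    simp only
    rw [hGsq]
    field_simp
    ring
  have hF0 : ∀ y, 0 ≤ F y := by
    intro y
    rw [hFeq]
    positivity
  have hFint : Integrable F ν := by
    rw [hF]
    refine ((hGint.div_const _).sub ?_).add (integrable_const _)
    exact (hc1int.const_mul 2).div_const _
  have hFI : ∫ y, F y ∂ν ≤ 5 / 1000 := by
    have e1 : ∫ y, F y ∂ν = (∫ y, G y ∂ν) / A ^ 2 - 2 * (∫ y, c1 y ∂ν) / A + 1 := by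
      rw [hF, integral_add, integral_sub, integral_div, integral_div, integral_const_mul]
      · simp
      · exact hGint.div_const _
      · exact (hc1int.const_mul 2).div_const _
      · exact (hGint.div_const _).sub ((hc1int.const_mul 2).div_const _)
      · exact integrable_const _
    have e2 : ∑ n ∈ I, ∑ m ∈ I, a n * a m * (ph ν (t n - t m) - a n * a m) =
        (∫ y, G y ∂ν) - A ^ 2 := by
      rw [hGI, hA, pow_two (∑ n ∈ I, a n ^ 2), Finset.sum_mul_sum, ← Finset.sum_sub_distrib]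
      refine Finset.sum_congr rfl fun n _ => ?_
      rw [← Finset.sum_sub_distrib]
      refine Finset.sum_congr rfl fun m _ => ?_
      ring
    rw [e2] at hQ
    rw [e1, hc1I]
    have e3 : (∫ y, G y ∂ν) / A ^ 2 - 2 * A / A + 1 = ((∫ y, G y ∂ν) - A ^ 2) / A ^ 2 := by
      field_simp
      ring
    rw [e3, div_le_iff₀ (by positivity)]
    nlinarith
  -- Markov for `F`
  have hM : ν.real {y | 1 / 4 ≤ F y} ≤ 2 / 100 := by
    have h1 := mul_meas_ge_le_integral_of_nonneg (μ := ν)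
      (Filter.Eventually.of_forall hF0) hFint (1 / 4)
    linarith
  set E : Set ℝ := Set.Icc (-r) r ∩ {y | A ^ 2 / 4 ≤ G y} with hE
  have hEm : MeasurableSet E :=
    measurableSet_Icc.inter (measurableSet_le measurable_const hGcont.measurable)
  refine ⟨E, hEm, ?_, ?_⟩
  · have hsub : Eᶜ ⊆ (Set.Icc (-r) r)ᶜ ∪ {y | 1 / 4 ≤ F y} := by
      intro y hy
      by_cases hy1 : y ∈ Set.Icc (-r) r
      · right
        have hy2 : ¬ A ^ 2 / 4 ≤ G y := fun hc => hy ⟨hy1, hc⟩
        push Not at hy2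
        show 1 / 4 ≤ F y
        rw [hFeq]
        rw [hGsq] at hy2
        have h1 : c1 y / A ≤ 1 / 2 := by
          rw [div_le_iff₀ hA0]
          by_contra hcon
          push Not at hcon
          nlinarith [sq_nonneg (s1 y)]
        have h2 : 0 ≤ (s1 y / A) ^ 2 := sq_nonneg _
        nlinarith
      · left; exact hy1
    have h1 : ν.real Eᶜ ≤ 1 / 10 + 2 / 100 :=
      calc ν.real Eᶜ ≤ ν.real ((Set.Icc (-r) r)ᶜ ∪ {y | 1 / 4 ≤ F y}) := measureReal_mono hsub
        _ ≤ ν.real (Set.Icc (-r) r)ᶜ + ν.real {y | 1 / 4 ≤ F y} := measureReal_union_le _ _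
        _ ≤ _ := by linarith
    rw [probReal_compl_eq_one_sub hEm] at h1
    linarith
  · -- Lebesgue measure of `E`
    have hG0 : ∀ y, 0 ≤ G y := fun y => by rw [hGsq]; positivity
    have hGi : IntegrableOn G (Set.Icc (-r) r) volume :=
      hGcont.continuousOn.integrableOn_compact isCompact_Icc
    have h1 := mul_meas_ge_le_integral_of_nonneg (μ := volume.restrict (Set.Icc (-r) r))
      (Filter.Eventually.of_forall hG0) hGi (A ^ 2 / 4)
    have h2 : (volume.restrict (Set.Icc (-r) r)).real {y | A ^ 2 / 4 ≤ G y} = volume.real E := by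
      rw [measureReal_restrict_apply (measurableSet_le measurable_const hGcont.measurable),
        Set.inter_comm]
    rw [h2] at h1
    have h3 : ∫ y in Set.Icc (-r) r, G y = ∫ y in (-r)..r, G y := by
      rw [intervalIntegral.integral_of_le (by linarith), integral_Icc_eq_integral_Ioc]
    have h4 : ∫ y in (-r)..r, G y = ∑ n ∈ I, ∑ m ∈ I,
        a n * a m * ∫ y in (-r)..r, Real.cos ((t n - t m) * y) := by
      rw [hG, intervalIntegral.integral_finsetSum]
      · refine Finset.sum_congr rfl fun n _ => ?_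
        rw [intervalIntegral.integral_finsetSum]
        · refine Finset.sum_congr rfl fun m _ => ?_
          rw [intervalIntegral.integral_const_mul]
        · intro m _
          exact (by fun_prop : Continuous fun y : ℝ =>
            a n * a m * Real.cos ((t n - t m) * y)).intervalIntegrable _ _
      · intro n _
        exact (by fun_prop : Continuous fun y : ℝ =>
          ∑ m ∈ I, a n * a m * Real.cos ((t n - t m) * y)).intervalIntegrable _ _
    have h5 : ∀ n ∈ I, ∀ m ∈ I, a n * a m * ∫ y in (-r)..r, Real.cos ((t n - t m) * y) ≤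
        (if n = m then a n ^ 2 * (2 * r) else 0) + 2 * (4 / 5 : ℝ) ^ (n + m) := by
      intro n _ m _
      by_cases hnm : n = m
      · subst hnm
        rw [if_pos rfl]
        have e1 : ∫ y in (-r)..r, Real.cos ((t n - t n) * y) = 2 * r := by
          simp
          ring
        rw [e1]
        have : 0 ≤ 2 * (4 / 5 : ℝ) ^ (n + n) := by positivity
        nlinarith
      · rw [if_neg hnm, zero_add]
        have hsep : 1 ≤ |t n - t m| * (4 / 5 : ℝ) ^ (n + m) := by
          rcases lt_or_gt_of_ne hnm with hlt | hgt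
          · have h6 := sep_bound H.l_half H.l_le H.bl D.k_one hlt
            rw [abs_sub_comm, add_comm n m]
            refine h6.trans (mul_le_mul_of_nonneg_right ?_ (by positivity))
            exact le_abs_self _
          · have h6 := sep_bound H.l_half H.l_le H.bl D.k_one hgt
            refine h6.trans (mul_le_mul_of_nonneg_right ?_ (by positivity))
            exact le_abs_self _
        have h7 := int_cos_bound (t n - t m) r _ hr (by positivity) hsep
        have h8 : |a n * a m| ≤ 1 := by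
          rw [abs_mul]
          exact mul_le_one₀ (ph_abs ν _) (abs_nonneg _) (ph_abs ν _)
        calc a n * a m * ∫ y in (-r)..r, Real.cos ((t n - t m) * y)
            ≤ |a n * a m * ∫ y in (-r)..r, Real.cos ((t n - t m) * y)| := le_abs_self _
          _ = |a n * a m| * |∫ y in (-r)..r, Real.cos ((t n - t m) * y)| := abs_mul _ _
          _ ≤ 1 * (2 * (4 / 5 : ℝ) ^ (n + m)) :=
            mul_le_mul h8 h7 (abs_nonneg _) (by norm_num)
          _ = _ := one_mul _
    have h6 : ∫ y in (-r)..r, G y ≤ A * (2 * r) + 50 := by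
      rw [h4]
      calc ∑ n ∈ I, ∑ m ∈ I, a n * a m * ∫ y in (-r)..r, Real.cos ((t n - t m) * y)
          ≤ ∑ n ∈ I, ∑ m ∈ I, ((if n = m then a n ^ 2 * (2 * r) else 0) +
            2 * (4 / 5 : ℝ) ^ (n + m)) :=
            Finset.sum_le_sum fun n hn => Finset.sum_le_sum fun m hm => h5 n hn m hm
        _ = (∑ n ∈ I, a n ^ 2 * (2 * r)) + 2 * ∑ n ∈ I, ∑ m ∈ I, (4 / 5 : ℝ) ^ (n + m) := by
            rw [Finset.mul_sum, ← Finset.sum_add_distrib]
            refine Finset.sum_congr rfl fun n hn => ?_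
            rw [Finset.sum_add_distrib, Finset.mul_sum, Finset.sum_ite_eq, if_pos hn]
        _ ≤ A * (2 * r) + 50 := by
            rw [← Finset.sum_mul]
            have := geom_double I
            linarith
    rw [h3] at h1
    have h7 : volume.real E ≤ 4 * (2 * r + 50) / K := by
      have hK0 : 0 < K := by linarith
      have h8 : A ^ 2 / 4 * volume.real E ≤ (2 * r + 50) * A := by nlinarith
      have h9 : A * volume.real E ≤ 4 * (2 * r + 50) := by
        by_contra hcon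
        push Not at hcon
        nlinarith
      rw [le_div_iff₀ hK0]
      have h10' : 0 ≤ volume.real E := measureReal_nonneg
      nlinarith
    have hEfin : volume E ≠ ⊤ := by
      refine ne_top_of_le_ne_top ?_ (measure_mono (Set.inter_subset_left))
      rw [Real.volume_Icc]
      exact ENNReal.ofReal_ne_top
    rw [← ofReal_measureReal hEfin]
    exact ENNReal.ofReal_le_ofReal h7

end NotAC

open NotAC in
/-- TARGET -/

theorem not_ac_of_res {β l : ℝ} {ζ : ℂ} (H : S4 β l ζ)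
    (MRT : ∀ K : ℝ, ∃ (P : ℤ[X]) (h N : ℕ), Res β l ζ P h N K)
    (ν : Measure ℝ) [IsProbabilityMeasure ν]
    (hν : ∀ x : ℝ, Tendsto (fun M : ℕ => ((Phi l M x : ℝ) : ℂ)) atTop
      (𝓝 (∫ y, Complex.exp (((x * y : ℝ) : ℂ) * Complex.I) ∂ν))) :
    ¬ ν ≪ (volume : Measure ℝ) := by
  classical
  intro hac
  have hφ := ph_lim ν hν
  -- the radius
  obtain ⟨Kc, -, hKc, hKν⟩ := MeasurableSet.exists_isCompact_sdiff_lt (μ := ν) MeasurableSet.univ
    (measure_ne_top ν _) (ε := ENNReal.ofReal (1 / 10)) (by simp)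
  obtain ⟨r0, hr0⟩ := hKc.isBounded.subset_closedBall 0
  set r : ℝ := max r0 0 with hrdef
  have hr : 0 ≤ r := le_max_right _ _
  have hsub : Kc ⊆ Set.Icc (-r) r := by
    intro y hy
    have h1 := hr0 hy
    rw [Metric.mem_closedBall, dist_zero_right, Real.norm_eq_abs] at h1
    have h2 := abs_le.1 (h1.trans (le_max_left r0 0))
    exact h2
  have hνr : ν.real (Set.Icc (-r) r)ᶜ ≤ 1 / 10 := by
    have h1 : ν (Set.Icc (-r) r)ᶜ ≤ ENNReal.ofReal (1 / 10) := by
      refine (measure_mono ?_).trans hKν.le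
      intro y hy
      exact ⟨trivial, fun hc => hy (hsub hc)⟩
    exact ENNReal.toReal_le_of_le_ofReal (by norm_num) h1
  have hE : ∀ j : ℕ, ∃ E : Set ℝ, MeasurableSet E ∧ 1 / 2 ≤ ν.real E ∧
      volume E ≤ ENNReal.ofReal (4 * (2 * r + 50) / 100000 * (1 / 2) ^ j) := by
    intro j
    obtain ⟨P, h, N, D⟩ := MRT (100000 * 2 ^ j)
    have hK : (100000 : ℝ) ≤ 100000 * 2 ^ j := by
      have : (1 : ℝ) ≤ 2 ^ j := one_le_pow₀ (by norm_num)
      linarith
    obtain ⟨E, h1, h2, h3⟩ := exists_set H hK D ν hφ r hr hνr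
    refine ⟨E, h1, h2, h3.trans (ENNReal.ofReal_le_ofReal (le_of_eq ?_))⟩
    rw [one_div, inv_pow]
    field_simp
  choose E hEm hEν hEv using hE
  have hC : 0 ≤ 4 * (2 * r + 50) / 100000 := by positivity
  have hsum : ∑' j, volume (E j) ≠ ⊤ := by
    refine ne_top_of_le_ne_top ?_ (ENNReal.tsum_le_tsum hEv)
    have hs : Summable fun j : ℕ => 4 * (2 * r + 50) / 100000 * (1 / 2 : ℝ) ^ j :=
      (summable_geometric_of_lt_one (by norm_num) (by norm_num)).mul_left _
    exact hs.tsum_ofReal_ne_top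
  have hlim := measure_limsup_atTop_eq_zero hsum
  have hνlim := hac hlim
  rw [Filter.limsup_eq_iInf_iSup_of_nat] at hνlim
  have hanti : Antitone fun n : ℕ => ⋃ i ≥ n, E i := by
    intro n m hnm
    exact Set.biUnion_subset_biUnion_left fun i hi => le_trans hnm hi
  have htend := tendsto_measure_iInter_atTop (μ := ν) (s := fun n : ℕ => ⋃ i ≥ n, E i)
    (fun n => (MeasurableSet.biUnion (Set.to_countable _) fun i _ => hEm i).nullMeasurableSet)
    hanti ⟨0, measure_ne_top _ _⟩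
  have hge : ENNReal.ofReal (1 / 2) ≤ ν (⋂ n, ⋃ i ≥ n, E i) := by
    refine ge_of_tendsto' htend fun n => ?_
    have h1 : E n ⊆ ⋃ i ≥ n, E i := Set.subset_biUnion_of_mem (u := E) (show n ≥ n from le_refl n)
    refine le_trans ?_ (measure_mono h1)
    rw [← ofReal_measureReal (measure_ne_top ν _)]
    exact ENNReal.ofReal_le_ofReal (hEν n)
  have hzero : ν (⋂ n, ⋃ i ≥ n, E i) = 0 := by
    simpa only [Set.iSup_eq_iUnion, Set.iInf_eq_iInter] using hνlim
  rw [hzero] at hge
  simp at hge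

end Pool.Agent.H938
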