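import Pool.Agent.H938_Salem4.R1a

set_option autoImplicit false

namespace Pool.Agent.H938

open MeasureTheory Filter Topology Set

/-- one step of the self-similarity -/
noncomputable def TT (t : ℝ) (μ : Measure ℝ) : Measure ℝ :=
  (2⁻¹ : ENNReal) • μ.map (fun y => t * y + 1) + (2⁻¹ : ENNReal) • μ.map (fun y => t * y + (-1))

theorem charFun_smul_m (c : ENNReal) (μ : Measure ℝ) (x : ℝ) :
    charFun (c • μ) x = (c.toReal : ℂ) * charFun μ x := by
  rw [charFun_apply, charFun_apply, integral_smul_measure, Complex.real_smul]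

theorem charFun_add_m (μ ν : Measure ℝ) [IsFiniteMeasure μ] [IsFiniteMeasure ν] (x : ℝ) :
    charFun (μ + ν) x = charFun μ x + charFun ν x := by
  rw [charFun_apply, charFun_apply, charFun_apply, integral_add_measure]
  · exact Integrable.of_bound (by fun_prop) 1 (ae_of_all _ fun y => by simp [Complex.norm_exp])
  · exact Integrable.of_bound (by fun_prop) 1 (ae_of_all _ fun y => by simp [Complex.norm_exp])

theorem charFun_aff (t c : ℝ) (μ : Measure ℝ) (x : ℝ) :
    charFun (μ.map (fun y => t * y + c)) x = charFun μ (t * x) * Complex.exp ((c * x : ℝ) * Complex.I) := by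
  have h : μ.map (fun y => t * y + c) = (μ.map (fun y => t * y)).map (fun y => y + c) := by
    rw [Measure.map_map (by fun_prop) (by fun_prop)]
    rfl
  rw [h, charFun_map_add_const, charFun_map_mul]
  congr 2
  simp [mul_comm]

theorem charFun_TT (t : ℝ) (μ : Measure ℝ) [IsFiniteMeasure μ] (x : ℝ) :
    charFun (TT t μ) x = Real.cos x * charFun μ (t * x) := by
  have i1 : IsFiniteMeasure ((2⁻¹ : ENNReal) • μ.map (fun y => t * y + 1)) :=
    Measure.smul_finite _ (by simp)
  have i2 : IsFiniteMeasure ((2⁻¹ : ENNReal) • μ.map (fun y => t * y + (-1))) :=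
    Measure.smul_finite _ (by simp)
  unfold TT
  rw [charFun_add_m, charFun_smul_m, charFun_smul_m, charFun_aff, charFun_aff,
    Complex.ofReal_cos, Complex.cos]
  simp
  ring

theorem TT_finite (t : ℝ) (μ : Measure ℝ) [IsFiniteMeasure μ] : IsFiniteMeasure (TT t μ) := by
  have i1 : IsFiniteMeasure ((2⁻¹ : ENNReal) • μ.map (fun y => t * y + 1)) :=
    Measure.smul_finite _ (by simp)
  have i2 : IsFiniteMeasure ((2⁻¹ : ENNReal) • μ.map (fun y => t * y + (-1))) :=
    Measure.smul_finite _ (by simp)
  unfold TT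
  infer_instance

theorem Phi_succ (t : ℝ) (M : ℕ) (x : ℝ) : Phi t (M + 1) x = Real.cos x * Phi t M (t * x) := by
  unfold Phi
  rw [Finset.prod_range_succ']
  rw [mul_comm]
  congr 1
  · simp
  · refine Finset.prod_congr rfl fun k _ => ?_
    congr 1
    ring

theorem nuB_charFun {t : ℝ} (h0 : 0 < t) (h1 : t < 1) (x : ℝ) :
    Tendsto (fun M : ℕ => ((Phi t M x : ℝ) : ℂ)) atTop (𝓝 (charFun (nuB t) x)) := by
  have := (nuB_char h0 h1).2 x
  rw [charFun_apply_real]
  convert this using 3
  congr 1 with y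
  push_cast
  rfl

theorem TT_nuB {t : ℝ} (h0 : 0 < t) (h1 : t < 1) : TT t (nuB t) = nuB t := by
  have := (nuB_char h0 h1).1
  have := TT_finite t (nuB t)
  apply Measure.ext_of_charFun
  ext x
  rw [charFun_TT]
  refine tendsto_nhds_unique ?_ ((tendsto_add_atTop_iff_nat 1).2 (nuB_charFun h0 h1 x))
  simp_rw [Phi_succ]
  push_cast
  exact (nuB_charFun h0 h1 (t * x)).const_mul _

theorem fix_eq {t : ℝ} (h0 : 0 < t) (h1 : t < 1) (μ : Measure ℝ) [IsFiniteMeasure μ]
    (h : TT t μ = μ) : μ = (μ univ) • nuB t := by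
  have := (nuB_char h0 h1).1
  have i1 : IsFiniteMeasure ((μ univ) • nuB t) := Measure.smul_finite _ (measure_ne_top _ _)
  apply Measure.ext_of_charFun
  ext x
  rw [charFun_smul_m]
  have hM : ∀ (M : ℕ) (x : ℝ), charFun μ x = (Phi t M x : ℝ) * charFun μ (t ^ M * x) := by
    intro M
    induction M with
    | zero => intro x; simp [Phi]
    | succ M ih =>
      intro x
      have h2 := charFun_TT t μ x
      rw [h, ih (t * x)] at h2
      rw [h2, Phi_succ, show t ^ (M + 1) * x = t ^ M * (t * x) by ring]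
      push_cast
      ring
  have hc : Tendsto (fun M : ℕ => charFun μ (t ^ M * x)) atTop (𝓝 (charFun μ 0)) := by
    have hcont : Continuous (charFun μ) := continuous_charFun
    have h3 : Tendsto (fun M : ℕ => t ^ M * x) atTop (𝓝 0) := by
      have := (tendsto_pow_atTop_nhds_zero_of_lt_one h0.le h1).mul_const x
      simpa using this
    exact (hcont.tendsto 0).comp h3
  have h4 : Tendsto (fun M : ℕ => charFun μ x) atTop (𝓝 (charFun (nuB t) x * charFun μ 0)) :=
    ((nuB_charFun h0 h1 x).mul hc).congr fun M => (hM M x).symm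
  have h5 := tendsto_nhds_unique tendsto_const_nhds h4
  rw [h5, charFun_zero, mul_comm]
  rfl

theorem emb {t : ℝ} (h0 : 0 < t) (c : ℝ) : MeasurableEmbedding (fun y : ℝ => t * y + c) := by
  have h : (fun y : ℝ => t * y + c) = (fun y => y + c) ∘ (fun y => t * y) := rfl
  rw [h]
  exact (measurableEmbedding_addRight c).comp (measurableEmbedding_mulLeft₀ h0.ne')

theorem map_vol_ac {t : ℝ} (h0 : 0 < t) (c : ℝ) :
    (volume : Measure ℝ).map (fun y => t * y + c) = ENNReal.ofReal |t⁻¹| • volume := by
  have h : (fun y : ℝ => t * y + c) = (fun y => y + c) ∘ (fun y => t * y) := rfl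
  rw [h, ← Measure.map_map (by fun_prop) (by fun_prop), Real.map_volume_mul_left h0.ne',
    Measure.map_smul]
  congr 1
  exact (measurePreserving_add_right volume c).map_eq

theorem TT_sing {t : ℝ} (h0 : 0 < t) (μ : Measure ℝ) (h : μ ⟂ₘ volume) : TT t μ ⟂ₘ volume := by
  have key : ∀ c : ℝ, μ.map (fun y => t * y + c) ⟂ₘ volume := by
    intro c
    have h2 := (emb h0 c).mutuallySingular_map h
    rw [map_vol_ac h0 c] at h2
    refine h2.mono_ac Measure.AbsolutelyContinuous.rfl ?_
    refine Measure.AbsolutelyContinuous.mk fun s _ hs => ?_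
    simp only [Measure.smul_apply, smul_eq_mul, mul_eq_zero] at hs
    rcases hs with hs | hs
    · exfalso
      rw [ENNReal.ofReal_eq_zero] at hs
      have : 0 < |t⁻¹| := abs_pos.2 (inv_ne_zero h0.ne')
      linarith
    · exact hs
  exact ((key 1).smul _).add_left ((key (-1)).smul _)

theorem TT_ac {t : ℝ} (h0 : 0 < t) (μ : Measure ℝ) (h : μ ≪ volume) : TT t μ ≪ volume := by
  have key : ∀ c : ℝ, μ.map (fun y => t * y + c) ≪ volume := by
    intro c
    have h2 := h.map (f := fun y : ℝ => t * y + c) (by fun_prop)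
    rw [map_vol_ac h0 c] at h2
    exact h2.trans Measure.smul_absolutelyContinuous
  unfold TT
  refine Measure.AbsolutelyContinuous.mk fun s _ hs => ?_
  simp [key 1 hs, key (-1) hs]

theorem TT_add (t : ℝ) (μ ν : Measure ℝ) : TT t (μ + ν) = TT t μ + TT t ν := by
  unfold TT
  rw [Measure.map_add _ _ (by fun_prop), Measure.map_add _ _ (by fun_prop), smul_add, smul_add]
  abel

/-- TARGET -/
theorem pure_type {t : ℝ} (h0 : 0 < t) (h1 : t < 1) :
    nuB t ≪ (volume : Measure ℝ) ∨ nuB t ⟂ₘ (volume : Measure ℝ) := by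
  have hp := (nuB_char h0 h1).1
  set ν := nuB t with hν
  have hdec := ν.haveLebesgueDecomposition_add (volume : Measure ℝ)
  set νs := ν.singularPart volume with hs
  set νa := (volume : Measure ℝ).withDensity (ν.rnDeriv volume) with ha
  have hsing : νs ⟂ₘ volume := Measure.mutuallySingular_singularPart _ _
  have hac : νa ≪ volume := withDensity_absolutelyContinuous _ _
  have fa : IsFiniteMeasure νa := by
    refine ⟨lt_of_le_of_lt ?_ (measure_lt_top ν univ)⟩
    conv_rhs => rw [hdec]
    simp
  have f1 := TT_finite t νa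
  have hT : ν = TT t νs + TT t νa := by
    rw [← TT_add, ← hdec]
    exact (TT_nuB h0 h1).symm
  have hTa : (volume : Measure ℝ).withDensity ((TT t νa).rnDeriv volume) = TT t νa :=
    Measure.withDensity_rnDeriv_eq _ _ (TT_ac h0 νa hac)
  have hfix : TT t νs = νs := by
    refine Measure.eq_singularPart (Measure.measurable_rnDeriv (TT t νa) volume)
      (TT_sing h0 νs hsing) ?_
    rw [hTa]
    exact hT
  have h2 := fix_eq h0 h1 νs hfix
  by_cases hc : νs univ = 0
  · left
    rw [Measure.measure_univ_eq_zero] at hc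
    rw [hdec, hc, zero_add]
    exact hac
  · right
    have h3 : ν = (νs univ)⁻¹ • νs := by
      have h4 : (νs univ)⁻¹ • νs = (νs univ)⁻¹ • ((νs univ) • nuB t) := congrArg _ h2
      rw [h4, smul_smul, ENNReal.inv_mul_cancel hc (measure_ne_top _ _), one_smul]
    rw [h3]
    exact hsing.smul _

end Pool.Agent.H938
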