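import Pool.Agent.H938_Salem4.R1a

set_option autoImplicit false

namespace Pool.Agent.H938

open MeasureTheory Filter Topology Set

theorem charFun_nuB (l x : ℝ) : charFun (nuB l) x =
    ∫ y, Complex.exp (((x * y : ℝ) : ℂ) * Complex.I) ∂(nuB l) := by
  rw [charFun_apply_real]
  refine integral_congr_ae (Filter.Eventually.of_forall fun y => ?_)
  simp

theorem Phi_mul (t : ℝ) (k : ℕ) (x : ℝ) (M : ℕ) :
    Phi t (k * M) x = ∏ r ∈ Finset.range k, Phi (t ^ k) M (t ^ r * x) := by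
  unfold Phi
  induction M with
  | zero => simp
  | succ M ih =>
    rw [Nat.mul_succ, Finset.prod_range_add, ih, ← Finset.prod_mul_distrib]
    refine Finset.prod_congr rfl fun r _ => ?_
    rw [Finset.prod_range_succ]
    congr 2
    rw [pow_add, ← pow_mul]
    ring

theorem exists_rest (μ : Measure ℝ) [IsProbabilityMeasure μ] (t : ℝ) (j : ℕ) :
    ∃ ρ : Measure ℝ, IsProbabilityMeasure ρ ∧
      ∀ x, charFun ρ x = ∏ r ∈ Finset.range j, charFun μ (t ^ (r + 1) * x) := by
  induction j with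
  | zero =>
    refine ⟨Measure.dirac 0, inferInstance, fun x => ?_⟩
    simp
  | succ j ih =>
    obtain ⟨ρ, hρ, h⟩ := ih
    have : IsProbabilityMeasure (μ.map (t ^ (j + 1) * ·)) :=
      Measure.isProbabilityMeasure_map (by fun_prop)
    refine ⟨ρ ∗ μ.map (t ^ (j + 1) * ·), inferInstance, fun x => ?_⟩
    rw [charFun_conv, h, charFun_map_mul, Finset.prod_range_succ]

/-- TARGET -/
theorem pow_ac {t : ℝ} (h0 : 0 < t) (h1 : t < 1) {k : ℕ} (hk : 1 ≤ k)
    (h : nuB (t ^ k) ≪ (volume : Measure ℝ)) : nuB t ≪ (volume : Measure ℝ) := by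
  have hk0 : k ≠ 0 := by omega
  have g0 : 0 < t ^ k := by positivity
  have g1 : t ^ k < 1 := pow_lt_one₀ h0.le h1 hk0
  obtain ⟨hp, hc⟩ := nuB_char h0 h1
  obtain ⟨hp', hc'⟩ := nuB_char g0 g1
  obtain ⟨ρ, hρ, hρc⟩ := exists_rest (nuB (t ^ k)) t (k - 1)
  have key : nuB t = ρ ∗ nuB (t ^ k) := by
    refine Measure.ext_of_charFun ?_
    funext x
    rw [charFun_conv, hρc]
    have e1 : (∏ r ∈ Finset.range (k - 1), charFun (nuB (t ^ k)) (t ^ (r + 1) * x)) *
        charFun (nuB (t ^ k)) x = ∏ r ∈ Finset.range k, charFun (nuB (t ^ k)) (t ^ r * x) := by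
      obtain ⟨n, rfl⟩ : ∃ n, k = n + 1 := ⟨k - 1, by omega⟩
      rw [Finset.prod_range_succ', Nat.add_sub_cancel]
      simp
    rw [e1]
    have T1 : Tendsto (fun M : ℕ => ((Phi t (k * M) x : ℝ) : ℂ)) atTop (𝓝 (charFun (nuB t) x)) := by
      rw [charFun_nuB]
      exact (hc x).comp (tendsto_id.const_mul_atTop' (by omega))
    have T2 : Tendsto (fun M : ℕ => ((Phi t (k * M) x : ℝ) : ℂ)) atTop
        (𝓝 (∏ r ∈ Finset.range k, charFun (nuB (t ^ k)) (t ^ r * x))) := by
      have : (fun M : ℕ => ((Phi t (k * M) x : ℝ) : ℂ)) =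
          fun M : ℕ => ∏ r ∈ Finset.range k, ((Phi (t ^ k) M (t ^ r * x) : ℝ) : ℂ) := by
        funext M
        rw [Phi_mul]
        push_cast
        rfl
      rw [this]
      refine tendsto_finsetProd _ fun r _ => ?_
      rw [charFun_nuB]
      exact hc' _
    exact tendsto_nhds_unique T1 T2
  rw [key]
  exact Measure.conv_absolutelyContinuous h

end Pool.Agent.H938
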