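import Pool.Agent.H938_Salem4.R1a

set_option autoImplicit false

namespace Pool.Agent.H938

open MeasureTheory Filter Topology Set

/-- the random sum -/
noncomputable def nuB_lsc_Y (t : ℝ) (ω : ℕ → Bool) : ℝ :=
  ∑' n : ℕ, (if ω n then (1 : ℝ) else -1) * t ^ n

theorem nuB_lsc_bound (ω : ℕ → Bool) (n : ℕ) {t r : ℝ} (h0 : 0 ≤ t) (hr : t ≤ r) :
    ‖(if ω n then (1 : ℝ) else -1) * t ^ n‖ ≤ r ^ n := by
  rw [norm_mul]
  have h1 : ‖(if ω n then (1 : ℝ) else -1)‖ = 1 := by split_ifs <;> simp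
  rw [h1, one_mul, norm_pow, Real.norm_of_nonneg h0]
  exact pow_le_pow_left₀ h0 hr n

theorem nuB_lsc_cont (ω : ℕ → Bool) : ContinuousOn (fun t => nuB_lsc_Y t ω) (Ioo 0 1) := by
  intro t0 ht0
  obtain ⟨r, hr1, hr2⟩ := exists_between ht0.2
  have h1 : ContinuousOn (fun t => nuB_lsc_Y t ω) (Ioo 0 r) := by
    unfold nuB_lsc_Y
    refine continuousOn_tsum (u := fun n => r ^ n) ?_ (summable_geometric_of_lt_one (by linarith [ht0.1]) hr2) ?_
    · intro n
      fun_prop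
    · intro n t ht
      exact nuB_lsc_bound ω n ht.1.le ht.2.le
  have h2 : ContinuousAt (fun t => nuB_lsc_Y t ω) t0 := h1.continuousAt (isOpen_Ioo.mem_nhds ⟨ht0.1, hr1⟩)
  exact h2.continuousWithinAt

theorem nuB_lsc_meas {t : ℝ} (ht : t ∈ Ioo (0 : ℝ) 1) : Measurable (nuB_lsc_Y t) := by
  have hsum : ∀ ω : ℕ → Bool, Summable (fun n : ℕ => (if ω n then (1 : ℝ) else -1) * t ^ n) := fun ω =>
    Summable.of_norm_bounded (summable_geometric_of_lt_one ht.1.le ht.2) (fun n => nuB_lsc_bound ω n ht.1.le le_rfl)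
  have h1 : ∀ ω : ℕ → Bool, Tendsto (fun N : ℕ => ∑ n ∈ Finset.range N, (if ω n then (1 : ℝ) else -1) * t ^ n) atTop
      (𝓝 (nuB_lsc_Y t ω)) := fun ω => (hsum ω).hasSum.tendsto_sum_nat
  refine measurable_of_tendsto_metrizable (f := fun (N : ℕ) (ω : ℕ → Bool) =>
    ∑ n ∈ Finset.range N, (if ω n then (1 : ℝ) else -1) * t ^ n) ?_ (tendsto_pi_nhds.2 h1)
  intro N
  refine Finset.measurable_sum _ fun n _ => ?_
  refine Measurable.mul_const ?_ _
  have h2 : MeasurableSet {ω : ℕ → Bool | ω n = true} :=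
    measurableSet_eq_fun (measurable_pi_apply n) measurable_const
  exact Measurable.ite h2 measurable_const measurable_const

/-- TARGET -/
theorem nuB_lsc {U : Set ℝ} (hU : IsOpen U) (c : ENNReal) :
    IsOpen {t : ℝ | t ∈ Ioo (0 : ℝ) 1 ∧ c < nuB t U} := by
  set P := Measure.infinitePi (fun _ : ℕ => (PMF.uniformOfFintype Bool).toMeasure) with hP
  have hnu : ∀ t ∈ Ioo (0 : ℝ) 1, nuB t U = ∫⁻ ω, U.indicator (fun _ => (1 : ENNReal)) (nuB_lsc_Y t ω) ∂P := by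
    intro t ht
    have h1 : nuB t U = P (nuB_lsc_Y t ⁻¹' U) := Measure.map_apply (nuB_lsc_meas ht) hU.measurableSet
    rw [h1, ← lintegral_indicator_one ((nuB_lsc_meas ht) hU.measurableSet)]
    rfl
  rw [isOpen_iff_mem_nhds]
  rintro t0 ⟨ht0, hc⟩
  by_contra hnot
  have hfr : ∃ᶠ t in 𝓝 t0, ¬ (t ∈ Ioo (0 : ℝ) 1 ∧ c < nuB t U) := not_eventually.1 hnot
  obtain ⟨ns, hns, hns2⟩ := exists_seq_forall_of_frequently hfr
  have hev : ∀ᶠ n in atTop, ns n ∈ Ioo (0 : ℝ) 1 := hns (isOpen_Ioo.mem_nhds ht0)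
  obtain ⟨N, hN⟩ := eventually_atTop.1 hev
  have hts : Tendsto (fun n => ns (n + N)) atTop (𝓝 t0) := (tendsto_add_atTop_iff_nat N).2 hns
  have hmem : ∀ n, ns (n + N) ∈ Ioo (0 : ℝ) 1 := fun n => hN _ (Nat.le_add_left _ _)
  have hle : ∀ n, nuB (ns (n + N)) U ≤ c := by
    intro n
    by_contra h
    exact hns2 (n + N) ⟨hmem n, not_le.1 h⟩
  have hfm : ∀ n, Measurable (fun ω => U.indicator (fun _ => (1 : ENNReal)) (nuB_lsc_Y (ns (n + N)) ω)) := fun n =>
    (measurable_const.indicator hU.measurableSet).comp (nuB_lsc_meas (hmem n))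
  have hF := lintegral_liminf_le (μ := P) (u := atTop) hfm
  have hpt : ∀ ω, U.indicator (fun _ => (1 : ENNReal)) (nuB_lsc_Y t0 ω) ≤
      liminf (fun n => U.indicator (fun _ => (1 : ENNReal)) (nuB_lsc_Y (ns (n + N)) ω)) atTop := by
    intro ω
    by_cases h : nuB_lsc_Y t0 ω ∈ U
    · have h1 : Tendsto (fun n => nuB_lsc_Y (ns (n + N)) ω) atTop (𝓝 (nuB_lsc_Y t0 ω)) := by
        have h2 : ContinuousAt (fun t => nuB_lsc_Y t ω) t0 :=
          (nuB_lsc_cont ω).continuousAt (isOpen_Ioo.mem_nhds ht0)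
        exact h2.tendsto.comp hts
      have h3 : ∀ᶠ n in atTop, nuB_lsc_Y (ns (n + N)) ω ∈ U := h1 (hU.mem_nhds h)
      have h4 : Tendsto (fun n => U.indicator (fun _ => (1 : ENNReal)) (nuB_lsc_Y (ns (n + N)) ω)) atTop (𝓝 1) := by
        refine tendsto_const_nhds.congr' ?_
        filter_upwards [h3] with n hn
        rw [Set.indicator_of_mem hn]
      rw [h4.liminf_eq, Set.indicator_of_mem h]
    · rw [Set.indicator_of_notMem h]
      exact bot_le
  have h5 : nuB t0 U ≤ c := by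
    rw [hnu t0 ht0]
    calc ∫⁻ ω, U.indicator (fun _ => (1 : ENNReal)) (nuB_lsc_Y t0 ω) ∂P
        ≤ ∫⁻ ω, liminf (fun n => U.indicator (fun _ => (1 : ENNReal)) (nuB_lsc_Y (ns (n + N)) ω)) atTop ∂P :=
          lintegral_mono hpt
      _ ≤ liminf (fun n => ∫⁻ ω, U.indicator (fun _ => (1 : ENNReal)) (nuB_lsc_Y (ns (n + N)) ω) ∂P) atTop := hF
      _ ≤ c := by
          refine Filter.liminf_le_of_frequently_le' (Frequently.of_forall fun n => ?_)
          rw [← hnu _ (hmem n)]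
          exact hle n
  exact absurd hc (not_lt.2 h5)

end Pool.Agent.H938
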