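import Pool.Agent.H938_Salem4.Z1
import Pool.Agent.H938_Salem4.Z3

set_option autoImplicit false

namespace Pool.Agent.H938

open MeasureTheory Filter Topology Set

/-- TARGET -/
theorem exc_gdelta : IsGδ {t : ℝ | t ∈ Ioo (0 : ℝ) 1 ∧ ¬ nuB t ≪ (volume : Measure ℝ)} := by
  have key : {t : ℝ | t ∈ Ioo (0 : ℝ) 1 ∧ ¬ nuB t ≪ (volume : Measure ℝ)} =
      ⋂ k : ℕ, ⋃ U : {U : Set ℝ // IsOpen U ∧ volume U < ENNReal.ofReal (1 / ((k : ℝ) + 1))},
        {t : ℝ | t ∈ Ioo (0 : ℝ) 1 ∧ (1 / 2 : ENNReal) < nuB t U.1} := by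
    ext t
    constructor
    · rintro ⟨ht, hac⟩
      have hprob : IsProbabilityMeasure (nuB t) := (nuB_char ht.1 ht.2).1
      have hsing : nuB t ⟂ₘ (volume : Measure ℝ) := (pure_type ht.1 ht.2).resolve_left hac
      obtain ⟨s, hs, h1, h2⟩ := hsing
      rw [mem_iInter]
      intro k
      have hpos : (volume : Measure ℝ) sᶜ < ENNReal.ofReal (1 / ((k : ℝ) + 1)) := by
        rw [h2]
        exact ENNReal.ofReal_pos.2 (by positivity)
      obtain ⟨U, hsU, hU, hvU⟩ := Set.exists_isOpen_lt_of_lt sᶜ _ hpos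
      rw [mem_iUnion]
      refine ⟨⟨U, hU, hvU⟩, ht, ?_⟩
      have h3 : nuB t sᶜ = 1 := by
        rw [prob_compl_eq_one_iff hs]; exact h1
      calc (1 / 2 : ENNReal) < 1 := by
            rw [one_div]
            exact ENNReal.inv_lt_one.2 (by norm_num)
        _ = nuB t sᶜ := h3.symm
        _ ≤ nuB t U := measure_mono hsU
    · intro ht
      rw [mem_iInter] at ht
      have ht0 := ht 0
      rw [mem_iUnion] at ht0
      obtain ⟨_, htI, _⟩ := ht0
      refine ⟨htI, fun hac => ?_⟩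
      have hprob : IsProbabilityMeasure (nuB t) := (nuB_char htI.1 htI.2).1
      have hfin : ∫⁻ x, (nuB t).rnDeriv volume x ≠ ⊤ :=
        (Measure.lintegral_rnDeriv_lt_top (nuB t) volume).ne
      obtain ⟨δ, hδ, hδ'⟩ := exists_pos_setLIntegral_lt_of_measure_lt hfin
        (ε := 1 / 2) (by norm_num)
      obtain ⟨k, hk⟩ : ∃ k : ℕ, ENNReal.ofReal (1 / ((k : ℝ) + 1)) < δ := by
        have h1 : Tendsto (fun k : ℕ => ENNReal.ofReal (1 / ((k : ℝ) + 1))) atTop
            (𝓝 (ENNReal.ofReal 0)) :=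
          ENNReal.tendsto_ofReal tendsto_one_div_add_atTop_nhds_zero_nat
        rw [ENNReal.ofReal_zero] at h1
        exact (h1.eventually_lt_const hδ).exists
      have htk := ht k
      rw [mem_iUnion] at htk
      obtain ⟨⟨U, hU, hvU⟩, _, hnu⟩ := htk
      have h2 := hδ' U (hvU.trans hk)
      have h3 : nuB t U = ∫⁻ x in U, (nuB t).rnDeriv volume x := by
        conv_lhs => rw [← Measure.withDensity_rnDeriv_eq (nuB t) volume hac]
        rw [withDensity_apply _ hU.measurableSet]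
      rw [← h3] at h2
      exact lt_asymm h2 hnu
  rw [key]
  refine IsGδ.iInter fun k => IsOpen.isGδ ?_
  exact isOpen_iUnion fun U => nuB_lsc U.2.1 _

end Pool.Agent.H938
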