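import Pool.Agent.H938_Salem4.Z2
import Pool.Agent.H938_Salem4.Z4

set_option autoImplicit false

namespace Pool.Agent.H938

open MeasureTheory Filter Topology Set

/-- TARGET -/
theorem dichotomy :
    (∃ t0 : ℝ, t0 < 1 ∧ ∀ t : ℝ, t0 < t → t < 1 → nuB t ≪ (volume : Measure ℝ)) ∨
    (IsGδ {t : ℝ | t ∈ Ioo (1 / 2 : ℝ) 1 ∧ ¬ nuB t ≪ (volume : Measure ℝ)} ∧
      Ioo (1 / 2 : ℝ) 1 ⊆ closure {t : ℝ | t ∈ Ioo (1 / 2 : ℝ) 1 ∧ ¬ nuB t ≪ (volume : Measure ℝ)} ∧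
      ¬ {t : ℝ | t ∈ Ioo (1 / 2 : ℝ) 1 ∧ ¬ nuB t ≪ (volume : Measure ℝ)}.Countable) := by
  have hG : IsGδ {t : ℝ | t ∈ Ioo (1 / 2 : ℝ) 1 ∧ ¬ nuB t ≪ (volume : Measure ℝ)} := by
    have h1 : {t : ℝ | t ∈ Ioo (1 / 2 : ℝ) 1 ∧ ¬ nuB t ≪ (volume : Measure ℝ)} =
        Ioo (1 / 2 : ℝ) 1 ∩ {t : ℝ | t ∈ Ioo (0 : ℝ) 1 ∧ ¬ nuB t ≪ (volume : Measure ℝ)} := by
      ext t
      simp only [mem_setOf_eq, mem_inter_iff, mem_Ioo]
      constructor
      · rintro ⟨⟨ha, hb⟩, hc⟩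
        exact ⟨⟨ha, hb⟩, ⟨by linarith, hb⟩, hc⟩
      · rintro ⟨⟨ha, hb⟩, _, hc⟩
        exact ⟨⟨ha, hb⟩, hc⟩
    rw [h1]
    exact isOpen_Ioo.isGδ.inter exc_gdelta
  set E : Set ℝ := {t : ℝ | t ∈ Ioo (1 / 2 : ℝ) 1 ∧ ¬ nuB t ≪ (volume : Measure ℝ)} with hE
  by_cases hd : Ioo (1 / 2 : ℝ) 1 ⊆ closure E
  · right
    refine ⟨hG, hd, ?_⟩
    intro hc
    have hA : IsGδ (E ∪ (Iio (1 / 2 : ℝ) ∪ Ioi 1)) :=
      hG.union (isOpen_Iio.union isOpen_Ioi).isGδ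
    have hAd : Dense (E ∪ (Iio (1 / 2 : ℝ) ∪ Ioi 1)) := by
      intro x
      rw [closure_union, closure_union, closure_Iio, closure_Ioi]
      by_cases h1 : x ≤ 1 / 2
      · exact Or.inr (Or.inl h1)
      · by_cases h2 : 1 ≤ x
        · exact Or.inr (Or.inr h2)
        · exact Or.inl (hd ⟨not_le.mp h1, not_le.mp h2⟩)
    have hB : IsGδ Eᶜ := hc.isGδ_compl
    have hBd : Dense Eᶜ := hc.dense_compl ℝ
    have hI : Dense ((E ∪ (Iio (1 / 2 : ℝ) ∪ Ioi 1)) ∩ Eᶜ) := hAd.inter_of_Gδ hA hB hBd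
    obtain ⟨x, hx1, hx2⟩ := hI.inter_open_nonempty (Ioo (1 / 2 : ℝ) 1) isOpen_Ioo
      ⟨3 / 4, by norm_num, by norm_num⟩
    rcases hx2.1 with h | h | h
    · exact hx2.2 h
    · exact absurd hx1.1 (not_lt.mpr (le_of_lt h))
    · exact absurd hx1.2 (not_lt.mpr (le_of_lt h))
  · left
    rw [not_subset] at hd
    obtain ⟨x, hx, hxE⟩ := hd
    rw [Metric.mem_closure_iff] at hxE
    push Not at hxE
    obtain ⟨ε, hε, hxε⟩ := hxE
    obtain ⟨a, ha⟩ : ∃ a : ℝ, a = max (1 / 2) (x - ε) := ⟨_, rfl⟩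
    obtain ⟨b, hb⟩ : ∃ b : ℝ, b = min 1 (x + ε) := ⟨_, rfl⟩
    have ha0 : 1 / 2 ≤ a := ha ▸ le_max_left _ _
    have ha1 : x - ε ≤ a := ha ▸ le_max_right _ _
    have hb0 : b ≤ 1 := hb ▸ min_le_left _ _
    have hb1 : b ≤ x + ε := hb ▸ min_le_right _ _
    have hax : a < x := by
      rw [ha]; exact max_lt hx.1 (by linarith)
    have hxb : x < b := by
      rw [hb]; exact lt_min hx.2 (by linarith)
    have hbpos : 0 < b := by linarith
    have hac : ∀ s : ℝ, a < s → s < b → nuB s ≪ (volume : Measure ℝ) := by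
      intro s hs1 hs2
      by_contra hcon
      have hsE : s ∈ E := ⟨⟨by linarith, by linarith⟩, hcon⟩
      have := hxε s hsE
      rw [Real.dist_eq] at this
      have h2 : |x - s| < ε := by
        rw [abs_lt]; constructor <;> linarith
      linarith
    refine ⟨a / b, ?_, ?_⟩
    · rw [div_lt_one hbpos]; linarith
    · intro t ht1 ht2
      have htpos : 0 < t := by
        have : 0 < a / b := by positivity
        linarith
      have hab : a < t * b := by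
        rwa [div_lt_iff₀ hbpos] at ht1
      have hex : ∃ n : ℕ, t ^ n < b := exists_pow_lt_of_lt_one hbpos ht2
      classical
      obtain ⟨k, hk, hmin⟩ : ∃ k : ℕ, t ^ k < b ∧ ∀ m, m < k → b ≤ t ^ m :=
        ⟨Nat.find hex, Nat.find_spec hex, fun m hm => not_lt.mp (Nat.find_min hex hm)⟩
      have hk1 : 1 ≤ k := by
        rcases Nat.eq_zero_or_pos k with h | h
        · subst h
          simp at hk
          linarith
        · exact h
      have hk2 : a < t ^ k := by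
        obtain ⟨j, rfl⟩ : ∃ j, k = j + 1 := ⟨k - 1, by omega⟩
        have h3 := hmin j (by omega)
        rw [pow_succ]
        nlinarith
      exact pow_ac htpos ht2 hk1 (hac _ hk2 hk)

end Pool.Agent.H938
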